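import Pool.Agent.helper55.EV.Defs
import Pool.Agent.helper46.FJ3.Colim

set_option autoImplicit false

/-!
# Retractions of even Artin groups
-/

namespace Pool.Agent.helper55.EV

open Pool.Agent.helper34.FJ2 Pool.Agent.helper34.FJ3
open Pool.Agent.helper36.LT (Artin gen alt artinRels)
open Pool.Agent.helper50.LT (alt_map gen_rel lift lift_gen artin_hom_ext)
open Pool.Agent.helper46.FJ3 (restr inc inc_gen)

theorem alt_one {G : Type} [Group G] (a : G) (k : ℕ) : alt a 1 (2 * k) = a ^ k ∧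
    alt 1 a (2 * k) = a ^ k := by
  induction k with
  | zero => simp [alt]
  | succ k ih =>
    have h : 2 * (k + 1) = 2 * k + 1 + 1 := by ring
    rw [h]
    refine ⟨?_, ?_⟩
    · show a * (1 * alt a 1 (2 * k)) = _
      rw [ih.1, one_mul, pow_succ']
    · show 1 * (a * alt 1 a (2 * k)) = _
      rw [ih.2, one_mul, pow_succ']

section kill

variable {S : Type} (M : CoxeterMatrix S) {G : Type} [Group G]

open Classical in
/-- the homomorphism with given values on the generators in `T` which kills the others -/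
noncomputable def kill (hM : Evn M) (T : Set S) (f : S → G)
    (hf : ∀ s ∈ T, ∀ t ∈ T, alt (f s) (f t) (M.M s t) = alt (f t) (f s) (M.M s t)) :
    Artin M →* G :=
  lift M (fun s => if s ∈ T then f s else 1) (by
    intro s t
    by_cases hs : s ∈ T <;> by_cases ht : t ∈ T
    · simp only [if_pos hs, if_pos ht]
      exact hf s hs t ht
    · simp only [if_pos hs, if_neg ht]
      have hst : s ≠ t := fun h => ht (h ▸ hs)
      obtain ⟨k, hk⟩ := hM s t hst
      rw [hk, ← two_mul, (alt_one _ _).1, (alt_one _ _).2]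
    · simp only [if_neg hs, if_pos ht]
      have hst : s ≠ t := fun h => hs (h ▸ ht)
      obtain ⟨k, hk⟩ := hM s t hst
      rw [hk, ← two_mul, (alt_one _ _).1, (alt_one _ _).2]
    · simp only [if_neg hs, if_neg ht])

variable (hM : Evn M) (T : Set S) (f : S → G)
    (hf : ∀ s ∈ T, ∀ t ∈ T, alt (f s) (f t) (M.M s t) = alt (f t) (f s) (M.M s t))

theorem kill_gen {s : S} (hs : s ∈ T) : kill M hM T f hf (gen M s) = f s := by
  unfold kill
  rw [lift_gen]
  exact if_pos hs

theorem kill_gen' {s : S} (hs : s ∉ T) : kill M hM T f hf (gen M s) = 1 := by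
  unfold kill
  rw [lift_gen]
  exact if_neg hs

end kill

section ret

variable {S : Type} (M : CoxeterMatrix S)

theorem sg_mono {T U : Set S} (h : T ⊆ U) : sg M T ≤ sg M U :=
  Subgroup.closure_mono (Set.image_mono h)

theorem gen_mem {T : Set S} {s : S} (h : s ∈ T) : gen M s ∈ sg M T :=
  Subgroup.subset_closure ⟨s, h, rfl⟩

theorem map_mem {G : Type} [Group G] (f : Artin M →* G) {T : Set S} {K : Subgroup G}
    (h : ∀ s ∈ T, f (gen M s) ∈ K) {g : Artin M} (hg : g ∈ sg M T) : f g ∈ K := by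
  have h1 : sg M T ≤ K.comap f := by
    unfold sg
    rw [Subgroup.closure_le]
    rintro _ ⟨s, hs, rfl⟩
    exact h s hs
  exact h1 hg

theorem eq_on {G : Type} [Group G] (f f' : Artin M →* G) {T : Set S}
    (h : ∀ s ∈ T, f (gen M s) = f' (gen M s)) {g : Artin M} (hg : g ∈ sg M T) : f g = f' g := by
  unfold sg at hg
  induction hg using Subgroup.closure_induction with
  | mem x hx =>
    obtain ⟨s, hs, rfl⟩ := hx
    exact h s hs
  | one => rw [map_one, map_one]
  | mul x y _ _ hx hy => rw [map_mul, map_mul, hx, hy]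
  | inv x _ hx => rw [map_inv, map_inv, hx]

/-- the retraction to the subgroup generated by `T` -/
noncomputable def ret (hM : Evn M) (T : Set S) : Artin M →* Artin M :=
  kill M hM T (gen M) (fun s _ t _ => gen_rel M s t)

variable (hM : Evn M)

theorem ret_gen {T : Set S} {s : S} (hs : s ∈ T) : ret M hM T (gen M s) = gen M s :=
  kill_gen M hM T _ _ hs

theorem ret_gen' {T : Set S} {s : S} (hs : s ∉ T) : ret M hM T (gen M s) = 1 :=
  kill_gen' M hM T _ _ hs

theorem ret_fix {T : Set S} {g : Artin M} (hg : g ∈ sg M T) : ret M hM T g = g :=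
  eq_on M (ret M hM T) (MonoidHom.id _) (fun _ hs => ret_gen M hM hs) hg

theorem ret_mem (T : Set S) {U : Set S} {g : Artin M} (hg : g ∈ sg M U) :
    ret M hM T g ∈ sg M (T ∩ U) := by
  refine map_mem M (ret M hM T) ?_ hg
  intro s hs
  by_cases hT : s ∈ T
  · rw [ret_gen M hM hT]
    exact gen_mem M ⟨hT, hs⟩
  · rw [ret_gen' M hM hT]
    exact one_mem _

include hM in
theorem sg_inf (T U : Set S) : sg M T ⊓ sg M U = sg M (T ∩ U) := by
  apply le_antisymm
  · rintro g ⟨h1, h2⟩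
    rw [← ret_fix M hM h1]
    exact ret_mem M hM T h2
  · exact le_inf (sg_mono M Set.inter_subset_left) (sg_mono M Set.inter_subset_right)

theorem sg_univ : sg M Set.univ = ⊤ := by
  unfold sg
  rw [Set.image_univ]
  exact PresentedGroup.closure_range_of _

end ret

section rt

variable {S : Type} (M : CoxeterMatrix S) (hM : Evn M) (F : Finset S)

theorem evn_restr (hM : Evn M) : Evn (restr M F) := fun s t h =>
  hM s.1 t.1 fun h' => h (Subtype.ext h')

open Classical in
/-- the retraction to the Artin group of a subset -/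
noncomputable def rt : Artin M →* Artin (restr M F) :=
  kill M hM (F : Set S) (fun s => if h : s ∈ F then gen (restr M F) ⟨s, h⟩ else 1) (by
    intro s hs t ht
    have hs' : s ∈ F := hs
    have ht' : t ∈ F := ht
    simp only [dif_pos hs', dif_pos ht']
    exact gen_rel (restr M F) ⟨s, hs'⟩ ⟨t, ht'⟩)

theorem rt_gen {s : S} (hs : s ∈ F) : rt M hM F (gen M s) = gen (restr M F) ⟨s, hs⟩ := by
  unfold rt
  rw [kill_gen M hM (F : Set S) _ _ hs]
  exact dif_pos hs

theorem rt_gen' {s : S} (hs : s ∉ F) : rt M hM F (gen M s) = 1 :=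
  kill_gen' M hM _ _ _ hs

theorem rt_inc (x : Artin (restr M F)) : rt M hM F (inc M F x) = x := by
  have h : (rt M hM F).comp (inc M F) = MonoidHom.id _ := by
    apply artin_hom_ext
    rintro ⟨s, hs⟩
    rw [MonoidHom.comp_apply, inc_gen, rt_gen M hM F hs]
    rfl
  exact DFunLike.congr_fun h x

theorem inc_rt {g : Artin M} (hg : g ∈ sg M (F : Set S)) : inc M F (rt M hM F g) = g := by
  refine eq_on M ((inc M F).comp (rt M hM F)) (MonoidHom.id _) ?_ hg
  intro s hs
  rw [MonoidHom.comp_apply, rt_gen M hM F hs, inc_gen]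
  rfl

theorem inc_rt_ret (g : Artin M) : inc M F (rt M hM F g) = ret M hM F g := by
  have h : (inc M F).comp (rt M hM F) = ret M hM F := by
    apply artin_hom_ext
    intro s
    by_cases hs : s ∈ F
    · rw [MonoidHom.comp_apply, rt_gen M hM F hs, inc_gen, ret_gen M hM hs]
    · rw [MonoidHom.comp_apply, rt_gen' M hM F hs, map_one, ret_gen' M hM hs]
  exact DFunLike.congr_fun h g

theorem rt_mem {U : Set S} {g : Artin M} (hg : g ∈ sg M U) :
    rt M hM F g ∈ sg (restr M F) (Subtype.val ⁻¹' U) := by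
  refine map_mem M (rt M hM F) ?_ hg
  intro s hs
  by_cases hF : s ∈ F
  · rw [rt_gen M hM F hF]
    exact gen_mem (restr M F) hs
  · rw [rt_gen' M hM F hF]
    exact one_mem _

theorem inc_mem {U : Set F} {x : Artin (restr M F)} (hx : x ∈ sg (restr M F) U) :
    inc M F x ∈ sg M (Subtype.val '' U) := by
  refine map_mem (restr M F) (inc M F) ?_ hx
  rintro ⟨s, hs⟩ hU
  rw [inc_gen]
  exact gen_mem M ⟨_, hU, rfl⟩

end rt

/-! ### short alternating relations -/

theorem G8_hom {G K : Type} [Group G] [Group K] (r : G →* K) {A B : Subgroup G}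
    {A' B' : Subgroup K} (hA : ∀ a ∈ A, r a ∈ A') (hB : ∀ b ∈ B, r b ∈ B')
    (hAB : ∀ a ∈ A, r a ∈ B' → a ∈ B) (hBA : ∀ b ∈ B, r b ∈ A' → b ∈ A) (h : G8 A' B') :
    G8 A B := by
  refine ⟨?_, ?_⟩
  · intro a₁ h1 b₁ h2 a₂ h3 b₂ h4 he
    have he' := congrArg r he
    simp only [map_mul, map_one] at he'
    rcases h.1 _ (hA _ h1) _ (hB _ h2) _ (hA _ h3) _ (hB _ h4) he' with h5 | h5 | h5 | h5
    · exact Or.inl (hAB _ h1 h5)
    · exact Or.inr (Or.inl (hBA _ h2 h5))
    · exact Or.inr (Or.inr (Or.inl (hAB _ h3 h5)))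
    · exact Or.inr (Or.inr (Or.inr (hBA _ h4 h5)))
  · intro a₁ h1 b₁ h2 a₂ h3 b₂ h4 a₃ h5 b₃ h6 he
    have he' := congrArg r he
    simp only [map_mul, map_one] at he'
    rcases h.2 _ (hA _ h1) _ (hB _ h2) _ (hA _ h3) _ (hB _ h4) _ (hA _ h5) _ (hB _ h6) he' with
      h7 | h7 | h7 | h7 | h7 | h7
    · exact Or.inl (hAB _ h1 h7)
    · exact Or.inr (Or.inl (hBA _ h2 h7))
    · exact Or.inr (Or.inr (Or.inl (hAB _ h3 h7)))
    · exact Or.inr (Or.inr (Or.inr (Or.inl (hBA _ h4 h7))))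
    · exact Or.inr (Or.inr (Or.inr (Or.inr (Or.inl (hAB _ h5 h7)))))
    · exact Or.inr (Or.inr (Or.inr (Or.inr (Or.inr (hBA _ h6 h7)))))

theorem G8_symm' {G : Type} [Group G] {A B : Subgroup G} (h : G8 A B) : G8 B A := by
  refine ⟨?_, ?_⟩
  · intro b₁ h1 a₁ h2 b₂ h3 a₂ h4 he
    have he' : a₁ * b₂ * a₂ * b₁ = 1 := by
      have h5 : b₁ * (a₁ * b₂ * a₂) = 1 := by rw [← he]; group
      rw [mul_eq_one_iff_eq_inv] at h5
      rw [h5]; group
    rcases h.1 _ h2 _ h3 _ h4 _ h1 he' with h5 | h5 | h5 | h5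
    · exact Or.inr (Or.inl h5)
    · exact Or.inr (Or.inr (Or.inl h5))
    · exact Or.inr (Or.inr (Or.inr h5))
    · exact Or.inl h5
  · intro b₁ h1 a₁ h2 b₂ h3 a₂ h4 b₃ h5 a₃ h6 he
    have he' : a₁ * b₂ * a₂ * b₃ * a₃ * b₁ = 1 := by
      have h5 : b₁ * (a₁ * b₂ * a₂ * b₃ * a₃) = 1 := by rw [← he]; group
      rw [mul_eq_one_iff_eq_inv] at h5
      rw [h5]; group
    rcases h.2 _ h2 _ h3 _ h4 _ h5 _ h6 _ h1 he' with h7 | h7 | h7 | h7 | h7 | h7
    · exact Or.inr (Or.inl h7)
    · exact Or.inr (Or.inr (Or.inl h7))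
    · exact Or.inr (Or.inr (Or.inr (Or.inl h7)))
    · exact Or.inr (Or.inr (Or.inr (Or.inr (Or.inl h7))))
    · exact Or.inr (Or.inr (Or.inr (Or.inr (Or.inr h7))))
    · exact Or.inl h7

theorem G8_restr {S : Type} (M : CoxeterMatrix S) (hM : Evn M) (F : Finset S) (i j : S)
    (hi : i ∈ F) (hj : j ∈ F)
    (h : G8 (sg (restr M F) {⟨i, hi⟩}ᶜ) (sg (restr M F) {⟨j, hj⟩}ᶜ)) :
    G8 (sg M ((F : Set S) \ {i})) (sg M ((F : Set S) \ {j})) := by
  have key : ∀ (i : S) (hi : i ∈ F) (g : Artin M), g ∈ sg M ((F : Set S) \ {i}) →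
      rt M hM F g ∈ sg (restr M F) {⟨i, hi⟩}ᶜ := by
    intro i hi g hg
    have h1 := rt_mem M hM F hg
    refine sg_mono _ ?_ h1
    rintro ⟨s, hs⟩ h2 h3
    have h4 : s = i := congrArg Subtype.val h3
    exact h2.2 h4
  have key' : ∀ (j : S) (hj : j ∈ F) (g : Artin M), g ∈ sg M (F : Set S) →
      rt M hM F g ∈ sg (restr M F) {⟨j, hj⟩}ᶜ → g ∈ sg M ((F : Set S) \ {j}) := by
    intro j hj g hg hr
    rw [← inc_rt M hM F hg]
    refine sg_mono _ ?_ (inc_mem M F hr)
    rintro _ ⟨⟨s, hs⟩, h2, rfl⟩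
    refine ⟨hs, fun h3 => h2 ?_⟩
    exact Subtype.ext h3
  refine G8_hom (rt M hM F) (key i hi) (key j hj) ?_ ?_ h
  · intro a ha hr
    exact key' j hj a (sg_mono M Set.sdiff_subset ha) hr
  · intro b hb hr
    exact key' i hi b (sg_mono M Set.sdiff_subset hb) hr

end Pool.Agent.helper55.EV
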