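import Pool.Agent.helper55.EV.Vl1

set_option autoImplicit false

/-!
# EAG-VL2: van der Lek's theorem
-/

namespace Pool.Agent.helper55.EV

open Pool.Agent.helper36.LT (Artin gen alt artinRels)
open Pool.Agent.helper46.FJ3 (restr inc inc_gen)
open Pool.Agent.helper50.LT (lift lift_gen gen_rel)

/-! ### Simple reflections in parabolic subgroups -/

section par

variable {S : Type} [Fintype S] [DecidableEq S] (M : CoxeterMatrix S)

theorem VL2_supp {U : Set S} {u : M.Group}
    (hu : u ∈ Subgroup.closure (M.toCoxeterSystem.simple '' U)) :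
    ∀ (v : S → ℝ) (b : S), b ∉ U → CxA.rho M.toCoxeterSystem u v b = v b := by
  induction hu using Subgroup.closure_induction with
  | mem x hx =>
    obtain ⟨s, hs, rfl⟩ := hx
    intro v b hb
    have hbs : b ≠ s := fun h => hb (h ▸ hs)
    rw [CxA.rho_simple, CxA.sig_eq, Pi.add_apply, Pi.smul_apply]
    simp [CxA.al, hbs]
  | one =>
    intro v b hb
    rw [CxA.rho_one_apply]
  | mul x y _ _ h1 h2 =>
    intro v b hb
    rw [CxA.rho_mul_apply, h1 _ b hb, h2 _ b hb]
  | inv x _ h1 =>
    intro v b hb
    have := h1 (CxA.rho M.toCoxeterSystem x⁻¹ v) b hb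
    rw [CxA.rho_apply_inv] at this
    exact this.symm

theorem VL2_simple_mem {U : Set S} {t : S}
    (ht : M.toCoxeterSystem.simple t ∈ Subgroup.closure (M.toCoxeterSystem.simple '' U)) :
    t ∈ U := by
  by_contra hU
  have h := VL2_supp M ht (CxA.al ℝ t) t hU
  rw [CxA.rho_simple, CxA.sig_al_self] at h
  simp [CxA.al] at h
  norm_num at h

end par

/-! ### The machine as a permutation -/

section perm

variable {S : Type} [Fintype S] [DecidableEq S] (M : CoxeterMatrix S) (X : Set S)
  {K : Type} [Group K] (f : S → K)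

theorem VL2_out_mul {w : M.Group} {s : S} (h : ¬ ∃ t, Out M X w s t) :
    ¬ ∃ t, Out M X (w * M.toCoxeterSystem.simple s) s t := by
  rintro ⟨t, ht, e⟩
  apply h
  refine ⟨t, ht, ?_⟩
  rw [← mul_assoc] at e
  exact mul_right_cancel e

theorem VL2_vstep_inv (g : S → K) (hfg : ∀ t, f t * g t = 1) (p : ERed M X × K) (s : S) :
    vstep M X g (vstep M X f p s) s = p := by
  obtain ⟨⟨w, hw⟩, y⟩ := p
  by_cases h : ∃ t, Out M X w s t
  · have h1 : vstep M X f (⟨w, hw⟩, y) s = (⟨w, hw⟩, y * f h.choose) := by
      unfold vstep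
      rw [dif_pos h]
    have h2 : vstep M X g (⟨w, hw⟩, y * f h.choose) s
        = (⟨w, hw⟩, y * f h.choose * g h.choose) := by
      unfold vstep
      rw [dif_pos h]
    rw [h1, h2, mul_assoc, hfg, mul_one]
  · have h1 : vstep M X f (⟨w, hw⟩, y) s
        = (⟨w * M.toCoxeterSystem.simple s, ered_mul M X hw h⟩, y) := by
      unfold vstep
      rw [dif_neg h]
    have h' := VL2_out_mul M X h
    rw [h1]
    have h2 : vstep M X g (⟨w * M.toCoxeterSystem.simple s, ered_mul M X hw h⟩, y) s
        = (⟨w * M.toCoxeterSystem.simple s * M.toCoxeterSystem.simple s,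
            ered_mul M X (ered_mul M X hw h) h'⟩, y) := by
      unfold vstep
      rw [dif_neg h']
    rw [h2]
    congr 1
    apply Subtype.ext
    show w * M.toCoxeterSystem.simple s * M.toCoxeterSystem.simple s = w
    rw [CoxeterSystem.simple_mul_simple_cancel_right]

/-- the permutation of the letter `s` -/
noncomputable def VL2_perm (s : S) : Equiv.Perm (ERed M X × K) where
  toFun p := vstep M X f p s
  invFun p := vstep M X (fun t => (f t)⁻¹) p s
  left_inv p := VL2_vstep_inv M X f _ (fun t => mul_inv_cancel (f t)) p s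
  right_inv p := VL2_vstep_inv M X _ f (fun t => inv_mul_cancel (f t)) p s

theorem VL2_alt_perm (n : ℕ) : ∀ (s s' : S) (p : ERed M X × K),
    (alt (MulOpposite.op (VL2_perm M X f s)) (MulOpposite.op (VL2_perm M X f s')) n).unop p
      = (CxA.altw s s' n).foldl (vstep M X f) p := by
  induction n with
  | zero => intro s s' p; rfl
  | succ n ih =>
    intro s s' p
    rw [CxA.altw_succ, List.foldl_cons, ← ih s' s]
    rfl

variable (hf : ∀ t ∈ X, ∀ t' ∈ X,
      alt (f t) (f t') (M.M t t') = alt (f t') (f t) (M.M t t'))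

include hf in
theorem VL2_rel (s s' : S) :
    alt (MulOpposite.op (VL2_perm M X f s)) (MulOpposite.op (VL2_perm M X f s')) (M.M s s')
      = alt (MulOpposite.op (VL2_perm M X f s')) (MulOpposite.op (VL2_perm M X f s))
        (M.M s s') := by
  by_cases hm : M.M s s' = 0
  · rw [hm]; rfl
  · apply MulOpposite.unop_injective
    apply Equiv.ext
    intro p
    rw [VL2_alt_perm, VL2_alt_perm]
    exact run_braid M X f hf s s' hm p

/-- the right action of the Artin group -/
noncomputable def VL2_act : Artin M →* (Equiv.Perm (ERed M X × K))ᵐᵒᵖ :=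
  lift M (fun s => MulOpposite.op (VL2_perm M X f s)) (VL2_rel M X f hf)

theorem VL2_act_gen (s : S) (p : ERed M X × K) :
    (VL2_act M X f hf (gen M s)).unop p = vstep M X f p s := by
  unfold VL2_act
  rw [lift_gen]
  rfl

theorem VL2_act_mul (g h : Artin M) (p : ERed M X × K) :
    (VL2_act M X f hf (g * h)).unop p
      = (VL2_act M X f hf h).unop ((VL2_act M X f hf g).unop p) := by
  rw [map_mul]
  rfl

theorem VL2_act_one (p : ERed M X × K) : (VL2_act M X f hf 1).unop p = p := by
  rw [map_one]
  rfl

theorem VL2_act_inv (g : Artin M) (p : ERed M X × K) :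
    (VL2_act M X f hf g⁻¹).unop ((VL2_act M X f hf g).unop p) = p := by
  rw [← VL2_act_mul, mul_inv_cancel, VL2_act_one]

theorem VL2_act_inv' (g : Artin M) (p : ERed M X × K) :
    (VL2_act M X f hf g).unop ((VL2_act M X f hf g⁻¹).unop p) = p := by
  rw [← VL2_act_mul, inv_mul_cancel, VL2_act_one]

/-- the trivial state -/
def VL2_one : ERed M X := ⟨1, fun t _ => M.toCoxeterSystem.not_isLeftDescent_one t⟩

theorem VL2_step_one (y : K) {s : S} (hs : s ∈ X) :
    vstep M X f (VL2_one M X, y) s = (VL2_one M X, y * f s) := by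
  have hO : Out M X 1 s s := ⟨hs, by rw [mul_one, one_mul]⟩
  have h : ∃ t, Out M X 1 s t := ⟨s, hO⟩
  have e : h.choose = s := out_uniq M X h.choose_spec hO
  have h1 : vstep M X f (VL2_one M X, y) s = (VL2_one M X, y * f h.choose) := by
    unfold vstep
    exact dif_pos h
  rw [h1, e]

end perm

/-- There is a map from an Artin group to the Artin group of a subset of the generators which is a
left inverse of the natural homomorphism and compatible with the standard subgroups (it is not a
homomorphism). -/
theorem vl {S : Type} [Finite S] (M : CoxeterMatrix S) (F : Finset S) :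
    ∃ π : Artin M → Artin (restr M F), (∀ x, π (inc M F x) = x) ∧
      ∀ (U : Set S) (g : Artin M), g ∈ sg M U → π g ∈ sg (restr M F) (Subtype.val ⁻¹' U) := by
  classical
  have : Fintype S := Fintype.ofFinite S
  let X : Set S := (F : Set S)
  let f : S → Artin (restr M F) := fun t => if h : t ∈ F then gen (restr M F) ⟨t, h⟩ else 1
  have hfX : ∀ t (h : t ∈ F), f t = gen (restr M F) ⟨t, h⟩ := fun t h => dif_pos h
  have hf : ∀ t ∈ X, ∀ t' ∈ X,
      alt (f t) (f t') (M.M t t') = alt (f t') (f t) (M.M t t') := by
    intro t ht t' ht'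
    have ht1 : t ∈ F := ht
    have ht1' : t' ∈ F := ht'
    rw [hfX t ht1, hfX t' ht1']
    exact gen_rel (restr M F) ⟨t, ht1⟩ ⟨t', ht1'⟩
  let A := VL2_act M X f hf
  refine ⟨fun g => ((A g).unop (VL2_one M X, 1)).2, ?_, ?_⟩
  · have key : ∀ x : Artin (restr M F), ∀ y : Artin (restr M F),
        (A (inc M F x)).unop (VL2_one M X, y) = (VL2_one M X, y * x) := by
      intro x
      induction x using PresentedGroup.induction_on with
      | _ z =>
        induction z using FreeGroup.induction_on with
        | C1 =>
          intro y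
          rw [map_one, map_one, mul_one]
          exact VL2_act_one M X f hf _
        | of s =>
          intro y
          obtain ⟨s, hs⟩ := s
          have h1 : inc M F (PresentedGroup.mk _ (FreeGroup.of (⟨s, hs⟩ : F))) = gen M s :=
            inc_gen M F s hs
          rw [h1]
          refine (VL2_act_gen M X f hf s _).trans ?_
          rw [VL2_step_one M X f y (s := s) hs, hfX s hs]
          rfl
        | inv_of s _ =>
          intro y
          obtain ⟨s, hs⟩ := s
          have h1 : inc M F (PresentedGroup.mk _ (FreeGroup.of (⟨s, hs⟩ : F))) = gen M s :=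
            inc_gen M F s hs
          rw [map_inv, map_inv, h1]
          have h2 := VL2_act_inv M X f hf (gen M s)
            (VL2_one M X, y * (PresentedGroup.mk _ (FreeGroup.of (⟨s, hs⟩ : F)))⁻¹)
          rw [VL2_act_gen, VL2_step_one M X f _ (s := s) hs, hfX s hs] at h2
          rw [← h2]
          congr 2
          show y = y * (gen (restr M F) ⟨s, hs⟩)⁻¹ * gen (restr M F) ⟨s, hs⟩
          rw [inv_mul_cancel_right]
        | mul a b ha hb =>
          intro y
          rw [map_mul, map_mul]
          refine (VL2_act_mul M X f hf _ _ _).trans ?_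
          rw [ha y, hb, mul_assoc]
    intro x
    show ((A (inc M F x)).unop (VL2_one M X, 1)).2 = x
    rw [key, one_mul]
  · intro U g hg
    let I : Set (ERed M X × Artin (restr M F)) := {p |
      p.1.1 ∈ Subgroup.closure (M.toCoxeterSystem.simple '' U) ∧
        p.2 ∈ sg (restr M F) (Subtype.val ⁻¹' U)}
    have step : ∀ (f' : S → Artin (restr M F)),
        (∀ t, t ∈ U → f' t ∈ sg (restr M F) (Subtype.val ⁻¹' U)) →
        ∀ s ∈ U, ∀ p ∈ I, vstep M X f' p s ∈ I := by
      intro f' hf' s hs p hp
      obtain ⟨⟨w, hw⟩, y⟩ := p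
      obtain ⟨hp1, hp2⟩ := hp
      have hsm : M.toCoxeterSystem.simple s
          ∈ Subgroup.closure (M.toCoxeterSystem.simple '' U) :=
        Subgroup.subset_closure ⟨s, hs, rfl⟩
      by_cases h : ∃ t, Out M X w s t
      · have h1 : vstep M X f' (⟨w, hw⟩, y) s = (⟨w, hw⟩, y * f' h.choose) := by
          unfold vstep
          exact dif_pos h
        rw [h1]
        refine ⟨hp1, Subgroup.mul_mem _ hp2 (hf' _ ?_)⟩
        obtain ⟨_, e⟩ := h.choose_spec
        apply VL2_simple_mem M
        have e2 : M.toCoxeterSystem.simple h.choose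
            = w * M.toCoxeterSystem.simple s * w⁻¹ := by
          rw [← e, mul_inv_cancel_right]
        rw [e2]
        exact Subgroup.mul_mem _ (Subgroup.mul_mem _ hp1 hsm) (Subgroup.inv_mem _ hp1)
      · have h1 : vstep M X f' (⟨w, hw⟩, y) s
            = (⟨w * M.toCoxeterSystem.simple s, ered_mul M X hw h⟩, y) := by
          unfold vstep
          exact dif_neg h
        rw [h1]
        exact ⟨Subgroup.mul_mem _ hp1 hsm, hp2⟩
    have hfU : ∀ t, t ∈ U → f t ∈ sg (restr M F) (Subtype.val ⁻¹' U) := by
      intro t ht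
      by_cases h : t ∈ F
      · rw [hfX t h]
        exact Subgroup.subset_closure ⟨⟨t, h⟩, ht, rfl⟩
      · have : f t = 1 := dif_neg h
        rw [this]
        exact Subgroup.one_mem _
    have hgen : ∀ s ∈ U, ∀ p, (A (gen M s)).unop p ∈ I ↔ p ∈ I := by
      intro s hs p
      have e : (A (gen M s)).unop p = vstep M X f p s := VL2_act_gen M X f hf s p
      rw [e]
      constructor
      · intro h
        have h2 := step (fun t => (f t)⁻¹) (fun t ht => Subgroup.inv_mem _ (hfU t ht)) s hs _ h
        rwa [VL2_vstep_inv M X f _ (fun t => mul_inv_cancel (f t)) p s] at h2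
      · exact step f hfU s hs p
    have hall : ∀ p, (A g).unop p ∈ I ↔ p ∈ I := by
      unfold sg at hg
      induction hg using Subgroup.closure_induction with
      | mem x hx =>
        obtain ⟨s, hs, rfl⟩ := hx
        exact hgen s hs
      | one =>
        intro p
        have : (A 1).unop p = p := VL2_act_one M X f hf p
        rw [this]
      | mul x y _ _ h1 h2 =>
        intro p
        have : (A (x * y)).unop p = (A y).unop ((A x).unop p) := VL2_act_mul M X f hf x y p
        rw [this, h2, h1]
      | inv x _ h1 =>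
        intro p
        rw [← h1]
        have : (A x).unop ((A x⁻¹).unop p) = p := VL2_act_inv' M X f hf x p
        rw [this]
    exact ((hall _).2 ⟨Subgroup.one_mem _, Subgroup.one_mem _⟩).2

end Pool.Agent.helper55.EV
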