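import Pool.Agent.helper55.EV.Alg
import Pool.Agent.helper55.EV.Vl2

set_option autoImplicit false

/-!
# Retractions and standard subgroups of general Artin groups
-/

namespace Pool.Agent.helper55.EV

open Pool.Agent.helper34.FJ2 Pool.Agent.helper34.FJ3
open Pool.Agent.helper36.LT (Artin gen alt artinRels)
open Pool.Agent.helper50.LT (alt_map gen_rel lift lift_gen artin_hom_ext)
open Pool.Agent.helper46.FJ3 (restr inc inc_gen)

/-- the labels between `T` and its complement are even or `∞` -/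
def Sat {S : Type} (M : CoxeterMatrix S) (T : Set S) : Prop := ∀ s ∈ T, ∀ t, t ∉ T → Even (M.M s t)

section kill

variable {S : Type} (M : CoxeterMatrix S) {G : Type} [Group G]

open Classical in
/-- the homomorphism with given values on the generators in `T` which kills the others -/
noncomputable def killS (T : Set S) (hM : Sat M T) (f : S → G)
    (hf : ∀ s ∈ T, ∀ t ∈ T, alt (f s) (f t) (M.M s t) = alt (f t) (f s) (M.M s t)) :
    Artin M →* G :=
  lift M (fun s => if s ∈ T then f s else 1) (by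
    intro s t
    by_cases hs : s ∈ T <;> by_cases ht : t ∈ T
    · simp only [if_pos hs, if_pos ht]
      exact hf s hs t ht
    · simp only [if_pos hs, if_neg ht]
      obtain ⟨k, hk⟩ := hM s hs t ht
      rw [hk, ← two_mul, (alt_one _ _).1, (alt_one _ _).2]
    · simp only [if_neg hs, if_pos ht]
      obtain ⟨k, hk⟩ := hM t ht s hs
      have hk' : M.M s t = k + k := by rw [← hk]; exact M.symmetric _ _
      rw [hk', ← two_mul, (alt_one _ _).1, (alt_one _ _).2]
    · simp only [if_neg hs, if_neg ht])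

variable (T : Set S) (hM : Sat M T) (f : S → G)
    (hf : ∀ s ∈ T, ∀ t ∈ T, alt (f s) (f t) (M.M s t) = alt (f t) (f s) (M.M s t))

theorem killS_gen {s : S} (hs : s ∈ T) : killS M T hM f hf (gen M s) = f s := by
  unfold killS
  rw [lift_gen]
  exact if_pos hs

theorem killS_gen' {s : S} (hs : s ∉ T) : killS M T hM f hf (gen M s) = 1 := by
  unfold killS
  rw [lift_gen]
  exact if_neg hs

end kill

section ret

variable {S : Type} (M : CoxeterMatrix S)

/-- the retraction to the subgroup generated by `T` -/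
noncomputable def retS (T : Set S) (hM : Sat M T) : Artin M →* Artin M :=
  killS M T hM (gen M) (fun s _ t _ => gen_rel M s t)

variable {T : Set S} (hM : Sat M T)

theorem retS_gen {s : S} (hs : s ∈ T) : retS M T hM (gen M s) = gen M s :=
  killS_gen M T hM _ _ hs

theorem retS_gen' {s : S} (hs : s ∉ T) : retS M T hM (gen M s) = 1 :=
  killS_gen' M T hM _ _ hs

theorem retS_mem {U : Set S} {g : Artin M} (hg : g ∈ sg M U) :
    retS M T hM g ∈ sg M (T ∩ U) := by
  refine map_mem M (retS M T hM) ?_ hg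
  intro s hs
  by_cases hT : s ∈ T
  · rw [retS_gen M hM hT]
    exact gen_mem M ⟨hT, hs⟩
  · rw [retS_gen' M hM hT]
    exact one_mem _

theorem retS_mem' (g : Artin M) : retS M T hM g ∈ sg M T := by
  have h1 : g ∈ sg M Set.univ := by
    rw [sg_univ]
    exact Subgroup.mem_top _
  have h2 := retS_mem M hM h1
  rwa [Set.inter_univ] at h2

end ret

section rt

variable {S : Type} (M : CoxeterMatrix S) (F : Finset S) (hM : Sat M (F : Set S))

open Classical in
/-- the retraction to the Artin group of a subset -/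
noncomputable def rtS : Artin M →* Artin (restr M F) :=
  killS M (F : Set S) hM (fun s => if h : s ∈ F then gen (restr M F) ⟨s, h⟩ else 1) (by
    intro s hs t ht
    have hs' : s ∈ F := hs
    have ht' : t ∈ F := ht
    simp only [dif_pos hs', dif_pos ht']
    exact gen_rel (restr M F) ⟨s, hs'⟩ ⟨t, ht'⟩)

theorem rtS_gen {s : S} (hs : s ∈ F) : rtS M F hM (gen M s) = gen (restr M F) ⟨s, hs⟩ := by
  unfold rtS
  rw [killS_gen M (F : Set S) hM _ _ hs]
  exact dif_pos hs

theorem rtS_gen' {s : S} (hs : s ∉ F) : rtS M F hM (gen M s) = 1 :=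
  killS_gen' M _ hM _ _ hs

theorem incS_rt {g : Artin M} (hg : g ∈ sg M (F : Set S)) : inc M F (rtS M F hM g) = g := by
  refine eq_on M ((inc M F).comp (rtS M F hM)) (MonoidHom.id _) ?_ hg
  intro s hs
  rw [MonoidHom.comp_apply, rtS_gen M F hM hs, inc_gen]
  rfl

theorem incS_rt_ret (g : Artin M) : inc M F (rtS M F hM g) = retS M (F : Set S) hM g := by
  have h : (inc M F).comp (rtS M F hM) = retS M (F : Set S) hM := by
    apply artin_hom_ext
    intro s
    by_cases hs : s ∈ F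
    · rw [MonoidHom.comp_apply, rtS_gen M F hM hs, inc_gen,
        retS_gen M hM (Finset.mem_coe.2 hs)]
    · rw [MonoidHom.comp_apply, rtS_gen' M F hM hs, map_one,
        retS_gen' M hM (fun h => hs (Finset.mem_coe.1 h))]
  exact DFunLike.congr_fun h g

end rt

/-! ### consequences of van der Lek's theorem -/

section vdl

variable {S : Type} [Finite S] (M : CoxeterMatrix S)

theorem inc_inj (F : Finset S) : Function.Injective (inc M F) := by
  obtain ⟨π, h, -⟩ := vl M F
  intro x y hxy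
  rw [← h x, ← h y, hxy]

theorem sg_map (F : Finset S) (U : Set F) :
    sg M (Subtype.val '' U) = (sg (restr M F) U).map (inc M F) := by
  unfold sg
  rw [MonoidHom.map_closure]
  congr 1
  ext g
  constructor
  · rintro ⟨_, ⟨⟨s, hs⟩, hU, rfl⟩, rfl⟩
    exact ⟨_, ⟨⟨s, hs⟩, hU, rfl⟩, inc_gen M F s hs⟩
  · rintro ⟨_, ⟨⟨s, hs⟩, hU, rfl⟩, rfl⟩
    exact ⟨s, ⟨⟨s, hs⟩, hU, rfl⟩, (inc_gen M F s hs).symm⟩

theorem sg_inf' (T U : Set S) : sg M T ⊓ sg M U = sg M (T ∩ U) := by
  classical
  have : Fintype S := Fintype.ofFinite S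
  apply le_antisymm
  · rintro g ⟨h1, h2⟩
    let F : Finset S := Finset.univ.filter (· ∈ T)
    have hF : (F : Set S) = T := by ext s; simp [F]
    obtain ⟨π, h3, h4⟩ := vl M F
    have h5 : sg M T = (sg (restr M F) Set.univ).map (inc M F) := by
      rw [← sg_map]
      congr 1
      rw [Set.image_univ, Subtype.range_coe_subtype]
      ext s
      simp [F]
    have h6 := h1
    rw [h5] at h6
    obtain ⟨x, -, rfl⟩ := h6
    have h7 := h4 U _ h2
    rw [h3] at h7
    refine sg_mono M ?_ (inc_mem M F h7)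
    rintro _ ⟨⟨s, hs⟩, hU, rfl⟩
    exact ⟨(Finset.mem_filter.1 hs).2, hU⟩
  · exact le_inf (sg_mono M Set.inter_subset_left) (sg_mono M Set.inter_subset_right)

theorem G8_map {G K : Type} [Group G] [Group K] (r : K →* G) (hr : Function.Injective r)
    {A B : Subgroup K} (h : G8 A B) : G8 (A.map r) (B.map r) := by
  refine ⟨?_, ?_⟩
  · rintro _ ⟨a₁, h1, rfl⟩ _ ⟨b₁, h2, rfl⟩ _ ⟨a₂, h3, rfl⟩ _ ⟨b₂, h4, rfl⟩ he
    have he' : a₁ * b₁ * a₂ * b₂ = 1 := hr (by simpa using he)
    rcases h.1 _ h1 _ h2 _ h3 _ h4 he' with h5 | h5 | h5 | h5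
    · exact Or.inl ⟨_, h5, rfl⟩
    · exact Or.inr (Or.inl ⟨_, h5, rfl⟩)
    · exact Or.inr (Or.inr (Or.inl ⟨_, h5, rfl⟩))
    · exact Or.inr (Or.inr (Or.inr ⟨_, h5, rfl⟩))
  · rintro _ ⟨a₁, h1, rfl⟩ _ ⟨b₁, h2, rfl⟩ _ ⟨a₂, h3, rfl⟩ _ ⟨b₂, h4, rfl⟩ _ ⟨a₃, h5, rfl⟩ _
      ⟨b₃, h6, rfl⟩ he
    have he' : a₁ * b₁ * a₂ * b₂ * a₃ * b₃ = 1 := hr (by simpa using he)
    rcases h.2 _ h1 _ h2 _ h3 _ h4 _ h5 _ h6 he' with h7 | h7 | h7 | h7 | h7 | h7
    · exact Or.inl ⟨_, h7, rfl⟩
    · exact Or.inr (Or.inl ⟨_, h7, rfl⟩)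
    · exact Or.inr (Or.inr (Or.inl ⟨_, h7, rfl⟩))
    · exact Or.inr (Or.inr (Or.inr (Or.inl ⟨_, h7, rfl⟩)))
    · exact Or.inr (Or.inr (Or.inr (Or.inr (Or.inl ⟨_, h7, rfl⟩))))
    · exact Or.inr (Or.inr (Or.inr (Or.inr (Or.inr ⟨_, h7, rfl⟩))))

/-- transfer from the Artin group of a subset -/
theorem G8_sub (F : Finset S) {U U' : Set S} (hU : U ⊆ F) (hU' : U' ⊆ F)
    (h : G8 (sg (restr M F) (Subtype.val ⁻¹' U)) (sg (restr M F) (Subtype.val ⁻¹' U'))) :
    G8 (sg M U) (sg M U') := by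
  have key : ∀ {U : Set S}, U ⊆ F → (sg M U) = (sg (restr M F) (Subtype.val ⁻¹' U)).map (inc M F) := by
    intro U hU
    rw [← sg_map]
    congr 1
    ext s
    constructor
    · intro hs
      exact ⟨⟨s, hU hs⟩, hs, rfl⟩
    · rintro ⟨⟨s, hs⟩, hs', rfl⟩
      exact hs'
  rw [key hU, key hU']
  exact G8_map _ (inc_inj M F) h

end vdl

/-! ### the universal property -/

/-- The universal property of a family of standard subgroups such that every pair of generators
lies in one of them. -/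
theorem artin_UP {S : Type} (M : CoxeterMatrix S) {n : ℕ} (T : Fin n → Set S)
    (hT : ∀ s s' : S, ∃ t, s ∈ T t ∧ s' ∈ T t) :
    Subgroup.closure {x : Artin M | ∃ t, x ∈ sg M (T t)} = ⊤ ∧
    ∀ (K : Type) [Group K] (f : ∀ t, sg M (T t) →* K),
      (∀ (t t' : Fin n) (x : Artin M) (h : x ∈ sg M (T t)) (h' : x ∈ sg M (T t')),
        f t ⟨x, h⟩ = f t' ⟨x, h'⟩) →
      ∃ F : Artin M →* K, ∀ (t : Fin n) (x : sg M (T t)), F x = f t x := by
  constructor
  · rw [eq_top_iff, ← sg_univ M]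
    unfold sg
    rw [Subgroup.closure_le]
    rintro _ ⟨s, -, rfl⟩
    obtain ⟨t, ht, -⟩ := hT s s
    exact Subgroup.subset_closure ⟨t, gen_mem M ht⟩
  · intro K _ f hf
    choose ty hty using fun s : S => hT s s
    have hmem : ∀ s, gen M s ∈ sg M (T (ty s)) := fun s => gen_mem M (hty s).1
    have hrel : ∀ s s' : S, alt (f (ty s) ⟨gen M s, hmem s⟩) (f (ty s') ⟨gen M s', hmem s'⟩)
        (M.M s s') = alt (f (ty s') ⟨gen M s', hmem s'⟩) (f (ty s) ⟨gen M s, hmem s⟩)
        (M.M s s') := by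
      intro s s'
      obtain ⟨t, h1, h2⟩ := hT s s'
      have h3 : gen M s ∈ sg M (T t) := gen_mem M h1
      have h4 : gen M s' ∈ sg M (T t) := gen_mem M h2
      rw [hf (ty s) t _ (hmem s) h3, hf (ty s') t _ (hmem s') h4, ← alt_map, ← alt_map]
      congr 1
      apply Subtype.ext
      have h5 := alt_map (sg M (T t)).subtype (⟨gen M s, h3⟩ : sg M (T t)) ⟨gen M s', h4⟩ (M.M s s')
      have h6 := alt_map (sg M (T t)).subtype (⟨gen M s', h4⟩ : sg M (T t)) ⟨gen M s, h3⟩ (M.M s s')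
      refine h5.trans (Eq.trans ?_ h6.symm)
      exact gen_rel M s s'
    refine ⟨lift M (fun s => f (ty s) ⟨gen M s, hmem s⟩) hrel, ?_⟩
    rintro t ⟨x, hx⟩
    have key : ∀ x (hx : x ∈ sg M (T t)),
        lift M (fun s => f (ty s) ⟨gen M s, hmem s⟩) hrel x = f t ⟨x, hx⟩ := by
      intro x hx
      unfold sg at hx
      induction hx using Subgroup.closure_induction with
      | mem x hx' =>
        obtain ⟨s, hs, rfl⟩ := hx'
        rw [lift_gen]
        exact hf _ _ _ _ _
      | one =>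
        rw [map_one]
        exact (map_one (f t)).symm
      | mul x y hx' hy' ihx ihy =>
        rw [map_mul, ihx, ihy]
        exact (map_mul (f t) ⟨x, hx'⟩ ⟨y, hy'⟩).symm
      | inv x hx' ih =>
        rw [map_inv, ih]
        exact (map_inv (f t) ⟨x, hx'⟩).symm
    exact key x hx

end Pool.Agent.helper55.EV
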