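import Pool.Agent.helper55.EV.Defs

set_option autoImplicit false

/-!
# EAG-BASE: two generators which commute with all others
-/

namespace Pool.Agent.helper55.EV

open Pool.Agent.helper34.FJ2 Pool.Agent.helper34.FJ3
open Pool.Agent.helper36.LT (Artin gen alt artinRels)

/-- the label of the pair `i`, `j` is replaced by `4` -/
noncomputable def BASE_four {S : Type} (M : CoxeterMatrix S) (i j : S) (hij : i ≠ j) :
    CoxeterMatrix S := by
  classical
  exact
  { M := Matrix.of fun s t => if (s = i ∧ t = j) ∨ (s = j ∧ t = i) then 4 else M.M s t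
    isSymm := by
      ext s t
      have h := M.symmetric s t
      simp only [Matrix.transpose_apply, Matrix.of_apply]
      by_cases h1 : (s = i ∧ t = j) ∨ (s = j ∧ t = i)
      · have h2 : (t = i ∧ s = j) ∨ (t = j ∧ s = i) := by tauto
        rw [if_pos h1, if_pos h2]
      · have h2 : ¬ ((t = i ∧ s = j) ∨ (t = j ∧ s = i)) := by tauto
        rw [if_neg h1, if_neg h2]
        exact h.symm
    diagonal := by
      intro s
      simp only [Matrix.of_apply]
      rw [if_neg, M.diagonal]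
      rintro (⟨h1, h2⟩ | ⟨h1, h2⟩)
      · exact hij (h1.symm.trans h2)
      · exact hij (h2.symm.trans h1)
    off_diagonal := by
      intro s t hst
      simp only [Matrix.of_apply]
      split_ifs
      · norm_num
      · exact M.off_diagonal s t hst }

theorem BASE_four_apply {S : Type} (M : CoxeterMatrix S) (i j : S) (hij : i ≠ j) :
    (BASE_four M i j hij).M j i = 4 := by
  simp [BASE_four]

theorem BASE_four_other {S : Type} (M : CoxeterMatrix S) (i j : S) (hij : i ≠ j) (s t : S)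
    (h : ¬ ((s = i ∧ t = j) ∨ (s = j ∧ t = i))) : (BASE_four M i j hij).M s t = M.M s t := by
  simp [BASE_four, h]

theorem BASE_prod_map {G H : Type} [Group G] [Group H] (f : G →* H) (x y : G) (a b : ℕ → ℤ)
    (n : ℕ) : f ((List.range n).map fun l => x ^ a l * y ^ b l).prod =
      ((List.range n).map fun l => f x ^ a l * f y ^ b l).prod := by
  rw [map_list_prod, List.map_map]
  congr 1
  apply List.map_congr_left
  intro l _
  simp [map_mul, map_zpow]

/-- two generators whose label is at least four (or `∞`) generate a group without short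
alternating relations -/
theorem dih_short {S : Type} [Finite S] (M : CoxeterMatrix S) (hM : Evn M) (i j : S) (hij : i ≠ j)
    (h2 : M.M i j ≠ 2) (n : ℕ) (hn : n = 2 ∨ n = 3) (a b : ℕ → ℤ)
    (hab : ∀ l, l < n → a l ≠ 0 ∧ b l ≠ 0) :
    ((List.range n).map fun l => gen M j ^ a l * gen M i ^ b l).prod ≠ 1 := by
  classical
  have hsym : M.M j i = M.M i j := M.symmetric j i
  by_cases h0 : M.M i j = 0
  · intro h
    have hrel : ∀ s t, alt (gen (BASE_four M i j hij) s) (gen (BASE_four M i j hij) t) (M.M s t) =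
        alt (gen (BASE_four M i j hij) t) (gen (BASE_four M i j hij) s) (M.M s t) := by
      intro s t
      by_cases hst : (s = i ∧ t = j) ∨ (s = j ∧ t = i)
      · have h3 : M.M s t = 0 := by
          rcases hst with ⟨rfl, rfl⟩ | ⟨rfl, rfl⟩
          · exact h0
          · rw [hsym, h0]
        rw [h3]
        rfl
      · rw [← BASE_four_other M i j hij s t hst]
        exact Pool.Agent.helper50.LT.gen_rel _ s t
    let φ := Pool.Agent.helper50.LT.lift M (gen (BASE_four M i j hij)) hrel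
    have h4 := congrArg φ h
    rw [BASE_prod_map, map_one, Pool.Agent.helper50.LT.lift_gen,
      Pool.Agent.helper50.LT.lift_gen] at h4
    exact artin_girth (BASE_four M i j hij) j i hij.symm (by rw [BASE_four_apply]; norm_num) n a b
      (by omega) (by rw [BASE_four_apply]; omega) hab h4
  · have h3 := hM i j hij
    have h4 : n < M.M j i := by
      rw [hsym]
      obtain ⟨c, hc⟩ := h3
      omega
    exact artin_girth M j i hij.symm (by rw [hsym]; exact h0) n a b (by omega) h4 hab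

theorem BASE_decomp {S : Type} (M : CoxeterMatrix S) (i j : S)
    (hj : ∀ k, k ≠ i → k ≠ j → M.M j k = 2) (a : Artin M) (ha : a ∈ sg M {i}ᶜ) :
    ∃ (p : ℤ) (t : Artin M), t ∈ sg M {i, j}ᶜ ∧ a = gen M j ^ p * t := by
  classical
  have hcomm : ∀ t ∈ sg M {i, j}ᶜ, Commute (gen M j) t := by
    intro t ht
    refine Subgroup.closure_induction ?_ ?_ ?_ ?_ ht
    · rintro x ⟨k, hk, rfl⟩
      have hk1 : k ≠ i := fun h => hk (by simp [h])
      have hk2 : k ≠ j := fun h => hk (by simp [h])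
      have h := Pool.Agent.helper50.LT.gen_rel M j k
      rw [hj k hk1 hk2] at h
      simpa [alt, Commute, SemiconjBy] using h
    · exact Commute.one_right _
    · intro x y _ _ hx hy
      exact hx.mul_right hy
    · intro x _ hx
      exact hx.inv_right
  refine Subgroup.closure_induction ?_ ?_ ?_ ?_ ha
  · rintro x ⟨k, hk, rfl⟩
    by_cases hkj : k = j
    · exact ⟨1, 1, Subgroup.one_mem _, by rw [hkj]; simp⟩
    · refine ⟨0, gen M k, Subgroup.subset_closure ⟨k, ?_, rfl⟩, by simp⟩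
      intro h
      rcases h with h | h
      · exact hk h
      · exact hkj h
  · exact ⟨0, 1, Subgroup.one_mem _, by simp⟩
  · rintro x y _ _ ⟨p, t, ht, rfl⟩ ⟨q, u, hu, rfl⟩
    refine ⟨p + q, t * u, Subgroup.mul_mem _ ht hu, ?_⟩
    have h := ((hcomm t ht).zpow_left q).eq
    rw [zpow_add]
    calc gen M j ^ p * t * (gen M j ^ q * u) = gen M j ^ p * (t * gen M j ^ q) * u := by group
      _ = gen M j ^ p * (gen M j ^ q * t) * u := by rw [h]
      _ = gen M j ^ p * gen M j ^ q * (t * u) := by group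
  · rintro x _ ⟨p, t, ht, rfl⟩
    refine ⟨-p, t⁻¹, Subgroup.inv_mem _ ht, ?_⟩
    have h := (((hcomm t ht).inv_right).zpow_left (-p)).eq
    rw [mul_inv_rev, ← zpow_neg, ← h]

/-- the retraction onto the subgroup generated by `gen i`, `gen j` -/
theorem BASE_retr {S : Type} (M : CoxeterMatrix S) (i j : S)
    (hi : ∀ k, k ≠ i → k ≠ j → M.M i k = 2)
    (hj : ∀ k, k ≠ i → k ≠ j → M.M j k = 2) :
    ∃ ρ : Artin M →* Artin M, ρ (gen M i) = gen M i ∧ ρ (gen M j) = gen M j ∧
      ∀ t ∈ sg M {i, j}ᶜ, ρ t = 1 := by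
  classical
  have key : ∀ s t : S, (s = i ∨ s = j) → ¬ (t = i ∨ t = j) → M.M s t = 2 ∧ M.M t s = 2 := by
    intro s t hs ht
    have ht1 : t ≠ i := fun h => ht (Or.inl h)
    have ht2 : t ≠ j := fun h => ht (Or.inr h)
    have h : M.M s t = 2 := by
      rcases hs with rfl | rfl
      · exact hi t ht1 ht2
      · exact hj t ht1 ht2
    exact ⟨h, (M.symmetric t s).trans h⟩
  let f : S → Artin M := fun k => if k = i ∨ k = j then gen M k else 1
  have hf : ∀ s t, alt (f s) (f t) (M.M s t) = alt (f t) (f s) (M.M s t) := by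
    intro s t
    by_cases hs : s = i ∨ s = j
    · by_cases ht : t = i ∨ t = j
      · simp only [f, if_pos hs, if_pos ht]
        exact Pool.Agent.helper50.LT.gen_rel M s t
      · rw [(key s t hs ht).1]
        simp [f, hs, ht, alt]
    · by_cases ht : t = i ∨ t = j
      · rw [(key t s ht hs).2]
        simp [f, hs, ht, alt]
      · simp only [f, if_neg hs, if_neg ht]
  refine ⟨Pool.Agent.helper50.LT.lift M f hf, ?_, ?_, ?_⟩
  · rw [Pool.Agent.helper50.LT.lift_gen]
    simp [f]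
  · rw [Pool.Agent.helper50.LT.lift_gen]
    simp [f]
  · intro t ht
    refine Subgroup.closure_induction (p := fun t _ => Pool.Agent.helper50.LT.lift M f hf t = 1)
      ?_ ?_ ?_ ?_ ht
    · rintro x ⟨k, hk, rfl⟩
      rw [Pool.Agent.helper50.LT.lift_gen]
      have hk1 : ¬ (k = i ∨ k = j) := fun h => hk h
      simp [f, hk1]
    · exact map_one _
    · intro x y _ _ hx hy
      rw [map_mul, hx, hy, one_mul]
    · intro x _ hx
      rw [map_inv, hx, inv_one]

theorem BASE_le_left {S : Type} (M : CoxeterMatrix S) (i j : S) : sg M {i, j}ᶜ ≤ sg M {i}ᶜ := by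
  apply Subgroup.closure_mono
  apply Set.image_mono
  intro k hk h
  exact hk (Or.inl h)

theorem BASE_le_right {S : Type} (M : CoxeterMatrix S) (i j : S) : sg M {i, j}ᶜ ≤ sg M {j}ᶜ := by
  apply Subgroup.closure_mono
  apply Set.image_mono
  intro k hk h
  exact hk (Or.inr h)

theorem G8_comm {S : Type} [Finite S] (M : CoxeterMatrix S) (hM : Evn M) (i j : S) (hij : i ≠ j)
    (h2 : M.M i j ≠ 2) (hi : ∀ k, k ≠ i → k ≠ j → M.M i k = 2)
    (hj : ∀ k, k ≠ i → k ≠ j → M.M j k = 2) : G8 (sg M {i}ᶜ) (sg M {j}ᶜ) := by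
  obtain ⟨ρ, hρi, hρj, hρ⟩ := BASE_retr M i j hi hj
  have hA : ∀ a ∈ sg M {i}ᶜ, ∃ (p : ℤ), ρ a = gen M j ^ p ∧ (p = 0 → a ∈ sg M {j}ᶜ) := by
    intro a ha
    obtain ⟨p, t, ht, rfl⟩ := BASE_decomp M i j hj a ha
    refine ⟨p, by rw [map_mul, map_zpow, hρj, hρ t ht, mul_one], ?_⟩
    rintro rfl
    rw [zpow_zero, one_mul]
    exact BASE_le_right M i j ht
  have hB : ∀ b ∈ sg M {j}ᶜ, ∃ (q : ℤ), ρ b = gen M i ^ q ∧ (q = 0 → b ∈ sg M {i}ᶜ) := by
    intro b hb
    obtain ⟨q, t, ht, rfl⟩ := BASE_decomp M j i (fun k h1 h2 => hi k h2 h1) b hb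
    have ht' : t ∈ sg M {i, j}ᶜ := by rwa [Set.pair_comm]
    refine ⟨q, by rw [map_mul, map_zpow, hρi, hρ t ht', mul_one], ?_⟩
    rintro rfl
    rw [zpow_zero, one_mul]
    exact BASE_le_left M i j ht'
  constructor
  · intro a₁ ha₁ b₁ hb₁ a₂ ha₂ b₂ hb₂ h
    obtain ⟨p₁, hp₁, hp₁'⟩ := hA a₁ ha₁
    obtain ⟨p₂, hp₂, hp₂'⟩ := hA a₂ ha₂
    obtain ⟨q₁, hq₁, hq₁'⟩ := hB b₁ hb₁
    obtain ⟨q₂, hq₂, hq₂'⟩ := hB b₂ hb₂
    by_contra hcon
    push Not at hcon
    obtain ⟨c1, c2, c3, c4⟩ := hcon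
    have e1 : p₁ ≠ 0 := fun h => c1 (hp₁' h)
    have e2 : q₁ ≠ 0 := fun h => c2 (hq₁' h)
    have e3 : p₂ ≠ 0 := fun h => c3 (hp₂' h)
    have e4 : q₂ ≠ 0 := fun h => c4 (hq₂' h)
    refine dih_short M hM i j hij h2 2 (Or.inl rfl) (fun l => if l = 0 then p₁ else p₂)
      (fun l => if l = 0 then q₁ else q₂) ?_ ?_
    · intro l _
      by_cases hl : l = 0 <;> simp [hl, e1, e2, e3, e4]
    · have h3 := congrArg ρ h
      simp only [map_mul, map_one, hp₁, hp₂, hq₁, hq₂] at h3
      simp only [List.range_succ, List.range_zero, List.nil_append, List.map_append,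
        List.map_cons, List.map_nil, List.prod_append, List.prod_cons, List.prod_nil, mul_one]
      simpa [mul_assoc] using h3
  · intro a₁ ha₁ b₁ hb₁ a₂ ha₂ b₂ hb₂ a₃ ha₃ b₃ hb₃ h
    obtain ⟨p₁, hp₁, hp₁'⟩ := hA a₁ ha₁
    obtain ⟨p₂, hp₂, hp₂'⟩ := hA a₂ ha₂
    obtain ⟨p₃, hp₃, hp₃'⟩ := hA a₃ ha₃
    obtain ⟨q₁, hq₁, hq₁'⟩ := hB b₁ hb₁
    obtain ⟨q₂, hq₂, hq₂'⟩ := hB b₂ hb₂
    obtain ⟨q₃, hq₃, hq₃'⟩ := hB b₃ hb₃
    by_contra hcon
    push Not at hcon
    obtain ⟨c1, c2, c3, c4, c5, c6⟩ := hcon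
    have e1 : p₁ ≠ 0 := fun h => c1 (hp₁' h)
    have e2 : q₁ ≠ 0 := fun h => c2 (hq₁' h)
    have e3 : p₂ ≠ 0 := fun h => c3 (hp₂' h)
    have e4 : q₂ ≠ 0 := fun h => c4 (hq₂' h)
    have e5 : p₃ ≠ 0 := fun h => c5 (hp₃' h)
    have e6 : q₃ ≠ 0 := fun h => c6 (hq₃' h)
    refine dih_short M hM i j hij h2 3 (Or.inr rfl)
      (fun l => if l = 0 then p₁ else if l = 1 then p₂ else p₃)
      (fun l => if l = 0 then q₁ else if l = 1 then q₂ else q₃) ?_ ?_
    · intro l _
      by_cases hl : l = 0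
      · simp [hl, e1, e2]
      · by_cases hl' : l = 1 <;> simp [hl, hl', e3, e4, e5, e6]
    · have h3 := congrArg ρ h
      simp only [map_mul, map_one, hp₁, hp₂, hp₃, hq₁, hq₂, hq₃] at h3
      simp only [List.range_succ, List.range_zero, List.nil_append, List.map_append,
        List.map_cons, List.map_nil, List.prod_append, List.prod_cons, List.prod_nil, mul_one]
      simpa [mul_assoc] using h3

end Pool.Agent.helper55.EV
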