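import Pool.Agent.helper55.EV.Defs

set_option autoImplicit false

/-!
# EAG-SC: the development of a triangle of groups is simply connected
-/

namespace Pool.Agent.helper55.EV

open Pool.Agent.helper34.FJ2 Pool.Agent.helper34.FJ3

namespace SC

variable {G : Type} [Group G] (H : Fin 3 → Subgroup G)

theorem SC_tv_eq (t : Fin 3) (g h : G) : tv H t g = tv H t h ↔ g⁻¹ * h ∈ H t := by
  constructor
  · intro e
    exact QuotientGroup.eq.1 (eq_of_heq (Sigma.mk.inj e).2)
  · intro e
    exact congrArg (Sigma.mk t) (QuotientGroup.eq.2 e)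

theorem SC_tv_ty {t s : Fin 3} {g h : G} (e : tv H t g = tv H s h) : t = s :=
  congrArg Sigma.fst e

theorem SC_tv_mul (t : Fin 3) (g h : G) (hh : h ∈ H t) : tv H t (g * h) = tv H t g := by
  rw [eq_comm, SC_tv_eq, inv_mul_cancel_left]
  exact hh

theorem SC_inv : Inv G (tog H) where
  edge := by
    rintro k a b ⟨g, t, t', h, rfl, rfl⟩
    exact ⟨k * g, t, t', h, rfl, rfl⟩
  tri := by
    rintro k a b c ⟨g, t, t', t'', h, h', h'', rfl, rfl, rfl⟩
    exact ⟨k * g, t, t', t'', h, h', h'', rfl, rfl, rfl⟩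

/-- the invariant complex -/
def SC_A : GCx G (TV H) := ⟨tog H, SC_inv H⟩

/-- the base vertex -/
def SC_x : TV H := tv H 0 1

theorem SC_edge {t s : Fin 3} (h : t ≠ s) (g : G) : (tog H).edge (tv H t g) (tv H s g) :=
  ⟨g, t, s, h, rfl, rfl⟩

theorem SC_tri {t s r : Fin 3} (h1 : t ≠ s) (h2 : s ≠ r) (h3 : t ≠ r) (g : G) :
    (tog H).tri (tv H t g) (tv H s g) (tv H r g) :=
  ⟨g, t, s, r, h1, h2, h3, rfl, rfl, rfl⟩

/-- the path of an element of `H t` -/
def SC_pl (t : Fin 3) (h : G) : List (TV H) := if t = 0 then [] else [tv H t 1, tv H 0 h]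

theorem SC_pl_zero (h : G) : SC_pl H 0 h = [] := if_pos rfl

theorem SC_pl_ne {t : Fin 3} (ht : t ≠ 0) (h : G) : SC_pl H t h = [tv H t 1, tv H 0 h] :=
  if_neg ht

/-- the lift of an element of `H t` -/
def SC_f (t : Fin 3) (h : H t) : PreLift (SC_A H) (SC_x H) where
  g := h
  l := SC_pl H t h
  path := by
    by_cases ht : t = 0
    · subst ht
      rw [SC_pl_zero]
      trivial
    · rw [SC_pl_ne H ht]
      refine ⟨SC_edge H (Ne.symm ht) 1, ?_, trivial⟩
      have h1 : tv H t (h : G) = tv H t 1 := by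
        have h2 := SC_tv_mul H t 1 h h.2
        rwa [one_mul] at h2
      have h3 := SC_edge H ht (h : G)
      rw [h1] at h3
      exact h3
  fin := by
    by_cases ht : t = 0
    · subst ht
      rw [SC_pl_zero]
      have h2 := SC_tv_mul H 0 1 h h.2
      rw [one_mul] at h2
      change tv H 0 1 = tv H 0 ((h : G) * 1)
      rw [mul_one, h2]
    · rw [SC_pl_ne H ht]
      change tv H 0 (h : G) = tv H 0 ((h : G) * 1)
      rw [mul_one]

/-- the homomorphisms to the group of lifts -/
noncomputable def SC_F (t : Fin 3) : H t →* Lifts (SC_A H) (SC_x H) :=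
  MonoidHom.mk' (fun h => Lifts.mk (SC_f H t h)) (by
    intro h k
    change Lifts.mk (SC_f H t (h * k)) = Lifts.mk (SC_f H t h) * Lifts.mk (SC_f H t k)
    rw [← Lifts.mk_mul, Lifts.mk_eq]
    refine ⟨rfl, ?_⟩
    change Htpy (tog H) (tv H 0 1) (SC_pl H t ((h * k : H t) : G))
      (SC_pl H t h ++ (SC_pl H t k).map ((h : G) • ·))
    by_cases ht : t = 0
    · subst ht
      rw [SC_pl_zero, SC_pl_zero, SC_pl_zero]
      exact Htpy.refl _ _
    · rw [SC_pl_ne H ht, SC_pl_ne H ht, SC_pl_ne H ht]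
      have h1 : tv H t ((h : G) * 1) = tv H t 1 := by
        have h2 := SC_tv_mul H t 1 h h.2
        rw [one_mul] at h2
        rw [mul_one, h2]
      have h3 : ([tv H t 1, tv H 0 (k : G)] : List (TV H)).map ((h : G) • ·) =
          [tv H t 1, tv H 0 ((h : G) * k)] := by
        change [tv H t ((h : G) * 1), tv H 0 ((h : G) * k)] = _
        rw [h1]
      rw [h3]
      refine Htpy.symm _ _ _ (Htpy.cons _ _ _ _ (Htpy.spur _ _ _ ?_))
      have h4 := SC_edge H ht (h : G)
      rw [mul_one] at h1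
      rw [h1] at h4
      exact h4)

theorem SC_compat (t s : Fin 3) (x : G) (h : x ∈ H t) (h' : x ∈ H s) :
    SC_F H t ⟨x, h⟩ = SC_F H s ⟨x, h'⟩ := by
  change Lifts.mk (SC_f H t ⟨x, h⟩) = Lifts.mk (SC_f H s ⟨x, h'⟩)
  rw [Lifts.mk_eq]
  refine ⟨rfl, ?_⟩
  change Htpy (tog H) (tv H 0 1) (SC_pl H t x) (SC_pl H s x)
  have h1 : ∀ r : Fin 3, x ∈ H r → tv H r x = tv H r 1 := by
    intro r hr
    have h2 := SC_tv_mul H r 1 x hr
    rwa [one_mul] at h2
  have h0 : ∀ r : Fin 3, r ≠ 0 → x ∈ H r → x ∈ H 0 →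
      Htpy (tog H) (tv H 0 1) (SC_pl H r x) (SC_pl H 0 x) := by
    intro r hr _ h3
    rw [SC_pl_ne H hr, SC_pl_zero, h1 0 h3]
    exact Htpy.spur _ _ _ (SC_edge H (Ne.symm hr) 1)
  by_cases ht : t = 0
  · subst ht
    by_cases hs : s = 0
    · subst hs
      exact Htpy.refl _ _
    · exact (h0 s hs h' h).symm
  · by_cases hs : s = 0
    · subst hs
      exact h0 t ht h h'
    · by_cases hts : t = s
      · subst hts
        exact Htpy.refl _ _
      · rw [SC_pl_ne H ht, SC_pl_ne H hs]
        have h2 : (tog H).tri (tv H t 1) (tv H s 1) (tv H 0 x) := by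
          have h3 := SC_tri H hts hs ht x
          rwa [h1 t h, h1 s h'] at h3
        have h4 : (tog H).tri (tv H 0 1) (tv H t 1) (tv H s 1) :=
          SC_tri H (Ne.symm ht) hts (Ne.symm hs) 1
        refine Htpy.trans _ _ _ _ (Htpy.cons _ _ _ _ (Htpy.symm _ _ _ (Htpy.tri _ _ _ [] h2))) ?_
        exact Htpy.tri _ _ _ _ h4

end SC

open SC

/-- If `G` is the colimit of the triangle of the subgroups `H t` (and their intersections), then
the development is simply connected. -/
theorem tog_sc {G : Type} [Group G] (H : Fin 3 → Subgroup G)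
    (hgen : Subgroup.closure {x : G | ∃ t, x ∈ H t} = ⊤)
    (hUP : ∀ (K : Type) [Group K] (f : ∀ t, H t →* K),
      (∀ (t t' : Fin 3) (x : G) (h : x ∈ H t) (h' : x ∈ H t'), f t ⟨x, h⟩ = f t' ⟨x, h'⟩) →
      ∃ F : G →* K, ∀ (t : Fin 3) (x : H t), F x = f t x) :
    SimplyConnected (tog H) := by
  obtain ⟨θ, hθ⟩ := hUP (Lifts (SC_A H) (SC_x H)) (SC_F H) (SC_compat H)
  have hproj : (Lifts.proj (SC_A H) (SC_x H)).comp θ = MonoidHom.id G := by
    refine MonoidHom.eq_of_eqOn_dense hgen ?_
    rintro x ⟨t, ht⟩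
    have h1 := hθ t ⟨x, ht⟩
    change Lifts.proj (SC_A H) (SC_x H) (θ x) = x
    have h2 : θ x = SC_F H t ⟨x, ht⟩ := h1
    rw [h2]
    rfl
  have hrep : ∀ g : G, ∃ p : PreLift (SC_A H) (SC_x H), Lifts.mk p = θ g :=
    fun g => Lifts.ind (P := fun q => ∃ p, Lifts.mk p = q) (fun p => ⟨p, rfl⟩) (θ g)
  choose rep hrep using hrep
  have hg : ∀ g : G, (rep g).g = g := by
    intro g
    have h1 := DFunLike.congr_fun hproj g
    change Lifts.proj (SC_A H) (SC_x H) (θ g) = g at h1
    rw [← hrep g] at h1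
    exact h1
  have hfin : ∀ g : G, endp (tv H 0 1) (rep g).l = tv H 0 g := by
    intro g
    have h1 := (rep g).fin
    rw [hg g] at h1
    rw [show tv H 0 1 = SC_x H from rfl, h1]
    change tv H 0 (g * 1) = tv H 0 g
    rw [mul_one]
  have hpath : ∀ g : G, IsPath (tog H) (tv H 0 1) (rep g).l := fun g => (rep g).path
  -- the path to `v_t(g)`
  set c : G → Fin 3 → List (TV H) := fun g t => (rep g).l ++ if t = 0 then [] else [tv H t g]
    with hc
  have c0 : ∀ g : G, c g 0 = (rep g).l := fun g => by simp [hc]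
  have cne : ∀ (g : G) (t : Fin 3), t ≠ 0 → c g t = (rep g).l ++ [tv H t g] :=
    fun g t ht => by simp [hc, ht]
  have cend : ∀ (g : G) (t : Fin 3), endp (tv H 0 1) (c g t) = tv H t g := by
    intro g t
    by_cases ht : t = 0
    · subst ht
      rw [c0, hfin]
    · rw [cne g t ht, endp_append]
      rfl
  have cpath : ∀ (g : G) (t : Fin 3), IsPath (tog H) (tv H 0 1) (c g t) := by
    intro g t
    by_cases ht : t = 0
    · subst ht
      rw [c0]
      exact hpath g
    · rw [cne g t ht, isPath_append]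
      refine ⟨hpath g, ?_⟩
      rw [hfin]
      exact ⟨SC_edge H (Ne.symm ht) g, trivial⟩
  -- claim 1
  have claim1 : ∀ (g : G) (t : Fin 3) (h : G), h ∈ H t →
      Htpy (tog H) (tv H 0 1) (c (g * h) t) (c g t) := by
    intro g t h hh
    have h1 : θ (g * h) = Lifts.mk (rep g) * Lifts.mk (SC_f H t ⟨h, hh⟩) := by
      rw [map_mul, hrep g]
      have h2 : θ h = SC_F H t ⟨h, hh⟩ := hθ t ⟨h, hh⟩
      rw [h2]
      rfl
    rw [← hrep (g * h), ← Lifts.mk_mul, Lifts.mk_eq] at h1
    have h3 : Htpy (tog H) (tv H 0 1) (rep (g * h)).l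
        ((rep g).l ++ (SC_pl H t h).map ((rep g).g • ·)) := h1.2
    rw [hg g] at h3
    by_cases ht : t = 0
    · subst ht
      rw [c0, c0]
      rw [SC_pl_zero, List.map_nil, List.append_nil] at h3
      exact h3
    · rw [cne _ t ht, cne _ t ht]
      rw [SC_pl_ne H ht] at h3
      have h4 : ([tv H t 1, tv H 0 h] : List (TV H)).map (g • ·) =
          [tv H t g, tv H 0 (g * h)] := by
        change [tv H t (g * 1), tv H 0 (g * h)] = _
        rw [mul_one]
      rw [h4] at h3
      have h5 := h3.append_right [tv H t (g * h)]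
      refine Htpy.trans _ _ _ _ h5 ?_
      rw [List.append_assoc]
      apply Htpy.append_left
      rw [hfin, SC_tv_mul H t g h hh]
      refine Htpy.cons _ _ _ _ (Htpy.spur _ _ [] ?_)
      have h6 := SC_edge H ht (g * h)
      rwa [SC_tv_mul H t g h hh] at h6
  -- claim 3
  have claim3 : ∀ (k : G) (s r : Fin 3), s ≠ r →
      Htpy (tog H) (tv H 0 1) (c k s ++ [tv H r k]) (c k r) := by
    intro k s r hsr
    by_cases hs : s = 0
    · subst hs
      rw [c0, cne k r (Ne.symm hsr)]
      exact Htpy.refl _ _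
    · rw [cne k s hs, List.append_assoc]
      by_cases hr : r = 0
      · subst hr
        rw [c0]
        have h1 : Htpy (tog H) (tv H 0 1) ((rep k).l ++ ([tv H s k] ++ [tv H 0 k]))
            ((rep k).l ++ []) := by
          apply Htpy.append_left
          rw [hfin]
          exact Htpy.spur _ _ [] (SC_edge H (Ne.symm hs) k)
        rwa [List.append_nil] at h1
      · rw [cne k r hr]
        apply Htpy.append_left
        rw [hfin]
        exact Htpy.tri _ _ _ [] (SC_tri H (Ne.symm hs) hsr (Ne.symm hr) k)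
  -- claim 2
  have claim2 : ∀ (l : List (TV H)) (g : G) (s : Fin 3), IsPath (tog H) (tv H s g) l →
      ∀ (g' : G) (t : Fin 3), endp (tv H s g) l = tv H t g' →
      Htpy (tog H) (tv H 0 1) (c g s ++ l) (c g' t) := by
    intro l
    induction l with
    | nil =>
      intro g s _ g' t he
      rw [endp_nil] at he
      have hst := SC_tv_ty H he
      subst hst
      rw [SC_tv_eq] at he
      have h1 := claim1 g s (g⁻¹ * g') he
      rw [mul_inv_cancel_left] at h1
      rw [List.append_nil]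
      exact h1.symm
    | cons b l ih =>
      rintro g s ⟨⟨k, s1, s2, h12, e1, e2⟩, hl⟩ g' t he
      have hs := SC_tv_ty H e1
      subst hs
      rw [SC_tv_eq] at e1
      have h1 := claim1 g s (g⁻¹ * k) e1
      rw [mul_inv_cancel_left] at h1
      subst e2
      rw [endp_cons] at he
      have h2 := ih k s2 hl g' t he
      have h3 := (claim3 k s s2 h12).append_right l
      rw [List.append_assoc] at h3
      have h4 := (h1.symm).append_right (tv H s2 k :: l)
      exact Htpy.trans _ _ _ _ h4 (Htpy.trans _ _ _ _ h3 h2)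
  have hsurj : ∀ a : TV H, ∃ (t : Fin 3) (g : G), a = tv H t g := by
    rintro ⟨t, q⟩
    obtain ⟨g, rfl⟩ := QuotientGroup.mk_surjective q
    exact ⟨t, g, rfl⟩
  refine ⟨⟨tv H 0 1⟩, ?_, ?_⟩
  · intro a b
    obtain ⟨t, g, rfl⟩ := hsurj a
    obtain ⟨s, k, rfl⟩ := hsurj b
    refine ⟨rev (tv H 0 1) (c g t) ++ c k s, ?_, ?_⟩
    · rw [isPath_append]
      have h1 := isPath_rev (tog H) (tv H 0 1) (c g t) (cpath g t)
      have h2 := endp_rev (tv H 0 1) (c g t)
      rw [cend g t] at h1 h2
      refine ⟨h1, ?_⟩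
      rw [h2]
      exact cpath k s
    · have h2 := endp_rev (tv H 0 1) (c g t)
      rw [cend g t] at h2
      rw [endp_append, h2, cend]
  · intro a l hl he
    obtain ⟨t, g, rfl⟩ := hsurj a
    have h1 := claim2 l g t hl g t he
    have h2 : Htpy (tog H) (tv H 0 1) (c g t ++ l) (c g t ++ []) := by
      rw [List.append_nil]
      exact h1
    have h3 := Htpy.cancel_left (c g t) (cpath g t) h2
    rwa [cend g t] at h3

end Pool.Agent.helper55.EV
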