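import Pool.Agent.helper55.EV.Defs

set_option autoImplicit false

/-!
# EAG-SEC1: explicit discrete geodesics along an edge
-/

namespace Pool.Agent.helper55.EV

open Pool.Agent.helper34.FJ2 Pool.Agent.helper34.FJ3
open scoped BigOperators

variable {V : Type} {Y : Complex2 V} {len : V → V → ℝ} {Γ : V → MGraph V}

/-- the length of an edge is at most the Lipschitz constant -/
theorem SEC1_len_le_lip (R : Realization Y len Γ) (hn : NPC Y len) (O m : V)
    (hOm : Y.edge O m) : len O m ≤ R.lip := by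
  have hL : 0 < len O m := hn.pos _ _ hOm
  have hr : 0 < R.r0 := R.cn.1
  obtain ⟨δ, hδ0, hδ1, hδ2⟩ : ∃ δ : ℝ, 0 < δ ∧ δ ≤ 1 ∧ δ * len O m < R.r0 := by
    refine ⟨min 1 (R.r0 / (2 * len O m)), by positivity, min_le_left _ _, ?_⟩
    calc min 1 (R.r0 / (2 * len O m)) * len O m ≤ R.r0 / (2 * len O m) * len O m :=
          mul_le_mul_of_nonneg_right (min_le_right _ _) hL.le
      _ = R.r0 / 2 := by field_simp
      _ < R.r0 := by linarith
  have h1 := R.ep_dist O m δ 0 hOm hδ0.le hδ1 le_rfl zero_le_one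
    (by rw [sub_zero, abs_of_pos hδ0]; exact hδ2)
  have h2 := R.ep_lip O m δ 0 hOm hδ0.le hδ1 le_rfl zero_le_one
  rw [h1, sub_zero, abs_of_pos hδ0, mul_comm] at h2
  exact le_of_mul_le_mul_right h2 hδ0

/-- the section over the edge `O m` which consists of the initial segments of the edge -/
theorem straight1 (R : Realization Y len Γ) (hn : NPC Y len) (O m : V) (hOm : Y.edge O m)
    (k : ℕ) (hk : 0 < k) (hk' : R.lip ≤ k * (R.r0 / 16)) :
    ∃ (s : ℝ → ℕ → R.M) (ℓ : ℝ → ℝ),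
      IsSection k (R.vert O) (R.r0 / 16) R.lip (Set.Icc (0 : ℝ) 1) (R.ep O m) s ℓ ∧
      (s 0 = fun _ => R.vert O) ∧
      (∀ i, i ≤ k → s 1 i = R.ep O m (i / k)) ∧
      R.a m (R.dir m (s 1 (k - 1))) ((Γ m).vtx O) = 0 := by
  have hL : 0 < len O m := hn.pos _ _ hOm
  have hr : 0 < R.r0 := R.cn.1
  have hLl := SEC1_len_le_lip R hn O m hOm
  have hk0 : (0 : ℝ) < k := Nat.cast_pos.mpr hk
  have hk1 : (1 : ℝ) ≤ k := Nat.one_le_cast.mpr hk
  have hLk : len O m / k ≤ R.r0 / 16 := by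
    rw [div_le_iff₀ hk0]
    linarith
  have hmem : ∀ c ∈ Set.Icc (0 : ℝ) 1, ∀ i : ℕ, i ≤ k →
      0 ≤ c * (i : ℝ) / k ∧ c * (i : ℝ) / k ≤ 1 := by
    intro c hc i hi
    have hi' : (i : ℝ) ≤ k := Nat.cast_le.mpr hi
    have h0 : (0 : ℝ) ≤ i := Nat.cast_nonneg i
    refine ⟨div_nonneg (mul_nonneg hc.1 h0) hk0.le, ?_⟩
    rw [div_le_one hk0]
    calc c * (i : ℝ) ≤ 1 * (i : ℝ) := mul_le_mul_of_nonneg_right hc.2 h0
      _ ≤ k := by linarith
  have hstep : ∀ c ∈ Set.Icc (0 : ℝ) 1, ∀ i j : ℕ, i + j ≤ k → j ≤ 2 →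
      dist (R.ep O m (c * (i : ℝ) / k)) (R.ep O m (c * ((i + j : ℕ) : ℝ) / k)) =
        j * (c * len O m / k) := by
    intro c hc i j hij hj
    have h1 := hmem c hc i (by omega)
    have h2 := hmem c hc (i + j) hij
    have hj' : (j : ℝ) ≤ 2 := by exact_mod_cast hj
    have hj0 : (0 : ℝ) ≤ j := Nat.cast_nonneg j
    have h3 : c * (i : ℝ) / k - c * ((i + j : ℕ) : ℝ) / k = -(j * (c / k)) := by
      push_cast
      field_simp
      ring
    have h4 : |c * (i : ℝ) / k - c * ((i + j : ℕ) : ℝ) / k| = j * (c / k) := by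
      rw [h3, abs_neg, abs_of_nonneg (mul_nonneg hj0 (div_nonneg hc.1 hk0.le))]
    have h5 : j * (c / k) * len O m = j * (c * (len O m / k)) := by
      field_simp
    have h6 : c * (len O m / k) ≤ R.r0 / 16 := by
      have h7 : 0 ≤ len O m / k := (div_pos hL hk0).le
      calc c * (len O m / k) ≤ 1 * (len O m / k) := mul_le_mul_of_nonneg_right hc.2 h7
        _ ≤ R.r0 / 16 := by linarith
    have h6' : 0 ≤ c * (len O m / k) := mul_nonneg hc.1 (div_pos hL hk0).le
    have h8 : |c * (i : ℝ) / k - c * ((i + j : ℕ) : ℝ) / k| * len O m < R.r0 := by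
      rw [h4, h5]
      nlinarith
    rw [R.ep_dist O m _ _ hOm h1.1 h1.2 h2.1 h2.2 h8, h4]
    field_simp
  refine ⟨fun t i => R.ep O m (t * ((min i k : ℕ) : ℝ) / k), fun t => t * len O m,
    ⟨?_, ?_, ?_, ?_, ?_⟩, ?_, ?_, ?_⟩
  · intro c hc
    refine ⟨?_, ?_, ?_⟩
    · intro i hi
      have h := hstep c hc i 1 (by omega) (by omega)
      simp only [Nat.min_eq_left hi.le, Nat.min_eq_left (Nat.succ_le_of_lt hi)]
      rw [h]
      push_cast
      ring
    · intro i hi
      have h := hstep c hc i 2 (by omega) (by omega)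
      have hi1 : i ≤ k := by omega
      have hi2 : i + 2 ≤ k := by omega
      simp only [Nat.min_eq_left hi1, Nat.min_eq_left hi2]
      rw [h]
      push_cast
      ring
    · intro i hi
      simp only [Nat.min_eq_right hi, Nat.min_self]
  · intro c hc
    have h1 : c * len O m ≤ 1 * len O m := mul_le_mul_of_nonneg_right hc.2 hL.le
    show c * len O m ≤ k * (R.r0 / 16)
    linarith
  · intro c hc
    show R.ep O m (c * ((min 0 k : ℕ) : ℝ) / k) = R.vert O
    rw [Nat.zero_min, Nat.cast_zero, mul_zero, zero_div]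
    exact R.ep_zero O m hOm
  · intro c hc
    show R.ep O m (c * ((min k k : ℕ) : ℝ) / k) = R.ep O m c
    rw [Nat.min_self, mul_div_assoc, div_self hk0.ne', mul_one]
  · intro c hc c' hc' hcc i hi
    show dist (R.ep O m (c * ((min i k : ℕ) : ℝ) / k))
      (R.ep O m (c' * ((min i k : ℕ) : ℝ) / k)) ≤ R.r0 / 16
    rw [Nat.min_eq_left hi]
    have h1 := hmem c hc i hi
    have h2 := hmem c' hc' i hi
    refine le_trans (R.ep_lip O m _ _ hOm h1.1 h1.2 h2.1 h2.2) (le_trans ?_ hcc)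
    refine mul_le_mul_of_nonneg_left ?_ R.lip_pos.le
    have hi' : (i : ℝ) ≤ k := Nat.cast_le.mpr hi
    have h0 : (0 : ℝ) ≤ i := Nat.cast_nonneg i
    have h3 : c * (i : ℝ) / k - c' * (i : ℝ) / k = (c - c') * ((i : ℝ) / k) := by ring
    rw [h3, abs_mul, abs_of_nonneg (div_nonneg h0 hk0.le), Real.norm_eq_abs]
    calc |c - c'| * ((i : ℝ) / k) ≤ |c - c'| * 1 :=
          mul_le_mul_of_nonneg_left ((div_le_one hk0).mpr hi') (abs_nonneg _)
      _ = |c - c'| := mul_one _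
  · funext i
    show R.ep O m (0 * ((min i k : ℕ) : ℝ) / k) = R.vert O
    rw [zero_mul, zero_div]
    exact R.ep_zero O m hOm
  · intro i hi
    show R.ep O m (1 * ((min i k : ℕ) : ℝ) / k) = R.ep O m (i / k)
    rw [Nat.min_eq_left hi, one_mul]
  · have hmO : Y.edge m O := Y.edge_symm _ _ hOm
    show R.a m (R.dir m (R.ep O m (1 * ((min (k - 1) k : ℕ) : ℝ) / k))) ((Γ m).vtx O) = 0
    rw [Nat.min_eq_left (Nat.sub_le k 1), one_mul, R.ep_symm m O _ hmO]
    have h1 : 1 - ((k - 1 : ℕ) : ℝ) / k = 1 / k := by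
      rw [Nat.cast_sub hk, Nat.cast_one]
      field_simp
      ring
    rw [h1]
    refine R.dir_ep m O (1 / k) hmO (by positivity) ?_ ?_
    · rw [div_le_one hk0]
      exact hk1
    · rw [hn.symm m O, one_div, inv_mul_eq_div]
      linarith

end Pool.Agent.helper55.EV
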