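import Pool.Agent.helper55.EV.Defs

set_option autoImplicit false

/-!
# EAG-SEC2: explicit discrete geodesics along two edges
-/

namespace Pool.Agent.helper55.EV

open Pool.Agent.helper34.FJ2 Pool.Agent.helper34.FJ3
open scoped BigOperators

variable {V : Type} {Y : Complex2 V} {len : V → V → ℝ} {Γ : V → MGraph V}

/-- the lengths of the edges are at most the Lipschitz constant -/
theorem SEC2_len_le (R : Realization Y len Γ) (hn : NPC Y len) (a b : V) (hab : Y.edge a b) :
    len a b ≤ R.lip := by
  have hr : 0 < R.r0 := R.cn.1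
  have hl : 0 < len a b := hn.pos a b hab
  obtain ⟨t, ht, ht1, ht2⟩ : ∃ t : ℝ, 0 < t ∧ t ≤ 1 ∧ t * len a b < R.r0 := by
    refine ⟨min 1 (R.r0 / (2 * len a b)), lt_min one_pos (by positivity), min_le_left _ _, ?_⟩
    calc min 1 (R.r0 / (2 * len a b)) * len a b ≤ R.r0 / (2 * len a b) * len a b :=
          mul_le_mul_of_nonneg_right (min_le_right _ _) hl.le
      _ = R.r0 / 2 := by field_simp
      _ < R.r0 := by linarith
  have h1 := R.ep_dist a b t 0 hab ht.le ht1 le_rfl zero_le_one
    (by rw [sub_zero, abs_of_pos ht]; exact ht2)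
  have h2 := R.ep_lip a b t 0 hab ht.le ht1 le_rfl zero_le_one
  rw [h1, sub_zero, abs_of_pos ht, mul_comm] at h2
  exact le_of_mul_le_mul_right h2 ht

/-- the end of an edge -/
theorem SEC2_ep_one (R : Realization Y len Γ) (a b : V) (hab : Y.edge a b) :
    R.ep a b 1 = R.vert b := by
  have h := R.ep_symm a b 0 hab
  rw [sub_zero] at h
  rw [← h, R.ep_zero b a (Y.edge_symm _ _ hab)]

/-- the path `O, m, B` by arc length -/
noncomputable def SEC2_pt (R : Realization Y len Γ) (O m B : V) (u : ℝ) : R.M :=
  if u ≤ len O m then R.ep O m (u / len O m) else R.ep m B ((u - len O m) / len m B)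

theorem SEC2_pt_left (R : Realization Y len Γ) (O m B : V) (u : ℝ) (hu : u ≤ len O m) :
    SEC2_pt R O m B u = R.ep O m (u / len O m) := if_pos hu

theorem SEC2_pt_right (R : Realization Y len Γ) (hn : NPC Y len) (O m B : V)
    (hOm : Y.edge O m) (hmB : Y.edge m B) (u : ℝ) (hu : len O m ≤ u) :
    SEC2_pt R O m B u = R.ep m B ((u - len O m) / len m B) := by
  rcases hu.lt_or_eq with h | h
  · exact if_neg (not_le.mpr h)
  · have hl : 0 < len O m := hn.pos O m hOm
    rw [SEC2_pt_left R O m B u h.ge, ← h, div_self hl.ne', sub_self, zero_div,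
      SEC2_ep_one R O m hOm, R.ep_zero m B hmB]

theorem SEC2_dist (R : Realization Y len Γ) (hn : NPC Y len) (O m B : V)
    (hOm : Y.edge O m) (hmB : Y.edge m B)
    (hang : Real.pi ≤ R.a m ((Γ m).vtx O) ((Γ m).vtx B)) (u u' : ℝ) (h0 : 0 ≤ u) (h : u ≤ u')
    (hu : u' ≤ len O m + len m B) (hr : u' - u < R.r0) :
    dist (SEC2_pt R O m B u) (SEC2_pt R O m B u') = u' - u := by
  have hl1 : 0 < len O m := hn.pos O m hOm
  have hl2 : 0 < len m B := hn.pos m B hmB
  have hmO : Y.edge m O := Y.edge_symm _ _ hOm
  rcases le_total u' (len O m) with h1 | h1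
  · rw [SEC2_pt_left R O m B u (h.trans h1), SEC2_pt_left R O m B u' h1]
    have e : |u / len O m - u' / len O m| * len O m = u' - u := by
      rw [← sub_div, abs_div, abs_of_pos hl1, div_mul_cancel₀ _ hl1.ne', abs_sub_comm,
        abs_of_nonneg (by linarith)]
    rw [R.ep_dist O m _ _ hOm (by positivity) ((div_le_one hl1).mpr (h.trans h1))
      (div_nonneg (h0.trans h) hl1.le) ((div_le_one hl1).mpr h1) (by rw [e]; exact hr), e]
  rcases le_total (len O m) u with h2 | h2
  · rw [SEC2_pt_right R hn O m B hOm hmB u h2, SEC2_pt_right R hn O m B hOm hmB u' h1]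
    have e : |(u - len O m) / len m B - (u' - len O m) / len m B| * len m B = u' - u := by
      rw [← sub_div, abs_div, abs_of_pos hl2, div_mul_cancel₀ _ hl2.ne', abs_sub_comm,
        abs_of_nonneg (by linarith)]
      ring
    rw [R.ep_dist m B _ _ hmB (div_nonneg (by linarith) hl2.le)
      ((div_le_one hl2).mpr (by linarith)) (div_nonneg (by linarith) hl2.le)
      ((div_le_one hl2).mpr (by linarith)) (by rw [e]; exact hr), e]
  -- the two points are on different sides of `m`
  have ha := R.ha m
  rw [SEC2_pt_left R O m B u h2, SEC2_pt_right R hn O m B hOm hmB u' h1]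
  have hlm : len m O = len O m := hn.symm m O
  have e1 : R.ep O m (u / len O m) = R.ep m O ((len O m - u) / len O m) := by
    rw [R.ep_symm O m _ hOm, sub_div, div_self hl1.ne', sub_sub_cancel]
  have x0 : 0 ≤ (len O m - u) / len O m := div_nonneg (by linarith) hl1.le
  have x1 : (len O m - u) / len O m ≤ 1 := (div_le_one hl1).mpr (by linarith)
  have y0 : 0 ≤ (u' - len O m) / len m B := div_nonneg (by linarith) hl2.le
  have y1 : (u' - len O m) / len m B ≤ 1 := (div_le_one hl2).mpr (by linarith)
  have ex : (len O m - u) / len O m * len m O = len O m - u := by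
    rw [hlm, div_mul_cancel₀ _ hl1.ne']
  have ey : (u' - len O m) / len m B * len m B = u' - len O m := div_mul_cancel₀ _ hl2.ne'
  have d1 : dist (R.vert m) (R.ep m O ((len O m - u) / len O m)) = len O m - u := by
    rw [← R.ep_zero m O hmO]
    have e : |0 - (len O m - u) / len O m| * len m O = len O m - u := by
      rw [zero_sub, abs_neg, abs_of_nonneg x0, ex]
    rw [R.ep_dist m O _ _ hmO le_rfl zero_le_one x0 x1 (by rw [e]; linarith), e]
  have d2 : dist (R.vert m) (R.ep m B ((u' - len O m) / len m B)) = u' - len O m := by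
    rw [← R.ep_zero m B hmB]
    have e : |0 - (u' - len O m) / len m B| * len m B = u' - len O m := by
      rw [zero_sub, abs_neg, abs_of_nonneg y0, ey]
    rw [R.ep_dist m B _ _ hmB le_rfl zero_le_one y0 y1 (by rw [e]; linarith), e]
  rw [e1]
  rcases h2.lt_or_eq with h3 | h3
  swap
  · have : (len O m - u) / len O m = 0 := by rw [h3, sub_self, zero_div]
    rw [this, R.ep_zero m O hmO, d2, h3]
  rcases h1.lt_or_eq with h4 | h4
  swap
  · have : (u' - len O m) / len m B = 0 := by rw [h4, sub_self, zero_div]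
    rw [this, R.ep_zero m B hmB, dist_comm, d1, ← h4]
  have g1 := R.dir_ep m O ((len O m - u) / len O m) hmO (div_pos (by linarith) hl1) x1
    (by rw [ex]; linarith)
  have g2 := R.dir_ep m B ((u' - len O m) / len m B) hmB (div_pos (by linarith) hl2) y1
    (by rw [ey]; linarith)
  have hpi : R.a m (R.dir m (R.ep m O ((len O m - u) / len O m)))
      (R.dir m (R.ep m B ((u' - len O m) / len m B))) = Real.pi := by
    refine le_antisymm (ha.le_pi _ _) (hang.trans ?_)
    refine (ha.tri _ (R.dir m (R.ep m O ((len O m - u) / len O m))) _).trans ?_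
    rw [ha.symm, g1, zero_add]
    refine (ha.tri _ (R.dir m (R.ep m B ((u' - len O m) / len m B))) _).trans ?_
    rw [g2, add_zero]
  rw [R.cone m _ _ (by rw [d1]; linarith) (by rw [d2]; linarith), d1, d2]
  unfold cdist
  rw [hpi, Real.cos_pi]
  have : (len O m - u) ^ 2 + (u' - len O m) ^ 2 - 2 * (len O m - u) * (u' - len O m) * -1
      = (u' - u) ^ 2 := by ring
  rw [this, Real.sqrt_sq (by linarith)]

/-- the section over the edge `m B` which consists of the initial segments of the path `O, m, B`,
when the angle at `m` is `π` -/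
theorem straight2 (R : Realization Y len Γ) (hn : NPC Y len) (O m B : V) (hOm : Y.edge O m)
    (hmB : Y.edge m B) (hang : Real.pi ≤ R.a m ((Γ m).vtx O) ((Γ m).vtx B))
    (k : ℕ) (hk : 0 < k) (hk' : 2 * R.lip ≤ k * (R.r0 / 16))
    (hk'' : len O m + len m B ≤ k * len m B) (q1 : ℕ → R.M)
    (h1 : ∀ i, i ≤ k → q1 i = R.ep O m (i / k)) (h1' : ∀ i, k ≤ i → q1 i = q1 k) :
    ∃ (s : ℝ → ℕ → R.M) (ℓ : ℝ → ℝ),
      IsSection k (R.vert O) (R.r0 / 16) R.lip (Set.Icc (0 : ℝ) 1) (R.ep m B) s ℓ ∧
      s 0 = q1 ∧
      R.a B (R.dir B (s 1 (k - 1))) ((Γ B).vtx m) = 0 := by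
  have hr : 0 < R.r0 := R.cn.1
  have hl1 : 0 < len O m := hn.pos O m hOm
  have hl2 : 0 < len m B := hn.pos m B hmB
  have hL1 : len O m ≤ R.lip := SEC2_len_le R hn O m hOm
  have hL2 : len m B ≤ R.lip := SEC2_len_le R hn m B hmB
  have hkr : (0 : ℝ) < k := Nat.cast_pos.mpr hk
  have hD := SEC2_dist R hn O m B hOm hmB hang
  -- the general position
  have hpos : ∀ t ∈ Set.Icc (0 : ℝ) 1, ∀ i : ℕ, i ≤ k →
      0 ≤ (len O m + t * len m B) * i / k ∧
      (len O m + t * len m B) * i / k ≤ len O m + len m B := by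
    intro t ht i hi
    have hik : (i : ℝ) ≤ k := Nat.cast_le.mpr hi
    have hi0 : (0 : ℝ) ≤ i := Nat.cast_nonneg i
    have hc : 0 ≤ len O m + t * len m B := by
      have := mul_nonneg ht.1 hl2.le
      linarith
    have hc' : len O m + t * len m B ≤ len O m + len m B := by
      have := mul_le_mul_of_nonneg_right ht.2 hl2.le
      linarith
    refine ⟨div_nonneg (mul_nonneg hc hi0) hkr.le, ?_⟩
    rw [div_le_iff₀ hkr]
    exact mul_le_mul hc' hik hi0 (hc.trans hc')
  have hLk : ∀ t ∈ Set.Icc (0 : ℝ) 1, len O m + t * len m B ≤ k * (R.r0 / 16) := by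
    intro t ht
    have := mul_le_mul_of_nonneg_right ht.2 hl2.le
    linarith
  refine ⟨fun t i => SEC2_pt R O m B ((len O m + t * len m B) * (min i k : ℕ) / k),
    fun t => len O m + t * len m B, ⟨?_, hLk, ?_, ?_, ?_⟩, ?_, ?_⟩
  · -- geodesics
    intro t ht
    have hc : 0 ≤ len O m + t * len m B := by
      have := mul_nonneg ht.1 hl2.le
      linarith
    have hs : (len O m + t * len m B) / k ≤ R.r0 / 16 := by
      rw [div_le_iff₀ hkr]
      exact (hLk t ht).trans_eq (mul_comm _ _)
    have hs0 : 0 ≤ (len O m + t * len m B) / k := div_nonneg hc hkr.le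
    refine ⟨fun i hi => ?_, fun i hi => ?_, fun i hi => ?_⟩
    · have e1 : min i k = i := min_eq_left hi.le
      have e2 : min (i + 1) k = i + 1 := min_eq_left hi
      have e3 : (len O m + t * len m B) * ((i + 1 : ℕ) : ℝ) / k
          = (len O m + t * len m B) * (i : ℝ) / k + (len O m + t * len m B) / k := by
        push_cast
        ring
      show dist (SEC2_pt R O m B ((len O m + t * len m B) * (min i k : ℕ) / k))
        (SEC2_pt R O m B ((len O m + t * len m B) * (min (i + 1) k : ℕ) / k)) = _
      rw [e1, e2, hD _ _ (hpos t ht i hi.le).1 (by rw [e3]; linarith)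
        (hpos t ht (i + 1) hi).2 (by rw [e3]; linarith), e3]
      ring
    · have e1 : min i k = i := min_eq_left (by omega)
      have e2 : min (i + 2) k = i + 2 := min_eq_left (by omega)
      have e3 : (len O m + t * len m B) * ((i + 2 : ℕ) : ℝ) / k
          = (len O m + t * len m B) * (i : ℝ) / k + 2 * ((len O m + t * len m B) / k) := by
        push_cast
        ring
      show dist (SEC2_pt R O m B ((len O m + t * len m B) * (min i k : ℕ) / k))
        (SEC2_pt R O m B ((len O m + t * len m B) * (min (i + 2) k : ℕ) / k)) = _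
      rw [e1, e2, hD _ _ (hpos t ht i (by omega)).1 (by rw [e3]; linarith)
        (hpos t ht (i + 2) (by omega)).2 (by rw [e3]; linarith), e3]
      ring
    · show SEC2_pt R O m B ((len O m + t * len m B) * (min i k : ℕ) / k)
        = SEC2_pt R O m B ((len O m + t * len m B) * (min k k : ℕ) / k)
      rw [min_eq_right hi, min_self]
  · -- start
    intro t ht
    show SEC2_pt R O m B ((len O m + t * len m B) * (min 0 k : ℕ) / k) = R.vert O
    rw [Nat.zero_min, Nat.cast_zero, mul_zero, zero_div, SEC2_pt_left R O m B 0 hl1.le, zero_div,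
      R.ep_zero O m hOm]
  · -- end
    intro t ht
    show SEC2_pt R O m B ((len O m + t * len m B) * (min k k : ℕ) / k) = R.ep m B t
    rw [min_self, mul_div_assoc, div_self hkr.ne', mul_one,
      SEC2_pt_right R hn O m B hOm hmB _ (by
        have := mul_nonneg ht.1 hl2.le
        linarith), add_sub_cancel_left, mul_div_assoc, div_self hl2.ne', mul_one]
  · -- near
    intro c hc c' hc' hcc i hi
    show dist (SEC2_pt R O m B ((len O m + c * len m B) * (min i k : ℕ) / k))
      (SEC2_pt R O m B ((len O m + c' * len m B) * (min i k : ℕ) / k)) ≤ R.r0 / 16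
    rw [min_eq_left hi]
    have hik : (i : ℝ) ≤ k := Nat.cast_le.mpr hi
    have hi0 : (0 : ℝ) ≤ i := Nat.cast_nonneg i
    have key : ∀ c ∈ Set.Icc (0 : ℝ) 1, ∀ c' ∈ Set.Icc (0 : ℝ) 1, c ≤ c' →
        R.lip * (c' - c) ≤ R.r0 / 16 →
        dist (SEC2_pt R O m B ((len O m + c * len m B) * (i : ℝ) / k))
          (SEC2_pt R O m B ((len O m + c' * len m B) * (i : ℝ) / k)) ≤ R.r0 / 16 := by
      intro c hc c' hc' hle hl
      have e : (len O m + c' * len m B) * (i : ℝ) / k - (len O m + c * len m B) * (i : ℝ) / k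
          = (c' - c) * len m B * (i / k) := by
        ring
      have hq : (i : ℝ) / k ≤ 1 := (div_le_one hkr).mpr hik
      have hq0 : (0 : ℝ) ≤ i / k := div_nonneg hi0 hkr.le
      have hd : 0 ≤ (c' - c) * len m B := mul_nonneg (by linarith) hl2.le
      have hd1 : (c' - c) * len m B * (i / k) ≤ R.r0 / 16 := by
        calc (c' - c) * len m B * (i / k) ≤ (c' - c) * len m B * 1 :=
              mul_le_mul_of_nonneg_left hq hd
          _ = (c' - c) * len m B := mul_one _
          _ ≤ (c' - c) * R.lip := mul_le_mul_of_nonneg_left hL2 (by linarith)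
          _ ≤ R.r0 / 16 := by rw [mul_comm]; exact hl
      have hd2 : 0 ≤ (c' - c) * len m B * (i / k) := mul_nonneg hd hq0
      rw [hD _ _ (hpos c hc i hi).1 (by linarith) (hpos c' hc' i hi).2 (by rw [e]; linarith), e]
      exact hd1
    rcases le_total c c' with h | h
    · refine key c hc c' hc' h ?_
      rwa [Real.norm_eq_abs, abs_sub_comm, abs_of_nonneg (by linarith)] at hcc
    · rw [dist_comm]
      refine key c' hc' c hc h ?_
      rwa [Real.norm_eq_abs, abs_of_nonneg (by linarith)] at hcc
  · -- the first geodesic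
    funext i
    show SEC2_pt R O m B ((len O m + 0 * len m B) * (min i k : ℕ) / k) = q1 i
    have hq : q1 i = q1 (min i k) := by
      rcases le_total i k with h | h
      · rw [min_eq_left h]
      · rw [min_eq_right h, h1' i h]
    have hle : ((min i k : ℕ) : ℝ) / k ≤ 1 :=
      (div_le_one hkr).mpr (Nat.cast_le.mpr (min_le_right i k))
    have e : (len O m + 0 * len m B) * (min i k : ℕ) / k = len O m * ((min i k : ℕ) / k) := by
      ring
    rw [hq, h1 (min i k) (min_le_right i k), e, SEC2_pt_left R O m B _ (by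
      calc len O m * (((min i k : ℕ) : ℝ) / k) ≤ len O m * 1 :=
            mul_le_mul_of_nonneg_left hle hl1.le
        _ = len O m := mul_one _), mul_comm, mul_div_assoc, div_self hl1.ne', mul_one]
  · -- the direction at the end
    show R.a B (R.dir B (SEC2_pt R O m B ((len O m + 1 * len m B) * (min (k - 1) k : ℕ) / k)))
      ((Γ B).vtx m) = 0
    have hBm : Y.edge B m := Y.edge_symm _ _ hmB
    have e0 : min (k - 1) k = k - 1 := min_eq_left (Nat.sub_le k 1)
    have e1 : (len O m + 1 * len m B) * ((k - 1 : ℕ) : ℝ) / k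
        = len O m + len m B - (len O m + len m B) / k := by
      rw [Nat.cast_sub hk, Nat.cast_one]
      field_simp
    have hx : (len O m + len m B) / k ≤ len m B := by
      rw [div_le_iff₀ hkr, mul_comm]
      exact hk''
    have hx0 : 0 < (len O m + len m B) / k := by positivity
    rw [e0, e1, SEC2_pt_right R hn O m B hOm hmB _ (by linarith)]
    have e2 : R.ep m B ((len O m + len m B - (len O m + len m B) / k - len O m) / len m B)
        = R.ep B m ((len O m + len m B) / k / len m B) := by
      rw [R.ep_symm m B _ hmB]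
      congr 1
      field_simp
      ring
    have e3 : len B m = len m B := hn.symm B m
    rw [e2]
    refine R.dir_ep B m _ hBm (div_pos hx0 hl2) ((div_le_one hl2).mpr hx) ?_
    rw [e3, div_mul_cancel₀ _ hl2.ne', div_lt_iff₀ hkr]
    nlinarith

end Pool.Agent.helper55.EV
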