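import Pool.Agent.helper55.EV.Defs

set_option autoImplicit false

/-!
# EAG-TRB: transport of discrete geodesics from a base point which lies in the finite set
-/

namespace Pool.Agent.helper55.EV

open Pool.Agent.helper34.FJ2 Pool.Agent.helper34.FJ3
open Pool.Agent.helper40.FJ3
open scoped BigOperators

/-- `exists_transport_of` of helper40 with arbitrarily many steps, and constant at the base
point -/
theorem exists_transport_base {V : Type} {Y : Complex2 V}
    {len : V → V → ℝ} {Γ : V → MGraph V}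
    (R : Realization Y len Γ) (hs : SimplyConnected Y) (O : V) (F : Set V) (hF : F.Finite)
    (hO : O ∈ F) (K0 : ℕ) :
    ∃ (k : ℕ) (q : V → ℕ → R.M) (L : V → ℝ), 0 < k ∧ K0 ≤ k ∧
      (∀ p ∈ F, KGeo k (L p) (q p) ∧ L p ≤ k * (R.r0 / 16) ∧ q p 0 = R.vert O ∧
        q p k = R.vert p) ∧
      (∀ p ∈ F, ∀ x ∈ F, Y.edge p x → ∃ (s : ℝ → ℕ → R.M) (ℓ : ℝ → ℝ),
        IsSection k (R.vert O) (R.r0 / 16) R.lip (Set.Icc (0 : ℝ) 1) (R.ep p x) s ℓ ∧
        s 0 = q p ∧ s 1 = q x ∧ ℓ 0 = L p ∧ ℓ 1 = L x) ∧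
      q O = fun _ => R.vert O := by
  classical
  have hE := exSec
  have hU := secUniq
  have hr0 : 0 < R.r0 := R.cn.1
  have hlip := R.lip_pos
  -- paths, the path from the base point to itself is trivial
  obtain ⟨l, hl, hlend, hlO⟩ : ∃ l : V → List V, (∀ p, IsPath Y O (l p)) ∧
      (∀ p, endp O (l p) = p) ∧ l O = [] := by
    choose l0 hl0 hlend0 using fun p => hs.2.1 O p
    refine ⟨Function.update l0 O [], fun p => ?_, fun p => ?_, Function.update_self _ _ _⟩
    · by_cases hp : p = O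
      · rw [hp, Function.update_self]
        trivial
      · rw [Function.update_of_ne hp]
        exact hl0 p
    · by_cases hp : p = O
      · rw [hp, Function.update_self]
        rfl
      · rw [Function.update_of_ne hp]
        exact hlend0 p
  -- homotopies
  have hh : ∀ p x : V, ∃ B : ℝ, Y.edge p x → ∀ (k : ℕ), 0 < k → ∀ (L : ℝ) (q : ℕ → R.M),
      Good R O k O L q → L + B ≤ k * (R.r0 / 16) → ∀ q',
        AL R O k O (l p ++ [x]) q q' ↔ AL R O k O (l x) q q' := by
    intro p x
    by_cases hpx : Y.edge p x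
    · have hp1 : IsPath Y O (l p ++ [x]) := by
        rw [isPath_append]
        refine ⟨hl p, ?_⟩
        rw [hlend]
        exact ⟨hpx, trivial⟩
      have hend : endp O (l p ++ [x]) = endp O (l x) := by
        rw [endp_append, hlend x]
        rfl
      have hrev : IsPath Y (endp O (l p ++ [x])) (rev O (l x)) := by
        rw [hend]
        exact isPath_rev Y O (l x) (hl x)
      have hclosed : Htpy Y O ((l p ++ [x]) ++ rev O (l x)) [] := by
        apply hs.2.2
        · rw [isPath_append]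
          exact ⟨hp1, hrev⟩
        · rw [endp_append, hend, endp_rev]
      have h2 := htpy_rev Y O (l x) (hl x)
      have h3 : Htpy Y O ((l p ++ [x]) ++ rev O (l x)) (l x ++ rev O (l x)) :=
        hclosed.trans _ _ _ _ h2.symm
      have h4 := Htpy.cancel_right (rev O (l x)) hend hrev h3
      obtain ⟨B, hB⟩ := AL.htpy R O hE hU h4 hp1
      exact ⟨B, fun _ => hB⟩
    · exact ⟨0, fun h => absurd h hpx⟩
  choose B hB using hh
  -- the number of steps
  obtain ⟨k, hk0, hkK, hk1, hk2⟩ : ∃ k : ℕ, 0 < k ∧ K0 ≤ k ∧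
      (∀ p ∈ F, ((l p).length + 1 : ℝ) * R.lip ≤ k * (R.r0 / 16)) ∧
      ∀ p ∈ F, ∀ x ∈ F, B p x ≤ k * (R.r0 / 16) := by
    obtain ⟨C1, hC1⟩ := (hF.image (fun p => ((l p).length + 1 : ℝ) * R.lip)).bddAbove
    obtain ⟨C2, hC2⟩ := ((hF.prod hF).image (fun u => B u.1 u.2)).bddAbove
    obtain ⟨k0, hk00⟩ := exists_nat_gt (max (max C1 C2) 1 / (R.r0 / 16))
    rw [div_lt_iff₀ (by positivity)] at hk00
    have h1 := le_max_left (max C1 C2) 1
    have h2 := le_max_right (max C1 C2) 1
    have h3 := le_max_left C1 C2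
    have h4 := le_max_right C1 C2
    have h5 : (k0 : ℝ) * (R.r0 / 16) ≤ ((k0 + K0 : ℕ) : ℝ) * (R.r0 / 16) := by
      apply mul_le_mul_of_nonneg_right _ (by positivity)
      exact_mod_cast Nat.le_add_right k0 K0
    refine ⟨k0 + K0, ?_, Nat.le_add_left _ _, fun p hp => ?_, fun p hp x hx => ?_⟩
    · rcases Nat.eq_zero_or_pos k0 with h | h
      · rw [h] at hk00
        simp only [Nat.cast_zero, zero_mul] at hk00
        linarith
      · omega
    · have := hC1 ⟨p, hp, rfl⟩
      simp only at this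
      linarith
    · have := hC2 ⟨(p, x), ⟨hp, hx⟩, rfl⟩
      simp only at this
      linarith
  -- the constant sequence
  have hconst : Good R O k O 0 (fun _ => R.vert O) := by
    refine ⟨0, ⟨fun i _ => by simp, fun i _ => by simp, fun i _ => rfl⟩, le_refl _, rfl, rfl⟩
  have hex : ∀ p : V, ∃ q : ℕ → R.M, p ∈ F → AL R O k O (l p) (fun _ => R.vert O) q ∧
      Good R O k p ((l p).length * R.lip) q := by
    intro p
    by_cases hp : p ∈ F
    · have h1 := hk1 p hp
      obtain ⟨q, h2, h3⟩ := AL.exists hE hk0 (hl p) hconst (by linarith)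
      rw [hlend, zero_add] at h3
      exact ⟨q, fun _ => ⟨h2, h3⟩⟩
    · exact ⟨fun _ => R.vert O, fun h => absurd h hp⟩
  choose q hq using hex
  refine ⟨k, q, fun p => k * dist (q p 0) (q p 1), hk0, hkK, fun p hp => ?_,
    fun p hp x hx hpx => ?_, ?_⟩
  · obtain ⟨h1, L', h2, h3, h4, h5⟩ := hq p hp
    have h6 := kgeo_len_eq hk0 h2
    beta_reduce
    rw [← h6]
    refine ⟨h2, ?_, h4, h5⟩
    have := hk1 p hp
    linarith
  · obtain ⟨h1, h2⟩ := hq p hp
    obtain ⟨h3, h4⟩ := hq x hx
    obtain ⟨q'', h5, h6⟩ := ER.exists hE hk0 hpx h2 (by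
      have := hk1 p hp
      linarith)
    have h7 : AL R O k O (l p ++ [x]) (fun _ => R.vert O) q'' := by
      refine h1.append ?_
      rw [hlend]
      exact ⟨q'', h5, rfl⟩
    have h8 := (hB p x hpx k hk0 0 _ hconst (by
      have := hk2 p hp x hx
      linarith) q'').1 h7
    have h9 := h8.unique hU hk0 h3
    subst h9
    obtain ⟨s, ℓ, hs, hs0, hs1⟩ := h5
    refine ⟨s, ℓ, hs, hs0, hs1, ?_, ?_⟩
    · have := kgeo_len_eq hk0 (hs.geo 0 zero_mem_I)
      rw [hs0] at this
      exact this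
    · have := kgeo_len_eq hk0 (hs.geo 1 one_mem_I)
      rw [hs1] at this
      exact this
  · have h1 := (hq O hO).1
    rw [hlO] at h1
    exact Eq.symm h1

end Pool.Agent.helper55.EV
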