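import Pool.Agent.helper55.EV.Link
import Pool.Agent.helper55.EV.Trans
import Pool.Agent.helper55.EV.Sec1
import Pool.Agent.helper55.EV.Sec2

set_option autoImplicit false

/-!
# EAG-POL: there are no polygons with few corners
-/

namespace Pool.Agent.helper55.EV

open Pool.Agent.helper34.FJ2 Pool.Agent.helper34.FJ3
open scoped BigOperators

/-- the directions `ξ p` at `p` of the discrete geodesics from the base point `O` to `p`, and
their lengths `L p`, for the vertices `p` of a finite set -/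
theorem POL_setup {V : Type} {Y : Complex2 V} {len : V → V → ℝ} {Γ : V → MGraph V}
    (R : Realization Y len Γ) (hs : SimplyConnected Y) (hn : NPC Y len) (O : V) (F : Set V)
    (hF : F.Finite) (hO : O ∈ F) :
    ∃ (ξ : ∀ p, (Γ p).Pt) (L : V → ℝ),
      (∀ p ∈ F, ∀ x ∈ F, Y.edge p x → Real.pi / 2 ≤ R.a p (ξ p) ((Γ p).vtx x) → L p < L x) ∧
      (∀ m ∈ F, Y.edge O m → R.a m (ξ m) ((Γ m).vtx O) = 0) ∧
      (∀ m ∈ F, ∀ B ∈ F, Y.edge O m → Y.edge m B →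
        Real.pi ≤ R.a m ((Γ m).vtx O) ((Γ m).vtx B) → R.a B (ξ B) ((Γ B).vtx m) = 0) := by
  classical
  have hr0 : 0 < R.r0 := R.cn.1
  have hlip := R.lip_pos
  have hr16 : 0 < R.r0 / 16 := by positivity
  obtain ⟨C1, hC1⟩ := ((hF.prod hF).image
    (fun u => (len O u.1 + len u.1 u.2) / len u.1 u.2)).bddAbove
  obtain ⟨K0, hK0⟩ := exists_nat_gt (max (2 * R.lip / (R.r0 / 16)) C1)
  obtain ⟨k, q, L, hk, hkK, hq, hsec, hqO⟩ := exists_transport_base R hs O F hF hO K0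
  have hkK' : (K0 : ℝ) ≤ k := by exact_mod_cast hkK
  have hk2 : 2 * R.lip ≤ k * (R.r0 / 16) := by
    have h1 : 2 * R.lip / (R.r0 / 16) < k := (le_max_left _ C1).trans_lt (hK0.trans_le hkK')
    rw [div_lt_iff₀ hr16] at h1
    exact h1.le
  have hk1 : R.lip ≤ k * (R.r0 / 16) := by linarith
  have hk3 : ∀ m ∈ F, ∀ B ∈ F, Y.edge m B → len O m + len m B ≤ k * len m B := by
    intro m hm B hB hmB
    have h1 : (len O m + len m B) / len m B ≤ C1 := hC1 ⟨(m, B), ⟨hm, hB⟩, rfl⟩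
    have h2 : (len O m + len m B) / len m B ≤ k :=
      h1.trans ((le_max_right _ _).trans (hK0.le.trans hkK'))
    rwa [div_le_iff₀ (hn.pos _ _ hmB)] at h2
  -- the geodesics to the neighbours of the base point
  have key1 : ∀ m ∈ F, Y.edge O m → (∀ i, i ≤ k → q m i = R.ep O m (i / k)) ∧
      R.a m (R.dir m (q m (k - 1))) ((Γ m).vtx O) = 0 := by
    intro m hm hOm
    obtain ⟨s, ℓ, h1, h2, h3, h4⟩ := straight1 R hn O m hOm k hk hk1
    obtain ⟨s', ℓ', h1', h2', h3', -, -⟩ := hsec O hO m hm hOm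
    have h5 : s 1 = s' 1 := secUniq R.M R.r0 k R.cn hk ℝ (Set.Icc (0 : ℝ) 1) (convex_Icc 0 1) 0
      Pool.Agent.helper40.FJ3.zero_mem_I _ _ R.lip_pos _ _ _ _ _ h1 h1'
      (by rw [h2, h2', hqO]) 1 Pool.Agent.helper40.FJ3.one_mem_I
    rw [h3'] at h5
    rw [h5] at h3 h4
    exact ⟨h3, h4⟩
  refine ⟨fun p => R.dir p (q p (k - 1)), L, ?_, fun m hm hOm => (key1 m hm hOm).2, ?_⟩
  · intro p hp x hx hpx hang
    obtain ⟨s, ℓ, hsl, hs0, hs1, hl0, hl1⟩ := hsec p hp x hx hpx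
    have h3 := Pool.Agent.helper77.FJ3.first_variation_of R hn.pos O p x hpx k hk
      (fun hq hq' => Pool.Agent.helper37.FJ3.kgeo_conv R.cn hk hq hq')
      (fun hq => Pool.Agent.helper28.FJ3.kgeo_energy R.cn hk hq)
      (fun hq hq' hq'' => Pool.Agent.helper28.FJ3.kgeo_strict R.cn hk hq hq' hq'')
      s ℓ hsl (Or.inr (by rw [hs0]; exact hang))
    rwa [hl0, hl1] at h3
  · intro m hm B hB hOm hmB hang
    obtain ⟨s, ℓ, h1, h2, h3⟩ := straight2 R hn O m B hOm hmB hang k hk hk2 (hk3 m hm B hB hmB)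
      (q m) (key1 m hm hOm).1 (hq m hm).1.stab
    obtain ⟨s', ℓ', h1', h2', h3', -, -⟩ := hsec m hm B hB hmB
    have h5 : s 1 = s' 1 := secUniq R.M R.r0 k R.cn hk ℝ (Set.Icc (0 : ℝ) 1) (convex_Icc 0 1) 0
      Pool.Agent.helper40.FJ3.zero_mem_I _ _ R.lip_pos _ _ _ _ _ h1 h1'
      (by rw [h2, h2']) 1 Pool.Agent.helper40.FJ3.one_mem_I
    rw [h3'] at h5
    rw [h5] at h3
    exact h3

theorem no_bigon {V : Type} (Y : Complex2 V) (len : V → V → ℝ) (hs : SimplyConnected Y)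
    (hn : NPC Y len) (hf : {r : ℝ | ∃ a b, Y.edge a b ∧ len a b = r}.Finite)
    (A m₁ B m₂ : V) (h1 : Y.edge A m₁) (h2 : Y.edge m₁ B) (h3 : Y.edge B m₂) (h4 : Y.edge m₂ A)
    (f1 : Far Y len m₁ A B Real.pi) (f2 : Far Y len B m₁ m₂ (Real.pi / 2))
    (f3 : Far Y len m₂ A B Real.pi) : False := by
  have hpi := Real.pi_pos
  obtain ⟨R⟩ := Pool.Agent.helper60.FJ3.exists_realization Y len hs hn hf
  obtain ⟨ξ, L, g1, g2, g3⟩ := POL_setup R hs hn A {A, m₁, B, m₂} (Set.toFinite _) (by simp)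
  have hm₁ : m₁ ∈ ({A, m₁, B, m₂} : Set V) := by simp
  have hB : B ∈ ({A, m₁, B, m₂} : Set V) := by simp
  have hm₂ : m₂ ∈ ({A, m₁, B, m₂} : Set V) := by simp
  have e1 := link_far hn hf m₁ (R.a m₁) (R.ha m₁) A B Real.pi le_rfl f1
  have e2 := link_far hn hf B (R.a B) (R.ha B) m₁ m₂ (Real.pi / 2) (by linarith) f2
  have e3 := link_far hn hf m₂ (R.a m₂) (R.ha m₂) A B Real.pi le_rfl f3
  -- at `B`
  have a1 := g3 m₁ hm₁ B hB h1 h2 e1
  have a2 := (R.ha B).tri ((linkG Y len hn hf B).vtx m₁) (ξ B) ((linkG Y len hn hf B).vtx m₂)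
  rw [(R.ha B).symm _ (ξ B), a1] at a2
  have a3 := g1 B hB m₂ hm₂ h3 (by linarith)
  -- at `m₂`
  have b1 := g2 m₂ hm₂ (Y.edge_symm _ _ h4)
  have b2 := (R.ha m₂).tri ((linkG Y len hn hf m₂).vtx A) (ξ m₂) ((linkG Y len hn hf m₂).vtx B)
  rw [(R.ha m₂).symm _ (ξ m₂), b1] at b2
  have b3 := g1 m₂ hm₂ B hB (Y.edge_symm _ _ h3) (by linarith)
  linarith

theorem no_triangle {V : Type} (Y : Complex2 V) (len : V → V → ℝ) (hs : SimplyConnected Y)
    (hn : NPC Y len) (hf : {r : ℝ | ∃ a b, Y.edge a b ∧ len a b = r}.Finite)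
    (A m₁ B m₂ C m₃ : V) (h1 : Y.edge A m₁) (h2 : Y.edge m₁ B) (h3 : Y.edge B m₂)
    (h4 : Y.edge m₂ C) (h5 : Y.edge C m₃) (h6 : Y.edge m₃ A)
    (f1 : Far Y len m₁ A B Real.pi) (f2 : Far Y len B m₁ m₂ (Real.pi / 2))
    (f3 : Far Y len m₂ B C Real.pi) (f4 : Far Y len C m₃ m₂ (Real.pi / 2))
    (f5 : Far Y len m₃ A C Real.pi) : False := by
  have hpi := Real.pi_pos
  obtain ⟨R⟩ := Pool.Agent.helper60.FJ3.exists_realization Y len hs hn hf
  obtain ⟨ξ, L, g1, g2, g3⟩ := POL_setup R hs hn A {A, m₁, B, m₂, C, m₃} (Set.toFinite _)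
    (by simp)
  have hm₁ : m₁ ∈ ({A, m₁, B, m₂, C, m₃} : Set V) := by simp
  have hB : B ∈ ({A, m₁, B, m₂, C, m₃} : Set V) := by simp
  have hm₂ : m₂ ∈ ({A, m₁, B, m₂, C, m₃} : Set V) := by simp
  have hC : C ∈ ({A, m₁, B, m₂, C, m₃} : Set V) := by simp
  have hm₃ : m₃ ∈ ({A, m₁, B, m₂, C, m₃} : Set V) := by simp
  have e1 := link_far hn hf m₁ (R.a m₁) (R.ha m₁) A B Real.pi le_rfl f1
  have e2 := link_far hn hf B (R.a B) (R.ha B) m₁ m₂ (Real.pi / 2) (by linarith) f2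
  have e3 := link_far hn hf m₂ (R.a m₂) (R.ha m₂) B C Real.pi le_rfl f3
  have e4 := link_far hn hf C (R.a C) (R.ha C) m₃ m₂ (Real.pi / 2) (by linarith) f4
  have e5 := link_far hn hf m₃ (R.a m₃) (R.ha m₃) A C Real.pi le_rfl f5
  -- at `B`
  have a1 := g3 m₁ hm₁ B hB h1 h2 e1
  have a2 := (R.ha B).tri ((linkG Y len hn hf B).vtx m₁) (ξ B) ((linkG Y len hn hf B).vtx m₂)
  rw [(R.ha B).symm _ (ξ B), a1] at a2
  have a3 := g1 B hB m₂ hm₂ h3 (by linarith)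
  -- at `C`
  have c1 := g3 m₃ hm₃ C hC (Y.edge_symm _ _ h6) (Y.edge_symm _ _ h5) e5
  have c2 := (R.ha C).tri ((linkG Y len hn hf C).vtx m₃) (ξ C) ((linkG Y len hn hf C).vtx m₂)
  rw [(R.ha C).symm _ (ξ C), c1] at c2
  have c3 := g1 C hC m₂ hm₂ (Y.edge_symm _ _ h4) (by linarith)
  -- at `m₂`
  have b2 := (R.ha m₂).tri ((linkG Y len hn hf m₂).vtx B) (ξ m₂) ((linkG Y len hn hf m₂).vtx C)
  rw [(R.ha m₂).symm _ (ξ m₂)] at b2
  rcases le_total (Real.pi / 2) (R.a m₂ (ξ m₂) ((linkG Y len hn hf m₂).vtx B)) with h | h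
  · have b3 := g1 m₂ hm₂ B hB (Y.edge_symm _ _ h3) h
    linarith
  · have b3 := g1 m₂ hm₂ C hC h4 (by linarith)
    linarith

end Pool.Agent.helper55.EV
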