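import Pool.Agent.helper55.EV.Npc
import Pool.Agent.helper55.EV.Poly

set_option autoImplicit false

/-!
# EAG-TG8: short alternating relations and the development of a triangle of groups
-/

namespace Pool.Agent.helper55.EV

open Pool.Agent.helper34.FJ2 Pool.Agent.helper34.FJ3
open scoped BigOperators

theorem TG8_tv_eq {G : Type} [Group G] (H : Fin 3 → Subgroup G) (t : Fin 3) {g g' : G}
    (h : g⁻¹ * g' ∈ H t) : tv H t g = tv H t g' :=
  congrArg (Sigma.mk t) (QuotientGroup.eq.2 h)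

theorem TG8_tv_ne {G : Type} [Group G] (H : Fin 3 → Subgroup G) (t : Fin 3) {g g' : G}
    (h : g⁻¹ * g' ∉ H t) : tv H t g ≠ tv H t g' := by
  intro h1
  apply h
  have h2 : (g : G ⧸ H t) = (g' : G ⧸ H t) := eq_of_heq (Sigma.mk.inj h1).2
  exact QuotientGroup.eq.1 h2

theorem TG8_edge {G : Type} [Group G] (H : Fin 3 → Subgroup G) {t t' : Fin 3} (ht : t ≠ t')
    {g₁ g₂ : G} (g : G) (h1 : g₁⁻¹ * g ∈ H t) (h2 : g₂⁻¹ * g ∈ H t') :
    (tog H).edge (tv H t g₁) (tv H t' g₂) :=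
  ⟨g, t, t', ht, TG8_tv_eq H t h1, TG8_tv_eq H t' h2⟩

theorem TG8_types (t t' t'' : Fin 3) (h1 : t ≠ t') (h2 : t' ≠ t'') (h3 : t ≠ t'') :
    (t = 1 → (t' = 0 ∧ t'' = 2) ∨ (t' = 2 ∧ t'' = 0)) ∧
    (t = 0 → (t' = 1 ∧ t'' = 2) ∨ (t' = 2 ∧ t'' = 1)) := by
  revert t t' t''
  decide

/-- the certificate: `0` at `b`, `r` at the other vertices of type `t`, `r / 2` elsewhere -/
theorem TG8_far {G : Type} [Group G] (H : Fin 3 → Subgroup G) (p b c : TV H) (t : Fin 3)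
    (r : ℝ) (hr : 0 < r) (hb : b.1 = t) (hc : c.1 = t) (hbc : b ≠ c)
    (hcor : ∀ x y, (tog H).tri p x y → corner (tlen H) p x y = r / 2 ∧
      ((x.1 = t ∧ y.1 ≠ t) ∨ (x.1 ≠ t ∧ y.1 = t))) : Far (tog H) (tlen H) p b c r := by
  classical
  have key : ∀ u v : TV H, u.1 = t → v.1 ≠ t →
      |(if u = b then (0 : ℝ) else if u.1 = t then r else r / 2) -
        (if v = b then (0 : ℝ) else if v.1 = t then r else r / 2)| ≤ r / 2 := by
    intro u v hu hv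
    have hvb : v ≠ b := by
      rintro rfl
      exact hv hb
    rw [if_neg hvb, if_neg hv, if_pos hu]
    split_ifs
    · rw [zero_sub, abs_neg, abs_of_pos (by positivity)]
    · rw [show r - r / 2 = r / 2 by ring, abs_of_pos (by positivity)]
  refine ⟨fun v => if v = b then 0 else if v.1 = t then r else r / 2, ?_, ?_⟩
  · intro x y h
    obtain ⟨h1, h2⟩ := hcor x y h
    rw [h1]
    rcases h2 with ⟨h3, h4⟩ | ⟨h3, h4⟩
    · exact key x y h3 h4
    · rw [abs_sub_comm]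
      exact key y x h4 h3
  · have h1 : (if b = b then (0 : ℝ) else if b.1 = t then r else r / 2) = 0 := if_pos rfl
    have h2 : (if c = b then (0 : ℝ) else if c.1 = t then r else r / 2) = r := by
      rw [if_neg (Ne.symm hbc), if_pos hc]
    show r ≤ |(if b = b then (0 : ℝ) else if b.1 = t then r else r / 2) -
      (if c = b then (0 : ℝ) else if c.1 = t then r else r / 2)|
    rw [h1, h2, zero_sub, abs_neg, abs_of_pos hr]

/-- certificate in the link of a vertex of type `1` -/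
theorem TG8_far1 {G : Type} [Group G] (H : Fin 3 → Subgroup G) (g b c : G)
    (hbc : b⁻¹ * c ∉ H 0) : Far (tog H) (tlen H) (tv H 1 g) (tv H 0 b) (tv H 0 c) Real.pi := by
  refine TG8_far H _ _ _ 0 Real.pi Real.pi_pos rfl rfl (TG8_tv_ne H 0 hbc) ?_
  intro x y h
  refine ⟨?_, ?_⟩
  · exact (tog_corner H _ x y h).trans (if_pos rfl)
  · obtain ⟨k, t, t', t'', h1, h2, h3, e1, e2, e3⟩ := h
    have ht : t = 1 := (congrArg Sigma.fst e1).symm
    have hx : x.1 = t' := by rw [e2]; rfl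
    have hy : y.1 = t'' := by rw [e3]; rfl
    rcases (TG8_types t t' t'' h1 h2 h3).1 ht with ⟨h4, h5⟩ | ⟨h4, h5⟩
    · left
      rw [hx, hy, h4, h5]
      exact ⟨rfl, by decide⟩
    · right
      rw [hx, hy, h4, h5]
      exact ⟨by decide, rfl⟩

/-- certificate in the link of a vertex of type `0` -/
theorem TG8_far0 {G : Type} [Group G] (H : Fin 3 → Subgroup G) (g b c : G)
    (hbc : b⁻¹ * c ∉ H 1) :
    Far (tog H) (tlen H) (tv H 0 g) (tv H 1 b) (tv H 1 c) (Real.pi / 2) := by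
  refine TG8_far H _ _ _ 1 (Real.pi / 2) (by have := Real.pi_pos; positivity) rfl rfl
    (TG8_tv_ne H 1 hbc) ?_
  intro x y h
  refine ⟨?_, ?_⟩
  · have h0 : ¬ (tv H 0 g).1 = 1 := by
      show ¬ (0 : Fin 3) = 1
      decide
    refine (tog_corner H _ x y h).trans ((if_neg h0).trans ?_)
    ring
  · obtain ⟨k, t, t', t'', h1, h2, h3, e1, e2, e3⟩ := h
    have ht : t = 0 := (congrArg Sigma.fst e1).symm
    have hx : x.1 = t' := by rw [e2]; rfl
    have hy : y.1 = t'' := by rw [e3]; rfl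
    rcases (TG8_types t t' t'' h1 h2 h3).2 ht with ⟨h4, h5⟩ | ⟨h4, h5⟩
    · left
      rw [hx, hy, h4, h5]
      exact ⟨rfl, by decide⟩
    · right
      rw [hx, hy, h4, h5]
      exact ⟨by decide, rfl⟩

theorem tog_G8 {G : Type} [Group G] (H : Fin 3 → Subgroup G) (hs : SimplyConnected (tog H))
    (h0 : G8 (H 0 ⊓ H 1) (H 0 ⊓ H 2)) (h2 : G8 (H 2 ⊓ H 0) (H 2 ⊓ H 1)) :
    G8 (H 0) (H 1) := by
  have hn := tog_npc H h0 h2
  have hf := tog_fin H
  have h01 : (0 : Fin 3) ≠ 1 := by decide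
  have h10 : (1 : Fin 3) ≠ 0 := by decide
  refine ⟨?_, ?_⟩
  · intro a₁ ha₁ b₁ hb₁ a₂ ha₂ b₂ hb₂ hrel
    by_contra hcon
    push Not at hcon
    obtain ⟨c1, c2, c3, c4⟩ := hcon
    have hAB : (1 : G)⁻¹ * (a₁ * b₁) ∉ H 0 := by
      rw [inv_one, one_mul]
      intro h
      exact c2 ((Subgroup.mul_mem_cancel_left _ ha₁).1 h)
    have hmm : a₁⁻¹ * 1 ∉ H 1 := by
      rw [mul_one]
      intro h
      exact c1 ((Subgroup.inv_mem_iff _).1 h)
    have hlast : (1 : G)⁻¹ * (a₁ * b₁ * a₂) ∈ H 1 := by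
      rw [inv_one, one_mul]
      have h : a₁ * b₁ * a₂ = b₂⁻¹ := eq_inv_of_mul_eq_one_left hrel
      rw [h]
      exact inv_mem hb₂
    refine no_bigon (tog H) (tlen H) hs hn hf (tv H 0 1) (tv H 1 a₁) (tv H 0 (a₁ * b₁))
      (tv H 1 1) ?_ ?_ ?_ ?_ (TG8_far1 H _ _ _ hAB) (TG8_far0 H _ _ _ hmm) (TG8_far1 H _ _ _ hAB)
    · exact TG8_edge H h01 a₁ (by rwa [inv_one, one_mul]) (by rw [inv_mul_cancel]; exact one_mem _)
    · exact TG8_edge H h10 (a₁ * b₁) (by rwa [inv_mul_cancel_left])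
        (by rw [inv_mul_cancel]; exact one_mem _)
    · exact TG8_edge H h01 (a₁ * b₁ * a₂) (by rwa [inv_mul_cancel_left]) hlast
    · exact TG8_edge H h10 1 (by rw [inv_mul_cancel]; exact one_mem _)
        (by rw [inv_mul_cancel]; exact one_mem _)
  · intro a₁ ha₁ b₁ hb₁ a₂ ha₂ b₂ hb₂ a₃ ha₃ b₃ hb₃ hrel
    by_contra hcon
    push Not at hcon
    obtain ⟨c1, c2, c3, c4, c5, c6⟩ := hcon
    have e3 : a₁ * b₁ * a₂ * b₂ * a₃ = b₃⁻¹ := eq_inv_of_mul_eq_one_left hrel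
    have e2 : a₁ * b₁ * a₂ * b₂ = b₃⁻¹ * a₃⁻¹ := by rw [← e3]; group
    have e1 : a₁ * b₁ * a₂ = b₃⁻¹ * a₃⁻¹ * b₂⁻¹ := by rw [← e2]; group
    have hAB : (1 : G)⁻¹ * (a₁ * b₁) ∉ H 0 := by
      rw [inv_one, one_mul]
      intro h
      exact c2 ((Subgroup.mul_mem_cancel_left _ ha₁).1 h)
    have hm12 : a₁⁻¹ * (a₁ * b₁ * a₂) ∉ H 1 := by
      have : a₁⁻¹ * (a₁ * b₁ * a₂) = b₁ * a₂ := by group
      rw [this]
      intro h
      exact c3 ((Subgroup.mul_mem_cancel_left _ hb₁).1 h)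
    have hBC : (a₁ * b₁)⁻¹ * (a₁ * b₁ * a₂ * b₂) ∉ H 0 := by
      have : (a₁ * b₁)⁻¹ * (a₁ * b₁ * a₂ * b₂) = a₂ * b₂ := by group
      rw [this]
      intro h
      exact c4 ((Subgroup.mul_mem_cancel_left _ ha₂).1 h)
    have hm32 : (1 : G)⁻¹ * (a₁ * b₁ * a₂) ∉ H 1 := by
      rw [inv_one, one_mul, e1]
      intro h
      have h4 := (Subgroup.mul_mem_cancel_right _ (inv_mem hb₂)).1 h
      have h5 := (Subgroup.mul_mem_cancel_left _ (inv_mem hb₃)).1 h4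
      exact c5 ((Subgroup.inv_mem_iff _).1 h5)
    have hAC : (1 : G)⁻¹ * (a₁ * b₁ * a₂ * b₂) ∉ H 0 := by
      rw [inv_one, one_mul, e2]
      intro h
      have h4 := (Subgroup.mul_mem_cancel_right _ (inv_mem ha₃)).1 h
      exact c6 ((Subgroup.inv_mem_iff _).1 h4)
    have hlast : (1 : G)⁻¹ * (a₁ * b₁ * a₂ * b₂ * a₃) ∈ H 1 := by
      rw [inv_one, one_mul, e3]
      exact inv_mem hb₃
    refine no_triangle (tog H) (tlen H) hs hn hf (tv H 0 1) (tv H 1 a₁) (tv H 0 (a₁ * b₁))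
      (tv H 1 (a₁ * b₁ * a₂)) (tv H 0 (a₁ * b₁ * a₂ * b₂)) (tv H 1 1) ?_ ?_ ?_ ?_ ?_ ?_
      (TG8_far1 H _ _ _ hAB) (TG8_far0 H _ _ _ hm12) (TG8_far1 H _ _ _ hBC)
      (TG8_far0 H _ _ _ hm32) (TG8_far1 H _ _ _ hAC)
    · exact TG8_edge H h01 a₁ (by rwa [inv_one, one_mul]) (by rw [inv_mul_cancel]; exact one_mem _)
    · exact TG8_edge H h10 (a₁ * b₁) (by rwa [inv_mul_cancel_left])
        (by rw [inv_mul_cancel]; exact one_mem _)
    · exact TG8_edge H h01 (a₁ * b₁ * a₂) (by rwa [inv_mul_cancel_left])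
        (by rw [inv_mul_cancel]; exact one_mem _)
    · exact TG8_edge H h10 (a₁ * b₁ * a₂ * b₂) (by rwa [inv_mul_cancel_left])
        (by rw [inv_mul_cancel]; exact one_mem _)
    · exact TG8_edge H h01 (a₁ * b₁ * a₂ * b₂ * a₃) (by rwa [inv_mul_cancel_left]) hlast
    · exact TG8_edge H h10 1 (by rw [inv_mul_cancel]; exact one_mem _)
        (by rw [inv_mul_cancel]; exact one_mem _)

end Pool.Agent.helper55.EV
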