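import Pool.Agent.helper55.EV.Alg
import Pool.Agent.helper55.EV.SC
import Pool.Agent.helper55.EV.Base
import Pool.Agent.helper55.EV.TG8

set_option autoImplicit false

/-!
# Even Artin groups
-/

namespace Pool.Agent.helper55.EV

open Pool.Agent.helper34.FJ2 Pool.Agent.helper34.FJ3
open Pool.Agent.helper36.LT (Artin gen alt artinRels)
open Pool.Agent.helper50.LT (alt_map gen_rel lift lift_gen artin_hom_ext)
open Pool.Agent.helper46.FJ3 (restr inc inc_gen)

section tri

variable {S : Type} (M : CoxeterMatrix S) (c : Fin 3 → S) (hc : Function.Injective c)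

/-- the three maximal standard subgroups -/
def HH (t : Fin 3) : Subgroup (Artin M) := sg M {c t}ᶜ

include hc in
theorem exists_third (s s' : S) : ∃ t : Fin 3, s ≠ c t ∧ s' ≠ c t := by
  by_contra hcon
  push Not at hcon
  have h : ∀ t, c t = s ∨ c t = s' := by
    intro t
    by_cases h1 : s = c t
    · exact Or.inl h1.symm
    · exact Or.inr (hcon t h1).symm
  have h01 : c 0 ≠ c 1 := fun h => by simpa using hc h
  have h02 : c 0 ≠ c 2 := fun h => by simpa using hc h
  have h12 : c 1 ≠ c 2 := fun h => by simpa using hc h
  rcases h 0 with h0 | h0 <;> rcases h 1 with h1 | h1 <;> rcases h 2 with h2 | h2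
  · exact h01 (h0.trans h1.symm)
  · exact h01 (h0.trans h1.symm)
  · exact h02 (h0.trans h2.symm)
  · exact h12 (h1.trans h2.symm)
  · exact h12 (h1.trans h2.symm)
  · exact h02 (h0.trans h2.symm)
  · exact h01 (h0.trans h1.symm)
  · exact h01 (h0.trans h1.symm)

include hc in
theorem HH_sc : SimplyConnected (tog (HH M c)) := by
  apply tog_sc
  · rw [eq_top_iff, ← sg_univ M]
    unfold sg
    rw [Subgroup.closure_le]
    rintro _ ⟨s, -, rfl⟩
    obtain ⟨t, ht, -⟩ := exists_third c hc s s
    exact Subgroup.subset_closure ⟨t, gen_mem M ht⟩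
  · intro K _ f hf
    choose ty hty using fun s : S => exists_third c hc s s
    have hmem : ∀ s, gen M s ∈ HH M c (ty s) := fun s => gen_mem M (hty s).1
    refine ⟨lift M (fun s => f (ty s) ⟨gen M s, hmem s⟩) ?_, ?_⟩
    · intro s s'
      obtain ⟨t, h1, h2⟩ := exists_third c hc s s'
      have h3 : gen M s ∈ HH M c t := gen_mem M h1
      have h4 : gen M s' ∈ HH M c t := gen_mem M h2
      rw [hf (ty s) t _ (hmem s) h3, hf (ty s') t _ (hmem s') h4, ← alt_map, ← alt_map]
      congr 1
      apply Subtype.ext
      have h5 := alt_map (HH M c t).subtype (⟨gen M s, h3⟩ : HH M c t) ⟨gen M s', h4⟩ (M.M s s')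
      have h6 := alt_map (HH M c t).subtype (⟨gen M s', h4⟩ : HH M c t) ⟨gen M s, h3⟩ (M.M s s')
      refine h5.trans (Eq.trans ?_ h6.symm)
      exact gen_rel M s s'
    · rintro t ⟨x, hx⟩
      have key : ∀ x (hx : x ∈ HH M c t), lift M (fun s => f (ty s) ⟨gen M s, hmem s⟩) (by
          intro s s'
          obtain ⟨t, h1, h2⟩ := exists_third c hc s s'
          have h3 : gen M s ∈ HH M c t := gen_mem M h1
          have h4 : gen M s' ∈ HH M c t := gen_mem M h2
          rw [hf (ty s) t _ (hmem s) h3, hf (ty s') t _ (hmem s') h4, ← alt_map, ← alt_map]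
          congr 1
          apply Subtype.ext
          have h5 := alt_map (HH M c t).subtype (⟨gen M s, h3⟩ : HH M c t) ⟨gen M s', h4⟩ (M.M s s')
          have h6 := alt_map (HH M c t).subtype (⟨gen M s', h4⟩ : HH M c t) ⟨gen M s, h3⟩ (M.M s s')
          refine h5.trans (Eq.trans ?_ h6.symm)
          exact gen_rel M s s') x = f t ⟨x, hx⟩ := by
        intro x hx
        unfold HH sg at hx
        induction hx using Subgroup.closure_induction with
        | mem x hx' =>
          obtain ⟨s, hs, rfl⟩ := hx'
          rw [lift_gen]
          exact hf _ _ _ _ _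
        | one =>
          rw [map_one]
          exact (map_one (f t)).symm
        | mul x y hx' hy' ihx ihy =>
          rw [map_mul, ihx, ihy]
          exact (map_mul (f t) ⟨x, hx'⟩ ⟨y, hy'⟩).symm
        | inv x hx' ih =>
          rw [map_inv, ih]
          exact (map_inv (f t) ⟨x, hx'⟩).symm
      exact key x hx

variable (hM : Evn M)

/-- the girth of the coset graph of the two subgroups at a vertex is at least eight -/
def E8 (S : Type) (M : CoxeterMatrix S) : Prop :=
  ∀ i j : S, i ≠ j → M.M i j ≠ 2 → G8 (sg M {i}ᶜ) (sg M {j}ᶜ)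

variable [Finite S]

include hM in
theorem HH_G8 (hE : ∀ F : Finset S, (∃ s, s ∉ F) → E8 F (restr M F)) (t p q : Fin 3)
    (hp : c t ≠ c p) (hq : c t ≠ c q) (hpq : c p ≠ c q) (hne : M.M (c p) (c q) ≠ 2) :
    G8 (HH M c t ⊓ HH M c p) (HH M c t ⊓ HH M c q) := by
  classical
  have : Fintype S := Fintype.ofFinite S
  let F : Finset S := Finset.univ.erase (c t)
  have hpF : c p ∈ F := Finset.mem_erase.2 ⟨hp.symm, Finset.mem_univ _⟩
  have hqF : c q ∈ F := Finset.mem_erase.2 ⟨hq.symm, Finset.mem_univ _⟩
  have h1 := G8_restr M hM F (c p) (c q) hpF hqF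
    (hE F ⟨c t, Finset.notMem_erase _ _⟩ ⟨c p, hpF⟩ ⟨c q, hqF⟩
      (fun h => hpq (congrArg Subtype.val h)) hne)
  have h2 : ∀ r, HH M c t ⊓ HH M c r = sg M ((F : Set S) \ {c r}) := by
    intro r
    unfold HH
    rw [sg_inf M hM]
    congr 1
    ext s
    simp [F]
  rw [h2, h2]
  exact h1

end tri

/-- alternating relations in even Artin groups -/
theorem even_E8 (n : ℕ) : ∀ (S : Type) [Finite S], Nat.card S ≤ n → ∀ (M : CoxeterMatrix S),
    Evn M → E8 S M := by
  classical
  induction n with
  | zero =>
    intro S _ hS M _ i
    have h : Nat.card S = 0 := Nat.le_zero.1 hS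
    rw [Finite.card_eq_zero_iff] at h
    exact (h.false i).elim
  | succ n ih =>
    intro S _ hS M hM
    have : Fintype S := Fintype.ofFinite S
    have hE : ∀ F : Finset S, (∃ s, s ∉ F) → E8 F (restr M F) := by
      rintro F ⟨s, hs⟩
      refine ih F ?_ _ (evn_restr M F hM)
      have h1 : Nat.card F = F.card := by simp
      have h2 : F.card < Fintype.card S := Finset.card_lt_univ_of_notMem hs
      rw [Nat.card_eq_fintype_card] at hS
      omega
    -- the case of a third generator
    have main : ∀ i j k : S, i ≠ j → i ≠ k → j ≠ k → M.M i j ≠ 2 → M.M j k ≠ 2 →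
        G8 (sg M {i}ᶜ) (sg M {j}ᶜ) := by
      intro i j k hij hik hjk h1 h2
      let c : Fin 3 → S := ![i, j, k]
      have hc : Function.Injective c := by
        intro a b hab
        fin_cases a <;> fin_cases b <;> simp_all [c]
      have h0 := HH_G8 M c hM hE 0 1 2 hij hik hjk h2
      have h3 := HH_G8 M c hM hE 2 0 1 hik.symm hjk.symm hij h1
      exact tog_G8 (HH M c) (HH_sc M c hc) h0 h3
    intro i j hij h2
    by_cases h3 : ∃ k, k ≠ i ∧ k ≠ j ∧ M.M j k ≠ 2
    · obtain ⟨k, hki, hkj, hk⟩ := h3
      exact main i j k hij hki.symm hkj.symm h2 hk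
    · by_cases h4 : ∃ k, k ≠ i ∧ k ≠ j ∧ M.M i k ≠ 2
      · obtain ⟨k, hki, hkj, hk⟩ := h4
        refine G8_symm' (main j i k hij.symm hkj.symm hki.symm ?_ hk)
        rwa [M.symmetric]
      · push Not at h3 h4
        exact G8_comm M hM i j hij h2 h4 h3

/-! ### The theorem -/

section P

variable {P : ∀ (G : Type) [Group G], Prop}

/-- vertices of a simplex with the same type are equal -/
theorem simp_ty {G : Type} [Group G] (H : Fin 3 → Subgroup G) {s : Set (TV H)}
    (hs : IsSimp (tog H) s) {u v : TV H} (hu : u ∈ s) (hv : v ∈ s) (h : u.1 = v.1) : u = v := by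
  have he : ∀ a b, (tog H).edge a b → a.1 ≠ b.1 := by
    rintro a b ⟨g, t, t', ht, rfl, rfl⟩
    exact ht
  rcases hs with ⟨a, rfl⟩ | ⟨a, b, hab, rfl⟩ | ⟨a, b, d, hab, rfl⟩
  · exact hu.trans hv.symm
  · have h1 := he _ _ hab
    rcases hu with rfl | rfl <;> rcases hv with rfl | rfl
    · rfl
    · exact absurd h h1
    · exact absurd h.symm h1
    · rfl
  · have h1 := he _ _ ((tog H).tri_edge _ _ _ hab)
    have h2 := he _ _ ((tog H).tri_edge' hab)
    have h3 := he _ _ ((tog H).tri_edge'' hab)
    rcases hu with rfl | rfl | rfl <;> rcases hv with rfl | rfl | rfl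
    · rfl
    · exact absurd h h1
    · exact absurd h h3
    · exact absurd h.symm h1
    · rfl
    · exact absurd h h2
    · exact absurd h.symm h3
    · exact absurd h.symm h2
    · rfl

theorem two_gen (hP : Closed P)
    (hgl : ∀ n : ℕ, P (Matrix.GeneralLinearGroup (Fin n) ℚ)) {S : Type} [Finite S]
    (M : CoxeterMatrix S) (h : ∀ r s t : S, r ≠ s → s ≠ t → r ≠ t → False) : P (Artin M) :=
  artin_P hP hgl S M (fun r s t h1 h2 h3 => (h r s t h1 h2 h3).elim)

theorem even_fin (hP : Closed P) (hgl : ∀ n : ℕ, P (Matrix.GeneralLinearGroup (Fin n) ℚ))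
    (n : ℕ) : ∀ (S : Type) [Finite S], Nat.card S ≤ n → ∀ (M : CoxeterMatrix S),
    Evn M → P (Artin M) := by
  classical
  induction n with
  | zero =>
    intro S _ hS M _
    have h : Nat.card S = 0 := Nat.le_zero.1 hS
    rw [Finite.card_eq_zero_iff] at h
    exact two_gen hP hgl M fun r => (h.false r).elim
  | succ n ih =>
    intro S _ hS M hM
    have : Fintype S := Fintype.ofFinite S
    have hcard : ∀ F : Finset S, (∃ s, s ∉ F) → Nat.card F ≤ n := by
      rintro F ⟨s, hs⟩
      have h1 : Nat.card F = F.card := by simp
      have h2 : F.card < Fintype.card S := Finset.card_lt_univ_of_notMem hs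
      rw [Nat.card_eq_fintype_card] at hS
      omega
    by_cases hD : ∃ i j k : S, i ≠ j ∧ i ≠ k ∧ j ≠ k ∧ M.M i j ≠ 2 ∧ M.M j k ≠ 2
    · -- the action on the development
      obtain ⟨i, j, k, hij, hik, hjk, h1, h2⟩ := hD
      let c : Fin 3 → S := ![i, j, k]
      have hc : Function.Injective c := by
        intro a b hab
        fin_cases a <;> fin_cases b <;> simp_all [c]
      have hE : ∀ F : Finset S, (∃ s, s ∉ F) → E8 F (restr M F) := fun F _ =>
        even_E8 _ F le_rfl _ (evn_restr M F hM)
      have h0 := HH_G8 M c hM hE 0 1 2 hij hik hjk h2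
      have h3 := HH_G8 M c hM hE 2 0 1 hik.symm hjk.symm hij h1
      refine P2s hP (tog (HH M c)) (tlen (HH M c)) (HH_sc M c hc) (tog_npc _ h0 h3) (tog_acts _) ?_
      intro s hs
      obtain ⟨v, hv⟩ := hs.nonempty
      obtain ⟨t, x⟩ := v
      obtain ⟨g, rfl⟩ := QuotientGroup.mk_surjective x
      let F : Finset S := Finset.univ.erase (c t)
      refine ⟨Artin (restr M F), inferInstance, rt M hM F,
        ih F (hcard F ⟨c t, Finset.notMem_erase _ _⟩) _ (evn_restr M F hM), ?_⟩
      intro h hhs hh
      have h4 : h • tv (HH M c) t g ∈ s := by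
        rw [← hhs]
        exact ⟨_, hv, rfl⟩
      have h5 : tv (HH M c) t (h * g) = tv (HH M c) t g := simp_ty _ hs h4 hv rfl
      have h6 : ((h * g : Artin M) : Artin M ⧸ HH M c t) = (g : Artin M ⧸ HH M c t) :=
        eq_of_heq (Sigma.mk.inj_iff.1 h5).2
      have h7 : g⁻¹ * (h * g) ∈ HH M c t := QuotientGroup.eq.1 h6.symm
      have h8 : g⁻¹ * (h * g) ∈ sg M (F : Set S) := by
        refine sg_mono M ?_ h7
        intro r hr
        exact Finset.mem_coe.2 (Finset.mem_erase.2 ⟨hr, Finset.mem_univ _⟩)
      have h8' : rt M hM F (g⁻¹ * (h * g)) = 1 := by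
        rw [map_mul, map_mul, hh, one_mul, ← map_mul, inv_mul_cancel, map_one]
      have h9 := inc_rt M hM F h8
      rw [h8', map_one] at h9
      have h10 : h = g * (g⁻¹ * (h * g)) * g⁻¹ := by group
      rw [h10, ← h9]
      group
    · -- products
      push Not at hD
      by_cases hS0 : Nonempty S
      · obtain ⟨s⟩ := hS0
        let T : Finset S := Finset.univ.filter fun t => t = s ∨ M.M s t ≠ 2
        have hsT : s ∈ T := by simp [T]
        -- `T` has at most two elements
        have hT : ∀ a b d : T, a ≠ b → b ≠ d → a ≠ d → False := by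
          have key : ∀ a b : S, a ∈ T → b ∈ T → a ≠ s → b ≠ s → a = b := by
            intro a b ha hb has hbs
            by_contra hab
            have ha' : M.M s a ≠ 2 := by
              have := (Finset.mem_filter.1 ha).2
              tauto
            have hb' : M.M s b ≠ 2 := by
              have := (Finset.mem_filter.1 hb).2
              tauto
            exact hb' (hD a s b has hab (fun h => hbs h.symm) (by rwa [M.symmetric]))
          rintro ⟨a, ha⟩ ⟨b, hb⟩ ⟨d, hd⟩ hab hbd had
          have hab' : a ≠ b := fun h => hab (Subtype.ext h)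
          have hbd' : b ≠ d := fun h => hbd (Subtype.ext h)
          have had' : a ≠ d := fun h => had (Subtype.ext h)
          by_cases has : a = s
          · subst has
            exact hbd' (key b d hb hd hab'.symm had'.symm)
          · by_cases hbs : b = s
            · subst hbs
              exact had' (key a d ha hd has hbd'.symm)
            · exact hab' (key a b ha hb has hbs)
        -- `T` commutes with its complement
        have hcomm : ∀ a ∈ T, ∀ b, b ∉ T → M.M a b = 2 := by
          intro a ha b hb
          have hb' : b ≠ s ∧ M.M s b = 2 := by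
            constructor
            · intro h
              exact hb (h ▸ hsT)
            · by_contra h
              exact hb (Finset.mem_filter.2 ⟨Finset.mem_univ _, Or.inr h⟩)
          by_cases has : a = s
          · rw [has]
            exact hb'.2
          · have ha' : M.M s a ≠ 2 := by
              have := (Finset.mem_filter.1 ha).2
              tauto
            exact hD s a b (fun h => has h.symm) (fun h => hb'.1 h.symm)
              (fun h => hb (h ▸ ha)) ha'
        have hcom : ∀ x ∈ sg M (T : Set S), ∀ y ∈ sg M (Tᶜ : Finset S), x * y = y * x := by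
          intro x hx y hy
          have h1 : ∀ a ∈ T, ∀ b, b ∉ T → gen M a * gen M b = gen M b * gen M a := by
            intro a ha b hb
            have h2 := gen_rel M a b
            rw [hcomm a ha b hb] at h2
            simpa [alt] using h2
          have h2 : ∀ a ∈ T, gen M a * y = y * gen M a := by
            intro a ha
            unfold sg at hy
            induction hy using Subgroup.closure_induction with
            | mem y hy =>
              obtain ⟨b, hb, rfl⟩ := hy
              exact h1 a ha b (by simpa using hb)
            | one => rw [mul_one, one_mul]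
            | mul y z _ _ ihy ihz => rw [← mul_assoc, ihy, mul_assoc, ihz, mul_assoc]
            | inv y _ ih =>
              have h3 : Commute (gen M a) y := ih
              exact h3.inv_right
          unfold sg at hx
          induction hx using Subgroup.closure_induction with
          | mem x hx =>
            obtain ⟨a, ha, rfl⟩ := hx
            exact h2 a (Finset.mem_coe.1 ha)
          | one => rw [mul_one, one_mul]
          | mul x z _ _ ihx ihz => rw [mul_assoc, ihz, ← mul_assoc, ihx, mul_assoc]
          | inv x _ ih =>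
            have h3 : Commute x y := ih
            exact h3.inv_left
        have hdec : ∀ g : Artin M, ret M hM (T : Set S) g * ret M hM ((Tᶜ : Finset S) : Set S) g
            = g := by
          let f : Artin M →* Artin M :=
            { toFun := fun g => ret M hM (T : Set S) g * ret M hM ((Tᶜ : Finset S) : Set S) g
              map_one' := by simp
              map_mul' := by
                intro a b
                have hm : ∀ (U : Set S) (g : Artin M), ret M hM U g ∈ sg M U := by
                  intro U g
                  have h1 : g ∈ sg M Set.univ := by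
                    rw [sg_univ]
                    exact Subgroup.mem_top _
                  have h2 := ret_mem M hM U h1
                  rwa [Set.inter_univ] at h2
                have h1 := hcom _ (hm (T : Set S) b) _ (hm ((Tᶜ : Finset S) : Set S) a)
                simp only [map_mul]
                calc _ = ret M hM (T : Set S) a * (ret M hM (T : Set S) b *
                      ret M hM ((Tᶜ : Finset S) : Set S) a) *
                      ret M hM ((Tᶜ : Finset S) : Set S) b := by group
                  _ = _ := by rw [h1]; group }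
          have hf : f = MonoidHom.id _ := by
            apply artin_hom_ext
            intro r
            show ret M hM (T : Set S) (gen M r) * ret M hM ((Tᶜ : Finset S) : Set S) (gen M r)
              = gen M r
            by_cases hr : r ∈ T
            · have hr' : r ∉ ((Tᶜ : Finset S) : Set S) := by simpa using hr
              rw [ret_gen M hM (Finset.mem_coe.2 hr), ret_gen' M hM hr', mul_one]
            · have hr' : r ∈ ((Tᶜ : Finset S) : Set S) := by simpa using hr
              have hr'' : r ∉ (T : Set S) := fun h => hr (Finset.mem_coe.1 h)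
              rw [ret_gen' M hM hr'', ret_gen M hM hr', one_mul]
          intro g
          exact DFunLike.congr_fun hf g
        have hP1 : P (Artin (restr M T)) := two_gen hP hgl _ hT
        have hP2 : P (Artin (restr M Tᶜ)) :=
          ih (Tᶜ : Finset S) (hcard _ ⟨s, by simpa using hsT⟩) _ (evn_restr M _ hM)
        refine hP.inj ((rt M hM T).prod (rt M hM Tᶜ)) ?_ (hP.prod _ _ hP1 hP2)
        rw [injective_iff_map_eq_one]
        intro g hg
        have h1 : rt M hM T g = 1 := congrArg Prod.fst hg
        have h2 : rt M hM Tᶜ g = 1 := congrArg Prod.snd hg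
        rw [← hdec g, ← inc_rt_ret M hM T, ← inc_rt_ret M hM Tᶜ, h1, h2, map_one, map_one, one_mul]
      · exact two_gen hP hgl M fun r => (hS0 ⟨r⟩).elim

/-- **Even Artin groups** belong to every class with the closure properties. -/
theorem even_P (hP : Closed P) (hgl : ∀ n : ℕ, P (Matrix.GeneralLinearGroup (Fin n) ℚ))
    (S : Type) (M : CoxeterMatrix S) (hM : Evn M) : P (Artin M) := by
  classical
  open Pool.Agent.helper46.FJ3 in
  apply hP.colim (Finset S) (GE M) (mp M) (Artin M) (fun F => inc M F)
  · intro F x
    exact mp_refl M _ x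
  · intro i j k hij hjk x
    exact mp_mp M _ _ _ x
  · intro i j h x
    exact inc_mp M _ x
  · exact surj_inc M
  · exact ker_inc M
  · intro F
    exact even_fin hP hgl _ F le_rfl (restr M F) (evn_restr M F hM)

end P

end Pool.Agent.helper55.EV
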