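import Pool.Agent.helper55.EV.PairP
import Pool.Agent.helper55.EV.SC
import Pool.Agent.helper55.EV.TG8
import Pool.Agent.helper55.EV.Main

set_option autoImplicit false

/-!
# Artin groups with a block structure, general blocks
-/

namespace Pool.Agent.helper55.EV

open Pool.Agent.helper34.FJ2 Pool.Agent.helper34.FJ3
open Pool.Agent.helper36.LT (Artin gen alt artinRels)
open Pool.Agent.helper50.LT (alt_map gen_rel lift lift_gen artin_hom_ext)
open Pool.Agent.helper46.FJ3 (restr inc inc_gen)

/-- The function `b` is a block structure: the blocks are its fibres. The labels between different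
blocks are even or `∞`, and if one of the labels between two blocks is two then all of them are
two. -/
structure BlkE {S ι : Type} (M : CoxeterMatrix S) (b : S → ι) : Prop where
  even : ∀ s t : S, b s ≠ b t → Even (M.M s t)
  comm : ∀ s s' t : S, b s = b s' → b s ≠ b t → M.M s t = 2 → M.M s' t = 2

section blk

variable {S ι : Type} {M : CoxeterMatrix S} {b : S → ι}

theorem BlkE.restr (h : BlkE M b) (F : Finset S) :
    BlkE (Pool.Agent.helper46.FJ3.restr M F) (fun s => b s.1) where
  even s t := h.even s.1 t.1
  comm s s' t := h.comm s.1 s'.1 t.1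

theorem msymm (M : CoxeterMatrix S) (s t : S) : M.M s t = M.M t s := M.symmetric _ _

theorem BlkE.comm2 (h : BlkE M b) {s s' t t' : S} (h1 : b s = b s') (h2 : b t = b t')
    (h3 : b s ≠ b t) (h4 : M.M s t = 2) : M.M s' t' = 2 := by
  have h5 := h.comm s s' t h1 h3 h4
  rw [msymm M] at h5 ⊢
  exact h.comm t t' s' h2 (fun e => h3 (h1.trans e.symm)) h5

/-- unions of blocks -/
theorem BlkE.sat (h : BlkE M b) (I : Set ι) : Sat M {s | b s ∈ I} := by
  intro s hs t ht
  apply h.even
  intro e
  apply ht
  have h1 : b s ∈ I := hs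
  rw [e] at h1
  exact h1

end blk

/-- the girth statement for a block structure -/
def E8b {S ι : Type} (M : CoxeterMatrix S) (b : S → ι) : Prop :=
  ∀ β γ : ι, β ≠ γ → (∀ s t, b s = β → b t = γ → M.M s t ≠ 2) →
    G8 (sg M {s | b s ≠ β}) (sg M {s | b s ≠ γ})

/-- the blocks `β` and `γ` commute with everything else -/
theorem base_G8 {S ι : Type} [Finite S] (M : CoxeterMatrix S) (b : S → ι) (hb : BlkE M b)
    (β γ : ι) (hne : β ≠ γ) (h2 : ∀ s t, b s = β → b t = γ → M.M s t ≠ 2)
    (hβ : ∀ s t, b s = β → b t ≠ β → b t ≠ γ → M.M s t = 2)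
    (hγ : ∀ s t, b s = γ → b t ≠ β → b t ≠ γ → M.M s t = 2) :
    G8 (sg M {s | b s ≠ β}) (sg M {s | b s ≠ γ}) := by
  classical
  have : Fintype S := Fintype.ofFinite S
  let F : Finset S := Finset.univ.filter fun s => b s = β ∨ b s = γ
  have hF : ∀ s, s ∈ F ↔ b s = β ∨ b s = γ := fun s => by simp [F]
  -- the pair of blocks
  have hpair : G8 (sg M {s | b s = γ}) (sg M {s | b s = β}) := by
    refine G8_sub M F (fun s hs => Finset.mem_coe.2 ((hF s).2 (Or.inr hs)))
      (fun s hs => Finset.mem_coe.2 ((hF s).2 (Or.inl hs))) ?_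
    have h1 : (Subtype.val ⁻¹' {s | b s = β} : Set F) =
        (Subtype.val ⁻¹' {s | b s = γ} : Set F)ᶜ := by
      ext ⟨s, hs⟩
      have hs' := (hF s).1 hs
      constructor
      · intro h3 h4
        have h5 : b s = β := h3
        have h6 : b s = γ := h4
        exact hne (h5.symm.trans h6)
      · intro h3
        rcases hs' with h4 | h4
        · exact h4
        · exact absurd h4 h3
    rw [h1]
    refine pair_G8 _ F le_rfl (restr M F) _ ?_
    rintro ⟨s, hs⟩ hs1 ⟨t, ht⟩ ht1
    have h3 : b s = γ := hs1
    have h4 : b t = β := by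
      rcases (hF t).1 ht with h | h
      · exact h
      · exact absurd h ht1
    have h5 : M.M s t = M.M t s := msymm M s t
    refine ⟨hb.even s t (by rw [h3, h4]; exact hne.symm), ?_⟩
    show M.M s t ≠ 2
    rw [h5]
    exact h2 t s h4 h3
  -- the retraction
  have hsat : Sat M {s | b s ∈ ({β, γ} : Set ι)} := hb.sat _
  let ρ := retS M {s | b s ∈ ({β, γ} : Set ι)} hsat
  have hρ : ∀ (δ ε : ι), (δ = β ∧ ε = γ) ∨ (δ = γ ∧ ε = β) → ∀ a ∈ sg M {s | b s ≠ ε},
      ρ a ∈ sg M {s | b s = δ} ∧
      ∃ t ∈ sg M {s | b s ≠ β ∧ b s ≠ γ}, a = ρ a * t := by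
    intro δ ε hδε a ha
    have hδ : ∀ s t, b s = δ → b t ≠ β → b t ≠ γ → M.M s t = 2 := by
      rcases hδε with ⟨rfl, _⟩ | ⟨rfl, _⟩
      · exact hβ
      · exact hγ
    have hcom : ∀ x ∈ sg M {s | b s ≠ β ∧ b s ≠ γ}, ∀ y ∈ sg M {s | b s = δ},
        x * y = y * x := by
      have h3 : ∀ s, (b s ≠ β ∧ b s ≠ γ) → ∀ y ∈ sg M {s | b s = δ},
          gen M s * y = y * gen M s := by
        intro s hs y hy
        unfold sg at hy
        induction hy using Subgroup.closure_induction with
        | mem y hy =>
          obtain ⟨t, ht, rfl⟩ := hy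
          have h4 := hδ t s ht hs.1 hs.2
          have h5 := gen_rel M t s
          rw [h4] at h5
          have h6 : gen M t * gen M s = gen M s * gen M t := by simpa [alt] using h5
          exact h6.symm
        | one => rw [mul_one, one_mul]
        | mul y z _ _ ihy ihz => rw [← mul_assoc, ihy, mul_assoc, ihz, mul_assoc]
        | inv y _ ih =>
          have h4 : Commute (gen M s) y := ih
          exact h4.inv_right
      intro x hx y hy
      unfold sg at hx
      induction hx using Subgroup.closure_induction with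
      | mem x hx =>
        obtain ⟨s, hs, rfl⟩ := hx
        exact h3 s hs y hy
      | one => rw [mul_one, one_mul]
      | mul x z _ _ ihx ihz => rw [mul_assoc, ihz, ← mul_assoc, ihx, mul_assoc]
      | inv x _ ih =>
        have h4 : Commute x y := ih
        exact h4.inv_left
    unfold sg at ha
    induction ha using Subgroup.closure_induction with
    | mem a ha =>
      obtain ⟨s, hs, rfl⟩ := ha
      have hsε : b s ≠ ε := hs
      by_cases h3 : b s = δ
      · have h4 : s ∈ {s | b s ∈ ({β, γ} : Set ι)} := by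
          rcases hδε with ⟨h5, _⟩ | ⟨h5, _⟩
          · exact Or.inl (h3.trans h5)
          · exact Or.inr (h3.trans h5)
        have h5 : ρ (gen M s) = gen M s := retS_gen M hsat h4
        rw [h5]
        exact ⟨gen_mem M h3, 1, one_mem _, (mul_one _).symm⟩
      · have h4 : b s ≠ β ∧ b s ≠ γ := by
          rcases hδε with ⟨h5, h6⟩ | ⟨h5, h6⟩
          · exact ⟨fun h => h3 (h.trans h5.symm), fun h => hsε (h.trans h6.symm)⟩
          · exact ⟨fun h => hsε (h.trans h6.symm), fun h => h3 (h.trans h5.symm)⟩
        have h5 : s ∉ {s | b s ∈ ({β, γ} : Set ι)} := by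
          rintro (h | h)
          · exact h4.1 h
          · exact h4.2 h
        have h6 : ρ (gen M s) = 1 := retS_gen' M hsat h5
        rw [h6]
        exact ⟨one_mem _, gen M s, gen_mem M h4, (one_mul _).symm⟩
    | one =>
      rw [map_one]
      exact ⟨one_mem _, 1, one_mem _, (one_mul _).symm⟩
    | mul x y _ _ ihx ihy =>
      obtain ⟨h3, t, ht, h4⟩ := ihx
      obtain ⟨h5, t', ht', h6⟩ := ihy
      rw [map_mul]
      refine ⟨mul_mem h3 h5, t * t', mul_mem ht ht', ?_⟩
      calc x * y = (ρ x * t) * (ρ y * t') := by rw [← h4, ← h6]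
        _ = ρ x * (t * ρ y) * t' := by group
        _ = ρ x * (ρ y * t) * t' := by rw [hcom t ht _ h5]
        _ = _ := by group
    | inv x _ ih =>
      obtain ⟨h3, t, ht, h4⟩ := ih
      rw [map_inv]
      refine ⟨inv_mem h3, t⁻¹, inv_mem ht, ?_⟩
      have h5 := hcom t⁻¹ (inv_mem ht) (ρ x)⁻¹ (inv_mem h3)
      rw [← h5]
      calc x⁻¹ = (ρ x * t)⁻¹ := by rw [← h4]
        _ = _ := by group
  have hinter : ∀ a, a ∈ sg M {s | b s = γ} → a ∈ sg M {s | b s = β} → a = 1 := by
    intro a h3 h4
    have h5 : a ∈ sg M {s | b s = γ} ⊓ sg M {s | b s = β} := ⟨h3, h4⟩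
    rw [sg_inf'] at h5
    have h6 : ({s | b s = γ} ∩ {s | b s = β} : Set S) = ∅ := by
      ext s
      constructor
      · rintro ⟨h7, h8⟩
        have h7' : b s = γ := h7
        have h8' : b s = β := h8
        exact (hne (h8'.symm.trans h7')).elim
      · intro h
        exact h.elim
    rw [h6, sg_empty] at h5
    exact Subgroup.mem_bot.1 h5
  refine G8_hom ρ (fun a ha => (hρ γ β (Or.inr ⟨rfl, rfl⟩) a ha).1)
    (fun a ha => (hρ β γ (Or.inl ⟨rfl, rfl⟩) a ha).1) ?_ ?_ hpair
  · intro a ha h3
    obtain ⟨h4, t, ht, h5⟩ := hρ γ β (Or.inr ⟨rfl, rfl⟩) a ha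
    rw [hinter _ h4 h3, one_mul] at h5
    rw [h5]
    exact sg_mono M (fun s hs => hs.2) ht
  · intro a ha h3
    obtain ⟨h4, t, ht, h5⟩ := hρ β γ (Or.inl ⟨rfl, rfl⟩) a ha
    rw [hinter _ h3 h4, one_mul] at h5
    rw [h5]
    exact sg_mono M (fun s hs => hs.1) ht

section dev

variable {S ι : Type} (M : CoxeterMatrix S) (b : S → ι) (c : Fin 3 → ι)

/-- the three subgroups of the triangle -/
def HB (t : Fin 3) : Subgroup (Artin M) := sg M {s | b s ≠ c t}

theorem HB_sc (hc : Function.Injective c) : SimplyConnected (tog (HB M b c)) := by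
  have hT : ∀ s s' : S, ∃ t : Fin 3, s ∈ {s | b s ≠ c t} ∧ s' ∈ {s | b s ≠ c t} := by
    intro s s'
    exact exists_third c hc (b s) (b s')
  obtain ⟨h1, h2⟩ := artin_UP M (fun t : Fin 3 => {s | b s ≠ c t}) hT
  exact tog_sc _ h1 h2

theorem HB_G8 [Finite S] (hE : ∀ F : Finset S, (∃ s, s ∉ F) →
      E8b (restr M F) (fun s : F => b s.1)) (t p q : Fin 3) (hpq : c p ≠ c q)
    (hne : ∀ s s', b s = c p → b s' = c q → M.M s s' ≠ 2) (ht : ∃ s, b s = c t) :
    G8 (HB M b c t ⊓ HB M b c p) (HB M b c t ⊓ HB M b c q) := by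
  classical
  have : Fintype S := Fintype.ofFinite S
  let F : Finset S := Finset.univ.filter fun s => b s ≠ c t
  have hF : ∀ s, s ∈ F ↔ b s ≠ c t := fun s => by simp [F]
  have h2 : ∀ r, HB M b c t ⊓ HB M b c r = sg M {s | b s ≠ c t ∧ b s ≠ c r} := by
    intro r
    unfold HB
    rw [sg_inf']
    rfl
  rw [h2, h2]
  refine G8_sub M F (fun s hs => Finset.mem_coe.2 ((hF s).2 hs.1))
    (fun s hs => Finset.mem_coe.2 ((hF s).2 hs.1)) ?_
  obtain ⟨s0, hs0⟩ := ht
  have h3 := hE F ⟨s0, fun h => (hF s0).1 h hs0⟩ (c p) (c q) hpq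
    (fun s s' h h' => hne s.1 s'.1 h h')
  have h4 : ∀ r, (Subtype.val ⁻¹' {s | b s ≠ c t ∧ b s ≠ c r} : Set F) =
      {s : F | b s.1 ≠ c r} := by
    intro r
    ext ⟨s, hs⟩
    exact ⟨fun h => h.2, fun h => ⟨(hF s).1 hs, h⟩⟩
  rw [h4, h4]
  exact h3

end dev

/-- the girth statement holds -/
theorem blk_E8 (n : ℕ) : ∀ (S ι : Type) [Finite S], Nat.card S ≤ n → ∀ (M : CoxeterMatrix S)
    (b : S → ι), BlkE M b → E8b M b := by
  classical
  induction n with
  | zero =>
    intro S ι _ hS M b _ β γ _ _
    have h : Nat.card S = 0 := Nat.le_zero.1 hS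
    rw [Finite.card_eq_zero_iff] at h
    have hX : {s : S | b s ≠ β} = ∅ := by
      ext s
      exact (h.false s).elim
    rw [hX, sg_empty]
    exact G8_bot _
  | succ n ih =>
    intro S ι _ hS M b hb
    have : Fintype S := Fintype.ofFinite S
    have hE : ∀ F : Finset S, (∃ s, s ∉ F) → E8b (restr M F) (fun s : F => b s.1) := by
      rintro F ⟨s, hs⟩
      refine ih F ι ?_ _ _ (hb.restr F)
      have h1 : Nat.card F = F.card := by simp
      have h2 : F.card < Fintype.card S := Finset.card_lt_univ_of_notMem hs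
      rw [Nat.card_eq_fintype_card] at hS
      omega
    -- the case of a third block
    have main : ∀ β γ δ : ι, β ≠ γ → β ≠ δ → γ ≠ δ → (∃ s, b s = β) → (∃ s, b s = δ) →
        (∀ s t, b s = β → b t = γ → M.M s t ≠ 2) → (∀ s t, b s = γ → b t = δ → M.M s t ≠ 2) →
        G8 (sg M {s | b s ≠ β}) (sg M {s | b s ≠ γ}) := by
      intro β γ δ hβγ hβδ hγδ hβ hδ h1 h2
      let c : Fin 3 → ι := ![β, γ, δ]
      have hc : Function.Injective c := by
        intro x y hxy
        fin_cases x <;> fin_cases y <;> simp_all [c]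
      have h0 := HB_G8 M b c hE 0 1 2 hγδ h2 hβ
      have h3 := HB_G8 M b c hE 2 0 1 hβγ h1 hδ
      exact tog_G8 (HB M b c) (HB_sc M b c hc) h0 h3
    intro β γ hβγ h2
    by_cases hβ : ∃ s, b s = β
    · by_cases hγ : ∃ s, b s = γ
      · by_cases h3 : ∃ s t, b s = γ ∧ b t ≠ β ∧ b t ≠ γ ∧ M.M s t ≠ 2
        · obtain ⟨s, t, hs, htβ, htγ, hst⟩ := h3
          refine main β γ (b t) hβγ htβ.symm htγ.symm hβ ⟨t, rfl⟩ h2 ?_
          intro s' t' hs' ht' h4
          refine hst (hb.comm2 (hs'.trans hs.symm) ht' ?_ h4)
          rw [hs', ht']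
          exact htγ.symm
        · by_cases h4 : ∃ s t, b s = β ∧ b t ≠ β ∧ b t ≠ γ ∧ M.M s t ≠ 2
          · obtain ⟨s, t, hs, htβ, htγ, hst⟩ := h4
            refine G8_symm' (main γ β (b t) hβγ.symm htγ.symm htβ.symm hγ ⟨t, rfl⟩ ?_ ?_)
            · intro s' t' hs' ht'
              rw [msymm M]
              exact h2 t' s' ht' hs'
            · intro s' t' hs' ht' h4
              refine hst (hb.comm2 (hs'.trans hs.symm) ht' ?_ h4)
              rw [hs', ht']
              exact htβ.symm
          · refine base_G8 M b hb β γ hβγ h2 ?_ ?_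
            · intro s t hs ht1 ht2
              by_contra h5
              exact h4 ⟨s, t, hs, ht1, ht2, h5⟩
            · intro s t hs ht1 ht2
              by_contra h5
              exact h3 ⟨s, t, hs, ht1, ht2, h5⟩
      · have h3 : {s : S | b s ≠ γ} = Set.univ := by
          ext s
          exact ⟨fun _ => trivial, fun _ h => hγ ⟨s, h⟩⟩
        rw [h3, sg_univ]
        refine ⟨?_, ?_⟩
        · intro a₁ _ b₁ _ a₂ _ b₂ _ _
          exact Or.inl (Subgroup.mem_top _)
        · intro a₁ _ b₁ _ a₂ _ b₂ _ a₃ _ b₃ _ _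
          exact Or.inl (Subgroup.mem_top _)
    · have h3 : {s : S | b s ≠ β} = Set.univ := by
        ext s
        exact ⟨fun _ => trivial, fun _ h => hβ ⟨s, h⟩⟩
      rw [h3, sg_univ]
      refine ⟨?_, ?_⟩
      · intro a₁ _ b₁ _ a₂ _ b₂ _ _
        exact Or.inr (Or.inl (Subgroup.mem_top _))
      · intro a₁ _ b₁ _ a₂ _ b₂ _ a₃ _ b₃ _ _
        exact Or.inr (Or.inl (Subgroup.mem_top _))

/-! ### The theorem -/

section P

variable {P : ∀ (G : Type) [Group G], Prop}

theorem blkE_fin (hP : Closed P) (hgl : ∀ n : ℕ, P (Matrix.GeneralLinearGroup (Fin n) ℚ))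
    (n : ℕ) : ∀ (S ι : Type) [Finite S], Nat.card S ≤ n → ∀ (M : CoxeterMatrix S) (b : S → ι),
    BlkE M b → (∀ F : Finset S, (∀ s ∈ F, ∀ t ∈ F, b s = b t) → P (Artin (restr M F))) →
    P (Artin M) := by
  classical
  induction n with
  | zero =>
    intro S ι _ hS M b _ _
    have h : Nat.card S = 0 := Nat.le_zero.1 hS
    rw [Finite.card_eq_zero_iff] at h
    exact two_gen hP hgl M fun r => (h.false r).elim
  | succ n ih =>
    intro S ι _ hS M b hb hX
    have : Fintype S := Fintype.ofFinite S
    have hcard : ∀ F : Finset S, (∃ s, s ∉ F) → Nat.card F ≤ n := by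
      rintro F ⟨s, hs⟩
      have h1 : Nat.card F = F.card := by simp
      have h2 : F.card < Fintype.card S := Finset.card_lt_univ_of_notMem hs
      rw [Nat.card_eq_fintype_card] at hS
      omega
    have hX' : ∀ (F0 : Finset S) (F : Finset F0), (∀ s ∈ F, ∀ t ∈ F, b s.1 = b t.1) →
        P (Artin (restr (restr M F0) F)) := by
      intro F0 F hF
      refine restr_restr_P hP M F0 F (F.image Subtype.val)
        (fun s hs => Finset.mem_image.2 ⟨s, hs, rfl⟩) (hX _ ?_)
      intro s hs t ht
      obtain ⟨s', hs', rfl⟩ := Finset.mem_image.1 hs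
      obtain ⟨t', ht', rfl⟩ := Finset.mem_image.1 ht
      exact hF s' hs' t' ht'
    by_cases hD : ∃ i j k : S, b i ≠ b j ∧ b i ≠ b k ∧ b j ≠ b k ∧ M.M i j ≠ 2 ∧ M.M j k ≠ 2
    · -- the action on the development
      obtain ⟨i, j, k, hij, hik, hjk, h1, h2⟩ := hD
      let c : Fin 3 → ι := ![b i, b j, b k]
      have hc : Function.Injective c := by
        intro x y hxy
        fin_cases x <;> fin_cases y <;> simp_all [c]
      have hE : ∀ F : Finset S, (∃ s, s ∉ F) → E8b (restr M F) (fun s : F => b s.1) :=
        fun F _ => blk_E8 _ F ι le_rfl _ _ (hb.restr F)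
      have h1' : ∀ s s', b s = b i → b s' = b j → M.M s s' ≠ 2 := by
        intro s s' hs hs' h
        exact h1 (hb.comm2 hs hs' (by rw [hs, hs']; exact hij) h)
      have h2' : ∀ s s', b s = b j → b s' = b k → M.M s s' ≠ 2 := by
        intro s s' hs hs' h
        exact h2 (hb.comm2 hs hs' (by rw [hs, hs']; exact hjk) h)
      have h0 := HB_G8 M b c hE 0 1 2 hjk h2' ⟨i, rfl⟩
      have h3 := HB_G8 M b c hE 2 0 1 hij h1' ⟨k, rfl⟩
      refine P2s hP (tog (HB M b c)) (tlen (HB M b c)) (HB_sc M b c hc) (tog_npc _ h0 h3)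
        (tog_acts _) ?_
      intro s hs
      obtain ⟨v, hv⟩ := hs.nonempty
      obtain ⟨t, x⟩ := v
      obtain ⟨g, rfl⟩ := QuotientGroup.mk_surjective x
      let F : Finset S := Finset.univ.filter fun s => b s ≠ c t
      have hF : ∀ s, s ∈ F ↔ b s ≠ c t := fun s => by simp [F]
      have hFs : (F : Set S) = {s | b s ∈ ({c t} : Set ι)ᶜ} := by
        ext s
        exact hF s
      have hsat : Sat M (F : Set S) := by
        rw [hFs]
        exact hb.sat _
      have hex : ∃ s, s ∉ F := by
        have h5 : ∃ s, b s = c t := by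
          fin_cases t
          · exact ⟨i, rfl⟩
          · exact ⟨j, rfl⟩
          · exact ⟨k, rfl⟩
        obtain ⟨s, hs⟩ := h5
        exact ⟨s, fun h => (hF s).1 h hs⟩
      refine ⟨Artin (restr M F), inferInstance, rtS M F hsat,
        ih F ι (hcard F hex) _ _ (hb.restr F) (hX' F), ?_⟩
      intro h hhs hh
      have h4 : h • tv (HB M b c) t g ∈ s := by
        rw [← hhs]
        exact ⟨_, hv, rfl⟩
      have h5 : tv (HB M b c) t (h * g) = tv (HB M b c) t g := simp_ty _ hs h4 hv rfl
      have h6 : ((h * g : Artin M) : Artin M ⧸ HB M b c t) = (g : Artin M ⧸ HB M b c t) :=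
        eq_of_heq (Sigma.mk.inj_iff.1 h5).2
      have h7 : g⁻¹ * (h * g) ∈ HB M b c t := QuotientGroup.eq.1 h6.symm
      have h8 : g⁻¹ * (h * g) ∈ sg M (F : Set S) := by
        rw [hFs]
        exact h7
      have h8' : rtS M F hsat (g⁻¹ * (h * g)) = 1 := by
        rw [map_mul, map_mul, hh, one_mul, ← map_mul, inv_mul_cancel, map_one]
      have h9 := incS_rt M F hsat h8
      rw [h8', map_one] at h9
      have h10 : h = g * (g⁻¹ * (h * g)) * g⁻¹ := by group
      rw [h10, ← h9]
      group
    · -- products
      push Not at hD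
      by_cases hS0 : Nonempty S
      · obtain ⟨s⟩ := hS0
        -- the blocks which do not commute with the block of `s`
        have hkey : ∀ a d : S, b a ≠ b s → b d ≠ b s → M.M s a ≠ 2 → M.M s d ≠ 2 → b a = b d := by
          intro a d ha hd ha2 hd2
          by_contra hne
          refine hd2 (hD a s d ha hne (fun h => hd h.symm) ?_)
          rw [msymm M]
          exact ha2
        let T : Finset S := Finset.univ.filter fun t => b t = b s ∨ M.M s t ≠ 2
        have hTm : ∀ t, t ∈ T ↔ b t = b s ∨ M.M s t ≠ 2 := fun t => by simp [T]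
        have hsT : s ∈ T := (hTm s).2 (Or.inl rfl)
        -- `T` is a union of blocks
        have hTb : ∀ t t', t ∈ T → b t = b t' → t' ∈ T := by
          intro t t' ht htt
          rw [hTm] at ht ⊢
          by_cases h1 : b t' = b s
          · exact Or.inl h1
          · right
            have h2 : b t ≠ b s := fun h => h1 (htt ▸ h)
            have h3 : M.M s t ≠ 2 := by tauto
            intro h4
            refine h3 (hb.comm2 rfl htt.symm ?_ h4)
            exact fun h => h1 h.symm
        have hsatT : Sat M (T : Set S) := by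
          intro x hx y hy
          apply hb.even
          intro e
          exact hy (Finset.mem_coe.2 (hTb x y (Finset.mem_coe.1 hx) e))
        have hsatT' : Sat M ((Tᶜ : Finset S) : Set S) := by
          intro x hx y hy
          apply hb.even
          intro e
          have hx' : x ∉ T := by simpa using hx
          have hy' : y ∈ T := by simpa using hy
          exact hx' (hTb y x hy' e.symm)
        -- the two blocks of `T`
        have hP1 : P (Artin (restr M T)) := by
          let X : Finset T := Finset.univ.filter fun t => b t.1 = b s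
          let Y : Finset T := Finset.univ.filter fun t => ¬ b t.1 = b s
          have hXm : ∀ t, t ∈ X ↔ b t.1 = b s := fun t => by simp [X]
          have hYm : ∀ t, t ∈ Y ↔ ¬ b t.1 = b s := fun t => by simp [Y]
          have hY : (Y : Set T) = (X : Set T)ᶜ := by
            ext t
            rw [Set.mem_compl_iff, Finset.mem_coe, Finset.mem_coe, hXm, hYm]
          have hcr : Cross (restr M T) (X : Set T) := by
            intro x hx y hy
            have hx' : b x.1 = b s := (hXm x).1 (Finset.mem_coe.1 hx)
            have hy' : b y.1 ≠ b s := fun h => hy (Finset.mem_coe.2 ((hXm y).2 h))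
            have hne : b x.1 ≠ b y.1 := fun h => hy' (h.symm.trans hx')
            refine ⟨hb.even _ _ hne, ?_⟩
            show M.M x.1 y.1 ≠ 2
            have h3 : M.M s y.1 ≠ 2 := by
              have := (hTm y.1).1 y.2
              tauto
            intro h
            exact h3 (hb.comm2 hx' rfl hne h)
          refine pair_P hP hgl (restr M T) X Y hY hcr (hX' T X ?_) (hX' T Y ?_)
          · intro x hx y hy
            exact ((hXm x).1 hx).trans ((hXm y).1 hy).symm
          · intro x hx y hy
            have hx' := (hYm x).1 hx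
            have hy' := (hYm y).1 hy
            refine hkey x.1 y.1 hx' hy' ?_ ?_
            · have := (hTm x.1).1 x.2
              tauto
            · have := (hTm y.1).1 y.2
              tauto
        -- `T` commutes with its complement
        have hcomm : ∀ a ∈ T, ∀ d, d ∉ T → M.M a d = 2 := by
          intro a ha d hd
          have hd' : b d ≠ b s ∧ M.M s d = 2 := by
            rw [hTm] at hd
            tauto
          rw [hTm] at ha
          by_cases has : b a = b s
          · exact hb.comm2 has.symm rfl (fun h => hd'.1 h.symm) hd'.2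
          · have ha' : M.M s a ≠ 2 := by tauto
            by_contra h
            refine h (hD s a d (fun h => has h.symm) (fun h => hd'.1 h.symm) ?_ ha')
            intro e
            exact hd (hTb a d ((hTm a).2 (Or.inr ha')) e)
        have hcom : ∀ x ∈ sg M (T : Set S), ∀ y ∈ sg M ((Tᶜ : Finset S) : Set S),
            x * y = y * x := by
          intro x hx y hy
          have h1 : ∀ a ∈ T, ∀ d, d ∉ T → gen M a * gen M d = gen M d * gen M a := by
            intro a ha d hd
            have h2 := gen_rel M a d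
            rw [hcomm a ha d hd] at h2
            simpa [alt] using h2
          have h2 : ∀ a ∈ T, gen M a * y = y * gen M a := by
            intro a ha
            unfold sg at hy
            induction hy using Subgroup.closure_induction with
            | mem y hy =>
              obtain ⟨d, hd, rfl⟩ := hy
              exact h1 a ha d (by simpa using hd)
            | one => rw [mul_one, one_mul]
            | mul y z _ _ ihy ihz => rw [← mul_assoc, ihy, mul_assoc, ihz, mul_assoc]
            | inv y _ ih =>
              have h3 : Commute (gen M a) y := ih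
              exact h3.inv_right
          unfold sg at hx
          induction hx using Subgroup.closure_induction with
          | mem x hx =>
            obtain ⟨a, ha, rfl⟩ := hx
            exact h2 a (Finset.mem_coe.1 ha)
          | one => rw [mul_one, one_mul]
          | mul x z _ _ ihx ihz => rw [mul_assoc, ihz, ← mul_assoc, ihx, mul_assoc]
          | inv x _ ih =>
            have h3 : Commute x y := ih
            exact h3.inv_left
        have hdec : ∀ g : Artin M,
            retS M (T : Set S) hsatT g * retS M ((Tᶜ : Finset S) : Set S) hsatT' g = g := by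
          let f : Artin M →* Artin M :=
            { toFun := fun g =>
                retS M (T : Set S) hsatT g * retS M ((Tᶜ : Finset S) : Set S) hsatT' g
              map_one' := by simp
              map_mul' := by
                intro x y
                have h1 := hcom _ (retS_mem' M hsatT y) _ (retS_mem' M hsatT' x)
                simp only [map_mul]
                calc _ = retS M (T : Set S) hsatT x * (retS M (T : Set S) hsatT y *
                      retS M ((Tᶜ : Finset S) : Set S) hsatT' x) *
                      retS M ((Tᶜ : Finset S) : Set S) hsatT' y := by group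
                  _ = _ := by rw [h1]; group }
          have hf : f = MonoidHom.id _ := by
            apply artin_hom_ext
            intro r
            show retS M (T : Set S) hsatT (gen M r) *
              retS M ((Tᶜ : Finset S) : Set S) hsatT' (gen M r) = gen M r
            by_cases hr : r ∈ T
            · have hr' : r ∉ ((Tᶜ : Finset S) : Set S) := by simpa using hr
              rw [retS_gen M hsatT (Finset.mem_coe.2 hr), retS_gen' M hsatT' hr', mul_one]
            · have hr' : r ∈ ((Tᶜ : Finset S) : Set S) := by simpa using hr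
              have hr'' : r ∉ (T : Set S) := fun h => hr (Finset.mem_coe.1 h)
              rw [retS_gen' M hsatT hr'', retS_gen M hsatT' hr', one_mul]
          intro g
          exact DFunLike.congr_fun hf g
        have hP2 : P (Artin (restr M Tᶜ)) :=
          ih (Tᶜ : Finset S) ι (hcard _ ⟨s, by simpa using hsT⟩) _ _ (hb.restr _) (hX' _)
        refine hP.inj ((rtS M T hsatT).prod (rtS M Tᶜ hsatT')) ?_ (hP.prod _ _ hP1 hP2)
        rw [injective_iff_map_eq_one]
        intro g hg
        have h1 : rtS M T hsatT g = 1 := congrArg Prod.fst hg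
        have h2 : rtS M Tᶜ hsatT' g = 1 := congrArg Prod.snd hg
        rw [← hdec g, ← incS_rt_ret M T hsatT, ← incS_rt_ret M Tᶜ hsatT', h1, h2, map_one,
          map_one, one_mul]
      · exact two_gen hP hgl M fun r => (hS0 ⟨r⟩).elim

/-- the theorem for finite monochromatic subsets -/
theorem blkE_P (hP : Closed P) (hgl : ∀ n : ℕ, P (Matrix.GeneralLinearGroup (Fin n) ℚ))
    (S ι : Type) (M : CoxeterMatrix S) (b : S → ι) (hb : BlkE M b)
    (hX : ∀ F : Finset S, (∀ s ∈ F, ∀ t ∈ F, b s = b t) → P (Artin (restr M F))) :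
    P (Artin M) := by
  classical
  open Pool.Agent.helper46.FJ3 in
  apply hP.colim (Finset S) (GE M) (mp M) (Artin M) (fun F => inc M F)
  · intro F x
    exact mp_refl M _ x
  · intro i j k hij hjk x
    exact mp_mp M _ _ _ x
  · intro i j h x
    exact inc_mp M _ x
  · exact surj_inc M
  · exact ker_inc M
  · intro F0
    refine blkE_fin hP hgl _ F0 ι le_rfl (Pool.Agent.helper46.FJ3.restr M F0) _ (hb.restr F0) ?_
    intro F hF
    refine restr_restr_P hP M F0 F (F.image Subtype.val)
      (fun s hs => Finset.mem_image.2 ⟨s, hs, rfl⟩) (hX _ ?_)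
    intro s hs t ht
    obtain ⟨s', hs', rfl⟩ := Finset.mem_image.1 hs
    obtain ⟨t', ht', rfl⟩ := Finset.mem_image.1 ht
    exact hF s' hs' t' ht'

/-- the Coxeter matrix of a block -/
def blockM {S ι : Type} (M : CoxeterMatrix S) (b : S → ι) (i : ι) :
    CoxeterMatrix {s // b s = i} where
  M := M.M.submatrix (fun s => s.1) (fun s => s.1)
  isSymm := M.isSymm.submatrix _
  diagonal s := M.diagonal _
  off_diagonal s s' h := M.off_diagonal _ _ (fun h' => h (Subtype.ext h'))

/-- **Artin groups with a block structure** belong to a class with the closure properties if the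
Artin groups of the blocks do. -/
theorem block_P (hP : Closed P) (hgl : ∀ n : ℕ, P (Matrix.GeneralLinearGroup (Fin n) ℚ))
    (S ι : Type) (M : CoxeterMatrix S) (b : S → ι) (hb : BlkE M b)
    (h : ∀ i, TwoDim (blockM M b i) ∨ P (Artin (blockM M b i))) : P (Artin M) := by
  classical
  have h' : ∀ i, P (Artin (blockM M b i)) := by
    intro i
    rcases h i with h1 | h1
    · exact artin_P hP hgl _ _ h1
    · exact h1
  refine blkE_P hP hgl S ι M b hb ?_
  intro F hF
  by_cases hF0 : ∃ s, s ∈ F
  · obtain ⟨s0, hs0⟩ := hF0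
    have h0 : ∀ s : F, b s.1 = b s0 := fun s => hF s.1 s.2 s0 hs0
    let f : Artin (restr M F) →* Artin (blockM M b (b s0)) :=
      lift _ (fun s => gen (blockM M b (b s0)) ⟨s.1, h0 s⟩)
        (fun s t => gen_rel (blockM M b (b s0)) ⟨s.1, h0 s⟩ ⟨t.1, h0 t⟩)
    have hf : ∀ s : F, f (gen (restr M F) s) = gen (blockM M b (b s0)) ⟨s.1, h0 s⟩ :=
      fun s => lift_gen _ _ _ _
    let k : Artin (blockM M b (b s0)) →* Artin M :=
      lift _ (fun s => gen M s.1) (fun s t => gen_rel M s.1 t.1)
    have hk : ∀ s, k (gen (blockM M b (b s0)) s) = gen M s.1 := fun s => lift_gen _ _ _ _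
    have hkf : k.comp f = inc M F := by
      apply artin_hom_ext
      rintro ⟨s, hs⟩
      rw [MonoidHom.comp_apply, hf, hk, inc_gen]
    refine hP.inj f ?_ (h' (b s0))
    rw [injective_iff_map_eq_one]
    intro x hx
    have h1 := DFunLike.congr_fun hkf x
    rw [MonoidHom.comp_apply, hx, map_one] at h1
    exact (injective_iff_map_eq_one _).1 (inc_inj' M F) x h1.symm
  · refine two_gen hP hgl _ ?_
    rintro ⟨s, hs⟩
    exact (hF0 ⟨s, hs⟩).elim

end P

end Pool.Agent.helper55.EV
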