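import Pool.Agent.helper34.FJ3.SdAsm
import Pool.Agent.helper34.FJ3.PartC

set_option autoImplicit false

/-!
# Definitions for the project EVA on even Artin groups

The development of a triangle of groups, short alternating relations, distances in links.
-/

namespace Pool.Agent.helper55.EV

open Pool.Agent.helper34.FJ2 Pool.Agent.helper34.FJ3
open scoped BigOperators

/-- the vertices of the development of the triangle of the subgroups `H 0`, `H 1`, `H 2` -/
def TV {G : Type} [Group G] (H : Fin 3 → Subgroup G) : Type := Σ t : Fin 3, G ⧸ H t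

/-- the coset `g H_t` -/
def tv {G : Type} [Group G] (H : Fin 3 → Subgroup G) (t : Fin 3) (g : G) : TV H :=
  ⟨t, (g : G ⧸ H t)⟩

instance {G : Type} [Group G] (H : Fin 3 → Subgroup G) : MulAction G (TV H) where
  smul g v := ⟨v.1, g • v.2⟩
  one_smul v := by
    rcases v with ⟨t, x⟩
    exact congrArg (Sigma.mk t) (one_smul _ x)
  mul_smul g h v := by
    rcases v with ⟨t, x⟩
    exact congrArg (Sigma.mk t) (mul_smul g h x)

theorem smul_tv {G : Type} [Group G] (H : Fin 3 → Subgroup G) (t : Fin 3) (g h : G) :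
    g • tv H t h = tv H t (g * h) := rfl

/-- the development of the triangle of groups: the triangles are `g H_0, g H_1, g H_2` -/
def tog {G : Type} [Group G] (H : Fin 3 → Subgroup G) : Complex2 (TV H) where
  edge u v := ∃ (g : G) (t t' : Fin 3), t ≠ t' ∧ u = tv H t g ∧ v = tv H t' g
  tri u v w := ∃ (g : G) (t t' t'' : Fin 3), t ≠ t' ∧ t' ≠ t'' ∧ t ≠ t'' ∧
    u = tv H t g ∧ v = tv H t' g ∧ w = tv H t'' g
  edge_symm := by
    rintro u v ⟨g, t, t', h, h1, h2⟩
    exact ⟨g, t', t, h.symm, h2, h1⟩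
  edge_irrefl := by
    rintro u ⟨g, t, t', h, h1, h2⟩
    exact h (congrArg Sigma.fst (h1.symm.trans h2))
  tri_rot := by
    rintro u v w ⟨g, t, t', t'', h, h', h'', h1, h2, h3⟩
    exact ⟨g, t', t'', t, h', h''.symm, h.symm, h2, h3, h1⟩
  tri_swap := by
    rintro u v w ⟨g, t, t', t'', h, h', h'', h1, h2, h3⟩
    exact ⟨g, t', t, t'', h.symm, h'', h', h2, h1, h3⟩
  tri_edge := by
    rintro u v w ⟨g, t, t', t'', h, h', h'', h1, h2, h3⟩
    exact ⟨g, t, t', h, h1, h2⟩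

/-- the lengths of the edges: right isosceles triangles with the right angle at the type `1` -/
noncomputable def tlen {G : Type} [Group G] (H : Fin 3 → Subgroup G) (u v : TV H) : ℝ :=
  if u.1 = 1 ∨ v.1 = 1 then 1 else Real.sqrt 2

/-- there are no alternating relations with four or six syllables -/
def G8 {G : Type} [Group G] (A B : Subgroup G) : Prop :=
  (∀ a₁ ∈ A, ∀ b₁ ∈ B, ∀ a₂ ∈ A, ∀ b₂ ∈ B, a₁ * b₁ * a₂ * b₂ = 1 →
    a₁ ∈ B ∨ b₁ ∈ A ∨ a₂ ∈ B ∨ b₂ ∈ A) ∧
  (∀ a₁ ∈ A, ∀ b₁ ∈ B, ∀ a₂ ∈ A, ∀ b₂ ∈ B, ∀ a₃ ∈ A, ∀ b₃ ∈ B,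
    a₁ * b₁ * a₂ * b₂ * a₃ * b₃ = 1 →
    a₁ ∈ B ∨ b₁ ∈ A ∨ a₂ ∈ B ∨ b₂ ∈ A ∨ a₃ ∈ B ∨ b₃ ∈ A)

/-- a certificate for the fact that the distance of `b` and `c` in the link of `p` is at
least `θ` -/
def Far {V : Type} (Y : Complex2 V) (len : V → V → ℝ) (p b c : V) (θ : ℝ) : Prop :=
  ∃ F : V → ℝ, (∀ x y, Y.tri p x y → |F x - F y| ≤ corner len p x y) ∧ θ ≤ |F b - F c|

/-- the Coxeter matrix is even: `M s t = 0` stands for the label `∞` -/
def Evn {S : Type} (M : CoxeterMatrix S) : Prop := ∀ s t : S, s ≠ t → Even (M.M s t)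

/-- the subgroup of the Artin group generated by a set of generators -/
def sg {S : Type} (M : CoxeterMatrix S) (T : Set S) :
    Subgroup (Pool.Agent.helper36.LT.Artin M) :=
  Subgroup.closure (Pool.Agent.helper36.LT.gen M '' T)

end Pool.Agent.helper55.EV
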