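import Pool.Agent.helper55.EV.Defs

set_option autoImplicit false

/-!
# The subdivided development of a triangle of groups

The types are `0 = A`, `1 = C`, `2 = B`, `3 = M`, the midpoint of the edge `AB`. The triangles are
`g H_A, g H_C, g H_M` and `g H_B, g H_C, g H_M`, where `H_M = H_A ∩ H_B`.
-/

namespace Pool.Agent.helper55.EV

open Pool.Agent.helper34.FJ2 Pool.Agent.helper34.FJ3
open scoped BigOperators

/-- the vertices -/
def TV4 {G : Type} [Group G] (H : Fin 4 → Subgroup G) : Type := Σ t : Fin 4, G ⧸ H t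

/-- the coset `g H_t` -/
def tv4 {G : Type} [Group G] (H : Fin 4 → Subgroup G) (t : Fin 4) (g : G) : TV4 H :=
  ⟨t, (g : G ⧸ H t)⟩

instance {G : Type} [Group G] (H : Fin 4 → Subgroup G) : MulAction G (TV4 H) where
  smul g v := ⟨v.1, g • v.2⟩
  one_smul v := by
    rcases v with ⟨t, x⟩
    exact congrArg (Sigma.mk t) (one_smul _ x)
  mul_smul g h v := by
    rcases v with ⟨t, x⟩
    exact congrArg (Sigma.mk t) (mul_smul g h x)

theorem smul_tv4 {G : Type} [Group G] (H : Fin 4 → Subgroup G) (t : Fin 4) (g h : G) :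
    g • tv4 H t h = tv4 H t (g * h) := rfl

/-- the types of adjacent vertices -/
def Ok4 (t t' : Fin 4) : Prop := t ≠ t' ∧ ¬ (t = 0 ∧ t' = 2) ∧ ¬ (t = 2 ∧ t' = 0)

theorem Ok4.symm {t t' : Fin 4} (h : Ok4 t t') : Ok4 t' t :=
  ⟨h.1.symm, fun h' => h.2.2 ⟨h'.2, h'.1⟩, fun h' => h.2.1 ⟨h'.2, h'.1⟩⟩

/-- the subdivided development -/
def tog4 {G : Type} [Group G] (H : Fin 4 → Subgroup G) : Complex2 (TV4 H) where
  edge u v := ∃ (g : G) (t t' : Fin 4), Ok4 t t' ∧ u = tv4 H t g ∧ v = tv4 H t' g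
  tri u v w := ∃ (g : G) (t t' t'' : Fin 4), Ok4 t t' ∧ Ok4 t' t'' ∧ Ok4 t t'' ∧
    u = tv4 H t g ∧ v = tv4 H t' g ∧ w = tv4 H t'' g
  edge_symm := by
    rintro u v ⟨g, t, t', h, h1, h2⟩
    exact ⟨g, t', t, h.symm, h2, h1⟩
  edge_irrefl := by
    rintro u ⟨g, t, t', h, h1, h2⟩
    exact h.1 (congrArg Sigma.fst (h1.symm.trans h2))
  tri_rot := by
    rintro u v w ⟨g, t, t', t'', h, h', h'', h1, h2, h3⟩
    exact ⟨g, t', t'', t, h', h''.symm, h.symm, h2, h3, h1⟩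
  tri_swap := by
    rintro u v w ⟨g, t, t', t'', h, h', h'', h1, h2, h3⟩
    exact ⟨g, t', t, t'', h.symm, h'', h', h2, h1, h3⟩
  tri_edge := by
    rintro u v w ⟨g, t, t', t'', h, h', h'', h1, h2, h3⟩
    exact ⟨g, t, t', h, h1, h2⟩

/-- the lengths of the edges: right isosceles triangles with the right angle at the type `3` -/
noncomputable def tlen4 {G : Type} [Group G] (H : Fin 4 → Subgroup G) (u v : TV4 H) : ℝ :=
  if u.1 = 3 ∨ v.1 = 3 then 1 else Real.sqrt 2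

end Pool.Agent.helper55.EV
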