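import Pool.Agent.helper55.EV.Alg2

set_option autoImplicit false

/-!
# The hybrid complex of a pair of sets of generators

The generators are divided into `X` and its complement. The types of the vertices are: the empty set,
the single generators, the pairs `{x, y}` with `x ∈ X`, `y ∉ X` and finite label, and the two sets
`X` and `Xᶜ`.
-/

namespace Pool.Agent.helper55.EV

open Pool.Agent.helper34.FJ2 Pool.Agent.helper34.FJ3
open Pool.Agent.helper36.LT (Artin gen alt artinRels)
open scoped BigOperators

/-- the labels between `X` and its complement are even or `∞`, and different from two -/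
def Cross {S : Type} (M : CoxeterMatrix S) (X : Set S) : Prop :=
  ∀ s ∈ X, ∀ t, t ∉ X → Even (M.M s t) ∧ M.M s t ≠ 2

/-- the types of the vertices -/
inductive HT {S : Type} (M : CoxeterMatrix S) (X : Set S) : Type
  | e : HT M X
  | s (a : S) : HT M X
  | p (x y : S) (hx : x ∈ X) (hy : y ∉ X) (h : M.M x y ≠ 0) : HT M X
  | b (side : Bool) : HT M X

variable {S : Type} (M : CoxeterMatrix S) (X : Set S)

/-- one of the two sides -/
def side : Bool → Set S
  | true => X
  | false => Xᶜ

/-- the set of generators of a type -/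
def HT.supp {M : CoxeterMatrix S} {X : Set S} : HT M X → Set S
  | HT.e => ∅
  | HT.s a => {a}
  | HT.p x y _ _ _ => {x, y}
  | HT.b c => side X c

/-- the strict order of the types -/
def HLt {M : CoxeterMatrix S} {X : Set S} : HT M X → HT M X → Prop
  | HT.e, HT.e => False
  | HT.e, _ => True
  | HT.s a, HT.p x y _ _ _ => a = x ∨ a = y
  | HT.s a, HT.b c => a ∈ side X c
  | _, _ => False

/-- comparable types -/
def HCmp {M : CoxeterMatrix S} {X : Set S} (T T' : HT M X) : Prop := HLt T T' ∨ HLt T' T

theorem HCmp.symm {M : CoxeterMatrix S} {X : Set S} {T T' : HT M X} (h : HCmp T T') :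
    HCmp T' T := Or.symm h

theorem HLt.irrefl {M : CoxeterMatrix S} {X : Set S} (T : HT M X) : ¬ HLt T T := by
  cases T <;> exact id

/-- the vertices of the hybrid complex -/
def HV : Type := Σ T : HT M X, Artin M ⧸ sg M T.supp

/-- the coset `g ⟨T⟩` -/
def hv (T : HT M X) (g : Artin M) : HV M X := ⟨T, (g : Artin M ⧸ sg M T.supp)⟩

instance : MulAction (Artin M) (HV M X) where
  smul g v := ⟨v.1, g • v.2⟩
  one_smul v := by
    rcases v with ⟨t, x⟩
    exact congrArg (Sigma.mk t) (one_smul _ x)
  mul_smul g h v := by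
    rcases v with ⟨t, x⟩
    exact congrArg (Sigma.mk t) (mul_smul g h x)

theorem smul_hv (T : HT M X) (g h : Artin M) : g • hv M X T h = hv M X T (g * h) := rfl

/-- the hybrid complex -/
def hyb : Complex2 (HV M X) where
  edge v w := ∃ (g : Artin M) (T T' : HT M X), HCmp T T' ∧ v = hv M X T g ∧ w = hv M X T' g
  tri u v w := ∃ (g : Artin M) (T T' T'' : HT M X), HCmp T T' ∧ HCmp T' T'' ∧ HCmp T T'' ∧
    u = hv M X T g ∧ v = hv M X T' g ∧ w = hv M X T'' g
  edge_symm := by
    rintro v w ⟨g, T, T', h, h1, h2⟩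
    exact ⟨g, T', T, h.symm, h2, h1⟩
  edge_irrefl := by
    rintro v ⟨g, T, T', h, h1, h2⟩
    have h3 : T = T' := congrArg Sigma.fst (h1.symm.trans h2)
    subst h3
    exact h.elim (HLt.irrefl T) (HLt.irrefl T)
  tri_rot := by
    rintro u v w ⟨g, T, T', T'', h, h', h'', h1, h2, h3⟩
    exact ⟨g, T', T'', T, h', h''.symm, h.symm, h2, h3, h1⟩
  tri_swap := by
    rintro u v w ⟨g, T, T', T'', h, h', h'', h1, h2, h3⟩
    exact ⟨g, T', T, T'', h.symm, h'', h', h2, h1, h3⟩
  tri_edge := by
    rintro u v w ⟨g, T, T', T'', h, h', h'', h1, h2, h3⟩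
    exact ⟨g, T, T', h, h1, h2⟩

/-- the angle `π / (2 m)` -/
noncomputable def hang (m : ℕ) : ℝ := Real.pi / (2 * m)

/-- the lengths of the edges: `1` between `∅` and `{a}`, `cot α` between `{x}` and `{x,y}`,
`1 / sin α` between `∅` and `{x,y}`, where `α = π / (2 m_xy)`; `1` between `{x}` and `X`, and
`√2` between `∅` and `X`; the same for the complement -/
noncomputable def hl {M : CoxeterMatrix S} {X : Set S} : HT M X → HT M X → ℝ
  | HT.e, HT.b _ => Real.sqrt 2
  | HT.b _, HT.e => Real.sqrt 2
  | HT.e, HT.p x y _ _ _ => 1 / Real.sin (hang (M.M x y))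
  | HT.p x y _ _ _, HT.e => 1 / Real.sin (hang (M.M x y))
  | HT.s _, HT.p x y _ _ _ => Real.cos (hang (M.M x y)) / Real.sin (hang (M.M x y))
  | HT.p x y _ _ _, HT.s _ => Real.cos (hang (M.M x y)) / Real.sin (hang (M.M x y))
  | _, _ => 1

/-- the lengths of the edges -/
noncomputable def hlen (v w : HV M X) : ℝ := hl v.1 w.1

end Pool.Agent.helper55.EV
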