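import Pool.Agent.helper55.EV.HDefs
import Pool.Agent.helper71.FJ3.Deligne

set_option autoImplicit false

/-!
# EAG-HNPC: the hybrid complex is non-positively curved
-/

namespace Pool.Agent.helper55.EV

open Pool.Agent.helper34.FJ2 Pool.Agent.helper34.FJ3
open Pool.Agent.helper36.LT (Artin gen alt artinRels)
open Pool.Agent.helper71.FJ3 (two_le corner_symm link_periodic mod_two sum_even alternate)
open scoped BigOperators

section types

variable {S : Type} {M : CoxeterMatrix S} {X : Set S}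

/-- the rank of a type -/
def HNPC_rk : HT M X → ℕ
  | HT.e => 0
  | HT.s _ => 1
  | HT.p _ _ _ _ _ => 2
  | HT.b _ => 2

theorem HNPC_rk_le (T : HT M X) : HNPC_rk T ≤ 2 := by
  cases T <;> simp [HNPC_rk]

theorem HNPC_lt {T T' : HT M X} (h : HLt T T') : HNPC_rk T < HNPC_rk T' := by
  cases T <;> cases T' <;> simp_all [HLt, HNPC_rk]

theorem HNPC_cmp_ne {T T' : HT M X} (h : HCmp T T') : HNPC_rk T ≠ HNPC_rk T' := by
  rcases h with h | h
  · exact (HNPC_lt h).ne
  · exact (HNPC_lt h).ne'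

theorem HNPC_cmp_lt {T T' : HT M X} (h : HCmp T T') (h' : HNPC_rk T < HNPC_rk T') : HLt T T' := by
  rcases h with h | h
  · exact h
  · exact absurd (HNPC_lt h) (by omega)

theorem HNPC_rk0 {T : HT M X} (h : HNPC_rk T = 0) : T = HT.e := by
  cases T <;> simp_all [HNPC_rk]

theorem HNPC_rk1 {T : HT M X} (h : HNPC_rk T = 1) : ∃ a, T = HT.s a := by
  cases T <;> simp_all [HNPC_rk]

theorem HNPC_rk2 {T : HT M X} (h : HNPC_rk T = 2) :
    (∃ x y hx hy h, T = HT.p x y hx hy h) ∨ ∃ c, T = HT.b c := by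
  cases T with
  | e => simp [HNPC_rk] at h
  | s a => simp [HNPC_rk] at h
  | p x y hx hy h1 => exact Or.inl ⟨x, y, hx, hy, h1, rfl⟩
  | b c => exact Or.inr ⟨c, rfl⟩

/-- the angle at a vertex of rank two -/
noncomputable def HNPC_ta : HT M X → ℝ
  | HT.p x y _ _ _ => hang (M.M x y)
  | HT.b _ => Real.pi / 4
  | _ => 0

theorem HNPC_hang_pos {m : ℕ} (h : 2 ≤ m) : 0 < hang m := by
  have h2 : (2 : ℝ) ≤ m := by exact_mod_cast h
  unfold hang
  have := Real.pi_pos
  positivity

theorem HNPC_hang_le {m c : ℕ} (hc : 2 ≤ c) (h : c ≤ m) : hang m ≤ Real.pi / (2 * c) := by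
  have h2 : (c : ℝ) ≤ m := by exact_mod_cast h
  have h3 : (2 : ℝ) ≤ c := by exact_mod_cast hc
  unfold hang
  have := Real.pi_pos
  exact div_le_div_of_nonneg_left this.le (by positivity) (by linarith)

theorem HNPC_ne {x y : S} (hx : x ∈ X) (hy : y ∉ X) : x ≠ y := by
  rintro rfl
  exact hy hx

theorem HNPC_ta_pos (T : HT M X) (h : HNPC_rk T = 2) : 0 < HNPC_ta T := by
  have hpi := Real.pi_pos
  rcases HNPC_rk2 h with ⟨x, y, hx, hy, h1, rfl⟩ | ⟨c, rfl⟩
  · exact HNPC_hang_pos (two_le M (HNPC_ne hx hy) h1)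
  · show 0 < Real.pi / 4
    positivity

theorem HNPC_ta_lt (T : HT M X) (h : HNPC_rk T = 2) : HNPC_ta T < Real.pi / 2 := by
  have hpi := Real.pi_pos
  rcases HNPC_rk2 h with ⟨x, y, hx, hy, h1, rfl⟩ | ⟨c, rfl⟩
  · have h2 := HNPC_hang_le le_rfl (two_le M (HNPC_ne hx hy) h1)
    have h3 : Real.pi / (2 * ((2 : ℕ) : ℝ)) < Real.pi / 2 := by
      push_cast
      linarith
    exact h2.trans_lt h3
  · show Real.pi / 4 < Real.pi / 2
    linarith

theorem HNPC_hl_symm (T T' : HT M X) : hl T T' = hl T' T := by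
  cases T <;> cases T' <;> rfl

theorem HNPC_hl01 (T T' : HT M X) (h : HNPC_rk T + HNPC_rk T' = 1) : hl T T' = 1 := by
  cases T <;> cases T' <;> simp_all [HNPC_rk, hl]

theorem HNPC_sqrt : Real.sqrt 2 = 1 / Real.sin (Real.pi / 4) := by
  rw [Real.sin_pi_div_four]
  have h := Real.mul_self_sqrt (show (0 : ℝ) ≤ 2 by norm_num)
  have h0 : (0 : ℝ) < Real.sqrt 2 := Real.sqrt_pos.2 two_pos
  rw [eq_div_iff (by positivity)]
  linarith

theorem HNPC_one : (1 : ℝ) = Real.cos (Real.pi / 4) / Real.sin (Real.pi / 4) := by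
  rw [Real.sin_pi_div_four, Real.cos_pi_div_four, div_self]
  have h0 : (0 : ℝ) < Real.sqrt 2 := Real.sqrt_pos.2 two_pos
  positivity

theorem HNPC_hl02 (T T' : HT M X) (h : HNPC_rk T = 0) (h' : HNPC_rk T' = 2) :
    hl T T' = 1 / Real.sin (HNPC_ta T') := by
  rw [HNPC_rk0 h]
  rcases HNPC_rk2 h' with ⟨x, y, hx, hy, h1, rfl⟩ | ⟨c, rfl⟩
  · rfl
  · exact HNPC_sqrt

theorem HNPC_hl12 (T T' : HT M X) (h : HNPC_rk T = 1) (h' : HNPC_rk T' = 2) :
    hl T T' = Real.cos (HNPC_ta T') / Real.sin (HNPC_ta T') := by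
  obtain ⟨a, rfl⟩ := HNPC_rk1 h
  rcases HNPC_rk2 h' with ⟨x, y, hx, hy, h1, rfl⟩ | ⟨c, rfl⟩
  · rfl
  · exact HNPC_one

theorem HNPC_trig (T : HT M X) (h : HNPC_rk T = 2) :
    0 < Real.sin (HNPC_ta T) ∧ 0 < Real.cos (HNPC_ta T) ∧
      Real.sin (HNPC_ta T) ^ 2 + Real.cos (HNPC_ta T) ^ 2 = 1 := by
  have h1 := HNPC_ta_pos T h
  have h2 := HNPC_ta_lt T h
  have h3 := Real.pi_pos
  refine ⟨Real.sin_pos_of_pos_of_lt_pi h1 (by linarith), Real.cos_pos_of_mem_Ioo ⟨by linarith, h2⟩,
    Real.sin_sq_add_cos_sq _⟩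

/-- two different generators have at most one common type above them -/
theorem HNPC_uniq {a a' : S} (hne : a ≠ a') {T T' : HT M X} (h1 : HLt (HT.s a) T)
    (h2 : HLt (HT.s a') T) (h3 : HLt (HT.s a) T') (h4 : HLt (HT.s a') T') : T = T' := by
  have hr1 := HNPC_lt h1
  have hr3 := HNPC_lt h3
  have e1 : HNPC_rk T = 2 := le_antisymm (HNPC_rk_le T) hr1
  have e3 : HNPC_rk T' = 2 := le_antisymm (HNPC_rk_le T') hr3
  have hs : ∀ c c' : Bool, ∀ z, z ∈ side X c → z ∈ side X c' → c = c' := by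
    intro c c' z
    cases c <;> cases c' <;> simp [side]
  have key : ∀ (x y : S) (hx : x ∈ X) (hy : y ∉ X) (c : Bool), (a = x ∨ a = y) → (a' = x ∨ a' = y) →
      a ∈ side X c → a' ∈ side X c → False := by
    intro x y hx hy c g1 g2 g3 g4
    have hx' : ∀ z, z ∈ side X c → z = x → c = true := fun z h1 h2 =>
      hs c true x (h2 ▸ h1) hx
    have hy' : ∀ z, z ∈ side X c → z = y → c = false := fun z h1 h2 =>
      hs c false y (h2 ▸ h1) hy
    rcases g1 with g1 | g1 <;> rcases g2 with g2 | g2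
    · exact hne (g1.trans g2.symm)
    · exact Bool.false_ne_true ((hy' a' g4 g2).symm.trans (hx' a g3 g1))
    · exact Bool.false_ne_true ((hy' a g3 g1).symm.trans (hx' a' g4 g2))
    · exact hne (g1.trans g2.symm)
  rcases HNPC_rk2 e1 with ⟨x, y, hx, hy, k1, rfl⟩ | ⟨c, rfl⟩ <;>
    rcases HNPC_rk2 e3 with ⟨x', y', hx', hy', k2, rfl⟩ | ⟨c', rfl⟩
  · have g1 : a = x ∨ a = y := h1
    have g2 : a' = x ∨ a' = y := h2
    have g3 : a = x' ∨ a = y' := h3
    have g4 : a' = x' ∨ a' = y' := h4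
    have hxx : x = x' ∧ y = y' := by
      rcases g1 with rfl | rfl <;> rcases g2 with rfl | rfl
      · exact absurd rfl hne
      · rcases g3 with rfl | rfl <;> rcases g4 with rfl | rfl
        · exact absurd rfl hne
        · exact ⟨rfl, rfl⟩
        · exact absurd hx hy'
        · exact absurd rfl hne
      · rcases g3 with rfl | rfl <;> rcases g4 with rfl | rfl
        · exact absurd rfl hne
        · exact absurd hx' hy
        · exact ⟨rfl, rfl⟩
        · exact absurd rfl hne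
      · exact absurd rfl hne
    obtain ⟨rfl, rfl⟩ := hxx
    rfl
  · exact (key x y hx hy c' h1 h2 h3 h4).elim
  · exact (key x' y' hx' hy' c h3 h4 h1 h2).elim
  · have := hs c c' a h1 h3
    rw [this]

theorem HNPC_side {a : S} {c c' : Bool} (h : HLt (HT.s a : HT M X) (HT.b c))
    (h' : HLt (HT.s a : HT M X) (HT.b c')) : c = c' := by
  have hs : ∀ c c' : Bool, ∀ z, z ∈ side X c → z ∈ side X c' → c = c' := by
    intro c c' z
    cases c <;> cases c' <;> simp [side]
  exact hs c c' a h h'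

end types

section cosets

variable {S : Type} (M : CoxeterMatrix S) (X : Set S)

theorem HNPC_eq (T : HT M X) (g h : Artin M) :
    hv M X T g = hv M X T h ↔ g⁻¹ * h ∈ sg M T.supp := by
  constructor
  · intro h1
    exact QuotientGroup.eq.1 (eq_of_heq (Sigma.mk.inj h1).2)
  · intro h1
    exact congrArg (Sigma.mk T) (QuotientGroup.eq.2 h1)

theorem HNPC_ty {T T' : HT M X} {g h : Artin M} (e : hv M X T g = hv M X T' h) : T = T' :=
  congrArg Sigma.fst e

theorem HNPC_data {u v w : HV M X} (h : (hyb M X).tri u v w) :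
    ∃ g : Artin M, u = hv M X u.1 g ∧ v = hv M X v.1 g ∧ w = hv M X w.1 g ∧
      HCmp u.1 v.1 ∧ HCmp v.1 w.1 ∧ HCmp u.1 w.1 := by
  obtain ⟨g, T, T', T'', h1, h2, h3, rfl, rfl, rfl⟩ := h
  exact ⟨g, rfl, rfl, rfl, h1, h2, h3⟩

theorem HNPC_empty {x : Artin M} (h : x ∈ sg M ∅) : x = 1 := by
  simpa [sg] using h

theorem HNPC_single {s : S} {x : Artin M} (h : x ∈ sg M {s}) : ∃ e : ℤ, gen M s ^ e = x := by
  have h1 : x ∈ Subgroup.closure {gen M s} := by simpa [sg] using h
  exact Subgroup.mem_closure_singleton.1 h1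

theorem HNPC_emp {g h : Artin M} (e : hv M X HT.e g = hv M X HT.e h) : g = h := by
  rw [HNPC_eq] at e
  exact inv_mul_eq_one.1 (HNPC_empty M e)

theorem hyb_acts {S : Type} (M : CoxeterMatrix S) (X : Set S) :
    ActsIso (Artin M) (hyb M X) (hlen M X) := by
  constructor
  · rintro g a b ⟨h, T, T', hT, rfl, rfl⟩
    exact ⟨g * h, T, T', hT, rfl, rfl⟩
  · rintro g a b c ⟨h, T, T', T'', h1, h2, h3, rfl, rfl, rfl⟩
    exact ⟨g * h, T, T', T'', h1, h2, h3, rfl, rfl, rfl⟩
  · intro g a b _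
    rfl

theorem HNPC_symm (u v : HV M X) : hlen M X u v = hlen M X v u := HNPC_hl_symm _ _

/-! ### Corners -/

theorem HNPC_mid' (u v w : HV M X) (hu : HNPC_rk u.1 = 1)
    (hv : HNPC_rk v.1 = 0) (hw : HNPC_rk w.1 = 2) : corner (hlen M X) u v w = Real.pi / 2 := by
  obtain ⟨h1, h2, h3⟩ := HNPC_trig w.1 hw
  unfold corner hlen
  rw [HNPC_hl01 u.1 v.1 (by omega), HNPC_hl12 u.1 w.1 hu hw, HNPC_hl02 v.1 w.1 hv hw]
  rw [← Real.arccos_zero]
  congr 1
  field_simp
  rw [mul_zero]
  linarith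

theorem HNPC_mid (u v w : HV M X) (hu : HNPC_rk u.1 = 1)
    (h : (HNPC_rk v.1 = 0 ∧ HNPC_rk w.1 = 2) ∨ (HNPC_rk v.1 = 2 ∧ HNPC_rk w.1 = 0)) :
    corner (hlen M X) u v w = Real.pi / 2 := by
  rcases h with ⟨h1, h2⟩ | ⟨h1, h2⟩
  · exact HNPC_mid' M X u v w hu h1 h2
  · rw [corner_symm _ (HNPC_symm M X)]
    exact HNPC_mid' M X u w v hu h2 h1

theorem HNPC_top' (u v w : HV M X) (hu : HNPC_rk u.1 = 2)
    (hv : HNPC_rk v.1 = 0) (hw : HNPC_rk w.1 = 1) :
    corner (hlen M X) u v w = HNPC_ta u.1 := by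
  obtain ⟨h1, h2, h3⟩ := HNPC_trig u.1 hu
  have h4 := HNPC_ta_pos u.1 hu
  have h5 := HNPC_ta_lt u.1 hu
  have h6 := Real.pi_pos
  unfold corner
  rw [HNPC_symm M X u v, HNPC_symm M X u w]
  unfold hlen
  rw [HNPC_hl01 v.1 w.1 (by omega), HNPC_hl02 v.1 u.1 hv hu, HNPC_hl12 w.1 u.1 hw hu]
  have e : ((1 / Real.sin (HNPC_ta u.1)) ^ 2 +
      (Real.cos (HNPC_ta u.1) / Real.sin (HNPC_ta u.1)) ^ 2 - 1 ^ 2) /
      (2 * (1 / Real.sin (HNPC_ta u.1)) * (Real.cos (HNPC_ta u.1) / Real.sin (HNPC_ta u.1))) =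
      Real.cos (HNPC_ta u.1) := by
    field_simp
    nlinarith
  rw [e, Real.arccos_cos (by linarith) (by linarith)]

theorem HNPC_top (u v w : HV M X) (hu : HNPC_rk u.1 = 2)
    (h : (HNPC_rk v.1 = 0 ∧ HNPC_rk w.1 = 1) ∨ (HNPC_rk v.1 = 1 ∧ HNPC_rk w.1 = 0)) :
    corner (hlen M X) u v w = HNPC_ta u.1 := by
  rcases h with ⟨h1, h2⟩ | ⟨h1, h2⟩
  · exact HNPC_top' M X u v w hu h1 h2
  · rw [corner_symm _ (HNPC_symm M X)]
    exact HNPC_top' M X u w v hu h2 h1

theorem HNPC_bot (u v w : HV M X) (hu : HNPC_rk u.1 = 0)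
    (hv : HNPC_rk v.1 = 1) (hw : HNPC_rk w.1 = 2) :
    corner (hlen M X) u v w = Real.pi / 2 - HNPC_ta w.1 := by
  obtain ⟨h1, h2, h3⟩ := HNPC_trig w.1 hw
  have h4 := HNPC_ta_pos w.1 hw
  have h5 := HNPC_ta_lt w.1 hw
  have h6 := Real.pi_pos
  unfold corner hlen
  rw [HNPC_hl01 u.1 v.1 (by omega), HNPC_hl02 u.1 w.1 hu hw, HNPC_hl12 v.1 w.1 hv hw]
  have e : (1 ^ 2 + (1 / Real.sin (HNPC_ta w.1)) ^ 2 -
      (Real.cos (HNPC_ta w.1) / Real.sin (HNPC_ta w.1)) ^ 2) /
      (2 * 1 * (1 / Real.sin (HNPC_ta w.1))) = Real.cos (Real.pi / 2 - HNPC_ta w.1) := by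
    rw [Real.cos_pi_div_two_sub]
    field_simp
    nlinarith
  rw [e, Real.arccos_cos (by linarith) (by linarith)]

/-! ### Triangles -/

theorem HNPC_edge {u v : HV M X} (h : (hyb M X).edge u v) :
    HNPC_rk u.1 ≤ 2 ∧ HNPC_rk v.1 ≤ 2 ∧ HNPC_rk u.1 ≠ HNPC_rk v.1 := by
  obtain ⟨g, T, T', h1, rfl, rfl⟩ := h
  exact ⟨HNPC_rk_le _, HNPC_rk_le _, HNPC_cmp_ne h1⟩

theorem HNPC_tri {u v w : HV M X} (h : (hyb M X).tri u v w) :
    HNPC_rk u.1 ≤ 2 ∧ HNPC_rk v.1 ≤ 2 ∧ HNPC_rk w.1 ≤ 2 ∧ HNPC_rk u.1 ≠ HNPC_rk v.1 ∧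
      HNPC_rk v.1 ≠ HNPC_rk w.1 ∧ HNPC_rk u.1 ≠ HNPC_rk w.1 := by
  obtain ⟨g, T, T', T'', h1, h2, h3, rfl, rfl, rfl⟩ := h
  exact ⟨HNPC_rk_le _, HNPC_rk_le _, HNPC_rk_le _, HNPC_cmp_ne h1, HNPC_cmp_ne h2, HNPC_cmp_ne h3⟩

theorem HNPC_pos (u v : HV M X) (h : (hyb M X).edge u v) : 0 < hlen M X u v := by
  obtain ⟨h1, h2, h3⟩ := HNPC_edge M X h
  have key : ∀ u v : HV M X, HNPC_rk u.1 < HNPC_rk v.1 → HNPC_rk v.1 ≤ 2 → 0 < hlen M X u v := by
    intro u v h4 h5
    have h6 : HNPC_rk u.1 + HNPC_rk v.1 = 1 ∨ (HNPC_rk u.1 = 0 ∧ HNPC_rk v.1 = 2) ∨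
        (HNPC_rk u.1 = 1 ∧ HNPC_rk v.1 = 2) := by omega
    unfold hlen
    rcases h6 with h6 | ⟨h6, h7⟩ | ⟨h6, h7⟩
    · rw [HNPC_hl01 _ _ h6]
      norm_num
    · obtain ⟨h8, h9, h10⟩ := HNPC_trig v.1 h7
      rw [HNPC_hl02 _ _ h6 h7]
      positivity
    · obtain ⟨h8, h9, h10⟩ := HNPC_trig v.1 h7
      rw [HNPC_hl12 _ _ h6 h7]
      positivity
  rcases lt_or_gt_of_ne h3 with h4 | h4
  · exact key u v h4 h2
  · rw [HNPC_symm]
    exact key v u h4 h1

theorem HNPC_triangle (u v w : HV M X) (h : (hyb M X).tri u v w) :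
    hlen M X u w < hlen M X u v + hlen M X v w := by
  obtain ⟨h1, h2, h3, h4, h5, h6⟩ := HNPC_tri M X h
  have key : ∀ a b c : HV M X, HNPC_rk a.1 = 0 → HNPC_rk b.1 = 1 → HNPC_rk c.1 = 2 →
      hlen M X a b < hlen M X b c + hlen M X a c ∧ hlen M X b c < hlen M X a b + hlen M X a c ∧
        hlen M X a c < hlen M X a b + hlen M X b c := by
    intro a b c ha hb hc
    obtain ⟨h8, h9, h10⟩ := HNPC_trig c.1 hc
    unfold hlen
    rw [HNPC_hl01 a.1 b.1 (by omega), HNPC_hl12 b.1 c.1 hb hc, HNPC_hl02 a.1 c.1 ha hc]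
    refine ⟨?_, ?_, ?_⟩
    · rw [← add_div, lt_div_iff₀ h8]
      nlinarith
    · rw [div_lt_iff₀ h8, add_mul, div_mul_cancel₀ _ h8.ne']
      nlinarith
    · rw [div_lt_iff₀ h8, add_mul, div_mul_cancel₀ _ h8.ne']
      nlinarith
  have h7 : (HNPC_rk u.1 = 0 ∧ HNPC_rk v.1 = 1 ∧ HNPC_rk w.1 = 2) ∨
      (HNPC_rk u.1 = 0 ∧ HNPC_rk v.1 = 2 ∧ HNPC_rk w.1 = 1) ∨
      (HNPC_rk u.1 = 1 ∧ HNPC_rk v.1 = 0 ∧ HNPC_rk w.1 = 2) ∨
      (HNPC_rk u.1 = 1 ∧ HNPC_rk v.1 = 2 ∧ HNPC_rk w.1 = 0) ∨
      (HNPC_rk u.1 = 2 ∧ HNPC_rk v.1 = 0 ∧ HNPC_rk w.1 = 1) ∨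
      (HNPC_rk u.1 = 2 ∧ HNPC_rk v.1 = 1 ∧ HNPC_rk w.1 = 0) := by omega
  rcases h7 with ⟨a, b, c⟩ | ⟨a, b, c⟩ | ⟨a, b, c⟩ | ⟨a, b, c⟩ | ⟨a, b, c⟩ | ⟨a, b, c⟩
  · exact (key u v w a b c).2.2
  · have := (key u w v a c b).1
    rw [HNPC_symm M X w v] at this
    linarith
  · have := (key v u w b a c).2.1
    rw [HNPC_symm M X v u] at this
    linarith
  · have := (key w u v c a b).1
    rw [HNPC_symm M X w u, HNPC_symm M X w v] at this
    linarith
  · have := (key v w u b c a).2.1
    rw [HNPC_symm M X w u, HNPC_symm M X v u] at this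
    linarith
  · have := (key w v u c b a).2.2
    rw [HNPC_symm M X w u, HNPC_symm M X w v, HNPC_symm M X v u] at this
    linarith

/-! ### Links of vertices of rank one -/

theorem HNPC_link_one (a : HV M X) (ha : HNPC_rk a.1 = 1)
    (n : ℕ) (b : ℕ → HV M X) (hn : 3 ≤ n) (hb : b n = b 0)
    (hinj : ∀ i j, i < n → j < n → b i = b j → i = j)
    (htri : ∀ i, i < n → (hyb M X).tri a (b i) (b (i + 1))) :
    2 * Real.pi ≤ ∑ i ∈ Finset.range n, corner (hlen M X) a (b i) (b (i + 1)) := by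
  refine link_periodic (hyb M X) (hlen M X) a (fun v => HNPC_rk v.1 = 0) ?_ ?_ n b hn hb hinj htri
  · intro b c h h1
    have h2 := HNPC_tri M X h
    omega
  · intro n b hn hper hinj htri h0
    have h1 : ∀ i, (HNPC_rk (b i).1 = 0 ∧ HNPC_rk (b (i + 1)).1 = 2) ∨
        (HNPC_rk (b i).1 = 2 ∧ HNPC_rk (b (i + 1)).1 = 0) := by
      intro i
      have := HNPC_tri M X (htri i)
      omega
    obtain ⟨-, -, k, hk⟩ := alternate (fun i => HNPC_rk (b i).1) 0 2 (by norm_num) n
      (by have := hper 0; rw [zero_add] at this; simp only [this]) h1 h0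
    have h2 : ∀ i, corner (hlen M X) a (b i) (b (i + 1)) = Real.pi / 2 := by
      intro i
      exact HNPC_mid M X a _ _ ha (h1 i)
    simp only [h2, Finset.sum_const, Finset.card_range, nsmul_eq_mul]
    have h3 : (4 : ℝ) ≤ n := by
      have : 4 ≤ n := by omega
      exact_mod_cast this
    have := Real.pi_pos
    nlinarith

/-! ### Links of vertices of type `∅` -/

theorem HNPC_link_zero (hX : Cross M X) (a : HV M X) (ha : HNPC_rk a.1 = 0)
    (n : ℕ) (b : ℕ → HV M X) (hn : 3 ≤ n) (hb : b n = b 0)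
    (hinj : ∀ i j, i < n → j < n → b i = b j → i = j)
    (htri : ∀ i, i < n → (hyb M X).tri a (b i) (b (i + 1))) :
    2 * Real.pi ≤ ∑ i ∈ Finset.range n, corner (hlen M X) a (b i) (b (i + 1)) := by
  refine link_periodic (hyb M X) (hlen M X) a (fun v => HNPC_rk v.1 = 1) ?_ ?_ n b hn hb hinj htri
  · intro b c h h1
    have h2 := HNPC_tri M X h
    omega
  · clear hinj htri hb hn
    clear b n
    intro n b hn hper hinj htri h0
    have h1 : ∀ i, (HNPC_rk (b i).1 = 1 ∧ HNPC_rk (b (i + 1)).1 = 2) ∨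
        (HNPC_rk (b i).1 = 2 ∧ HNPC_rk (b (i + 1)).1 = 1) := by
      intro i
      have := HNPC_tri M X (htri i)
      omega
    obtain ⟨c1, c2, k, hk⟩ := alternate (fun i => HNPC_rk (b i).1) 1 2 (by norm_num) n
      (by have := hper 0; rw [zero_add] at this; simp only [this]) h1 h0
    -- all the vertices are determined by their types
    obtain ⟨g0, hg0, -⟩ := HNPC_data M X (htri 0)
    rw [HNPC_rk0 ha] at hg0
    have h2 : ∀ i, b i = hv M X (b i).1 g0 := by
      intro i
      obtain ⟨g, e1, e2, -⟩ := HNPC_data M X (htri i)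
      rw [HNPC_rk0 ha, hg0] at e1
      have e3 := HNPC_emp M X e1
      rw [e3]
      exact e2
    have h3 : ∀ i, HCmp (b i).1 (b (i + 1)).1 := by
      intro i
      obtain ⟨g, -, -, -, -, h, -⟩ := HNPC_data M X (htri i)
      exact h
    have h4 : ∀ i j, (b i).1 = (b j).1 → i ≡ j [MOD n] := by
      intro i j hij
      apply hinj
      rw [h2 i, h2 j, hij]
    have h5 : ∀ i, ∃ s, (b (2 * i)).1 = HT.s s := fun i => HNPC_rk1 (c1 i)
    choose s hs using h5
    have h6 : ∀ i, s i ≠ s (i + 1) := by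
      intro i hi
      have : (b (2 * i)).1 = (b (2 * (i + 1))).1 := by rw [hs, hs, hi]
      exact mod_two hn (by ring) (h4 _ _ this)
    have h7 : ∀ i, HLt (HT.s (s i)) (b (2 * i + 1)).1 := by
      intro i
      have := HNPC_cmp_lt (h3 (2 * i)) (by
        have e1 : HNPC_rk (b (2 * i)).1 = 1 := c1 i
        have e2 : HNPC_rk (b (2 * i + 1)).1 = 2 := c2 i
        omega)
      rwa [hs] at this
    have h8 : ∀ i, HLt (HT.s (s (i + 1))) (b (2 * i + 1)).1 := by
      intro i
      have e0 : (b (2 * i + 1 + 1)) = b (2 * (i + 1)) := rfl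
      have := HNPC_cmp_lt (T := (b (2 * (i + 1))).1) (T' := (b (2 * i + 1)).1)
        (HCmp.symm (h3 (2 * i + 1))) (by
          have e1 : HNPC_rk (b (2 * (i + 1))).1 = 1 := c1 (i + 1)
          have e2 : HNPC_rk (b (2 * i + 1)).1 = 2 := c2 i
          omega)
      rwa [hs] at this
    have h11 : ∀ i, corner (hlen M X) a (b (2 * i)) (b (2 * i + 1)) +
        corner (hlen M X) a (b (2 * i + 1)) (b (2 * i + 1 + 1)) =
          Real.pi - 2 * HNPC_ta (b (2 * i + 1)).1 := by
      intro i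
      have c3 : HNPC_rk (b (2 * i + 1 + 1)).1 = 1 := c1 (i + 1)
      rw [HNPC_bot M X a _ _ ha (c1 i) (c2 i), corner_symm _ (HNPC_symm M X) a (b (2 * i + 1)),
        HNPC_bot M X a _ _ ha c3 (c2 i)]
      ring
    subst hk
    rw [sum_even, Finset.sum_congr rfl (fun i _ => h11 i)]
    have hpi := Real.pi_pos
    -- the types `b`
    have hadj : ∀ i, (∃ c, (b (2 * i + 1)).1 = HT.b c) → (∃ c, (b (2 * (i + 1) + 1)).1 = HT.b c) →
        False := by
      rintro i ⟨c, hc⟩ ⟨c', hc'⟩
      have e1 := h8 i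
      have e2 := h7 (i + 1)
      rw [hc] at e1
      rw [hc'] at e2
      have e3 := HNPC_side e1 e2
      have e4 : (b (2 * i + 1)).1 = (b (2 * (i + 1) + 1)).1 := by rw [hc, hc', e3]
      exact mod_two hn (by ring) (h4 _ _ e4)
    classical
    let isb : ℕ → Prop := fun i => ∃ c, (b (2 * i + 1)).1 = HT.b c
    have h12 : ∀ i, 3 * Real.pi / 4 - (if isb i then Real.pi / 4 else 0) ≤
        Real.pi - 2 * HNPC_ta (b (2 * i + 1)).1 := by
      intro i
      rcases HNPC_rk2 (c2 i) with ⟨x, y, hx, hy, e1, e2⟩ | ⟨c, e2⟩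
      · have e3 : ¬ isb i := by
          rintro ⟨c, hc⟩
          rw [e2] at hc
          cases hc
        rw [if_neg e3, e2]
        have e4 := hX x hx y hy
        have e5 := two_le M (HNPC_ne hx hy) e1
        have e6 : 4 ≤ M.M x y := by
          obtain ⟨j, hj⟩ := e4.1
          have := e4.2
          omega
        have e7 := HNPC_hang_le (by norm_num) e6
        have e8 : HNPC_ta (HT.p x y hx hy e1) = hang (M.M x y) := rfl
        rw [e8]
        push_cast at e7
        linarith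
      · have e3 : isb i := ⟨c, e2⟩
        rw [if_pos e3, e2]
        have e8 : HNPC_ta (HT.b c : HT M X) = Real.pi / 4 := rfl
        rw [e8]
        linarith
    have h13 : b (2 * k) = b 0 := by simpa using hper 0
    have h14 : s k = s 0 := by
      have e1 := hs k
      rw [h13] at e1
      have e2 := hs 0
      rw [mul_zero, e1] at e2
      exact HT.s.inj e2
    have h15 : (∑ i ∈ Finset.range k, (3 * Real.pi / 4 - (if isb i then Real.pi / 4 else 0))) =
        k * (3 * Real.pi / 4) - ((Finset.range k).filter isb).card * (Real.pi / 4) := by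
      rw [Finset.sum_sub_distrib, Finset.sum_const, Finset.card_range, nsmul_eq_mul,
        ← Finset.sum_filter, Finset.sum_const, nsmul_eq_mul]
    refine le_trans ?_ (Finset.sum_le_sum fun i _ => h12 i)
    rw [h15]
    have hk2 : k ≠ 2 := by
      rintro rfl
      have e1 : (b 1).1 = (b 3).1 := by
        refine HNPC_uniq (h6 0) (h7 0) (h8 0) ?_ ?_
        · have := h8 1
          rw [h14] at this
          exact this
        · exact h7 1
      exact mod_two hn (by norm_num) (h4 _ _ e1)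
    rcases Nat.lt_or_ge k 4 with hk | hk
    · have hk3 : k = 3 := by omega
      subst hk3
      have hwrap : isb 2 → isb 0 → False := by
        intro e1 e2
        have e3 : b (2 * 3 + 1) = b (2 * 0 + 1) := by
          have := hper 1
          simpa using this
        refine hadj 2 e1 ?_
        obtain ⟨c, hc⟩ := e2
        exact ⟨c, by rw [e3]; exact hc⟩
      have hcard : ((Finset.range 3).filter isb).card ≤ 1 := by
        rw [Finset.card_le_one]
        intro i hi j hj
        rw [Finset.mem_filter, Finset.mem_range] at hi hj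
        obtain ⟨i1, i2⟩ := hi
        obtain ⟨j1, j2⟩ := hj
        interval_cases i <;> interval_cases j
        · rfl
        · exact (hadj 0 i2 j2).elim
        · exact (hwrap j2 i2).elim
        · exact (hadj 0 j2 i2).elim
        · rfl
        · exact (hadj 1 i2 j2).elim
        · exact (hwrap i2 j2).elim
        · exact (hadj 1 j2 i2).elim
        · rfl
      have hc' : ((((Finset.range 3).filter isb).card : ℕ) : ℝ) ≤ 1 := by exact_mod_cast hcard
      push_cast
      nlinarith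
    · have hcard : ((Finset.range k).filter isb).card ≤ 2 := by
        let f : ℕ → Bool := fun i => if (b (2 * i + 1)).1 = HT.b true then true else false
        have hf : ((Finset.range k).filter isb).card ≤ (Finset.univ : Finset Bool).card := by
          refine Finset.card_le_card_of_injOn f (fun i _ => Finset.mem_univ _) ?_
          intro i hi j hj hij
          rw [Finset.mem_coe, Finset.mem_filter, Finset.mem_range] at hi hj
          obtain ⟨i1, c, hc⟩ := hi
          obtain ⟨j1, c', hc'⟩ := hj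
          have e1 : f i = c := by
            simp only [f, hc]
            cases c <;> simp
          have e2 : f j = c' := by
            simp only [f, hc']
            cases c' <;> simp
          rw [e1, e2] at hij
          subst hij
          have e3 := h4 _ _ (hc.trans hc'.symm)
          have e4 : (2 * i + 1) % (2 * k) = (2 * j + 1) % (2 * k) := e3
          rw [Nat.mod_eq_of_lt (by omega), Nat.mod_eq_of_lt (by omega)] at e4
          omega
        simpa using hf
      have hc' : ((((Finset.range k).filter isb).card : ℕ) : ℝ) ≤ 2 := by exact_mod_cast hcard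
      have d2 : (4 : ℝ) ≤ k := by exact_mod_cast hk
      nlinarith

/-! ### Links of vertices of rank two -/

/-- the closed path in the link of a vertex of rank two -/
theorem HNPC_two (a : HV M X) (ha : HNPC_rk a.1 = 2) (n : ℕ) (b : ℕ → HV M X) (hn : 3 ≤ n)
    (hper : ∀ i, b (i + n) = b i) (hinj : ∀ i j, b i = b j → i ≡ j [MOD n])
    (htri : ∀ i, (hyb M X).tri a (b i) (b (i + 1))) (h0 : HNPC_rk (b 0).1 = 0) :
    ∃ (k : ℕ) (h : ℕ → Artin M) (s : ℕ → S), n = 2 * k ∧ (∀ i, HLt (HT.s (s i)) a.1) ∧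
      (∀ i, (h i)⁻¹ * h (i + 1) ∈ sg M {s i}) ∧ (∀ i, s i ≠ s (i + 1)) ∧
      (∀ i, h (i + k) = h i) ∧ (∀ i, s (i + k) = s i) ∧ (∀ i j, h i = h j → 2 * i ≡ 2 * j [MOD n]) ∧
      ∀ i, corner (hlen M X) a (b i) (b (i + 1)) = HNPC_ta a.1 := by
  have h1 : ∀ i, (HNPC_rk (b i).1 = 0 ∧ HNPC_rk (b (i + 1)).1 = 1) ∨
      (HNPC_rk (b i).1 = 1 ∧ HNPC_rk (b (i + 1)).1 = 0) := by
    intro i
    have := HNPC_tri M X (htri i)
    omega
  obtain ⟨c1, c2, k, hk⟩ := alternate (fun i => HNPC_rk (b i).1) 0 1 (by norm_num) n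
    (by have := hper 0; rw [zero_add] at this; simp only [this]) h1 h0
  have h2 : ∀ i, ∃ g, b (2 * i) = hv M X HT.e g := by
    intro i
    obtain ⟨g, -, e2, -⟩ := HNPC_data M X (htri (2 * i))
    rw [HNPC_rk0 (c1 i)] at e2
    exact ⟨g, e2⟩
  choose h hh using h2
  have h3 : ∀ i, ∃ s, (b (2 * i + 1)).1 = HT.s s := fun i => HNPC_rk1 (c2 i)
  choose s hs using h3
  have h4 : ∀ i, b (2 * i + 1) = hv M X (HT.s (s i)) (h i) := by
    intro i
    obtain ⟨g, -, e2, e3, -⟩ := HNPC_data M X (htri (2 * i))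
    rw [HNPC_rk0 (c1 i), hh i] at e2
    rw [hs] at e3
    rw [HNPC_emp M X e2]
    exact e3
  have h5 : ∀ i, b (2 * i + 1) = hv M X (HT.s (s i)) (h (i + 1)) := by
    intro i
    obtain ⟨g, -, e2, e3, -⟩ := HNPC_data M X (htri (2 * i + 1))
    have e4 : b (2 * i + 1 + 1) = b (2 * (i + 1)) := rfl
    rw [e4, HNPC_rk0 (c1 (i + 1)), hh (i + 1)] at e3
    rw [hs] at e2
    rw [HNPC_emp M X e3]
    exact e2
  refine ⟨k, h, s, hk, ?_, ?_, ?_, ?_, ?_, ?_, ?_⟩
  · intro i
    obtain ⟨g, -, -, -, -, -, e0⟩ := HNPC_data M X (htri (2 * i))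
    rw [hs] at e0
    refine HNPC_cmp_lt (HCmp.symm e0) ?_
    rw [ha]
    exact one_lt_two
  · intro i
    have e := (h4 i).symm.trans (h5 i)
    rw [HNPC_eq] at e
    exact e
  · intro i hi
    have e1 : b (2 * i + 1) = b (2 * (i + 1) + 1) := by rw [h5, h4 (i + 1), hi]
    exact mod_two hn (by ring) (hinj _ _ e1)
  · intro i
    have e1 : b (2 * (i + k)) = b (2 * i) := by
      rw [mul_add, ← hk]
      exact hper _
    rw [hh, hh] at e1
    exact HNPC_emp M X e1
  · intro i
    have e1 : b (2 * (i + k) + 1) = b (2 * i + 1) := by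
      have e2 : 2 * (i + k) + 1 = 2 * i + 1 + n := by omega
      rw [e2]
      exact hper _
    have e3 := congrArg Sigma.fst e1
    have e4 : (HT.s (s (i + k)) : HT M X) = HT.s (s i) := by rw [← hs, ← hs]; exact e3
    exact HT.s.inj e4
  · intro i j hij
    apply hinj
    rw [hh, hh, hij]
  · intro i
    exact HNPC_top M X a _ _ ha (h1 i)

theorem HNPC_link_two [Finite S] (a : HV M X) (ha : HNPC_rk a.1 = 2)
    (n : ℕ) (b : ℕ → HV M X) (hn : 3 ≤ n) (hb : b n = b 0)
    (hinj : ∀ i j, i < n → j < n → b i = b j → i = j)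
    (htri : ∀ i, i < n → (hyb M X).tri a (b i) (b (i + 1))) :
    2 * Real.pi ≤ ∑ i ∈ Finset.range n, corner (hlen M X) a (b i) (b (i + 1)) := by
  refine link_periodic (hyb M X) (hlen M X) a (fun v => HNPC_rk v.1 = 0) ?_ ?_ n b hn hb hinj htri
  · intro b c h h1
    have h2 := HNPC_tri M X h
    omega
  · clear hinj htri hb hn
    clear b n
    intro n b hn hper hinj htri h0
    obtain ⟨k, h, s, hk, hlt, hmem, hne, hhp, hsp, hhi, hcor⟩ :=
      HNPC_two M X a ha n b hn hper hinj htri h0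
    have hpi := Real.pi_pos
    simp only [hcor, Finset.sum_const, Finset.card_range, nsmul_eq_mul]
    have hstep : ∀ i, h i ≠ h (i + 1) := fun i hi =>
      mod_two hn (by ring) (hhi _ _ hi)
    rcases HNPC_rk2 ha with ⟨x, y, hx, hy, hm, hT⟩ | ⟨c, hT⟩
    · -- type `p`
      have hxy : x ≠ y := HNPC_ne hx hy
      have hs : ∀ i, s i = x ∨ s i = y := by
        intro i
        have := hlt i
        rw [hT] at this
        exact this
      have h9 : ∀ i, s (2 * i) = s 0 ∧ s (2 * i + 1) = s 1 := by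
        intro i
        induction i with
        | zero => exact ⟨rfl, rfl⟩
        | succ i ih =>
          have e1 : s (2 * (i + 1)) = s 0 := by
            have f1 := hne (2 * i + 1)
            rw [ih.2] at f1
            have f2 := hne 0
            have f3 := hs (2 * (i + 1))
            have f4 := hs 0
            have f5 := hs 1
            have f6 : s (2 * i + 1 + 1) = s (2 * (i + 1)) := rfl
            rw [f6] at f1
            rcases f3 with f3 | f3 <;> rcases f4 with f4 | f4 <;> rcases f5 with f5 | f5 <;>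
              simp_all
          refine ⟨e1, ?_⟩
          have f1 := hne (2 * (i + 1))
          rw [e1] at f1
          have f2 := hne 0
          have f3 := hs (2 * (i + 1) + 1)
          have f4 := hs 0
          have f5 := hs 1
          rcases f3 with f3 | f3 <;> rcases f4 with f4 | f4 <;> rcases f5 with f5 | f5 <;>
            simp_all
      have h10 : s k = s 0 := by
        have := hsp 0
        rwa [zero_add] at this
      obtain ⟨j, hj⟩ : ∃ j, k = 2 * j := by
        rcases Nat.even_or_odd' k with ⟨j, hj | hj⟩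
        · exact ⟨j, hj⟩
        · exfalso
          rw [hj, (h9 j).2] at h10
          exact hne 0 h10.symm
      have h11 : h (2 * j) = h 0 := by
        have := hhp 0
        rwa [zero_add, hj] at this
      have hex : ∀ i, ∃ e : ℤ, gen M (s i) ^ e = (h i)⁻¹ * h (i + 1) := fun i =>
        HNPC_single M (hmem i)
      choose e he using hex
      have h6 : ∀ i, e i ≠ 0 := by
        intro i h0
        have e1 := he i
        rw [h0, zpow_zero] at e1
        exact hstep i (inv_mul_eq_one.1 e1.symm)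
      have h12 : ∀ l, ((List.range l).map fun i => gen M (s 0) ^ e (2 * i) *
          gen M (s 1) ^ e (2 * i + 1)).prod = (h 0)⁻¹ * h (2 * l) := by
        intro l
        induction l with
        | zero => simp
        | succ l ih =>
          have e1 := he (2 * l)
          have e2 := he (2 * l + 1)
          rw [(h9 l).1] at e1
          rw [(h9 l).2] at e2
          rw [List.range_succ, List.map_append, List.prod_append, ih]
          simp only [List.map_cons, List.map_nil, List.prod_cons, List.prod_nil, mul_one]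
          rw [e1, e2]
          have e3 : 2 * (l + 1) = 2 * l + 1 + 1 := by ring
          rw [e3]
          group
      have hM1 : M.M (s 0) (s 1) = M.M x y := by
        have f2 := hne 0
        rcases hs 0 with f4 | f4 <;> rcases hs 1 with f5 | f5
        · exact absurd (f4.trans f5.symm) f2
        · rw [f4, f5]
        · rw [f4, f5, M.symmetric]
        · exact absurd (f4.trans f5.symm) f2
      have h13 : M.M x y ≤ j := by
        by_contra hc
        push Not at hc
        refine artin_girth M (s 0) (s 1) (hne 0) (by rw [hM1]; exact hm) j (fun i => e (2 * i))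
          (fun i => e (2 * i + 1)) (by omega) (by rw [hM1]; exact hc) (fun i _ => ⟨h6 _, h6 _⟩) ?_
        rw [h12, h11]
        simp
      have h15 : (2 : ℝ) ≤ (M.M x y : ℕ) := by
        exact_mod_cast two_le M hxy hm
      have h16 : ((M.M x y : ℕ) : ℝ) ≤ j := by exact_mod_cast h13
      have h17 : (n : ℝ) = 4 * j := by
        rw [hk, hj]
        push_cast
        ring
      have h18 : HNPC_ta a.1 = Real.pi / (2 * (M.M x y : ℕ)) := by
        rw [hT]
        rfl
      rw [h17, h18, mul_div_assoc', le_div_iff₀ (by positivity)]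
      nlinarith
    · -- type `b`
      have hcap : ∀ (U : Set S) (t : S) (z : Artin M), t ∉ U → z ∈ sg M U → z ∈ sg M {t} → z = 1 := by
        intro U t z ht h1 h2
        have h3 : z ∈ sg M U ⊓ sg M {t} := ⟨h1, h2⟩
        rw [sg_inf'] at h3
        have h4 : U ∩ {t} = ∅ := by
          ext q
          simp only [Set.mem_inter_iff, Set.mem_singleton_iff, Set.mem_empty_iff_false, iff_false]
          rintro ⟨q1, rfl⟩
          exact ht q1
        rw [h4] at h3
        exact HNPC_empty M h3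
      have hk2 : k ≠ 2 := by
        rintro rfl
        have f1 := hmem 0
        have f2 := hmem 1
        have f3 : h (1 + 1) = h 0 := by
          have := hhp 0
          simpa using this
        rw [f3] at f2
        have f4 : (h 0)⁻¹ * h (0 + 1) ∈ sg M {s 1} := by
          have := inv_mem f2
          simpa using this
        have f5 := hcap {s 0} (s 1) _ (by
          rw [Set.mem_singleton_iff]
          exact (hne 0).symm) f1 f4
        exact hstep 0 (inv_mul_eq_one.1 f5)
      have hk3 : k ≠ 3 := by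
        rintro rfl
        have f0 := hmem 0
        have f1 := hmem 1
        have f2 := hmem 2
        have f3 : h (2 + 1) = h 0 := by
          have := hhp 0
          simpa using this
        have f4 : s (2 + 1) = s 0 := by
          have := hsp 0
          simpa using this
        rw [f3] at f2
        have g0 : (h 0)⁻¹ * h (0 + 1) ∈ sg M {s 0, s 1} :=
          sg_mono M (by simp) f0
        have g1 : (h 1)⁻¹ * h (1 + 1) ∈ sg M {s 0, s 1} :=
          sg_mono M (by simp) f1
        have g2 : (h 0)⁻¹ * h 2 ∈ sg M {s 0, s 1} := by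
          have := mul_mem g0 g1
          simpa using this
        have g3 : (h 0)⁻¹ * h 2 ∈ sg M {s 2} := by
          have := inv_mem f2
          simpa using this
        have g4 := hcap {s 0, s 1} (s 2) _ (by
          rw [Set.mem_insert_iff, Set.mem_singleton_iff, not_or]
          refine ⟨?_, (hne 1).symm⟩
          have := hne 2
          rwa [f4] at this) g2 g3
        have g5 := hhi 0 2 (inv_mul_eq_one.1 g4)
        have g6 : (2 * 0) % n = (2 * 2) % n := g5
        rw [hk] at g6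
        norm_num at g6
      have hk4 : 4 ≤ k := by omega
      have h18 : HNPC_ta a.1 = Real.pi / 4 := by
        rw [hT]
        rfl
      have h19 : (8 : ℝ) ≤ n := by
        have : 8 ≤ n := by omega
        exact_mod_cast this
      rw [h18]
      nlinarith

end cosets

theorem hyb_npc {S : Type} [Finite S] (M : CoxeterMatrix S) (X : Set S) (hX : Cross M X) :
    NPC (hyb M X) (hlen M X) where
  symm := HNPC_symm M X
  pos := HNPC_pos M X
  triangle := HNPC_triangle M X
  link a n b hn hb hinj htri := by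
    have h1 : HNPC_rk a.1 ≤ 2 := HNPC_rk_le _
    have h2 : HNPC_rk a.1 = 0 ∨ HNPC_rk a.1 = 1 ∨ HNPC_rk a.1 = 2 := by omega
    rcases h2 with h2 | h2 | h2
    · exact HNPC_link_zero M X hX a h2 n b hn hb hinj htri
    · exact HNPC_link_one M X a h2 n b hn hb hinj htri
    · exact HNPC_link_two M X a h2 n b hn hb hinj htri

end Pool.Agent.helper55.EV
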