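import Pool.Agent.helper55.EV.HDefs
import Pool.Agent.helper36.LT.ArtinSC

set_option autoImplicit false
set_option linter.unusedVariables false

/-!
# EAG-HSC: the hybrid complex is simply connected
-/

namespace Pool.Agent.helper55.EV

open Pool.Agent.helper34.FJ2 Pool.Agent.helper34.FJ3
open Pool.Agent.helper36.LT (Artin gen alt artinRels)
open Pool.Agent.helper36.LT.ArtinSC (ev ev_nil ev_append ev_cons exists_word ev_mem ev_pair
  alt_word)

namespace HSC

variable {S : Type} (M : CoxeterMatrix S) (X : Set S)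

theorem HSC_eq (T : HT M X) (g h : Artin M) :
    hv M X T g = hv M X T h ↔ g⁻¹ * h ∈ sg M T.supp := by
  constructor
  · intro h
    exact QuotientGroup.eq.1 (eq_of_heq (Sigma.mk.inj h).2)
  · intro h
    exact congrArg (Sigma.mk T) (QuotientGroup.eq.2 h)

theorem HSC_ty {T T' : HT M X} {g h : Artin M} (e : hv M X T g = hv M X T' h) : T = T' :=
  congrArg Sigma.fst e

theorem HSC_mul (T : HT M X) (g h : Artin M) (hh : h ∈ sg M T.supp) :
    hv M X T (g * h) = hv M X T g := by
  rw [eq_comm, HSC_eq, inv_mul_cancel_left]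
  exact hh

theorem HSC_sg_empty : sg M (∅ : Set S) = ⊥ := by
  unfold sg
  simp

theorem HSC_e_inj {g h : Artin M} (e : hv M X HT.e g = hv M X HT.e h) : g = h := by
  rw [HSC_eq] at e
  have h1 : g⁻¹ * h ∈ sg M (∅ : Set S) := e
  rw [HSC_sg_empty, Subgroup.mem_bot, inv_mul_eq_one] at h1
  exact h1

theorem HSC_e_cmp {T : HT M X} (h : T ≠ HT.e) : HCmp (HT.e : HT M X) T := by
  left
  cases T with
  | e => exact absurd rfl h
  | s a => trivial
  | p x y hx hy hm => trivial
  | b c => trivial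

theorem HSC_lt (T : HT M X) (hT : T ≠ HT.e) (a : S) (ha : a ∈ T.supp) :
    T = HT.s a ∨ HLt (HT.s a) T := by
  cases T with
  | e => exact absurd rfl hT
  | s c =>
    left
    have h : a = c := ha
    rw [h]
  | p x y hx hy hm =>
    right
    have h : a = x ∨ a = y := ha
    exact h
  | b c =>
    right
    exact ha

theorem HSC_edge_E {T : HT M X} (h : T ≠ HT.e) (g : Artin M) :
    (hyb M X).edge (hv M X HT.e g) (hv M X T g) :=
  ⟨g, _, _, HSC_e_cmp M X h, rfl, rfl⟩

theorem HSC_ev_mem1 (x : S × Bool) : ev M [x] ∈ sg M (HT.s x.1 : HT M X).supp := by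
  refine ev_mem M _ _ ?_
  intro y hy
  rw [List.mem_singleton] at hy
  rw [hy]
  exact rfl

/-- the path of a word -/
def pw : Artin M → List (S × Bool) → List (HV M X)
  | _, [] => []
  | g, x :: w => hv M X (HT.s x.1) g :: hv M X HT.e (g * ev M [x]) :: pw (g * ev M [x]) w

theorem HSC_endp_pw (g : Artin M) (w : List (S × Bool)) :
    endp (hv M X HT.e g) (pw M X g w) = hv M X HT.e (g * ev M w) := by
  induction w generalizing g with
  | nil => rw [ev_nil, mul_one]; rfl
  | cons x w ih =>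
    rw [ev_cons, ← mul_assoc]
    exact ih _

theorem HSC_pw_append (g : Artin M) (w v : List (S × Bool)) :
    pw M X g (w ++ v) = pw M X g w ++ pw M X (g * ev M w) v := by
  induction w generalizing g with
  | nil => rw [ev_nil, mul_one]; rfl
  | cons x w ih =>
    rw [ev_cons, ← mul_assoc]
    exact congrArg (fun l => hv M X (HT.s x.1) g :: hv M X HT.e (g * ev M [x]) :: l)
      (ih (g * ev M [x]))

theorem HSC_S (g : Artin M) (x : S × Bool) :
    hv M X (HT.s x.1) (g * ev M [x]) = hv M X (HT.s x.1) g :=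
  HSC_mul M X _ _ _ (HSC_ev_mem1 M X x)

theorem HSC_s_ne (s : S) : (HT.s s : HT M X) ≠ HT.e := by
  intro h
  cases h

theorem HSC_edge_1 (g : Artin M) (x : S × Bool) :
    (hyb M X).edge (hv M X HT.e g) (hv M X (HT.s x.1) g) := HSC_edge_E M X (HSC_s_ne M X _) g

theorem HSC_edge_2 (g : Artin M) (x : S × Bool) :
    (hyb M X).edge (hv M X (HT.s x.1) g) (hv M X HT.e (g * ev M [x])) := by
  apply (hyb M X).edge_symm
  have h := HSC_edge_E M X (HSC_s_ne M X x.1) (g * ev M [x])
  rwa [HSC_S] at h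

theorem HSC_isPath_pw (g : Artin M) (w : List (S × Bool)) :
    IsPath (hyb M X) (hv M X HT.e g) (pw M X g w) := by
  induction w generalizing g with
  | nil => trivial
  | cons x w ih => exact ⟨HSC_edge_1 M X g x, HSC_edge_2 M X g x, ih _⟩

/-- a word path with letters in a type -/
theorem HSC_hom_word (T : HT M X) (hT : T ≠ HT.e) (g : Artin M) (w : List (S × Bool))
    (hw : ∀ x ∈ w, x.1 ∈ T.supp) :
    Htpy (hyb M X) (hv M X HT.e g) (pw M X g w) [hv M X T g, hv M X HT.e (g * ev M w)] := by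
  induction w generalizing g with
  | nil =>
    rw [ev_nil, mul_one]
    exact Htpy.symm _ _ _ (Htpy.spur _ _ [] (HSC_edge_E M X hT g))
  | cons x w ih =>
    have h1 := ih (g * ev M [x]) (fun y hy => hw y (List.mem_cons_of_mem _ hy))
    have hx : x.1 ∈ T.supp := hw x List.mem_cons_self
    have hxT : ev M [x] ∈ sg M T.supp := by
      refine ev_mem M _ _ ?_
      intro y hy
      rw [List.mem_singleton] at hy
      rw [hy]; exact hx
    rw [mul_assoc, ← ev_cons] at h1
    rw [HSC_mul M X T g _ hxT] at h1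
    refine Htpy.trans _ _ (hv M X (HT.s x.1) g :: hv M X HT.e (g * ev M [x]) ::
      [hv M X T g, hv M X HT.e (g * ev M (x :: w))]) _
      (Htpy.cons _ _ _ _ (Htpy.cons _ _ _ _ h1)) ?_
    rcases HSC_lt M X T hT x.1 hx with hTx | hsub
    · subst hTx
      exact Htpy.cons _ _ _ _ (Htpy.spur _ _ _ (HSC_edge_2 M X g x))
    · have hA : (hyb M X).tri (hv M X (HT.s x.1) g) (hv M X HT.e (g * ev M [x])) (hv M X T g) :=
        ⟨g * ev M [x], HT.s x.1, HT.e, T, (HSC_e_cmp M X (HSC_s_ne M X _)).symm,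
          HSC_e_cmp M X hT, Or.inl hsub, (HSC_S M X g x).symm, rfl,
          (HSC_mul M X T g _ hxT).symm⟩
      have hB : (hyb M X).tri (hv M X HT.e g) (hv M X (HT.s x.1) g) (hv M X T g) :=
        ⟨g, HT.e, HT.s x.1, T, HSC_e_cmp M X (HSC_s_ne M X _), Or.inl hsub,
          HSC_e_cmp M X hT, rfl, rfl, rfl⟩
      exact Htpy.trans _ _ _ _ (Htpy.cons _ _ _ _ (Htpy.tri _ _ _ _ hA)) (Htpy.tri _ _ _ _ hB)

/-- every path between cosets of the trivial group is homotopic to the path of a word -/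
theorem HSC_hom_path (l : List (HV M X)) (T : HT M X) (g h : Artin M)
    (hl : IsPath (hyb M X) (hv M X T g) l) (he : endp (hv M X T g) l = hv M X HT.e h) :
    ∃ w, g * ev M w = h ∧
      ((T = HT.e ∧ Htpy (hyb M X) (hv M X HT.e g) l (pw M X g w)) ∨
       (T ≠ HT.e ∧ Htpy (hyb M X) (hv M X HT.e g) (hv M X T g :: l) (pw M X g w))) := by
  induction l generalizing T g with
  | nil =>
    have hT := HSC_ty M X he
    subst hT
    have hg := HSC_e_inj M X he
    subst hg
    exact ⟨[], by rw [ev_nil, mul_one], Or.inl ⟨rfl, Htpy.refl _ _⟩⟩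
  | cons v l ih =>
    obtain ⟨⟨g', T1, T2, hc, h1, h2⟩, hl'⟩ := hl
    have hT := HSC_ty M X h1
    subst hT
    rw [HSC_eq] at h1
    obtain ⟨w1, hw1, hw1'⟩ := exists_word M T.supp _ h1
    have hg' : g * ev M w1 = g' := by rw [hw1', mul_inv_cancel_left]
    subst h2
    obtain ⟨w2, hw2, hw2'⟩ := ih T2 g' hl' he
    refine ⟨w1 ++ w2, by rw [ev_append, ← mul_assoc, hg', hw2], ?_⟩
    rcases hw2' with ⟨hT2, hh⟩ | ⟨hT2, hh⟩
    · -- T2 is empty
      subst hT2
      have hTn : T ≠ HT.e := by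
        rintro rfl
        rcases hc with hc | hc
        · exact HLt.irrefl _ hc
        · exact HLt.irrefl _ hc
      refine Or.inr ⟨hTn, ?_⟩
      rw [HSC_pw_append, hg']
      have h3 := (HSC_hom_word M X T hTn g w1 hw1).append_right (pw M X g' w2)
      rw [hg'] at h3
      refine Htpy.trans _ _ _ _ ?_ (Htpy.symm _ _ _ h3)
      exact Htpy.cons _ _ _ _ (Htpy.cons _ _ _ _ hh)
    · by_cases hTE : T = HT.e
      · subst hTE
        have hw : w1 = [] := by
          rcases w1 with _ | ⟨x, w1⟩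
          · rfl
          · exact (hw1 x List.mem_cons_self).elim
        subst hw
        rw [ev_nil, mul_one] at hg'
        subst hg'
        exact Or.inl ⟨rfl, hh⟩
      · refine Or.inr ⟨hTE, ?_⟩
        rw [HSC_pw_append, hg']
        have h3 := (HSC_hom_word M X T hTE g w1 hw1).append_right (pw M X g' w2)
        rw [hg'] at h3
        refine Htpy.trans _ _ _ _ ?_ (Htpy.symm _ _ _ h3)
        have h4 : (hyb M X).tri (hv M X T g) (hv M X HT.e g') (hv M X T2 g') := by
          refine ⟨g', T, HT.e, T2, (HSC_e_cmp M X hTE).symm, HSC_e_cmp M X hT2, hc, ?_, rfl, rfl⟩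
          rw [HSC_eq]
          exact h1
        have h5 := Htpy.tri (X := hyb M X) _ _ _ l h4
        refine Htpy.cons _ _ _ _ (Htpy.trans _ _ _ _ (Htpy.symm _ _ _ h5) ?_)
        exact Htpy.cons _ _ _ _ hh

/-! ### Word paths -/

theorem HSC_hom_append_left (g : Artin M) (w : List (S × Bool)) (l m : List (HV M X))
    (h : Htpy (hyb M X) (hv M X HT.e (g * ev M w)) l m) :
    Htpy (hyb M X) (hv M X HT.e g) (pw M X g w ++ l) (pw M X g w ++ m) := by
  apply Htpy.append_left
  rwa [HSC_endp_pw]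

theorem HSC_red_step (g : Artin M) (w v : List (S × Bool)) (h : FreeGroup.Red.Step w v) :
    Htpy (hyb M X) (hv M X HT.e g) (pw M X g w) (pw M X g v) := by
  obtain @⟨L₁, L₂, s, e⟩ := h
  rw [HSC_pw_append, HSC_pw_append]
  apply HSC_hom_append_left
  generalize g * ev M L₁ = c
  have h0 : c * ev M [(s, e)] * ev M [(s, !e)] = c := by
    rw [mul_assoc, ev_pair, mul_one]
  have h1 : pw M X c ((s, e) :: (s, !e) :: L₂) =
      hv M X (HT.s s) c :: hv M X HT.e (c * ev M [(s, e)]) ::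
        hv M X (HT.s s) (c * ev M [(s, e)]) :: hv M X HT.e c :: pw M X c L₂ := by
    show hv M X (HT.s s) c :: hv M X HT.e (c * ev M [(s, e)]) ::
      hv M X (HT.s s) (c * ev M [(s, e)]) ::
      hv M X HT.e (c * ev M [(s, e)] * ev M [(s, !e)]) ::
      pw M X (c * ev M [(s, e)] * ev M [(s, !e)]) L₂ = _
    rw [h0]
  rw [h1, HSC_S M X c (s, e)]
  refine Htpy.trans _ _ _ _ (Htpy.cons _ _ _ _ (Htpy.spur _ _ _ (HSC_edge_2 M X c (s, e)))) ?_
  exact Htpy.spur _ _ _ (HSC_edge_1 M X c (s, e))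

theorem HSC_hom_red (g : Artin M) (w v : List (S × Bool)) (h : FreeGroup.Red w v) :
    Htpy (hyb M X) (hv M X HT.e g) (pw M X g w) (pw M X g v) := by
  induction h with
  | refl => exact Htpy.refl _ _
  | tail _ h ih => exact Htpy.trans _ _ _ _ ih (HSC_red_step M X g _ _ h)

theorem HSC_hom_mk (g : Artin M) (w v : List (S × Bool)) (h : FreeGroup.mk w = FreeGroup.mk v) :
    Htpy (hyb M X) (hv M X HT.e g) (pw M X g w) (pw M X g v) := by
  obtain ⟨c, h1, h2⟩ := FreeGroup.Red.exact.1 h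
  exact Htpy.trans _ _ _ _ (HSC_hom_red M X g _ _ h1) (Htpy.symm _ _ _ (HSC_hom_red M X g _ _ h2))

/-- the type of a pair with finite label -/
theorem HSC_pair (s t : S) (hM : M.M s t ≠ 0) :
    ∃ T : HT M X, T ≠ HT.e ∧ s ∈ T.supp ∧ t ∈ T.supp := by
  classical
  by_cases hs : s ∈ X <;> by_cases ht : t ∈ X
  · refine ⟨HT.b true, ?_, hs, ht⟩
    intro h
    cases h
  · refine ⟨HT.p s t hs ht hM, ?_, Or.inl rfl, Or.inr rfl⟩
    intro h
    cases h
  · refine ⟨HT.p t s ht hs (by rwa [M.symmetric]), ?_, Or.inr rfl, Or.inl rfl⟩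
    intro h
    cases h
  · refine ⟨HT.b false, ?_, hs, ht⟩
    intro h
    cases h

theorem HSC_hom_rel (r : FreeGroup S) (hr : r ∈ artinRels M) (w : List (S × Bool))
    (hw : FreeGroup.mk w = r) (g : Artin M) :
    Htpy (hyb M X) (hv M X HT.e g) (pw M X g w) [] := by
  classical
  obtain ⟨⟨s, t⟩, h⟩ := hr
  simp only at h
  by_cases hM : M.M s t = 0
  · have hr1 : r = 1 := by
      rw [← h, hM]
      simp [alt]
    rw [hr1] at hw
    exact HSC_hom_mk M X g w [] hw
  · obtain ⟨u, hu, hu'⟩ := alt_word s t (M.M s t)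
    obtain ⟨v, hv1, hv'⟩ := alt_word t s (M.M s t)
    have hrel := h
    rw [← hu', ← hv', FreeGroup.inv_mk, FreeGroup.mul_mk] at h
    obtain ⟨T, hTn, hsT, htT⟩ := HSC_pair M X s t hM
    have h1 : ∀ x ∈ u ++ FreeGroup.invRev v, x.1 ∈ T.supp := by
      intro x hx
      rcases List.mem_append.1 hx with h | h
      · have := hu x h
        simp only [Set.mem_insert_iff, Set.mem_singleton_iff] at this
        rcases this with h | h
        · rw [h]; exact hsT
        · rw [h]; exact htT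
      · unfold FreeGroup.invRev at h
        rw [List.mem_reverse, List.mem_map] at h
        obtain ⟨y, hy, rfl⟩ := h
        have := hv1 y hy
        simp only [Set.mem_insert_iff, Set.mem_singleton_iff] at this
        rcases this with h | h
        · show y.1 ∈ T.supp
          rw [h]; exact htT
        · show y.1 ∈ T.supp
          rw [h]; exact hsT
    have h2 := HSC_hom_word M X T hTn g _ h1
    have h3 : ev M (u ++ FreeGroup.invRev v) = 1 := by
      unfold ev
      rw [h]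
      exact PresentedGroup.one_of_mem ⟨⟨s, t⟩, hrel⟩
    rw [h3, mul_one] at h2
    refine Htpy.trans _ _ _ _ (HSC_hom_mk M X g w _ (hw.trans h.symm)) ?_
    exact Htpy.trans _ _ _ _ h2 (Htpy.spur _ _ [] (HSC_edge_E M X hTn g))

/-- the words whose paths are null homotopic -/
def Nul (x : FreeGroup S) : Prop := PresentedGroup.mk (artinRels M) x = 1 ∧
    ∀ (w : List (S × Bool)), FreeGroup.mk w = x →
      ∀ g, Htpy (hyb M X) (hv M X HT.e g) (pw M X g w) []

theorem HSC_nul_one : Nul M X 1 := by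
  refine ⟨map_one _, fun w hw b => ?_⟩
  exact HSC_hom_mk M X b w [] (by rw [hw]; rfl)

theorem HSC_nul_mul (x y : FreeGroup S) (hx : Nul M X x) (hy : Nul M X y) : Nul M X (x * y) := by
  obtain ⟨u, hu⟩ : ∃ u, FreeGroup.mk u = x := Quot.exists_rep x
  obtain ⟨v, hv0⟩ : ∃ v, FreeGroup.mk v = y := Quot.exists_rep y
  refine ⟨by rw [map_mul, hx.1, hy.1, mul_one], fun w hw b => ?_⟩
  rw [← hu, ← hv0, FreeGroup.mul_mk] at hw
  refine Htpy.trans _ _ _ _ (HSC_hom_mk M X b w _ hw) ?_
  rw [HSC_pw_append]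
  have h1 := HSC_hom_append_left M X b u _ [] (hy.2 v hv0 (b * ev M u))
  rw [List.append_nil] at h1
  exact Htpy.trans _ _ _ _ h1 (hx.2 u hu b)

theorem HSC_nul_inv (x : FreeGroup S) (hx : Nul M X x) : Nul M X x⁻¹ := by
  obtain ⟨u, hu⟩ : ∃ u, FreeGroup.mk u = x := Quot.exists_rep x
  refine ⟨by rw [map_inv, hx.1, inv_one], fun w hw b => ?_⟩
  have h0 := HSC_hom_mk M X b (w ++ u) [] (by
    rw [← FreeGroup.mul_mk, hw, hu, inv_mul_cancel]
    rfl)
  rw [HSC_pw_append] at h0
  have h1 := HSC_hom_append_left M X b w _ [] (hx.2 u hu (b * ev M w))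
  rw [List.append_nil] at h1
  exact Htpy.trans _ _ _ _ (Htpy.symm _ _ _ h1) h0

theorem HSC_nul_conj (x g : FreeGroup S) (hx : Nul M X x) : Nul M X (g * x * g⁻¹) := by
  obtain ⟨u, hu⟩ : ∃ u, FreeGroup.mk u = x := Quot.exists_rep x
  obtain ⟨v, hv0⟩ : ∃ v, FreeGroup.mk v = g := Quot.exists_rep g
  refine ⟨by rw [map_mul, map_mul, hx.1, mul_one, ← map_mul, mul_inv_cancel, map_one],
    fun w hw b => ?_⟩
  rw [← hu, ← hv0, FreeGroup.inv_mk, FreeGroup.mul_mk, FreeGroup.mul_mk, List.append_assoc] at hw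
  refine Htpy.trans _ _ _ _ (HSC_hom_mk M X b w _ hw) ?_
  have hu1 : ev M u = 1 := by
    unfold ev
    rw [hu, hx.1]
  have h0 : Htpy (hyb M X) (hv M X HT.e b)
      (pw M X b v ++ pw M X (b * ev M v) (FreeGroup.invRev v)) [] := by
    rw [← HSC_pw_append]
    refine HSC_hom_mk M X b _ [] ?_
    rw [← FreeGroup.mul_mk, ← FreeGroup.inv_mk, mul_inv_cancel]
    rfl
  rw [HSC_pw_append, HSC_pw_append, hu1, mul_one]
  refine Htpy.trans _ _ _ _ (HSC_hom_append_left M X b v _
    (pw M X (b * ev M v) (FreeGroup.invRev v)) ?_) h0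
  exact (hx.2 u hu (b * ev M v)).append_right (pw M X (b * ev M v) (FreeGroup.invRev v))

theorem HSC_nul_of_mem (x : FreeGroup S) (hx : x ∈ Subgroup.normalClosure (artinRels M)) :
    Nul M X x := by
  unfold Subgroup.normalClosure at hx
  induction hx using Subgroup.closure_induction with
  | mem x hx =>
    obtain ⟨r, hr, hrx⟩ := Group.mem_conjugatesOfSet_iff.1 hx
    obtain ⟨g, hg⟩ := isConj_iff.1 hrx
    rw [← hg]
    exact HSC_nul_conj M X r g
      ⟨PresentedGroup.one_of_mem hr, fun w hw b => HSC_hom_rel M X r hr w hw b⟩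
  | one => exact HSC_nul_one M X
  | mul x y _ _ hx hy => exact HSC_nul_mul M X x y hx hy
  | inv x _ hx => exact HSC_nul_inv M X x hx

/-- closed paths at the base vertex are null homotopic -/
theorem HSC_closed_base (l : List (HV M X)) (hl : IsPath (hyb M X) (hv M X HT.e 1) l)
    (he : endp (hv M X HT.e 1) l = hv M X HT.e 1) : Htpy (hyb M X) (hv M X HT.e 1) l [] := by
  obtain ⟨w, hw, hw'⟩ := HSC_hom_path M X l HT.e 1 1 hl he
  rcases hw' with ⟨_, hh⟩ | ⟨hn, _⟩
  · refine Htpy.trans _ _ _ _ hh ?_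
    have h1 : ev M w = 1 := by rwa [one_mul] at hw
    unfold ev at h1
    have h2 : FreeGroup.mk w ∈ Subgroup.normalClosure (artinRels M) :=
      (QuotientGroup.eq_one_iff _).1 h1
    exact (HSC_nul_of_mem M X _ h2).2 w rfl 1
  · exact absurd rfl hn

theorem HSC_conn_base (v : HV M X) : ∃ l, IsPath (hyb M X) (hv M X HT.e 1) l ∧
    endp (hv M X HT.e 1) l = v := by
  obtain ⟨T, x⟩ := v
  obtain ⟨g, rfl⟩ := QuotientGroup.mk_surjective x
  obtain ⟨y, hy⟩ := PresentedGroup.mk_surjective (artinRels M) g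
  obtain ⟨u, hu⟩ : ∃ u, FreeGroup.mk u = y := Quot.exists_rep y
  have hg : ev M u = g := by
    unfold ev
    rw [hu, hy]
  have he : endp (hv M X HT.e 1) (pw M X 1 u) = hv M X HT.e g := by
    rw [HSC_endp_pw, one_mul, hg]
  by_cases hT : T = HT.e
  · subst hT
    exact ⟨pw M X 1 u, HSC_isPath_pw M X 1 u, he⟩
  · refine ⟨pw M X 1 u ++ [hv M X T g], ?_, ?_⟩
    · rw [isPath_append, he]
      exact ⟨HSC_isPath_pw M X 1 u, HSC_edge_E M X hT g, trivial⟩
    · rw [endp_append]
      rfl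

end HSC

open HSC in
theorem hyb_sc {S : Type} (M : CoxeterMatrix S) (X : Set S) : SimplyConnected (hyb M X) := by
  refine ⟨⟨hv M X HT.e 1⟩, ?_, ?_⟩
  · intro a b
    obtain ⟨p, hp, rfl⟩ := HSC_conn_base M X a
    obtain ⟨q, hq, rfl⟩ := HSC_conn_base M X b
    refine ⟨rev (hv M X HT.e 1) p ++ q, ?_, ?_⟩
    · rw [isPath_append, endp_rev]
      exact ⟨isPath_rev _ _ _ hp, hq⟩
    · rw [endp_append, endp_rev]
  · intro a l hl he
    obtain ⟨p, hp, rfl⟩ := HSC_conn_base M X a
    have h1 : Htpy (hyb M X) (hv M X HT.e 1)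
        (p ++ (l ++ rev (hv M X HT.e 1) p)) [] := by
      apply HSC_closed_base
      · rw [isPath_append, isPath_append, he]
        exact ⟨hp, hl, isPath_rev _ _ _ hp⟩
      · rw [endp_append, endp_append, he, endp_rev]
    have h2 : Htpy (hyb M X) (hv M X HT.e 1)
        (p ++ (l ++ rev (hv M X HT.e 1) p)) (p ++ rev (hv M X HT.e 1) p) :=
      Htpy.trans _ _ _ _ h1 (Htpy.symm _ _ _ (htpy_rev _ _ _ hp))
    have h3 := Htpy.cancel_left p hp h2
    refine Htpy.cancel_right (rev (hv M X HT.e 1) p) he ?_ h3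
    rw [he]
    exact isPath_rev _ _ _ hp

end Pool.Agent.helper55.EV
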