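import Pool.Agent.helper55.EV.Defs

set_option autoImplicit false

/-!
# EAG-LNK: lower bounds for distances in links
-/

namespace Pool.Agent.helper55.EV

open Pool.Agent.helper34.FJ2 Pool.Agent.helper34.FJ3
open scoped BigOperators

/-- the linear extension of a function on the vertices -/
noncomputable def LNK_f {V : Type} (Γ : MGraph V) (F : V → ℝ) (x : Γ.Pt) : ℝ :=
  F x.b + (F x.c - F x.b) * (x.s / Γ.w x.b x.c)

theorem LNK_f_vtx {V : Type} (Γ : MGraph V) (F : V → ℝ) (b : V) :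
    LNK_f Γ F (Γ.vtx b) = F b := by
  simp [LNK_f, MGraph.vtx]

theorem LNK_f_same {V : Type} (Γ : MGraph V) (F : V → ℝ) (x y : Γ.Pt) (h : Γ.Same x y) :
    LNK_f Γ F x = LNK_f Γ F y := by
  rcases h with ⟨h1, h2, h3⟩ | ⟨h1, h2, h3, h4⟩
  · simp [LNK_f, h1, h2, h3]
  · have hw : 0 < Γ.w x.b x.c := Γ.w_pos _ _ h1
    have hs : Γ.w y.b y.c = Γ.w x.b x.c := by
      rw [← h2, ← h3]
      exact (Γ.w_symm _ _ h1).symm
    unfold LNK_f
    rw [hs, h4, ← h2, ← h3]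
    field_simp
    ring

theorem LNK_f_edge {V : Type} (Γ : MGraph V) (F : V → ℝ)
    (hF : ∀ b c, Γ.adj b c → |F b - F c| ≤ Γ.w b c) (x y : Γ.Pt)
    (hb : x.b = y.b) (hc : x.c = y.c) :
    |LNK_f Γ F x - LNK_f Γ F y| ≤ |x.s - y.s| := by
  unfold LNK_f
  rw [← hb, ← hc]
  have e : F x.b + (F x.c - F x.b) * (x.s / Γ.w x.b x.c) -
      (F x.b + (F x.c - F x.b) * (y.s / Γ.w x.b x.c)) =
      (F x.c - F x.b) * ((x.s - y.s) / Γ.w x.b x.c) := by ring
  rw [e, abs_mul, abs_div]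
  rcases x.h with ⟨h1, _, _⟩ | ⟨h1, _⟩
  · have hw : 0 < Γ.w x.b x.c := Γ.w_pos _ _ h1
    have h2 := hF _ _ h1
    rw [abs_sub_comm] at h2
    rw [abs_of_pos hw, ← mul_div_assoc, div_le_iff₀ hw, mul_comm]
    exact mul_le_mul_of_nonneg_left h2 (abs_nonneg _)
  · rw [h1, sub_self, abs_zero, zero_mul]
    exact abs_nonneg _

theorem LNK_chain {V : Type} (Γ : MGraph V) (a : Γ.Pt → Γ.Pt → ℝ) (ha : IsLinkMetric Γ a)
    (F : V → ℝ) (hF : ∀ b c, Γ.adj b c → |F b - F c| ≤ Γ.w b c) (p : ℕ → Γ.Pt) (n : ℕ)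
    (hp : ∀ i, i < n → Γ.Same (p i) (p (i + 1)) ∨
      ((p i).b = (p (i + 1)).b ∧ (p i).c = (p (i + 1)).c)) :
    |LNK_f Γ F (p 0) - LNK_f Γ F (p n)| ≤ ∑ i ∈ Finset.range n, a (p i) (p (i + 1)) := by
  induction n with
  | zero => simp
  | succ n ih =>
    rw [Finset.sum_range_succ]
    have h1 := ih fun i hi => hp i (by omega)
    have h2 : |LNK_f Γ F (p n) - LNK_f Γ F (p (n + 1))| ≤ a (p n) (p (n + 1)) := by
      rcases hp n (by omega) with h | ⟨h, h'⟩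
      · rw [LNK_f_same Γ F _ _ h, sub_self, abs_zero]
        exact ha.nonneg _ _
      · rw [ha.edge _ _ h h']
        exact LNK_f_edge Γ F hF _ _ h h'
    exact (abs_sub_le _ (LNK_f Γ F (p n)) _).trans (add_le_add h1 h2)

theorem link_far {V : Type} {Y : Complex2 V} {len : V → V → ℝ} (hn : NPC Y len)
    (hf : {r : ℝ | ∃ a b, Y.edge a b ∧ len a b = r}.Finite) (p : V)
    (a : (linkG Y len hn hf p).Pt → (linkG Y len hn hf p).Pt → ℝ)
    (ha : IsLinkMetric (linkG Y len hn hf p) a) (b c : V) (θ : ℝ) (hθ : θ ≤ Real.pi)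
    (h : Far Y len p b c θ) :
    θ ≤ a ((linkG Y len hn hf p).vtx b) ((linkG Y len hn hf p).vtx c) := by
  obtain ⟨F, hF, hbc⟩ := h
  by_cases hlt : a ((linkG Y len hn hf p).vtx b) ((linkG Y len hn hf p).vtx c) < Real.pi
  · obtain ⟨n, q, h0, h1, h2, h3⟩ := ha.chain _ _ hlt
    have h4 := LNK_chain (linkG Y len hn hf p) a ha F (fun x y hxy => hF x y hxy) q n h2
    rw [h3, h0, h1, LNK_f_vtx, LNK_f_vtx] at h4
    exact hbc.trans h4
  · exact hθ.trans (not_lt.mp hlt)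

end Pool.Agent.helper55.EV
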