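import Pool.Agent.helper55.EV.Defs

set_option autoImplicit false

/-!
# EAG-NPC: the development of a triangle of groups is non-positively curved
-/

namespace Pool.Agent.helper55.EV

open Pool.Agent.helper34.FJ2 Pool.Agent.helper34.FJ3
open scoped BigOperators

variable {G : Type} [Group G] (H : Fin 3 → Subgroup G)

theorem tlen_symm (u v : TV H) : tlen H u v = tlen H v u := by
  simp only [tlen, or_comm]

theorem tlen_pos (u v : TV H) : 0 < tlen H u v := by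
  unfold tlen
  split_ifs
  · exact one_pos
  · exact Real.sqrt_pos.2 two_pos

/-- the side lengths in terms of the types -/
noncomputable def NPC_l (s t : Fin 3) : ℝ := if s = 1 ∨ t = 1 then 1 else Real.sqrt 2

theorem NPC_tlen (s t : Fin 3) (g h : G) : tlen H (tv H s g) (tv H t h) = NPC_l s t := rfl

theorem NPC_l01 : NPC_l 0 1 = 1 := if_pos (Or.inr rfl)
theorem NPC_l10 : NPC_l 1 0 = 1 := if_pos (Or.inl rfl)
theorem NPC_l21 : NPC_l 2 1 = 1 := if_pos (Or.inr rfl)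
theorem NPC_l12 : NPC_l 1 2 = 1 := if_pos (Or.inl rfl)
theorem NPC_l02 : NPC_l 0 2 = Real.sqrt 2 := if_neg (by decide)
theorem NPC_l20 : NPC_l 2 0 = Real.sqrt 2 := if_neg (by decide)

theorem NPC_sq : Real.sqrt 2 ^ 2 = 2 := Real.sq_sqrt (by norm_num)

theorem NPC_arccos0 : Real.arccos ((1 ^ 2 + 1 ^ 2 - Real.sqrt 2 ^ 2) / (2 * 1 * 1)) =
    Real.pi / 2 := by
  rw [NPC_sq]
  have h : ((1 : ℝ) ^ 2 + 1 ^ 2 - 2) / (2 * 1 * 1) = 0 := by norm_num
  rw [h, Real.arccos_zero]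

theorem NPC_arccos4 : Real.arccos (Real.sqrt 2 / 2) = Real.pi / 4 := by
  rw [← Real.cos_pi_div_four]
  apply Real.arccos_cos
  · positivity
  · have := Real.pi_pos
    linarith

theorem NPC_arccosA :
    Real.arccos ((1 ^ 2 + Real.sqrt 2 ^ 2 - 1 ^ 2) / (2 * 1 * Real.sqrt 2)) = Real.pi / 4 := by
  rw [← NPC_arccos4]
  congr 1
  have h : Real.sqrt 2 ≠ 0 := (Real.sqrt_pos.2 two_pos).ne'
  field_simp
  ring

theorem NPC_arccosB :
    Real.arccos ((Real.sqrt 2 ^ 2 + 1 ^ 2 - 1 ^ 2) / (2 * Real.sqrt 2 * 1)) = Real.pi / 4 := by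
  rw [← NPC_arccos4]
  congr 1
  have h : Real.sqrt 2 ≠ 0 := (Real.sqrt_pos.2 two_pos).ne'
  field_simp
  ring

theorem NPC_perm (P : Fin 3 → Fin 3 → Fin 3 → Prop) (h1 : P 0 1 2) (h2 : P 0 2 1) (h3 : P 1 0 2)
    (h4 : P 1 2 0) (h5 : P 2 0 1) (h6 : P 2 1 0) (t t' t'' : Fin 3) (ha : t ≠ t')
    (hb : t' ≠ t'') (hc : t ≠ t'') : P t t' t'' := by
  fin_cases t <;> fin_cases t' <;> fin_cases t'' <;>
    first | exact absurd rfl ha | exact absurd rfl hb | exact absurd rfl hc | assumption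

/-- the angles of the triangles -/
theorem tog_corner (u v w : TV H) (h : (tog H).tri u v w) :
    corner (tlen H) u v w = if u.1 = 1 then Real.pi / 2 else Real.pi / 4 := by
  obtain ⟨g, t, t', t'', h1, h2, h3, rfl, rfl, rfl⟩ := h
  change Real.arccos ((NPC_l t t' ^ 2 + NPC_l t t'' ^ 2 - NPC_l t' t'' ^ 2) /
    (2 * NPC_l t t' * NPC_l t t'')) = if t = 1 then Real.pi / 2 else Real.pi / 4
  refine NPC_perm (fun t t' t'' => Real.arccos ((NPC_l t t' ^ 2 + NPC_l t t'' ^ 2 -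
    NPC_l t' t'' ^ 2) / (2 * NPC_l t t' * NPC_l t t'')) =
      if t = 1 then Real.pi / 2 else Real.pi / 4) ?_ ?_ ?_ ?_ ?_ ?_ t t' t'' h1 h2 h3
  · rw [NPC_l01, NPC_l02, NPC_l12, NPC_arccosA, if_neg (by decide)]
  · rw [NPC_l01, NPC_l02, NPC_l21, NPC_arccosB, if_neg (by decide)]
  · rw [NPC_l10, NPC_l12, NPC_l02, NPC_arccos0, if_pos rfl]
  · rw [NPC_l10, NPC_l12, NPC_l20, NPC_arccos0, if_pos rfl]
  · rw [NPC_l20, NPC_l21, NPC_l01, NPC_arccosB, if_neg (by decide)]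
  · rw [NPC_l20, NPC_l21, NPC_l10, NPC_arccosA, if_neg (by decide)]

theorem tog_fin : {r : ℝ | ∃ a b, (tog H).edge a b ∧ tlen H a b = r}.Finite := by
  refine Set.Finite.subset (Set.toFinite {(1 : ℝ), Real.sqrt 2}) ?_
  rintro r ⟨a, b, -, rfl⟩
  unfold tlen
  split_ifs
  · exact Set.mem_insert _ _
  · exact Set.mem_insert_of_mem _ rfl

theorem tog_acts : ActsIso G (tog H) (tlen H) where
  edge := by
    rintro k a b ⟨g, t, t', h, rfl, rfl⟩
    exact ⟨k * g, t, t', h, rfl, rfl⟩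
  tri := by
    rintro k a b c ⟨g, t, t', t'', h, h', h'', rfl, rfl, rfl⟩
    exact ⟨k * g, t, t', t'', h, h', h'', rfl, rfl, rfl⟩
  len := fun _ _ _ _ => rfl

theorem NPC_cyc {a b : G} (h : a * b = 1) : b * a = 1 := by
  rw [eq_inv_of_mul_eq_one_left h]
  exact mul_inv_cancel b

/-- the condition `G8` is symmetric -/
theorem NPC_G8_symm {A B : Subgroup G} (h : G8 A B) : G8 B A := by
  constructor
  · intro b₁ hb₁ a₁ ha₁ b₂ hb₂ a₂ ha₂ e
    have e' : a₁ * b₂ * a₂ * b₁ = 1 := by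
      apply NPC_cyc
      rw [← e]
      group
    rcases h.1 a₁ ha₁ b₂ hb₂ a₂ ha₂ b₁ hb₁ e' with h | h | h | h
    · exact Or.inr (Or.inl h)
    · exact Or.inr (Or.inr (Or.inl h))
    · exact Or.inr (Or.inr (Or.inr h))
    · exact Or.inl h
  · intro b₁ hb₁ a₁ ha₁ b₂ hb₂ a₂ ha₂ b₃ hb₃ a₃ ha₃ e
    have e' : a₁ * b₂ * a₂ * b₃ * a₃ * b₁ = 1 := by
      apply NPC_cyc
      rw [← e]
      group
    rcases h.2 a₁ ha₁ b₂ hb₂ a₂ ha₂ b₃ hb₃ a₃ ha₃ b₁ hb₁ e' with h | h | h | h | h | h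
    · exact Or.inr (Or.inl h)
    · exact Or.inr (Or.inr (Or.inl h))
    · exact Or.inr (Or.inr (Or.inr (Or.inl h)))
    · exact Or.inr (Or.inr (Or.inr (Or.inr (Or.inl h))))
    · exact Or.inr (Or.inr (Or.inr (Or.inr (Or.inr h))))
    · exact Or.inl h

theorem NPC_tv_eq (t : Fin 3) (g h : G) : tv H t g = tv H t h ↔ g⁻¹ * h ∈ H t := by
  constructor
  · intro e
    exact QuotientGroup.eq.1 (eq_of_heq (Sigma.mk.inj e).2)
  · intro e
    exact congrArg (Sigma.mk t) (QuotientGroup.eq.2 e)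

variable {H}

theorem NPC_mem {t : Fin 3} {v : TV H} {g h : G} (h1 : v = tv H t g) (h2 : v = tv H t h) :
    g⁻¹ * h ∈ H t := (NPC_tv_eq H t g h).1 (h1.symm.trans h2)

theorem NPC_eq {t : Fin 3} {v w : TV H} {g h : G} (h1 : v = tv H t g) (h2 : w = tv H t h)
    (h3 : g⁻¹ * h ∈ H t) : v = w := by
  rw [h1, h2]
  exact (NPC_tv_eq H t g h).2 h3

theorem NPC_tri {u v w : TV H} (h : (tog H).tri u v w) :
    ∃ g : G, u = tv H u.1 g ∧ v = tv H v.1 g ∧ w = tv H w.1 g := by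
  obtain ⟨g, t, t', t'', -, -, -, rfl, rfl, rfl⟩ := h
  exact ⟨g, rfl, rfl, rfl⟩

theorem NPC_ty {u v w : TV H} (h : (tog H).tri u v w) : u.1 ≠ v.1 ∧ v.1 ≠ w.1 ∧ u.1 ≠ w.1 := by
  obtain ⟨g, t, t', t'', h1, h2, h3, rfl, rfl, rfl⟩ := h
  exact ⟨h1, h2, h3⟩

theorem NPC_third (a b c d : Fin 3) (h1 : a ≠ b) (h2 : a ≠ c) (h3 : a ≠ d) (h4 : b ≠ c)
    (h5 : c ≠ d) : d = b := by
  rw [Ne, Fin.ext_iff] at h1 h2 h3 h4 h5
  rw [Fin.ext_iff]
  omega

/-- the types along a cycle in the link alternate -/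
theorem NPC_alt {a : TV H} {n : ℕ} {b : ℕ → TV H}
    (htri : ∀ i, i < n → (tog H).tri a (b i) (b (i + 1))) (i : ℕ) :
    (2 * i ≤ n → (b (2 * i)).1 = (b 0).1) ∧
      (2 * i + 1 ≤ n → (b (2 * i + 1)).1 = (b 1).1) := by
  have step : ∀ j, j + 2 ≤ n → (b (j + 2)).1 = (b j).1 := by
    intro j hj
    have h1 := NPC_ty (htri j (by omega))
    have h2 := NPC_ty (htri (j + 1) (by omega))
    exact NPC_third a.1 (b j).1 (b (j + 1)).1 (b (j + 2)).1 h1.1 h1.2.2 h2.2.2 h1.2.1 h2.2.1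
  induction i with
  | zero => exact ⟨fun _ => rfl, fun _ => rfl⟩
  | succ i ih =>
    constructor
    · intro h
      have h1 := step (2 * i) (by omega)
      have h2 : 2 * (i + 1) = 2 * i + 2 := by ring
      rw [h2, h1]
      exact ih.1 (by omega)
    · intro h
      have h1 := step (2 * i + 1) (by omega)
      have h2 : 2 * (i + 1) + 1 = 2 * i + 1 + 2 := by ring
      rw [h2, h1]
      exact ih.2 (by omega)

theorem NPC_even {a : TV H} {n : ℕ} {b : ℕ → TV H} (hn : 3 ≤ n) (hb : b n = b 0)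
    (htri : ∀ i, i < n → (tog H).tri a (b i) (b (i + 1))) : Even n := by
  by_contra hodd
  rw [Nat.not_even_iff_odd] at hodd
  obtain ⟨k, hk⟩ := hodd
  have h1 := (NPC_alt htri k).2 (by omega)
  rw [← hk, hb] at h1
  exact (NPC_ty (htri 0 (by omega))).2.1 h1

/-- no cycles of length four -/
theorem NPC_no4 {a : TV H} {b : ℕ → TV H} (hb : b 4 = b 0)
    (hinj : ∀ i j, i < 4 → j < 4 → b i = b j → i = j)
    (htri : ∀ i, i < 4 → (tog H).tri a (b i) (b (i + 1)))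
    (hG : G8 (H a.1 ⊓ H (b 1).1) (H a.1 ⊓ H (b 0).1)) : False := by
  have t2 : (b 2).1 = (b 0).1 := (NPC_alt htri 1).1 (by norm_num)
  have t3 : (b 3).1 = (b 1).1 := (NPC_alt htri 1).2 (by norm_num)
  obtain ⟨g0, a0, l0, r0⟩ := NPC_tri (htri 0 (by norm_num))
  obtain ⟨g1, a1, l1, r1⟩ := NPC_tri (htri 1 (by norm_num))
  obtain ⟨g2, a2, l2, r2⟩ := NPC_tri (htri 2 (by norm_num))
  obtain ⟨g3, a3, l3, r3⟩ := NPC_tri (htri 3 (by norm_num))
  simp only [Nat.reduceAdd] at r0 r1 r2 r3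
  rw [t2] at r1 l2
  rw [t3] at r2 l3
  rw [hb] at r3
  have e : g0⁻¹ * g1 * (g1⁻¹ * g2) * (g2⁻¹ * g3) * (g3⁻¹ * g0) = 1 := by group
  rcases hG.1 _ ⟨NPC_mem a0 a1, NPC_mem r0 l1⟩ _ ⟨NPC_mem a1 a2, NPC_mem r1 l2⟩
    _ ⟨NPC_mem a2 a3, NPC_mem r2 l3⟩ _ ⟨NPC_mem a3 a0, NPC_mem r3 l0⟩ e with h | h | h | h
  · have := hinj 0 2 (by norm_num) (by norm_num) (NPC_eq l0 r1 h.2)
    omega
  · have := hinj 1 3 (by norm_num) (by norm_num) (NPC_eq l1 r2 h.2)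
    omega
  · have := hinj 2 0 (by norm_num) (by norm_num) (NPC_eq l2 r3 h.2)
    omega
  · have := hinj 3 1 (by norm_num) (by norm_num) (NPC_eq l3 r0 h.2)
    omega

/-- no cycles of length six -/
theorem NPC_no6 {a : TV H} {b : ℕ → TV H} (hb : b 6 = b 0)
    (hinj : ∀ i j, i < 6 → j < 6 → b i = b j → i = j)
    (htri : ∀ i, i < 6 → (tog H).tri a (b i) (b (i + 1)))
    (hG : G8 (H a.1 ⊓ H (b 1).1) (H a.1 ⊓ H (b 0).1)) : False := by
  have t2 : (b 2).1 = (b 0).1 := (NPC_alt htri 1).1 (by norm_num)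
  have t3 : (b 3).1 = (b 1).1 := (NPC_alt htri 1).2 (by norm_num)
  have t4 : (b 4).1 = (b 0).1 := (NPC_alt htri 2).1 (by norm_num)
  have t5 : (b 5).1 = (b 1).1 := (NPC_alt htri 2).2 (by norm_num)
  obtain ⟨g0, a0, l0, r0⟩ := NPC_tri (htri 0 (by norm_num))
  obtain ⟨g1, a1, l1, r1⟩ := NPC_tri (htri 1 (by norm_num))
  obtain ⟨g2, a2, l2, r2⟩ := NPC_tri (htri 2 (by norm_num))
  obtain ⟨g3, a3, l3, r3⟩ := NPC_tri (htri 3 (by norm_num))
  obtain ⟨g4, a4, l4, r4⟩ := NPC_tri (htri 4 (by norm_num))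
  obtain ⟨g5, a5, l5, r5⟩ := NPC_tri (htri 5 (by norm_num))
  simp only [Nat.reduceAdd] at r0 r1 r2 r3 r4 r5
  rw [t2] at r1 l2
  rw [t3] at r2 l3
  rw [t4] at r3 l4
  rw [t5] at r4 l5
  rw [hb] at r5
  have e : g0⁻¹ * g1 * (g1⁻¹ * g2) * (g2⁻¹ * g3) * (g3⁻¹ * g4) * (g4⁻¹ * g5) * (g5⁻¹ * g0) = 1 := by
    group
  rcases hG.2 _ ⟨NPC_mem a0 a1, NPC_mem r0 l1⟩ _ ⟨NPC_mem a1 a2, NPC_mem r1 l2⟩
    _ ⟨NPC_mem a2 a3, NPC_mem r2 l3⟩ _ ⟨NPC_mem a3 a4, NPC_mem r3 l4⟩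
    _ ⟨NPC_mem a4 a5, NPC_mem r4 l5⟩ _ ⟨NPC_mem a5 a0, NPC_mem r5 l0⟩ e with h | h | h | h | h | h
  · have := hinj 0 2 (by norm_num) (by norm_num) (NPC_eq l0 r1 h.2)
    omega
  · have := hinj 1 3 (by norm_num) (by norm_num) (NPC_eq l1 r2 h.2)
    omega
  · have := hinj 2 4 (by norm_num) (by norm_num) (NPC_eq l2 r3 h.2)
    omega
  · have := hinj 3 5 (by norm_num) (by norm_num) (NPC_eq l3 r4 h.2)
    omega
  · have := hinj 4 0 (by norm_num) (by norm_num) (NPC_eq l4 r5 h.2)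
    omega
  · have := hinj 5 1 (by norm_num) (by norm_num) (NPC_eq l5 r0 h.2)
    omega

variable (H)

theorem NPC_G8_at (h0 : G8 (H 0 ⊓ H 1) (H 0 ⊓ H 2)) (h2 : G8 (H 2 ⊓ H 0) (H 2 ⊓ H 1))
    (t s r : Fin 3) (ht : t ≠ 1) (h1 : t ≠ s) (h3 : s ≠ r) (h4 : t ≠ r) :
    G8 (H t ⊓ H s) (H t ⊓ H r) := by
  refine NPC_perm (fun t s r => t ≠ 1 → G8 (H t ⊓ H s) (H t ⊓ H r)) ?_ ?_ ?_ ?_ ?_ ?_ t s r
    h1 h3 h4 ht
  · exact fun _ => h0
  · exact fun _ => NPC_G8_symm h0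
  · exact fun h => absurd rfl h
  · exact fun h => absurd rfl h
  · exact fun _ => h2
  · exact fun _ => NPC_G8_symm h2

theorem tog_npc (h0 : G8 (H 0 ⊓ H 1) (H 0 ⊓ H 2)) (h2 : G8 (H 2 ⊓ H 0) (H 2 ⊓ H 1)) :
    NPC (tog H) (tlen H) where
  symm := tlen_symm H
  pos a b _ := tlen_pos H a b
  triangle := by
    rintro a b c ⟨g, t, t', t'', e1, e2, e3, rfl, rfl, rfl⟩
    change NPC_l t t'' < NPC_l t t' + NPC_l t' t''
    have hs1 : Real.sqrt 2 < 2 := by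
      rw [Real.sqrt_lt' two_pos]
      norm_num
    have hs0 : 0 < Real.sqrt 2 := Real.sqrt_pos.2 two_pos
    refine NPC_perm (fun t t' t'' => NPC_l t t'' < NPC_l t t' + NPC_l t' t'')
      ?_ ?_ ?_ ?_ ?_ ?_ t t' t'' e1 e2 e3
    · rw [NPC_l02, NPC_l01, NPC_l12]
      linarith
    · rw [NPC_l01, NPC_l02, NPC_l21]
      linarith
    · rw [NPC_l12, NPC_l10, NPC_l02]
      linarith
    · rw [NPC_l10, NPC_l12, NPC_l20]
      linarith
    · rw [NPC_l21, NPC_l20, NPC_l01]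
      linarith
    · rw [NPC_l20, NPC_l21, NPC_l10]
      linarith
  link := by
    intro a n b hn hb hinj htri
    have hpi := Real.pi_pos
    have hev := NPC_even hn hb htri
    have hsum : ∑ i ∈ Finset.range n, corner (tlen H) a (b i) (b (i + 1)) =
        n * (if a.1 = 1 then Real.pi / 2 else Real.pi / 4) := by
      rw [Finset.sum_congr rfl (fun i hi => tog_corner H a (b i) (b (i + 1))
        (htri i (Finset.mem_range.1 hi)))]
      rw [Finset.sum_const, Finset.card_range, nsmul_eq_mul]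
    rw [hsum]
    by_cases ha : a.1 = 1
    · rw [if_pos ha]
      have h4 : 4 ≤ n := by
        obtain ⟨k, hk⟩ := hev
        omega
      have h4' : (4 : ℝ) ≤ n := by exact_mod_cast h4
      nlinarith
    · rw [if_neg ha]
      have hty := NPC_ty (htri 0 (by omega))
      have hG := NPC_G8_at H h0 h2 a.1 (b 1).1 (b 0).1 ha hty.2.2 hty.2.1.symm hty.1
      have h8 : 8 ≤ n := by
        by_contra hlt
        have hc : n = 4 ∨ n = 6 := by
          obtain ⟨k, hk⟩ := hev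
          omega
        rcases hc with rfl | rfl
        · exact NPC_no4 hb hinj htri hG
        · exact NPC_no6 hb hinj htri hG
      have h8' : (8 : ℝ) ≤ n := by exact_mod_cast h8
      nlinarith

end Pool.Agent.helper55.EV
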