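import Pool.Agent.helper55.EV.Defs4

set_option autoImplicit false

/-!
# EAG-NPC4: the subdivided development is non-positively curved
-/

namespace Pool.Agent.helper55.EV

open Pool.Agent.helper34.FJ2 Pool.Agent.helper34.FJ3
open scoped BigOperators

variable {G : Type} [Group G] (H : Fin 4 → Subgroup G)

theorem NPC4_symm (u v : TV4 H) : tlen4 H u v = tlen4 H v u := by
  unfold tlen4
  simp only [or_comm]

theorem NPC4_pos (u v : TV4 H) : 0 < tlen4 H u v := by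
  unfold tlen4
  split_ifs
  · exact one_pos
  · exact Real.sqrt_pos.2 two_pos

theorem NPC4_one {u v : TV4 H} (h : u.1 = 3 ∨ v.1 = 3) : tlen4 H u v = 1 := if_pos h

theorem NPC4_two {u v : TV4 H} (h : ¬ (u.1 = 3 ∨ v.1 = 3)) : tlen4 H u v = Real.sqrt 2 :=
  if_neg h

theorem NPC4_dec : ∀ a b c : Fin 4, (a ≠ b ∧ ¬ (a = 0 ∧ b = 2) ∧ ¬ (a = 2 ∧ b = 0)) →
    (b ≠ c ∧ ¬ (b = 0 ∧ c = 2) ∧ ¬ (b = 2 ∧ c = 0)) →
    (a ≠ c ∧ ¬ (a = 0 ∧ c = 2) ∧ ¬ (a = 2 ∧ c = 0)) →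
    (a = 3 ∧ b ≠ 3 ∧ c ≠ 3) ∨ (a ≠ 3 ∧ b = 3 ∧ c ≠ 3) ∨ (a ≠ 3 ∧ b ≠ 3 ∧ c = 3) := by
  intro a b c
  simp only [ne_eq, Fin.ext_iff]
  omega

theorem NPC4_types {u v w : TV4 H} (h : (tog4 H).tri u v w) :
    Ok4 u.1 v.1 ∧ Ok4 v.1 w.1 ∧ Ok4 u.1 w.1 := by
  obtain ⟨g, t, t', t'', h1, h2, h3, rfl, rfl, rfl⟩ := h
  exact ⟨h1, h2, h3⟩

theorem NPC4_three {u v w : TV4 H} (h : (tog4 H).tri u v w) :
    (u.1 = 3 ∧ v.1 ≠ 3 ∧ w.1 ≠ 3) ∨ (u.1 ≠ 3 ∧ v.1 = 3 ∧ w.1 ≠ 3) ∨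
      (u.1 ≠ 3 ∧ v.1 ≠ 3 ∧ w.1 = 3) := by
  obtain ⟨h1, h2, h3⟩ := NPC4_types H h
  exact NPC4_dec _ _ _ h1 h2 h3

theorem NPC4_data {u v w : TV4 H} (h : (tog4 H).tri u v w) :
    ∃ g : G, u = tv4 H u.1 g ∧ v = tv4 H v.1 g ∧ w = tv4 H w.1 g := by
  obtain ⟨g, t, t', t'', h1, h2, h3, rfl, rfl, rfl⟩ := h
  exact ⟨g, rfl, rfl, rfl⟩

theorem NPC4_coset {t : Fin 4} {g g' : G} (h : tv4 H t g = tv4 H t g') : g⁻¹ * g' ∈ H t := by
  have h1 : (g : G ⧸ H t) = (g' : G ⧸ H t) := eq_of_heq (Sigma.mk.inj_iff.1 h).2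
  exact QuotientGroup.eq.1 h1

theorem NPC4_coset' {t : Fin 4} {g g' : G} (h : g⁻¹ * g' ∈ H t) : tv4 H t g = tv4 H t g' :=
  congrArg (Sigma.mk t) (QuotientGroup.eq.2 h)

theorem NPC4_arccos : Real.arccos (Real.sqrt 2 / 2) = Real.pi / 4 := by
  rw [← Real.cos_pi_div_four, Real.arccos_cos (by positivity)]
  linarith [Real.pi_pos]

theorem NPC4_quot : (2 : ℝ) / (2 * Real.sqrt 2) = Real.sqrt 2 / 2 := by
  have h := Real.mul_self_sqrt (show (0 : ℝ) ≤ 2 by norm_num)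
  have h0 : (0 : ℝ) < Real.sqrt 2 := Real.sqrt_pos.2 two_pos
  rw [div_eq_div_iff (by positivity) (by norm_num)]
  linarith

theorem tog4_corner (u v w : TV4 H) (h : (tog4 H).tri u v w) :
    corner (tlen4 H) u v w = if u.1 = 3 then Real.pi / 2 else Real.pi / 4 := by
  have hs : Real.sqrt 2 ^ 2 = 2 := Real.sq_sqrt (by norm_num)
  rcases NPC4_three H h with ⟨h1, h2, h3⟩ | ⟨h1, h2, h3⟩ | ⟨h1, h2, h3⟩
  · rw [if_pos h1, corner, NPC4_one H (Or.inl h1), NPC4_one H (Or.inl h1),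
      NPC4_two H (by simp only [h2, h3, or_self, not_false_eq_true]), hs]
    norm_num
  · rw [if_neg h1, corner, NPC4_one H (Or.inr h2), NPC4_one H (Or.inl h2),
      NPC4_two H (by simp only [h1, h3, or_self, not_false_eq_true]), hs,
      show ((1 : ℝ) ^ 2 + 2 - 1 ^ 2) / (2 * 1 * Real.sqrt 2) = 2 / (2 * Real.sqrt 2) by
        rw [mul_one]; norm_num, NPC4_quot, NPC4_arccos]
  · rw [if_neg h1, corner, NPC4_one H (u := v) (Or.inr h3), NPC4_one H (u := u) (v := w) (Or.inr h3),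
      NPC4_two H (by simp only [h1, h2, or_self, not_false_eq_true]), hs,
      show ((2 : ℝ) + 1 ^ 2 - 1 ^ 2) / (2 * Real.sqrt 2 * 1) = 2 / (2 * Real.sqrt 2) by
        rw [mul_one]; norm_num, NPC4_quot, NPC4_arccos]

theorem tog4_fin : {r : ℝ | ∃ a b, (tog4 H).edge a b ∧ tlen4 H a b = r}.Finite := by
  refine (Set.toFinite ({1, Real.sqrt 2} : Set ℝ)).subset ?_
  rintro r ⟨a, b, -, rfl⟩
  unfold tlen4
  split_ifs
  · exact Or.inl rfl
  · exact Or.inr rfl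

/-- the periodic extension of a closed path in the link -/
theorem NPC4_periodic {a : TV4 H} {n : ℕ} {b : ℕ → TV4 H} (hn : 3 ≤ n) (hb : b n = b 0)
    (htri : ∀ i, i < n → (tog4 H).tri a (b i) (b (i + 1))) (i : ℕ) :
    (tog4 H).tri a (b (i % n)) (b ((i + 1) % n)) := by
  have h1 : i % n < n := Nat.mod_lt _ (by omega)
  have h2 := htri (i % n) h1
  have h3 : b ((i + 1) % n) = b (i % n + 1) := by
    rcases Nat.lt_or_ge (i % n + 1) n with h | h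
    · rw [Nat.add_mod, Nat.mod_eq_of_lt (show 1 < n by omega), Nat.mod_eq_of_lt h]
    · have h4 : i % n + 1 = n := by omega
      rw [Nat.add_mod, Nat.mod_eq_of_lt (show 1 < n by omega), h4, Nat.mod_self, hb]
  rw [h3]
  exact h2

/-- all data of a closed path in the link, extended periodically -/
structure NPC4_Cyc (a : TV4 H) (n : ℕ) where
  /-- the vertices -/
  v : ℕ → TV4 H
  /-- the group elements of the triangles -/
  g : ℕ → G
  three : 3 ≤ n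
  per : ∀ i, v (i + n) = v i
  gper : ∀ i, g (i + n) = g i
  ne : ∀ i k, 0 < k → k < n → v i ≠ v (i + k)
  ok : ∀ i, Ok4 (v i).1 (v (i + 1)).1
  oka : ∀ i, Ok4 a.1 (v i).1
  ha : ∀ i, a = tv4 H a.1 (g i)
  hv : ∀ i, v i = tv4 H (v i).1 (g i)
  hv' : ∀ i, v (i + 1) = tv4 H (v (i + 1)).1 (g i)

theorem NPC4_exists {a : TV4 H} {n : ℕ} {b : ℕ → TV4 H} (hn : 3 ≤ n) (hb : b n = b 0)
    (hinj : ∀ i j, i < n → j < n → b i = b j → i = j)
    (htri : ∀ i, i < n → (tog4 H).tri a (b i) (b (i + 1))) : Nonempty (NPC4_Cyc H a n) := by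
  have hper := NPC4_periodic H hn hb htri
  choose γ h1 h2 h3 using fun i => NPC4_data H (hper i)
  have hm : ∀ i, b (i % n % n) = b (i % n) := fun i => by rw [Nat.mod_mod]
  have hm' : ∀ i, b ((i % n + 1) % n) = b ((i + 1) % n) := fun i => by
    rw [Nat.mod_add_mod]
  refine ⟨⟨fun i => b (i % n), fun i => γ (i % n), hn, ?_, ?_, ?_, ?_, ?_, ?_, ?_, ?_⟩⟩
  · intro i
    simp only [Nat.add_mod_right]
  · intro i
    simp only [Nat.add_mod_right]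
  · intro i k hk hk' h
    have h4 := hinj _ _ (Nat.mod_lt _ (by omega)) (Nat.mod_lt _ (by omega)) h
    have h5 : i ≡ i + k [MOD n] := h4
    have h6 : k ≡ 0 [MOD n] := by
      have h7 : i + 0 ≡ i + k [MOD n] := by simpa using h5
      exact (Nat.ModEq.add_left_cancel' i h7).symm
    have h8 : n ∣ k := (Nat.modEq_zero_iff_dvd).1 h6
    exact absurd (Nat.le_of_dvd hk h8) (by omega)
  · intro i
    exact (NPC4_types H (hper i)).2.1
  · intro i
    exact (NPC4_types H (hper i)).1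
  · intro i
    exact h1 _
  · intro i
    have h := h2 (i % n)
    rw [hm] at h
    exact h
  · intro i
    have h := h3 (i % n)
    rw [hm'] at h
    exact h

namespace NPC4_Cyc

variable {H} {a : TV4 H} {n : ℕ} (C : NPC4_Cyc H a n)

include C

theorem xa (i : ℕ) : (C.g i)⁻¹ * C.g (i + 1) ∈ H a.1 :=
  NPC4_coset H ((C.ha i).symm.trans (C.ha (i + 1)))

theorem xn (i : ℕ) : (C.g i)⁻¹ * C.g (i + 1) ∈ H (C.v (i + 1)).1 :=
  NPC4_coset H ((C.hv' i).symm.trans (C.hv (i + 1)))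

/-- two vertices with the distance two are different -/
theorem xo (i : ℕ) (h : (C.v (i + 2)).1 = (C.v i).1) :
    (C.g i)⁻¹ * C.g (i + 1) ∉ H (C.v i).1 := by
  intro h1
  have h2 := NPC4_coset' H h1
  have h3 : C.v (i + 2) = tv4 H (C.v (i + 2)).1 (C.g (i + 1)) := C.hv' (i + 1)
  rw [h] at h3
  have h4 := C.three
  exact C.ne i 2 (by norm_num) (by omega) ((C.hv i).trans (h2.trans h3.symm))

end NPC4_Cyc

theorem NPC4_prod4 (g : ℕ → G) (s : ℕ) (h : g (s + 4) = g s) :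
    ((g s)⁻¹ * g (s + 1)) * ((g (s + 1))⁻¹ * g (s + 2)) * ((g (s + 2))⁻¹ * g (s + 3)) *
      ((g (s + 3))⁻¹ * g (s + 4)) = 1 := by
  rw [h]
  group

theorem NPC4_prod6 (g : ℕ → G) (s : ℕ) (h : g (s + 6) = g s) :
    ((g s)⁻¹ * g (s + 1)) * ((g (s + 1))⁻¹ * g (s + 2)) * ((g (s + 2))⁻¹ * g (s + 3)) *
      ((g (s + 3))⁻¹ * g (s + 4)) * ((g (s + 4))⁻¹ * g (s + 5)) *
      ((g (s + 5))⁻¹ * g (s + 6)) = 1 := by
  rw [h]
  group

theorem NPC4_fin4 {t : Fin 4} {k : ℕ} (hk : k < 4) (h : t.1 = k) : t = ⟨k, hk⟩ := Fin.ext h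

/-- the types around a vertex of the type `0` or `2` -/
theorem NPC4_dec02 : ∀ t x y : Fin 4, (t = 0 ∨ t = 2) →
    (t ≠ x ∧ ¬ (t = 0 ∧ x = 2) ∧ ¬ (t = 2 ∧ x = 0)) →
    (t ≠ y ∧ ¬ (t = 0 ∧ y = 2) ∧ ¬ (t = 2 ∧ y = 0)) →
    (x ≠ y ∧ ¬ (x = 0 ∧ y = 2) ∧ ¬ (x = 2 ∧ y = 0)) →
    (x = 1 ∧ y = 3) ∨ (x = 3 ∧ y = 1) := by
  decide

theorem NPC4_dec3 : ∀ x y : Fin 4,
    ((3 : Fin 4) ≠ x ∧ ¬ ((3 : Fin 4) = 0 ∧ x = 2) ∧ ¬ ((3 : Fin 4) = 2 ∧ x = 0)) →
    ((3 : Fin 4) ≠ y ∧ ¬ ((3 : Fin 4) = 0 ∧ y = 2) ∧ ¬ ((3 : Fin 4) = 2 ∧ y = 0)) →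
    (x ≠ y ∧ ¬ (x = 0 ∧ y = 2) ∧ ¬ (x = 2 ∧ y = 0)) →
    (x = 1 ∧ y ≠ 1) ∨ (x ≠ 1 ∧ y = 1) := by
  decide

theorem NPC4_dec1 : ∀ x y : Fin 4,
    ((1 : Fin 4) ≠ x ∧ ¬ ((1 : Fin 4) = 0 ∧ x = 2) ∧ ¬ ((1 : Fin 4) = 2 ∧ x = 0)) →
    ((1 : Fin 4) ≠ y ∧ ¬ ((1 : Fin 4) = 0 ∧ y = 2) ∧ ¬ ((1 : Fin 4) = 2 ∧ y = 0)) →
    (x ≠ y ∧ ¬ (x = 0 ∧ y = 2) ∧ ¬ (x = 2 ∧ y = 0)) →
    (x = 3 ∧ (y = 0 ∨ y = 2)) ∨ ((x = 0 ∨ x = 2) ∧ y = 3) := by
  decide

/-- the links of the vertices of the type `3` -/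
theorem NPC4_link3 {a : TV4 H} {n : ℕ} (C : NPC4_Cyc H a n) (ha : a.1 = 3) : 4 ≤ n := by
  by_contra hn
  have h3 := C.three
  obtain rfl : n = 3 := by omega
  have h : ∀ i, ((C.v i).1 = 1 ∧ (C.v (i + 1)).1 ≠ 1) ∨
      ((C.v i).1 ≠ 1 ∧ (C.v (i + 1)).1 = 1) := fun i => by
    have h1 := C.oka i
    have h2 := C.oka (i + 1)
    rw [ha] at h1 h2
    exact NPC4_dec3 _ _ h1 h2 (C.ok i)
  have h0 := h 0
  have h1 := h 1
  have h2 := h 2
  have hp : (C.v 3).1 = (C.v 0).1 := congrArg Sigma.fst (C.per 0)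
  simp only [Nat.reduceAdd] at h0 h1 h2
  rw [hp] at h2
  tauto

/-- the links of the vertices of the types `0` and `2` -/
theorem NPC4_link02 {a : TV4 H} {n : ℕ} (C : NPC4_Cyc H a n) (ha : a.1 = 0 ∨ a.1 = 2)
    (hG : G8 (H a.1 ⊓ H 1) (H 3)) : 8 ≤ n := by
  have h : ∀ i, ((C.v i).1 = 1 ∧ (C.v (i + 1)).1 = 3) ∨
      ((C.v i).1 = 3 ∧ (C.v (i + 1)).1 = 1) := fun i =>
    NPC4_dec02 _ _ _ ha (C.oka i) (C.oka (i + 1)) (C.ok i)
  have h13 : ∀ i, (C.v i).1 = 1 → (C.v (i + 1)).1 = 3 := fun i hi => by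
    rcases h i with h1 | h1
    · exact h1.2
    · exact absurd (hi.symm.trans h1.1) (by decide)
  have h31 : ∀ i, (C.v i).1 = 3 → (C.v (i + 1)).1 = 1 := fun i hi => by
    rcases h i with h1 | h1
    · exact absurd (hi.symm.trans h1.1) (by decide)
    · exact h1.2
  obtain ⟨s, hs⟩ : ∃ s, (C.v s).1 = 3 := by
    rcases h 0 with h1 | h1
    · exact ⟨0 + 1, h1.2⟩
    · exact ⟨0, h1.1⟩
  have e1 : (C.v (s + 1)).1 = 1 := h31 _ hs
  have e2 : (C.v (s + 2)).1 = 3 := h13 _ e1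
  have e3 : (C.v (s + 3)).1 = 1 := h31 _ e2
  have e4 : (C.v (s + 4)).1 = 3 := h13 _ e3
  have e5 : (C.v (s + 5)).1 = 1 := h31 _ e4
  have e6 : (C.v (s + 6)).1 = 3 := h13 _ e5
  have e7 : (C.v (s + 7)).1 = 1 := h31 _ e6
  -- the syllables
  have hA : ∀ i, (C.v i).1 = 3 → (C.g i)⁻¹ * C.g (i + 1) ∈ H a.1 ⊓ H 1 ∧
      (C.g i)⁻¹ * C.g (i + 1) ∉ H 3 := fun i hi => by
    have f1 := h31 i hi
    have f2 := h13 _ f1
    refine ⟨⟨C.xa i, ?_⟩, ?_⟩
    · have := C.xn i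
      rwa [f1] at this
    · have := C.xo i (f2.trans hi.symm)
      rwa [hi] at this
  have hB : ∀ i, (C.v i).1 = 1 → (C.g i)⁻¹ * C.g (i + 1) ∈ H 3 ∧
      (C.g i)⁻¹ * C.g (i + 1) ∉ H a.1 ⊓ H 1 := fun i hi => by
    have f1 := h13 i hi
    have f2 := h31 _ f1
    refine ⟨?_, ?_⟩
    · have := C.xn i
      rwa [f1] at this
    · intro h'
      have := C.xo i (f2.trans hi.symm)
      rw [hi] at this
      exact this h'.2
  have h3 := C.three
  by_contra hn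
  have hcases : n = 3 ∨ n = 4 ∨ n = 5 ∨ n = 6 ∨ n = 7 := by omega
  rcases hcases with rfl | rfl | rfl | rfl | rfl
  · rw [C.per, hs] at e3
    exact absurd e3 (by decide)
  · rcases hG.1 _ (hA s hs).1 _ (hB _ e1).1 _ (hA _ e2).1 _ (hB _ e3).1
      (NPC4_prod4 C.g s (C.gper s)) with h' | h' | h' | h'
    · exact (hA s hs).2 h'
    · exact (hB _ e1).2 h'
    · exact (hA _ e2).2 h'
    · exact (hB _ e3).2 h'
  · rw [C.per, hs] at e5
    exact absurd e5 (by decide)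
  · rcases hG.2 _ (hA s hs).1 _ (hB _ e1).1 _ (hA _ e2).1 _ (hB _ e3).1 _ (hA _ e4).1 _
      (hB _ e5).1 (NPC4_prod6 C.g s (C.gper s)) with h' | h' | h' | h' | h' | h'
    · exact (hA s hs).2 h'
    · exact (hB _ e1).2 h'
    · exact (hA _ e2).2 h'
    · exact (hB _ e3).2 h'
    · exact (hA _ e4).2 h'
    · exact (hB _ e5).2 h'
  · rw [C.per, hs] at e7
    exact absurd e7 (by decide)

/-- the links of the vertices of the type `1` -/
theorem NPC4_link1 {a : TV4 H} {n : ℕ} (C : NPC4_Cyc H a n) (ha : a.1 = 1)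
    (h3 : H 3 = H 0 ⊓ H 2) : 8 ≤ n := by
  have h : ∀ i, ((C.v i).1 = 3 ∧ ((C.v (i + 1)).1 = 0 ∨ (C.v (i + 1)).1 = 2)) ∨
      (((C.v i).1 = 0 ∨ (C.v i).1 = 2) ∧ (C.v (i + 1)).1 = 3) := fun i => by
    have h1 := C.oka i
    have h2 := C.oka (i + 1)
    rw [ha] at h1 h2
    exact NPC4_dec1 _ _ h1 h2 (C.ok i)
  have hle : ∀ t : Fin 4, t = 0 ∨ t = 2 → H 3 ≤ H t := by
    rintro t (rfl | rfl)
    · rw [h3]
      exact inf_le_left
    · rw [h3]
      exact inf_le_right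
  have hd : ∀ i, (C.v i).1 = 3 → ((C.v (i + 1)).1 = 0 ∨ (C.v (i + 1)).1 = 2) := fun i hi => by
    rcases h i with h1 | h1
    · exact h1.2
    · rcases h1.1 with h2 | h2
      · exact absurd (hi.symm.trans h2) (by decide)
      · exact absurd (hi.symm.trans h2) (by decide)
  have hu : ∀ i, ((C.v i).1 = 0 ∨ (C.v i).1 = 2) → (C.v (i + 1)).1 = 3 := fun i hi => by
    rcases h i with h1 | h1
    · rcases hi with h2 | h2
      · exact absurd (h2.symm.trans h1.1) (by decide)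
      · exact absurd (h2.symm.trans h1.1) (by decide)
    · exact h1.2
  -- the two neighbours of a vertex of the type 3 have different types
  have hne : ∀ i, (C.v (i + 1)).1 = 3 → ((C.v i).1 = 0 ∨ (C.v i).1 = 2) →
      (C.v (i + 2)).1 ≠ (C.v i).1 := fun i hi hi' he => by
    have h4 := C.xn i
    rw [hi] at h4
    exact C.xo i he (hle _ hi' h4)
  obtain ⟨s, hs⟩ : ∃ s, (C.v s).1 = 3 := by
    rcases h 0 with h1 | h1
    · exact ⟨0, h1.1⟩
    · exact ⟨0 + 1, h1.2⟩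
  have e1 := hd _ hs
  have e2 : (C.v (s + 2)).1 = 3 := hu _ e1
  have e3 : (C.v (s + 3)).1 = 0 ∨ (C.v (s + 3)).1 = 2 := hd _ e2
  have e4 : (C.v (s + 4)).1 = 3 := hu _ e3
  have e5 : (C.v (s + 5)).1 = 0 ∨ (C.v (s + 5)).1 = 2 := hd _ e4
  have e6 : (C.v (s + 6)).1 = 3 := hu _ e5
  have e7 : (C.v (s + 7)).1 = 0 ∨ (C.v (s + 7)).1 = 2 := hd _ e6
  have n3 : (C.v (s + 3)).1 ≠ (C.v (s + 1)).1 := hne (s + 1) e2 e1
  have n5 : (C.v (s + 5)).1 ≠ (C.v (s + 3)).1 := hne (s + 3) e4 e3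
  have n7 : (C.v (s + 7)).1 ≠ (C.v (s + 5)).1 := hne (s + 5) e6 e5
  have hthree := C.three
  by_contra hn
  have hcases : n = 3 ∨ n = 4 ∨ n = 5 ∨ n = 6 ∨ n = 7 := by omega
  rcases hcases with rfl | rfl | rfl | rfl | rfl
  · rw [C.per, hs] at e3
    rcases e3 with h' | h'
    · exact absurd h' (by decide)
    · exact absurd h' (by decide)
  · -- the two vertices of the type 3 coincide
    have x0 := C.xn s
    have x1 := C.xn (s + 1)
    have x2 := C.xn (s + 2)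
    have x3 := C.xn (s + 3)
    have p4 : C.v (s + 3 + 1) = C.v s := C.per s
    have q4 : C.g (s + 3 + 1) = C.g s := C.gper s
    have e2' : (C.v (s + 1 + 1)).1 = 3 := e2
    rw [p4, q4, hs] at x3
    rw [e2'] at x1
    have x1' := hle _ e3 x1
    have x3' := hle _ e3 x3
    have hc : (C.g (s + 1))⁻¹ * C.g s ∈ H (C.v (s + 3)).1 := by
      have h5 := mul_mem (mul_mem x1' x2) x3'
      have h6 : (C.g (s + 1))⁻¹ * C.g (s + 1 + 1) * ((C.g (s + 2))⁻¹ * C.g (s + 2 + 1)) *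
          ((C.g (s + 3))⁻¹ * C.g s) = (C.g (s + 1))⁻¹ * C.g s := by
        change (C.g (s + 1))⁻¹ * C.g (s + 2) * ((C.g (s + 2))⁻¹ * C.g (s + 3)) *
          ((C.g (s + 3))⁻¹ * C.g s) = (C.g (s + 1))⁻¹ * C.g s
        group
      rw [h6] at h5
      exact h5
    have hc' : (C.g s)⁻¹ * C.g (s + 1) ∈ H (C.v (s + 3)).1 := by
      have h5 := inv_mem hc
      rwa [mul_inv_rev, inv_inv] at h5
    have hfin : (C.g s)⁻¹ * C.g (s + 1) ∈ H 3 := by
      rw [h3]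
      rcases e1 with h1 | h1 <;> rcases e3 with h4 | h4
      · exact absurd (h4.trans h1.symm) n3
      · rw [h1] at x0
        rw [h4] at hc'
        exact ⟨x0, hc'⟩
      · rw [h1] at x0
        rw [h4] at hc'
        exact ⟨hc', x0⟩
      · exact absurd (h4.trans h1.symm) n3
    have h7 := C.xo s (e2.trans hs.symm)
    rw [hs] at h7
    exact h7 hfin
  · rw [C.per, hs] at e5
    rcases e5 with h' | h'
    · exact absurd h' (by decide)
    · exact absurd h' (by decide)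
  · have p7 : (C.v (s + 7)).1 = (C.v (s + 1)).1 := by
      rw [show s + 7 = s + 1 + 6 by ring, C.per]
    rw [p7] at n7
    rcases e1 with h1 | h1 <;> rcases e3 with h4 | h4 <;> rcases e5 with h5 | h5
    · exact n3 (h4.trans h1.symm)
    · exact n3 (h4.trans h1.symm)
    · exact n7 (h1.trans h5.symm)
    · exact n5 (h5.trans h4.symm)
    · exact n5 (h5.trans h4.symm)
    · exact n7 (h1.trans h5.symm)
    · exact n3 (h4.trans h1.symm)
    · exact n3 (h4.trans h1.symm)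
  · rw [C.per, hs] at e7
    rcases e7 with h' | h'
    · exact absurd h' (by decide)
    · exact absurd h' (by decide)

theorem tog4_npc (h3 : H 3 = H 0 ⊓ H 2) (h0 : G8 (H 0 ⊓ H 1) (H 3)) (h2 : G8 (H 2 ⊓ H 1) (H 3)) :
    NPC (tog4 H) (tlen4 H) where
  symm := NPC4_symm H
  pos a b _ := NPC4_pos H a b
  triangle a b c h := by
    have hs : (1 : ℝ) < Real.sqrt 2 := by
      rw [Real.lt_sqrt (by norm_num)]
      norm_num
    have hs' : Real.sqrt 2 < 2 := by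
      rw [Real.sqrt_lt' (by norm_num)]
      norm_num
    rcases NPC4_three H h with ⟨h1, h2, h3⟩ | ⟨h1, h2, h3⟩ | ⟨h1, h2, h3⟩
    · rw [NPC4_one H (Or.inl h1), NPC4_one H (Or.inl h1),
        NPC4_two H (by simp only [h2, h3, or_self, not_false_eq_true])]
      linarith
    · rw [NPC4_one H (u := a) (v := b) (Or.inr h2), NPC4_one H (Or.inl h2),
        NPC4_two H (by simp only [h1, h3, or_self, not_false_eq_true])]
      linarith
    · rw [NPC4_one H (u := a) (v := c) (Or.inr h3), NPC4_one H (u := b) (Or.inr h3),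
        NPC4_two H (by simp only [h1, h2, or_self, not_false_eq_true])]
      linarith
  link a n b hn hb hinj htri := by
    obtain ⟨C⟩ := NPC4_exists H hn hb hinj htri
    have hsum : ∑ i ∈ Finset.range n, corner (tlen4 H) a (b i) (b (i + 1)) =
        ∑ _i ∈ Finset.range n, (if a.1 = 3 then Real.pi / 2 else Real.pi / 4) :=
      Finset.sum_congr rfl fun i hi => tog4_corner H _ _ _ (htri i (Finset.mem_range.1 hi))
    rw [hsum, Finset.sum_const, Finset.card_range, nsmul_eq_mul]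
    have hpi := Real.pi_pos
    have key : ∀ t : Fin 4, t = 3 ∨ (t = 0 ∨ t = 2) ∨ t = 1 := by decide
    rcases key a.1 with h | h | h
    · have h4 : (4 : ℝ) ≤ n := by exact_mod_cast NPC4_link3 H C h
      rw [if_pos h]
      nlinarith
    · have h8 : (8 : ℝ) ≤ n := by
        have h9 : 8 ≤ n := by
          refine NPC4_link02 H C h ?_
          rcases h with h | h
          · rw [h]
            exact h0
          · rw [h]
            exact h2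
        exact_mod_cast h9
      have hne : a.1 ≠ 3 := by
        rcases h with h | h <;> rw [h] <;> decide
      rw [if_neg hne]
      nlinarith
    · have h8 : (8 : ℝ) ≤ n := by exact_mod_cast NPC4_link1 H C h h3
      have hne : a.1 ≠ 3 := by rw [h]; decide
      rw [if_neg hne]
      nlinarith

end Pool.Agent.helper55.EV
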