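import Pool.Agent.helper55.EV.Defs4

set_option autoImplicit false

/-!
# EAG-SC4: the subdivided development is simply connected
-/

namespace Pool.Agent.helper55.EV

open Pool.Agent.helper34.FJ2 Pool.Agent.helper34.FJ3

namespace SC4

variable {G : Type} [Group G] (H : Fin 4 → Subgroup G)

theorem SC4_tv_eq (t : Fin 4) (g h : G) : tv4 H t g = tv4 H t h ↔ g⁻¹ * h ∈ H t := by
  constructor
  · intro e
    exact QuotientGroup.eq.1 (eq_of_heq (Sigma.mk.inj e).2)
  · intro e
    exact congrArg (Sigma.mk t) (QuotientGroup.eq.2 e)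

theorem SC4_tv_ty {t s : Fin 4} {g h : G} (e : tv4 H t g = tv4 H s h) : t = s :=
  congrArg Sigma.fst e

theorem SC4_tv_mul (t : Fin 4) (g h : G) (hh : h ∈ H t) : tv4 H t (g * h) = tv4 H t g := by
  rw [eq_comm, SC4_tv_eq, inv_mul_cancel_left]
  exact hh

theorem SC4_inv : Inv G (tog4 H) where
  edge := by
    rintro k a b ⟨g, t, t', h, rfl, rfl⟩
    exact ⟨k * g, t, t', h, rfl, rfl⟩
  tri := by
    rintro k a b c ⟨g, t, t', t'', h, h', h'', rfl, rfl, rfl⟩
    exact ⟨k * g, t, t', t'', h, h', h'', rfl, rfl, rfl⟩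

/-- the invariant complex -/
def SC4_A : GCx G (TV4 H) := ⟨tog4 H, SC4_inv H⟩

/-- the base vertex -/
def SC4_x : TV4 H := tv4 H 3 1

theorem SC4_ok {t : Fin 4} (h : t ≠ 3) : Ok4 t 3 := by
  refine ⟨h, ?_, ?_⟩
  · rintro ⟨_, h2⟩
    exact absurd h2 (by decide)
  · rintro ⟨_, h2⟩
    exact absurd h2 (by decide)

theorem SC4_ok' {t : Fin 4} (h : t ≠ 3) : Ok4 3 t := (SC4_ok h).symm

theorem SC4_edge {t s : Fin 4} (h : Ok4 t s) (g : G) : (tog4 H).edge (tv4 H t g) (tv4 H s g) :=
  ⟨g, t, s, h, rfl, rfl⟩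

theorem SC4_tri {t s r : Fin 4} (h1 : Ok4 t s) (h2 : Ok4 s r) (h3 : Ok4 t r) (g : G) :
    (tog4 H).tri (tv4 H t g) (tv4 H s g) (tv4 H r g) :=
  ⟨g, t, s, r, h1, h2, h3, rfl, rfl, rfl⟩

/-- the path of an element of `H t` -/
def SC4_pl (t : Fin 4) (h : G) : List (TV4 H) := if t = 3 then [] else [tv4 H t 1, tv4 H 3 h]

theorem SC4_pl_zero (h : G) : SC4_pl H 3 h = [] := if_pos rfl

theorem SC4_pl_ne {t : Fin 4} (ht : t ≠ 3) (h : G) : SC4_pl H t h = [tv4 H t 1, tv4 H 3 h] :=
  if_neg ht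

/-- the lift of an element of `H t` -/
def SC4_f (t : Fin 4) (h : H t) : PreLift (SC4_A H) (SC4_x H) where
  g := h
  l := SC4_pl H t h
  path := by
    by_cases ht : t = 3
    · subst ht
      rw [SC4_pl_zero]
      trivial
    · rw [SC4_pl_ne H ht]
      refine ⟨SC4_edge H (SC4_ok' ht) 1, ?_, trivial⟩
      have h1 : tv4 H t (h : G) = tv4 H t 1 := by
        have h2 := SC4_tv_mul H t 1 h h.2
        rwa [one_mul] at h2
      have h3 := SC4_edge H (SC4_ok ht) (h : G)
      rw [h1] at h3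
      exact h3
  fin := by
    by_cases ht : t = 3
    · subst ht
      rw [SC4_pl_zero]
      have h2 := SC4_tv_mul H 3 1 h h.2
      rw [one_mul] at h2
      change tv4 H 3 1 = tv4 H 3 ((h : G) * 1)
      rw [mul_one, h2]
    · rw [SC4_pl_ne H ht]
      change tv4 H 3 (h : G) = tv4 H 3 ((h : G) * 1)
      rw [mul_one]

/-- the homomorphisms to the group of lifts -/
noncomputable def SC4_F (t : Fin 4) : H t →* Lifts (SC4_A H) (SC4_x H) :=
  MonoidHom.mk' (fun h => Lifts.mk (SC4_f H t h)) (by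
    intro h k
    change Lifts.mk (SC4_f H t (h * k)) = Lifts.mk (SC4_f H t h) * Lifts.mk (SC4_f H t k)
    rw [← Lifts.mk_mul, Lifts.mk_eq]
    refine ⟨rfl, ?_⟩
    change Htpy (tog4 H) (tv4 H 3 1) (SC4_pl H t ((h * k : H t) : G))
      (SC4_pl H t h ++ (SC4_pl H t k).map ((h : G) • ·))
    by_cases ht : t = 3
    · subst ht
      rw [SC4_pl_zero, SC4_pl_zero, SC4_pl_zero]
      exact Htpy.refl _ _
    · rw [SC4_pl_ne H ht, SC4_pl_ne H ht, SC4_pl_ne H ht]
      have h1 : tv4 H t ((h : G) * 1) = tv4 H t 1 := by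
        have h2 := SC4_tv_mul H t 1 h h.2
        rw [one_mul] at h2
        rw [mul_one, h2]
      have h3 : ([tv4 H t 1, tv4 H 3 (k : G)] : List (TV4 H)).map ((h : G) • ·) =
          [tv4 H t 1, tv4 H 3 ((h : G) * k)] := by
        change [tv4 H t ((h : G) * 1), tv4 H 3 ((h : G) * k)] = _
        rw [h1]
      rw [h3]
      refine Htpy.symm _ _ _ (Htpy.cons _ _ _ _ (Htpy.spur _ _ _ ?_))
      have h4 := SC4_edge H (SC4_ok ht) (h : G)
      rw [mul_one] at h1
      rw [h1] at h4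
      exact h4)

theorem SC4_compat (h3 : H 3 = H 0 ⊓ H 2) (t s : Fin 4) (x : G) (h : x ∈ H t)
    (h' : x ∈ H s) :
    SC4_F H t ⟨x, h⟩ = SC4_F H s ⟨x, h'⟩ := by
  change Lifts.mk (SC4_f H t ⟨x, h⟩) = Lifts.mk (SC4_f H s ⟨x, h'⟩)
  rw [Lifts.mk_eq]
  refine ⟨rfl, ?_⟩
  change Htpy (tog4 H) (tv4 H 3 1) (SC4_pl H t x) (SC4_pl H s x)
  have h1 : ∀ r : Fin 4, x ∈ H r → tv4 H r x = tv4 H r 1 := by
    intro r hr
    have h2 := SC4_tv_mul H r 1 x hr
    rwa [one_mul] at h2
  have h0 : ∀ r : Fin 4, r ≠ 3 → x ∈ H r → x ∈ H 3 →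
      Htpy (tog4 H) (tv4 H 3 1) (SC4_pl H r x) (SC4_pl H 3 x) := by
    intro r hr _ hx3
    rw [SC4_pl_ne H hr, SC4_pl_zero, h1 3 hx3]
    exact Htpy.spur _ _ _ (SC4_edge H (SC4_ok' hr) 1)
  by_cases ht : t = 3
  · subst ht
    by_cases hs : s = 3
    · subst hs
      exact Htpy.refl _ _
    · exact (h0 s hs h' h).symm
  · by_cases hs : s = 3
    · subst hs
      exact h0 t ht h h'
    · by_cases hts : t = s
      · subst hts
        exact Htpy.refl _ _
      · by_cases hok : Ok4 t s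
        · rw [SC4_pl_ne H ht, SC4_pl_ne H hs]
          have h2 : (tog4 H).tri (tv4 H t 1) (tv4 H s 1) (tv4 H 3 x) := by
            have h3 := SC4_tri H hok (SC4_ok hs) (SC4_ok ht) x
            rwa [h1 t h, h1 s h'] at h3
          have h4 : (tog4 H).tri (tv4 H 3 1) (tv4 H t 1) (tv4 H s 1) :=
            SC4_tri H (SC4_ok' ht) hok (SC4_ok' hs) 1
          refine Htpy.trans _ _ _ _
            (Htpy.cons _ _ _ _ (Htpy.symm _ _ _ (Htpy.tri _ _ _ [] h2))) ?_
          exact Htpy.tri _ _ _ _ h4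
        · have hx : x ∈ H 3 := by
            rw [h3]
            have hcase : (t = 0 ∧ s = 2) ∨ (t = 2 ∧ s = 0) := by
              by_contra hcon
              rw [not_or] at hcon
              exact hok ⟨hts, hcon.1, hcon.2⟩
            rcases hcase with ⟨rfl, rfl⟩ | ⟨rfl, rfl⟩
            · exact ⟨h, h'⟩
            · exact ⟨h', h⟩
          have h4 := h0 t ht h hx
          have h5 := h0 s hs h' hx
          exact Htpy.trans _ _ _ _ h4 h5.symm

end SC4

open SC4

/-- If `G` is the colimit of the triangle of the subgroups `H t` (and their intersections), then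
the development is simply connected. -/
theorem tog4_sc {G : Type} [Group G] (H : Fin 4 → Subgroup G) (h3 : H 3 = H 0 ⊓ H 2)
    (hgen : Subgroup.closure {x : G | ∃ t, x ∈ H t} = ⊤)
    (hUP : ∀ (K : Type) [Group K] (f : ∀ t, H t →* K),
      (∀ (t t' : Fin 4) (x : G) (h : x ∈ H t) (h' : x ∈ H t'), f t ⟨x, h⟩ = f t' ⟨x, h'⟩) →
      ∃ F : G →* K, ∀ (t : Fin 4) (x : H t), F x = f t x) :
    SimplyConnected (tog4 H) := by
  obtain ⟨θ, hθ⟩ := hUP (Lifts (SC4_A H) (SC4_x H)) (SC4_F H) (SC4_compat H h3)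
  have hproj : (Lifts.proj (SC4_A H) (SC4_x H)).comp θ = MonoidHom.id G := by
    refine MonoidHom.eq_of_eqOn_dense hgen ?_
    rintro x ⟨t, ht⟩
    have h1 := hθ t ⟨x, ht⟩
    change Lifts.proj (SC4_A H) (SC4_x H) (θ x) = x
    have h2 : θ x = SC4_F H t ⟨x, ht⟩ := h1
    rw [h2]
    rfl
  have hrep : ∀ g : G, ∃ p : PreLift (SC4_A H) (SC4_x H), Lifts.mk p = θ g :=
    fun g => Lifts.ind (P := fun q => ∃ p, Lifts.mk p = q) (fun p => ⟨p, rfl⟩) (θ g)
  choose rep hrep using hrep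
  have hg : ∀ g : G, (rep g).g = g := by
    intro g
    have h1 := DFunLike.congr_fun hproj g
    change Lifts.proj (SC4_A H) (SC4_x H) (θ g) = g at h1
    rw [← hrep g] at h1
    exact h1
  have hfin : ∀ g : G, endp (tv4 H 3 1) (rep g).l = tv4 H 3 g := by
    intro g
    have h1 := (rep g).fin
    rw [hg g] at h1
    rw [show tv4 H 3 1 = SC4_x H from rfl, h1]
    change tv4 H 3 (g * 1) = tv4 H 3 g
    rw [mul_one]
  have hpath : ∀ g : G, IsPath (tog4 H) (tv4 H 3 1) (rep g).l := fun g => (rep g).path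
  -- the path to `v_t(g)`
  set c : G → Fin 4 → List (TV4 H) := fun g t => (rep g).l ++ if t = 3 then [] else [tv4 H t g]
    with hc
  have c0 : ∀ g : G, c g 3 = (rep g).l := fun g => by simp [hc]
  have cne : ∀ (g : G) (t : Fin 4), t ≠ 3 → c g t = (rep g).l ++ [tv4 H t g] :=
    fun g t ht => by simp [hc, ht]
  have cend : ∀ (g : G) (t : Fin 4), endp (tv4 H 3 1) (c g t) = tv4 H t g := by
    intro g t
    by_cases ht : t = 3
    · subst ht
      rw [c0, hfin]
    · rw [cne g t ht, endp_append]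
      rfl
  have cpath : ∀ (g : G) (t : Fin 4), IsPath (tog4 H) (tv4 H 3 1) (c g t) := by
    intro g t
    by_cases ht : t = 3
    · subst ht
      rw [c0]
      exact hpath g
    · rw [cne g t ht, isPath_append]
      refine ⟨hpath g, ?_⟩
      rw [hfin]
      exact ⟨SC4_edge H (SC4_ok' ht) g, trivial⟩
  -- claim 1
  have claim1 : ∀ (g : G) (t : Fin 4) (h : G), h ∈ H t →
      Htpy (tog4 H) (tv4 H 3 1) (c (g * h) t) (c g t) := by
    intro g t h hh
    have h1 : θ (g * h) = Lifts.mk (rep g) * Lifts.mk (SC4_f H t ⟨h, hh⟩) := by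
      rw [map_mul, hrep g]
      have h2 : θ h = SC4_F H t ⟨h, hh⟩ := hθ t ⟨h, hh⟩
      rw [h2]
      rfl
    rw [← hrep (g * h), ← Lifts.mk_mul, Lifts.mk_eq] at h1
    have h3 : Htpy (tog4 H) (tv4 H 3 1) (rep (g * h)).l
        ((rep g).l ++ (SC4_pl H t h).map ((rep g).g • ·)) := h1.2
    rw [hg g] at h3
    by_cases ht : t = 3
    · subst ht
      rw [c0, c0]
      rw [SC4_pl_zero, List.map_nil, List.append_nil] at h3
      exact h3
    · rw [cne _ t ht, cne _ t ht]
      rw [SC4_pl_ne H ht] at h3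
      have h4 : ([tv4 H t 1, tv4 H 3 h] : List (TV4 H)).map (g • ·) =
          [tv4 H t g, tv4 H 3 (g * h)] := by
        change [tv4 H t (g * 1), tv4 H 3 (g * h)] = _
        rw [mul_one]
      rw [h4] at h3
      have h5 := h3.append_right [tv4 H t (g * h)]
      refine Htpy.trans _ _ _ _ h5 ?_
      rw [List.append_assoc]
      apply Htpy.append_left
      rw [hfin, SC4_tv_mul H t g h hh]
      refine Htpy.cons _ _ _ _ (Htpy.spur _ _ [] ?_)
      have h6 := SC4_edge H (SC4_ok ht) (g * h)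
      rwa [SC4_tv_mul H t g h hh] at h6
  -- claim 3
  have claim3 : ∀ (k : G) (s r : Fin 4), Ok4 s r →
      Htpy (tog4 H) (tv4 H 3 1) (c k s ++ [tv4 H r k]) (c k r) := by
    intro k s r hsr
    by_cases hs : s = 3
    · subst hs
      rw [c0, cne k r (Ne.symm hsr.1)]
      exact Htpy.refl _ _
    · rw [cne k s hs, List.append_assoc]
      by_cases hr : r = 3
      · subst hr
        rw [c0]
        have h1 : Htpy (tog4 H) (tv4 H 3 1) ((rep k).l ++ ([tv4 H s k] ++ [tv4 H 3 k]))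
            ((rep k).l ++ []) := by
          apply Htpy.append_left
          rw [hfin]
          exact Htpy.spur _ _ [] (SC4_edge H (SC4_ok' hs) k)
        rwa [List.append_nil] at h1
      · rw [cne k r hr]
        apply Htpy.append_left
        rw [hfin]
        exact Htpy.tri _ _ _ [] (SC4_tri H (SC4_ok' hs) hsr (SC4_ok' hr) k)
  -- claim 2
  have claim2 : ∀ (l : List (TV4 H)) (g : G) (s : Fin 4), IsPath (tog4 H) (tv4 H s g) l →
      ∀ (g' : G) (t : Fin 4), endp (tv4 H s g) l = tv4 H t g' →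
      Htpy (tog4 H) (tv4 H 3 1) (c g s ++ l) (c g' t) := by
    intro l
    induction l with
    | nil =>
      intro g s _ g' t he
      rw [endp_nil] at he
      have hst := SC4_tv_ty H he
      subst hst
      rw [SC4_tv_eq] at he
      have h1 := claim1 g s (g⁻¹ * g') he
      rw [mul_inv_cancel_left] at h1
      rw [List.append_nil]
      exact h1.symm
    | cons b l ih =>
      rintro g s ⟨⟨k, s1, s2, h12, e1, e2⟩, hl⟩ g' t he
      have hs := SC4_tv_ty H e1
      subst hs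
      rw [SC4_tv_eq] at e1
      have h1 := claim1 g s (g⁻¹ * k) e1
      rw [mul_inv_cancel_left] at h1
      subst e2
      rw [endp_cons] at he
      have h2 := ih k s2 hl g' t he
      have h3 := (claim3 k s s2 h12).append_right l
      rw [List.append_assoc] at h3
      have h4 := (h1.symm).append_right (tv4 H s2 k :: l)
      exact Htpy.trans _ _ _ _ h4 (Htpy.trans _ _ _ _ h3 h2)
  have hsurj : ∀ a : TV4 H, ∃ (t : Fin 4) (g : G), a = tv4 H t g := by
    rintro ⟨t, q⟩
    obtain ⟨g, rfl⟩ := QuotientGroup.mk_surjective q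
    exact ⟨t, g, rfl⟩
  refine ⟨⟨tv4 H 3 1⟩, ?_, ?_⟩
  · intro a b
    obtain ⟨t, g, rfl⟩ := hsurj a
    obtain ⟨s, k, rfl⟩ := hsurj b
    refine ⟨rev (tv4 H 3 1) (c g t) ++ c k s, ?_, ?_⟩
    · rw [isPath_append]
      have h1 := isPath_rev (tog4 H) (tv4 H 3 1) (c g t) (cpath g t)
      have h2 := endp_rev (tv4 H 3 1) (c g t)
      rw [cend g t] at h1 h2
      refine ⟨h1, ?_⟩
      rw [h2]
      exact cpath k s
    · have h2 := endp_rev (tv4 H 3 1) (c g t)
      rw [cend g t] at h2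
      rw [endp_append, h2, cend]
  · intro a l hl he
    obtain ⟨t, g, rfl⟩ := hsurj a
    have h1 := claim2 l g t hl g t he
    have h2 : Htpy (tog4 H) (tv4 H 3 1) (c g t ++ l) (c g t ++ []) := by
      rw [List.append_nil]
      exact h1
    have h3 := Htpy.cancel_left (c g t) (cpath g t) h2
    rwa [cend g t] at h3

end Pool.Agent.helper55.EV
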