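import Pool.Agent.helper55.EV.Npc4
import Pool.Agent.helper55.EV.Poly

set_option autoImplicit false

/-!
# EAG-TG84: short alternating relations and the subdivided development
-/

namespace Pool.Agent.helper55.EV

open Pool.Agent.helper34.FJ2 Pool.Agent.helper34.FJ3
open scoped BigOperators

section TG84
variable {G : Type} [Group G] (H : Fin 4 → Subgroup G)

theorem TG84_tv4_eq (t : Fin 4) (x y : G) : tv4 H t x = tv4 H t y ↔ x⁻¹ * y ∈ H t := by
  rw [← QuotientGroup.eq]
  unfold tv4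
  constructor
  · intro h
    exact eq_of_heq (Sigma.mk.inj h).2
  · intro h
    rw [h]

/-- certificates at the vertices of type `3` -/
theorem TG84_far3 (x y z : G) (h : y⁻¹ * z ∉ H 1) :
    Far (tog4 H) (tlen4 H) (tv4 H 3 x) (tv4 H 1 y) (tv4 H 1 z) Real.pi := by
  classical
  refine ⟨fun v => if v = tv4 H 1 y then 0 else if v.1 = 1 then Real.pi else Real.pi / 2, ?_, ?_⟩
  · intro a b hab
    have hc := tog4_corner H _ _ _ hab
    rw [hc]
    obtain ⟨g, t, t', t'', h1, h2, h3, e1, e2, e3⟩ := hab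
    have et : t = 3 := (congrArg Sigma.fst e1).symm
    subst et
    have ha : a.1 = t' := congrArg Sigma.fst e2
    have hb : b.1 = t'' := congrArg Sigma.fst e3
    have hp : (tv4 H 3 x).1 = 3 := rfl
    rw [if_pos hp]
    have key : (t' = 1 ∧ t'' ≠ 1) ∨ (t' ≠ 1 ∧ t'' = 1) := by
      have h1' := h1; have h2' := h2; have h3' := h3
      unfold Ok4 at h1' h2' h3'
      revert h1' h2' h3'
      fin_cases t' <;> fin_cases t'' <;> simp
    have hpi := Real.pi_pos
    rcases key with ⟨k1, k2⟩ | ⟨k1, k2⟩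
    · have hb1 : b ≠ tv4 H 1 y := by
        intro hbb
        exact k2 (hb.symm.trans (congrArg Sigma.fst hbb))
      have hb2 : ¬ (b.1 = 1) := by rw [hb]; exact k2
      simp only [if_neg hb1, if_neg hb2]
      by_cases hay : a = tv4 H 1 y
      · simp only [if_pos hay]
        rw [abs_le]; constructor <;> linarith
      · have ha2 : a.1 = 1 := by rw [ha]; exact k1
        simp only [if_neg hay, if_pos ha2]
        rw [abs_le]; constructor <;> linarith
    · have ha1 : a ≠ tv4 H 1 y := by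
        intro hbb
        exact k1 (ha.symm.trans (congrArg Sigma.fst hbb))
      have ha2 : ¬ (a.1 = 1) := by rw [ha]; exact k1
      simp only [if_neg ha1, if_neg ha2]
      by_cases hby : b = tv4 H 1 y
      · simp only [if_pos hby]
        rw [abs_le]; constructor <;> linarith
      · have hb2 : b.1 = 1 := by rw [hb]; exact k2
        simp only [if_neg hby, if_pos hb2]
        rw [abs_le]; constructor <;> linarith
  · have hz : tv4 H 1 z ≠ tv4 H 1 y := by
      intro hzz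
      exact h ((TG84_tv4_eq H 1 y z).1 hzz.symm)
    have h1 : (tv4 H 1 z).1 = 1 := rfl
    simp only [if_true, if_neg hz, if_pos h1]
    rw [zero_sub, abs_neg, abs_of_pos Real.pi_pos]

/-- certificates at the vertices of type `1` -/
theorem TG84_far1 (x y z : G) (h : y⁻¹ * z ∉ H 3) :
    Far (tog4 H) (tlen4 H) (tv4 H 1 x) (tv4 H 3 y) (tv4 H 3 z) (Real.pi / 2) := by
  classical
  refine ⟨fun v => if v = tv4 H 3 y then 0 else if v.1 = 3 then Real.pi / 2 else Real.pi / 4,
    ?_, ?_⟩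
  · intro a b hab
    have hc := tog4_corner H _ _ _ hab
    rw [hc]
    obtain ⟨g, t, t', t'', h1, h2, h3, e1, e2, e3⟩ := hab
    have et : t = 1 := (congrArg Sigma.fst e1).symm
    subst et
    have ha : a.1 = t' := congrArg Sigma.fst e2
    have hb : b.1 = t'' := congrArg Sigma.fst e3
    have hp : ¬ ((tv4 H 1 x).1 = 3) := by
      change ¬ ((1 : Fin 4) = 3)
      decide
    rw [if_neg hp]
    have key : (t' = 3 ∧ t'' ≠ 3) ∨ (t' ≠ 3 ∧ t'' = 3) := by
      have h1' := h1; have h2' := h2; have h3' := h3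
      unfold Ok4 at h1' h2' h3'
      revert h1' h2' h3'
      fin_cases t' <;> fin_cases t'' <;> simp
    have hpi := Real.pi_pos
    rcases key with ⟨k1, k2⟩ | ⟨k1, k2⟩
    · have hb1 : b ≠ tv4 H 3 y := by
        intro hbb
        exact k2 (hb.symm.trans (congrArg Sigma.fst hbb))
      have hb2 : ¬ (b.1 = 3) := by rw [hb]; exact k2
      simp only [if_neg hb1, if_neg hb2]
      by_cases hay : a = tv4 H 3 y
      · simp only [if_pos hay]
        rw [abs_le]; constructor <;> linarith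
      · have ha2 : a.1 = 3 := by rw [ha]; exact k1
        simp only [if_neg hay, if_pos ha2]
        rw [abs_le]; constructor <;> linarith
    · have ha1 : a ≠ tv4 H 3 y := by
        intro hbb
        exact k1 (ha.symm.trans (congrArg Sigma.fst hbb))
      have ha2 : ¬ (a.1 = 3) := by rw [ha]; exact k1
      simp only [if_neg ha1, if_neg ha2]
      by_cases hby : b = tv4 H 3 y
      · simp only [if_pos hby]
        rw [abs_le]; constructor <;> linarith
      · have hb2 : b.1 = 3 := by rw [hb]; exact k2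
        simp only [if_neg hby, if_pos hb2]
        rw [abs_le]; constructor <;> linarith
  · have hz : tv4 H 3 z ≠ tv4 H 3 y := by
      intro hzz
      exact h ((TG84_tv4_eq H 3 y z).1 hzz.symm)
    have h1 : (tv4 H 3 z).1 = 3 := rfl
    have hpi := Real.pi_pos
    simp only [if_true, if_neg hz, if_pos h1]
    rw [zero_sub, abs_neg, abs_of_pos (by linarith)]

theorem TG84_edge13 (x y : G) (h : x⁻¹ * y ∈ H 1 ∨ x⁻¹ * y ∈ H 3) :
    (tog4 H).edge (tv4 H 1 x) (tv4 H 3 y) := by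
  have hok : Ok4 1 3 := by
    unfold Ok4
    decide
  rcases h with h | h
  · exact ⟨y, 1, 3, hok, (TG84_tv4_eq H 1 x y).2 h, rfl⟩
  · exact ⟨x, 1, 3, hok, rfl, ((TG84_tv4_eq H 3 x y).2 h).symm⟩

theorem TG84_edge31 (x y : G) (h : x⁻¹ * y ∈ H 1 ∨ x⁻¹ * y ∈ H 3) :
    (tog4 H).edge (tv4 H 3 y) (tv4 H 1 x) :=
  (tog4 H).edge_symm _ _ (TG84_edge13 H x y h)

end TG84

theorem tog4_G8 {G : Type} [Group G] (H : Fin 4 → Subgroup G) (h3 : H 3 = H 0 ⊓ H 2)
    (hs : SimplyConnected (tog4 H))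
    (h0 : G8 (H 0 ⊓ H 1) (H 3)) (h2 : G8 (H 2 ⊓ H 1) (H 3)) :
    G8 (H 1) (H 3) := by
  have hn := tog4_npc H h3 h0 h2
  have hf := tog4_fin H
  constructor
  · intro a₁ ha₁ b₁ hb₁ a₂ ha₂ b₂ hb₂ hrel
    by_contra hcon
    push Not at hcon
    obtain ⟨n1, n2, n3, n4⟩ := hcon
    have e1 : a₁ * b₁ * a₂ = b₂⁻¹ := eq_inv_of_mul_eq_one_left hrel
    refine no_bigon (tog4 H) (tlen4 H) hs hn hf (tv4 H 1 1) (tv4 H 3 a₁) (tv4 H 1 (a₁ * b₁))
      (tv4 H 3 (a₁ * b₁ * a₂)) ?_ ?_ ?_ ?_ ?_ ?_ ?_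
    · apply TG84_edge13
      left
      simpa using ha₁
    · apply TG84_edge31
      right
      have : (a₁ * b₁)⁻¹ * a₁ = b₁⁻¹ := by group
      rw [this]
      exact (H 3).inv_mem hb₁
    · apply TG84_edge13
      left
      have : (a₁ * b₁)⁻¹ * (a₁ * b₁ * a₂) = a₂ := by group
      rw [this]
      exact ha₂
    · apply TG84_edge31
      right
      rw [e1]
      simpa using hb₂
    · apply TG84_far3
      intro hh
      apply n2
      have : b₁ = a₁⁻¹ * ((1 : G)⁻¹ * (a₁ * b₁)) := by group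
      rw [this]
      exact (H 1).mul_mem ((H 1).inv_mem ha₁) hh
    · apply TG84_far1
      intro hh
      apply n3
      have : a₂ = b₁⁻¹ * (a₁⁻¹ * (a₁ * b₁ * a₂)) := by group
      rw [this]
      exact (H 3).mul_mem ((H 3).inv_mem hb₁) hh
    · apply TG84_far3
      intro hh
      apply n2
      have : b₁ = a₁⁻¹ * ((1 : G)⁻¹ * (a₁ * b₁)) := by group
      rw [this]
      exact (H 1).mul_mem ((H 1).inv_mem ha₁) hh
  · intro a₁ ha₁ b₁ hb₁ a₂ ha₂ b₂ hb₂ a₃ ha₃ b₃ hb₃ hrel
    by_contra hcon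
    push Not at hcon
    obtain ⟨n1, n2, n3, n4, n5, n6⟩ := hcon
    have e1 : a₁ * b₁ * a₂ * b₂ * a₃ = b₃⁻¹ := eq_inv_of_mul_eq_one_left hrel
    refine no_triangle (tog4 H) (tlen4 H) hs hn hf (tv4 H 1 1) (tv4 H 3 a₁)
      (tv4 H 1 (a₁ * b₁)) (tv4 H 3 (a₁ * b₁ * a₂)) (tv4 H 1 (a₁ * b₁ * a₂ * b₂))
      (tv4 H 3 (a₁ * b₁ * a₂ * b₂ * a₃)) ?_ ?_ ?_ ?_ ?_ ?_ ?_ ?_ ?_ ?_ ?_
    · apply TG84_edge13
      left
      simpa using ha₁
    · apply TG84_edge31
      right
      have : (a₁ * b₁)⁻¹ * a₁ = b₁⁻¹ := by group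
      rw [this]
      exact (H 3).inv_mem hb₁
    · apply TG84_edge13
      left
      have : (a₁ * b₁)⁻¹ * (a₁ * b₁ * a₂) = a₂ := by group
      rw [this]
      exact ha₂
    · apply TG84_edge31
      right
      have : (a₁ * b₁ * a₂ * b₂)⁻¹ * (a₁ * b₁ * a₂) = b₂⁻¹ := by group
      rw [this]
      exact (H 3).inv_mem hb₂
    · apply TG84_edge13
      left
      have : (a₁ * b₁ * a₂ * b₂)⁻¹ * (a₁ * b₁ * a₂ * b₂ * a₃) = a₃ := by group
      rw [this]
      exact ha₃
    · apply TG84_edge31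
      right
      rw [e1]
      simpa using hb₃
    · apply TG84_far3
      intro hh
      apply n2
      have : b₁ = a₁⁻¹ * ((1 : G)⁻¹ * (a₁ * b₁)) := by group
      rw [this]
      exact (H 1).mul_mem ((H 1).inv_mem ha₁) hh
    · apply TG84_far1
      intro hh
      apply n3
      have : a₂ = b₁⁻¹ * (a₁⁻¹ * (a₁ * b₁ * a₂)) := by group
      rw [this]
      exact (H 3).mul_mem ((H 3).inv_mem hb₁) hh
    · apply TG84_far3
      intro hh
      apply n4
      have : b₂ = a₂⁻¹ * ((a₁ * b₁)⁻¹ * (a₁ * b₁ * a₂ * b₂)) := by group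
      rw [this]
      exact (H 1).mul_mem ((H 1).inv_mem ha₂) hh
    · apply TG84_far1
      intro hh
      apply n5
      have : a₃ = b₂⁻¹ * ((a₁ * b₁ * a₂ * b₂ * a₃)⁻¹ * (a₁ * b₁ * a₂))⁻¹ := by group
      rw [this]
      exact (H 3).mul_mem ((H 3).inv_mem hb₂) ((H 3).inv_mem hh)
    · apply TG84_far3
      intro hh
      apply n6
      have e2 : b₃ = a₃⁻¹ * ((1 : G)⁻¹ * (a₁ * b₁ * a₂ * b₂))⁻¹ := by
        have e3 : b₃ = (a₁ * b₁ * a₂ * b₂ * a₃)⁻¹ := by rw [e1, inv_inv]
        rw [e3]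
        group
      rw [e2]
      exact (H 1).mul_mem ((H 1).inv_mem ha₃) ((H 1).inv_mem hh)

end Pool.Agent.helper55.EV
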