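import Pool.Agent.helper55.EV.HDefs
import Pool.Agent.helper55.EV.SC4
import Pool.Agent.helper55.EV.TG84
import Pool.Agent.helper55.EV.Base

set_option autoImplicit false

/-!
# Two sets of generators with even labels different from two between them
-/

namespace Pool.Agent.helper55.EV

open Pool.Agent.helper34.FJ2 Pool.Agent.helper34.FJ3
open Pool.Agent.helper36.LT (Artin gen alt artinRels)
open Pool.Agent.helper46.FJ3 (restr inc inc_gen)

theorem sg_empty {S : Type} (M : CoxeterMatrix S) : sg M ∅ = ⊥ := by
  unfold sg
  rw [Set.image_empty, Subgroup.closure_empty]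

theorem G8_bot {G : Type} [Group G] (B : Subgroup G) : G8 ⊥ B := by
  refine ⟨?_, ?_⟩
  · intro a₁ h1 b₁ _ a₂ _ b₂ _ _
    left
    rw [Subgroup.mem_bot.1 h1]
    exact one_mem _
  · intro a₁ h1 b₁ _ a₂ _ b₂ _ a₃ _ b₃ _ _
    left
    rw [Subgroup.mem_bot.1 h1]
    exact one_mem _

theorem Cross.compl {S : Type} {M : CoxeterMatrix S} {X : Set S} (h : Cross M X) :
    Cross M Xᶜ := by
  intro s hs t ht
  have ht' : t ∈ X := by simpa using ht
  have h1 := h t ht' s hs
  have h2 : M.M s t = M.M t s := M.symmetric _ _
  rw [h2]
  exact h1

theorem pair_G8 (n : ℕ) : ∀ (S : Type) [Finite S], Nat.card S ≤ n → ∀ (M : CoxeterMatrix S)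
    (X : Set S), Cross M X → G8 (sg M X) (sg M Xᶜ) := by
  classical
  induction n with
  | zero =>
    intro S _ hS M X _
    have h : Nat.card S = 0 := Nat.le_zero.1 hS
    rw [Finite.card_eq_zero_iff] at h
    have hX : X = ∅ := by
      ext s
      exact (h.false s).elim
    rw [hX, sg_empty]
    exact G8_bot _
  | succ n ih =>
    intro S _ hS M X hX
    have : Fintype S := Fintype.ofFinite S
    have hcard : ∀ F : Finset S, (∃ s, s ∉ F) → Nat.card F ≤ n := by
      rintro F ⟨s, hs⟩
      have h1 : Nat.card F = F.card := by simp
      have h2 : F.card < Fintype.card S := Finset.card_lt_univ_of_notMem hs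
      rw [Nat.card_eq_fintype_card] at hS
      omega
    -- subsets
    have sub : ∀ (X Y U : Set S), Cross M X → Y = Xᶜ → U ⊆ X → (∃ s, s ∉ U ∪ Y) →
        G8 (sg M U) (sg M Y) := by
      intro X Y U hX hY hU hs
      let F : Finset S := Finset.univ.filter (· ∈ U ∪ Y)
      have hF : ∀ s, s ∈ F ↔ s ∈ U ∪ Y := fun s => by simp [F]
      refine G8_sub M F (fun s hs => Finset.mem_coe.2 ((hF s).2 (Or.inl hs)))
        (fun s hs => Finset.mem_coe.2 ((hF s).2 (Or.inr hs))) ?_
      have h1 : (Subtype.val ⁻¹' Y : Set F) = (Subtype.val ⁻¹' U : Set F)ᶜ := by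
        ext ⟨s, hs⟩
        have hs' := (hF s).1 hs
        constructor
        · intro h2 h3
          have h4 : s ∈ Y := h2
          rw [hY] at h4
          exact h4 (hU h3)
        · intro h2
          rcases hs' with h3 | h3
          · exact absurd h3 h2
          · exact h3
      rw [h1]
      obtain ⟨s, hs⟩ := hs
      refine ih F (hcard F ⟨s, fun h => hs ((hF s).1 h)⟩) (restr M F) _ ?_
      rintro ⟨s, hs1⟩ hsU ⟨t, ht1⟩ htU
      refine hX s (hU hsU) t ?_
      intro htX
      have h5 := (hF t).1 ht1
      rcases h5 with h5 | h5
      · exact htU h5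
      · rw [hY] at h5
        exact h5 htX
    -- the main case
    have main : ∀ (X Y : Set S), Cross M X → Y = Xᶜ → (∃ x ∈ X, ∃ x' ∈ X, x ≠ x') →
        (∃ y, y ∈ Y) → G8 (sg M X) (sg M Y) := by
      rintro X Y hX hY ⟨x, hx, x', hx', hne⟩ ⟨y, hy⟩
      let T : Fin 4 → Set S := ![(X \ {x}) ∪ Y, X, {x} ∪ Y, Y]
      have hYX : ∀ s, s ∈ Y ↔ s ∉ X := fun s => by rw [hY]; rfl
      have hT : ∀ s s' : S, ∃ t, s ∈ T t ∧ s' ∈ T t := by
        intro s s'
        by_cases h1 : s ∈ X <;> by_cases h2 : s' ∈ X
        · exact ⟨1, h1, h2⟩
        · by_cases h3 : s = x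
          · exact ⟨2, Or.inl h3, Or.inr ((hYX _).2 h2)⟩
          · exact ⟨0, Or.inl ⟨h1, h3⟩, Or.inr ((hYX _).2 h2)⟩
        · by_cases h3 : s' = x
          · exact ⟨2, Or.inr ((hYX _).2 h1), Or.inl h3⟩
          · exact ⟨0, Or.inr ((hYX _).2 h1), Or.inl ⟨h2, h3⟩⟩
        · exact ⟨2, Or.inr ((hYX _).2 h1), Or.inr ((hYX _).2 h2)⟩
      obtain ⟨hgen, hUP⟩ := artin_UP M T hT
      have e3 : sg M (T 3) = sg M (T 0) ⊓ sg M (T 2) := by
        rw [sg_inf']
        congr 1
        ext s
        constructor
        · intro h
          exact ⟨Or.inr h, Or.inr h⟩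
        · rintro ⟨h1, h2⟩
          rcases h2 with h2 | h2
          · rcases h1 with h1 | h1
            · exact absurd h2 h1.2
            · exact h1
          · exact h2
      have e1 : sg M (T 0) ⊓ sg M (T 1) = sg M (X \ {x}) := by
        rw [sg_inf']
        congr 1
        ext s
        constructor
        · rintro ⟨h1 | h1, h2⟩
          · exact h1
          · exact absurd h2 ((hYX s).1 h1)
        · intro h
          exact ⟨Or.inl h, h.1⟩
      have e2 : sg M (T 2) ⊓ sg M (T 1) = sg M {x} := by
        rw [sg_inf']
        congr 1
        ext s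
        constructor
        · rintro ⟨h1 | h1, h2⟩
          · exact h1
          · exact absurd h2 ((hYX s).1 h1)
        · intro h
          have h' : s = x := h
          exact ⟨Or.inl h, by rw [h']; exact hx⟩
      have g1 : G8 (sg M (X \ {x})) (sg M Y) := by
        refine sub X Y (X \ {x}) hX hY Set.sdiff_subset ⟨x, ?_⟩
        rintro (h | h)
        · exact h.2 rfl
        · exact (hYX x).1 h hx
      have g2 : G8 (sg M {x}) (sg M Y) := by
        refine sub X Y {x} hX hY (by simpa using hx) ⟨x', ?_⟩
        rintro (h | h)
        · exact hne h.symm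
        · exact (hYX x').1 h hx'
      have h := tog4_G8 (fun t => sg M (T t)) e3 (tog4_sc _ e3 hgen hUP) (by
        have h1 : G8 (sg M (T 0) ⊓ sg M (T 1)) (sg M (T 3)) := by
          rw [e1]
          exact g1
        exact h1) (by
        have h1 : G8 (sg M (T 2) ⊓ sg M (T 1)) (sg M (T 3)) := by
          rw [e2]
          exact g2
        exact h1)
      exact h
    by_cases h1 : ∃ x ∈ X, ∃ x' ∈ X, x ≠ x'
    · by_cases h2 : ∃ y, y ∈ Xᶜ
      · exact main X Xᶜ hX rfl h1 h2
      · have h3 : Xᶜ = ∅ := by
          ext s
          exact ⟨fun h => (h2 ⟨s, h⟩).elim, fun h => h.elim⟩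
        rw [h3, sg_empty]
        exact G8_symm' (G8_bot _)
    · by_cases h2 : ∃ x, x ∈ X
      · obtain ⟨x, hx⟩ := h2
        by_cases h3 : ∃ y ∈ Xᶜ, ∃ y' ∈ Xᶜ, y ≠ y'
        · exact G8_symm' (main Xᶜ X hX.compl (compl_compl X).symm h3 ⟨x, hx⟩)
        · by_cases h4 : ∃ y, y ∈ Xᶜ
          · obtain ⟨y, hy⟩ := h4
            have hXx : X = {x} := by
              ext s
              constructor
              · intro hs
                by_contra h5
                exact h1 ⟨s, hs, x, hx, h5⟩
              · intro hs
                have h5 : s = x := hs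
                rw [h5]
                exact hx
            have hXy : Xᶜ = {y} := by
              ext s
              constructor
              · intro hs
                by_contra h5
                exact h3 ⟨s, hs, y, hy, h5⟩
              · intro hs
                have h5 : s = y := hs
                rw [h5]
                exact hy
            have hall : ∀ s, s = x ∨ s = y := by
              intro s
              by_cases hs : s ∈ X
              · rw [hXx] at hs
                exact Or.inl hs
              · have hs' : s ∈ Xᶜ := hs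
                rw [hXy] at hs'
                exact Or.inr hs'
            have hxy : x ≠ y := by
              rintro rfl
              exact hy hx
            have hE : Evn M := by
              intro s t hst
              rcases hall s with rfl | rfl <;> rcases hall t with rfl | rfl
              · exact absurd rfl hst
              · exact (hX _ hx _ hy).1
              · have h5 := (hX _ hx _ hy).1
                have h6 : M.M s t = M.M t s := M.symmetric _ _
                rw [h6]
                exact h5
              · exact absurd rfl hst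
            have h6 := G8_comm M hE y x hxy.symm (by
              have h5 := (hX x hx y hy).2
              have h6 : M.M y x = M.M x y := M.symmetric _ _
              rw [h6]
              exact h5) (fun k hk1 hk2 => by
                rcases hall k with h | h
                · exact absurd h hk2
                · exact absurd h hk1) (fun k hk1 hk2 => by
                rcases hall k with h | h
                · exact absurd h hk2
                · exact absurd h hk1)
            have h7 : ({y} : Set S)ᶜ = X := by rw [← hXy, compl_compl]
            have h8 : ({x} : Set S)ᶜ = Xᶜ := by rw [← hXx]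
            rw [h7, h8] at h6
            exact h6
          · have h3 : Xᶜ = ∅ := by
              ext s
              exact ⟨fun h => (h4 ⟨s, h⟩).elim, fun h => h.elim⟩
            rw [h3, sg_empty]
            exact G8_symm' (G8_bot _)
      · have h3 : X = ∅ := by
          ext s
          exact ⟨fun h => (h2 ⟨s, h⟩).elim, fun h => h.elim⟩
        rw [h3, sg_empty]
        exact G8_bot _

end Pool.Agent.helper55.EV
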