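import Pool.Agent.helper55.EV.HSC
import Pool.Agent.helper55.EV.HNpc
import Pool.Agent.helper55.EV.Pair

set_option autoImplicit false

/-!
# The Artin group of the union of two sets of generators
-/

namespace Pool.Agent.helper55.EV

open Pool.Agent.helper34.FJ2 Pool.Agent.helper34.FJ3
open Pool.Agent.helper36.LT (Artin gen alt artinRels)
open Pool.Agent.helper46.FJ3 (restr inc inc_gen)

variable {P : ∀ (G : Type) [Group G], Prop}

/-- vertices of a simplex with the same type are equal -/
theorem hyb_ty {S : Type} (M : CoxeterMatrix S) (X : Set S) {s : Set (HV M X)}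
    (hs : IsSimp (hyb M X) s) {u v : HV M X} (hu : u ∈ s) (hv : v ∈ s) (h : u.1 = v.1) :
    u = v := by
  have he : ∀ a b, (hyb M X).edge a b → a.1 ≠ b.1 := by
    rintro a b ⟨g, t, t', ht, rfl, rfl⟩ h
    have h' : t = t' := h
    subst h'
    exact ht.elim (HLt.irrefl _) (HLt.irrefl _)
  rcases hs with ⟨a, rfl⟩ | ⟨a, b, hab, rfl⟩ | ⟨a, b, d, hab, rfl⟩
  · exact hu.trans hv.symm
  · have h1 := he _ _ hab
    rcases hu with rfl | rfl <;> rcases hv with rfl | rfl
    · rfl
    · exact absurd h h1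
    · exact absurd h.symm h1
    · rfl
  · have h1 := he _ _ ((hyb M X).tri_edge _ _ _ hab)
    have h2 := he _ _ ((hyb M X).tri_edge' hab)
    have h3 := he _ _ ((hyb M X).tri_edge'' hab)
    rcases hu with rfl | rfl | rfl <;> rcases hv with rfl | rfl | rfl
    · rfl
    · exact absurd h h1
    · exact absurd h h3
    · exact absurd h.symm h1
    · rfl
    · exact absurd h h2
    · exact absurd h.symm h3
    · exact absurd h.symm h2
    · rfl

theorem Cross.sat {S : Type} {M : CoxeterMatrix S} {X : Set S} (h : Cross M X) : Sat M X :=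
  fun s hs t ht => (h s hs t ht).1

theorem pair_P (hP : Closed P) (hgl : ∀ n : ℕ, P (Matrix.GeneralLinearGroup (Fin n) ℚ))
    {S : Type} [Finite S] (M : CoxeterMatrix S) (X Y : Finset S) (hY : (Y : Set S) = (X : Set S)ᶜ)
    (hX : Cross M (X : Set S)) (h1 : P (Artin (restr M X))) (h2 : P (Artin (restr M Y))) :
    P (Artin M) := by
  classical
  obtain ⟨n, ρ, hρ⟩ := Pool.Agent.helper74.FJ3.artin_rep2 M
  have hsX : Sat M (X : Set S) := hX.sat
  have hsY : Sat M (Y : Set S) := by
    rw [hY]
    exact hX.compl.sat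
  -- detection of the standard subgroups
  have det : ∀ T : HT M (X : Set S), ∃ (Q : Type) (_ : Group Q) (π : Artin M →* Q), P Q ∧
      ∀ g ∈ sg M T.supp, π g = 1 → g = 1 := by
    intro T
    cases T with
    | e =>
      refine ⟨_, inferInstance, ρ, hgl n, ?_⟩
      intro g hg _
      have h3 : g ∈ sg M ∅ := hg
      rw [sg_empty] at h3
      exact Subgroup.mem_bot.1 h3
    | s a =>
      refine ⟨_, inferInstance, ρ, hgl n, ?_⟩
      intro g hg h3
      let T' : DTy M := ⟨{a}, by simp, by
        intro x hx y hy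
        rw [Finset.mem_singleton] at hx hy
        rw [hx, hy, M.diagonal]
        exact one_ne_zero⟩
      refine hρ T' g ?_ h3
      unfold sgp
      rw [Finset.coe_singleton]
      exact hg
    | p x y hx hy hm =>
      refine ⟨_, inferInstance, ρ, hgl n, ?_⟩
      intro g hg h3
      have hm' : M.M y x ≠ 0 := by
        have h4 : M.M y x = M.M x y := M.symmetric _ _
        rw [h4]
        exact hm
      let T' : DTy M := ⟨{x, y}, Finset.card_le_two, by
        intro a ha b hb
        rw [Finset.mem_insert, Finset.mem_singleton] at ha hb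
        rcases ha with rfl | rfl <;> rcases hb with rfl | rfl
        · rw [M.diagonal]; exact one_ne_zero
        · exact hm
        · exact hm'
        · rw [M.diagonal]; exact one_ne_zero⟩
      refine hρ T' g ?_ h3
      unfold sgp
      rw [Finset.coe_pair]
      exact hg
    | b c =>
      cases c with
      | true =>
        refine ⟨_, inferInstance, rtS M X hsX, h1, ?_⟩
        intro g hg h3
        have h4 := incS_rt M X hsX (g := g) hg
        rw [h3, map_one] at h4
        exact h4.symm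
      | false =>
        refine ⟨_, inferInstance, rtS M Y hsY, h2, ?_⟩
        intro g hg h3
        have hg' : g ∈ sg M (Y : Set S) := by
          rw [hY]
          exact hg
        have h4 := incS_rt M Y hsY (g := g) hg'
        rw [h3, map_one] at h4
        exact h4.symm
  refine P2s hP (hyb M (X : Set S)) (hlen M (X : Set S)) (hyb_sc M _) (hyb_npc M _ hX)
    (hyb_acts M _) ?_
  intro s hs
  obtain ⟨v, hv⟩ := hs.nonempty
  obtain ⟨t, x⟩ := v
  obtain ⟨g, rfl⟩ := QuotientGroup.mk_surjective x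
  obtain ⟨Q, _, π, hQ, h3⟩ := det t
  refine ⟨Q, inferInstance, π, hQ, ?_⟩
  intro h hhs hh
  have h4 : h • Pool.Agent.helper55.EV.hv M (X : Set S) t g ∈ s := by
    rw [← hhs]
    exact ⟨_, hv, rfl⟩
  have h5 : Pool.Agent.helper55.EV.hv M (X : Set S) t (h * g) =
      Pool.Agent.helper55.EV.hv M (X : Set S) t g := hyb_ty _ _ hs h4 hv rfl
  have h6 : ((h * g : Artin M) : Artin M ⧸ sg M t.supp) = (g : Artin M ⧸ sg M t.supp) :=
    eq_of_heq (Sigma.mk.inj_iff.1 h5).2
  have h7 : g⁻¹ * (h * g) ∈ sg M t.supp := QuotientGroup.eq.1 h6.symm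
  have h8 : π (g⁻¹ * (h * g)) = 1 := by
    rw [map_mul, map_mul, hh, one_mul, ← map_mul, inv_mul_cancel, map_one]
  have h9 := h3 _ h7 h8
  have h10 : h = g * (g⁻¹ * (h * g)) * g⁻¹ := by group
  rw [h10, h9]
  group

/-! ### Restrictions -/

/-- restriction to a subset of a finite subset -/
theorem restr_restr_hom {S : Type} (M : CoxeterMatrix S) (F0 : Finset S) (F : Finset F0)
    (F' : Finset S) (hF' : ∀ s : F0, s ∈ F → s.1 ∈ F') :
    ∃ f : Artin (restr (restr M F0) F) →* Artin (restr M F'),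
      ∀ x, inc M F' (f x) = inc M F0 (inc (restr M F0) F x) := by
  classical
  have h0 : ∀ s : F, s.1.1 ∈ F' := fun s => hF' s.1 s.2
  let f : Artin (restr (restr M F0) F) →* Artin (restr M F') :=
    Pool.Agent.helper50.LT.lift _ (fun s => gen (restr M F') ⟨s.1.1, h0 s⟩)
      (fun s t => Pool.Agent.helper50.LT.gen_rel (restr M F') ⟨s.1.1, h0 s⟩ ⟨t.1.1, h0 t⟩)
  have hf : ∀ s : F, f (gen (restr (restr M F0) F) s) = gen (restr M F') ⟨s.1.1, h0 s⟩ :=
    fun s => Pool.Agent.helper50.LT.lift_gen _ _ _ _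
  refine ⟨f, ?_⟩
  intro x
  have h : (inc M F').comp f = (inc M F0).comp (inc (restr M F0) F) := by
    apply Pool.Agent.helper50.LT.artin_hom_ext
    rintro ⟨⟨s, hs⟩, hs'⟩
    rw [MonoidHom.comp_apply, MonoidHom.comp_apply, hf, inc_gen, inc_gen]
    exact (inc_gen M F0 s hs).symm
  exact DFunLike.congr_fun h x

/-- the natural homomorphism is injective, for every set of generators -/
theorem inc_inj' {S : Type} (M : CoxeterMatrix S) (F : Finset S) :
    Function.Injective (inc M F) := by
  classical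
  rw [injective_iff_map_eq_one]
  intro x hx
  obtain ⟨F', hF, hx'⟩ := Pool.Agent.helper46.FJ3.ker_inc M F x hx
  let F'' : Finset F' := Finset.univ.filter fun s => s.1 ∈ F
  have hF'' : ∀ s : F', s ∈ F'' ↔ s.1 ∈ F := fun s => by simp [F'']
  let k : Artin (restr M F) →* Artin (restr (restr M F') F'') :=
    Pool.Agent.helper50.LT.lift _ (fun s => gen (restr (restr M F') F'')
      ⟨⟨s.1, hF s.2⟩, (hF'' _).2 s.2⟩)
      (fun s t => Pool.Agent.helper50.LT.gen_rel (restr (restr M F') F'')
        ⟨⟨s.1, hF s.2⟩, (hF'' _).2 s.2⟩ ⟨⟨t.1, hF t.2⟩, (hF'' _).2 t.2⟩)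
  let k' : Artin (restr (restr M F') F'') →* Artin (restr M F) :=
    Pool.Agent.helper50.LT.lift _ (fun s => gen (restr M F) ⟨s.1.1, (hF'' _).1 s.2⟩)
      (fun s t => Pool.Agent.helper50.LT.gen_rel (restr M F) ⟨s.1.1, (hF'' _).1 s.2⟩
        ⟨t.1.1, (hF'' _).1 t.2⟩)
  have hk : ∀ s : F, k (gen (restr M F) s) = gen (restr (restr M F') F'')
      ⟨⟨s.1, hF s.2⟩, (hF'' _).2 s.2⟩ :=
    fun s => Pool.Agent.helper50.LT.lift_gen _ _ _ _
  have hk' : ∀ s : F'', k' (gen (restr (restr M F') F'') s) =
      gen (restr M F) ⟨s.1.1, (hF'' _).1 s.2⟩ :=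
    fun s => Pool.Agent.helper50.LT.lift_gen _ _ _ _
  have h1 : k'.comp k = MonoidHom.id _ := by
    apply Pool.Agent.helper50.LT.artin_hom_ext
    rintro ⟨s, hs⟩
    rw [MonoidHom.comp_apply, hk, hk']
    rfl
  have h2 : (inc (restr M F') F'').comp k = Pool.Agent.helper46.FJ3.mp M F F' hF := by
    apply Pool.Agent.helper50.LT.artin_hom_ext
    rintro ⟨s, hs⟩
    rw [MonoidHom.comp_apply, hk, inc_gen, Pool.Agent.helper46.FJ3.mp_gen]
  have h3 : inc (restr M F') F'' (k x) = 1 := by
    have h4 := DFunLike.congr_fun h2 x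
    rw [MonoidHom.comp_apply] at h4
    rw [h4, hx']
  have h4 : k x = 1 := (injective_iff_map_eq_one _).1 (inc_inj (restr M F') F'') _ h3
  have h5 := DFunLike.congr_fun h1 x
  rw [MonoidHom.comp_apply, h4, map_one] at h5
  exact h5.symm

theorem restr_restr_P (hP : Closed P) {S : Type} (M : CoxeterMatrix S) (F0 : Finset S)
    (F : Finset F0) (F' : Finset S) (hF' : ∀ s : F0, s ∈ F → s.1 ∈ F')
    (h : P (Artin (restr M F'))) : P (Artin (restr (restr M F0) F)) := by
  obtain ⟨f, hf⟩ := restr_restr_hom M F0 F F' hF'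
  refine hP.inj f ?_ h
  rw [injective_iff_map_eq_one]
  intro x hx
  have h1 := hf x
  rw [hx, map_one] at h1
  have h2 := (injective_iff_map_eq_one _).1 (inc_inj' M F0) _ h1.symm
  exact (injective_iff_map_eq_one _).1 (inc_inj' (restr M F0) F) _ h2

end Pool.Agent.helper55.EV
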