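import Pool.Agent.helper55.EV.VlDefs

set_option autoImplicit false
set_option linter.unusedSectionVars false

/-!
# EAG-VL1: the machine respects the relations of the Artin group
-/

namespace Pool.Agent.helper55.EV

open Pool.Agent.helper36.LT (Artin gen alt artinRels)

section machine

variable {S : Type} [Fintype S] [DecidableEq S] (M : CoxeterMatrix S) (X : Set S)
  {K : Type} [Group K] (f : S → K)

/-- the simple reflections are different -/
theorem VL1_simple_inj {t t' : S}
    (h : M.toCoxeterSystem.simple t = M.toCoxeterSystem.simple t') : t = t' := by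
  by_contra hne
  have h1 : CxA.rho M.toCoxeterSystem (M.toCoxeterSystem.simple t) (CxA.al ℝ t) t
      = CxA.rho M.toCoxeterSystem (M.toCoxeterSystem.simple t') (CxA.al ℝ t) t := by rw [h]
  rw [CxA.rho_simple, CxA.rho_simple, CxA.sig_al_self, CxA.sig_al] at h1
  simp [CxA.al, hne] at h1
  norm_num at h1

/-- the letter which is written is unique -/
theorem out_uniq {w : M.Group} {s t t' : S} (h : Out M X w s t) (h' : Out M X w s t') : t = t' := by
  apply VL1_simple_inj M
  have e : M.toCoxeterSystem.simple t * w = M.toCoxeterSystem.simple t' * w :=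
    h.2.trans h'.2.symm
  exact mul_right_cancel e

theorem VL1_ne {a b : S} (hab : a ≠ b) (n : ℕ) (hn : 0 < n) (hM : M.M a b = 0 ∨ n < M.M a b) :
    M.toCoxeterSystem.wordProd (CxA.altw a b n) ≠ M.toCoxeterSystem.wordProd (CxA.altw b a n) := by
  intro h
  obtain ⟨k, rfl⟩ : ∃ k, n = k + 1 := ⟨n - 1, by omega⟩
  have h1 : M.toCoxeterSystem.wordProd (CxA.altw b a (k + 1 + 1))
      = M.toCoxeterSystem.wordProd (CxA.altw a b k) := by
    rw [CxA.altw_succ b a (k + 1), M.toCoxeterSystem.wordProd_cons, h, CxA.altw_succ b a k,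
      M.toCoxeterSystem.wordProd_cons, ← mul_assoc, M.toCoxeterSystem.simple_mul_simple_self,
      one_mul]
  have hsymm : M.M b a = M.M a b := M.symmetric b a
  have h2 : M.toCoxeterSystem.IsReduced (CxA.altw b a (k + 1 + 1)) := by
    apply CxA.isReduced_altw M.toCoxeterSystem hab.symm
    show M.M b a = 0 ∨ k + 1 + 1 ≤ M.M b a
    omega
  have h3 := h2.eq
  rw [h1, CxA.length_altw] at h3
  have h4 := M.toCoxeterSystem.length_wordProd_le (CxA.altw a b k)
  rw [CxA.length_altw] at h4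
  omega

theorem VL1_conj {d : M.Group} {s s' t u : S}
    (h : M.toCoxeterSystem.simple t * d = d * M.toCoxeterSystem.simple s)
    (h' : M.toCoxeterSystem.simple u * d = d * M.toCoxeterSystem.simple s') (n : ℕ) :
    M.toCoxeterSystem.wordProd (CxA.altw t u n) * d
        = d * M.toCoxeterSystem.wordProd (CxA.altw s s' n) ∧
      M.toCoxeterSystem.wordProd (CxA.altw u t n) * d
        = d * M.toCoxeterSystem.wordProd (CxA.altw s' s n) := by
  induction n with
  | zero => simp
  | succ n ih =>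
    constructor
    · rw [CxA.altw_succ, CxA.altw_succ, M.toCoxeterSystem.wordProd_cons,
        M.toCoxeterSystem.wordProd_cons, mul_assoc, ih.2, ← mul_assoc, h, mul_assoc]
    · rw [CxA.altw_succ, CxA.altw_succ, M.toCoxeterSystem.wordProd_cons,
        M.toCoxeterSystem.wordProd_cons, mul_assoc, ih.1, ← mul_assoc, h', mul_assoc]

theorem VL1_le {d : M.Group} {s s' t u : S} (hs : s ≠ s')
    (h : M.toCoxeterSystem.simple t * d = d * M.toCoxeterSystem.simple s)
    (h' : M.toCoxeterSystem.simple u * d = d * M.toCoxeterSystem.simple s')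
    (hm : M.M s s' ≠ 0) : t ≠ u ∧ M.M t u ≠ 0 ∧ M.M t u ≤ M.M s s' := by
  have htu : t ≠ u := by
    rintro rfl
    apply hs
    apply VL1_simple_inj M
    exact mul_left_cancel (h.symm.trans h')
  have hc := VL1_conj M h h' (M.M s s')
  have hb : M.toCoxeterSystem.wordProd (CxA.altw s s' (M.M s s'))
      = M.toCoxeterSystem.wordProd (CxA.altw s' s (M.M s s')) :=
    CxA.wordProd_altw_braid M.toCoxeterSystem s s'
  have he : M.toCoxeterSystem.wordProd (CxA.altw t u (M.M s s'))
      = M.toCoxeterSystem.wordProd (CxA.altw u t (M.M s s')) := by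
    apply mul_right_cancel (b := d)
    rw [hc.1, hc.2, hb]
  refine ⟨htu, ?_, ?_⟩
  · intro h0
    exact VL1_ne M htu _ (Nat.pos_of_ne_zero hm) (Or.inl h0) he
  · by_contra hlt
    exact VL1_ne M htu _ (Nat.pos_of_ne_zero hm) (Or.inr (by omega)) he

/-- the labels agree -/
theorem VL1_label {d : M.Group} {s s' t u : S} (hs : s ≠ s')
    (h : M.toCoxeterSystem.simple t * d = d * M.toCoxeterSystem.simple s)
    (h' : M.toCoxeterSystem.simple u * d = d * M.toCoxeterSystem.simple s')
    (hm : M.M s s' ≠ 0) : M.M t u = M.M s s' := by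
  obtain ⟨htu, h0, hle⟩ := VL1_le M hs h h' hm
  have h1 : M.toCoxeterSystem.simple s * d⁻¹ = d⁻¹ * M.toCoxeterSystem.simple t := by
    rw [eq_inv_mul_iff_mul_eq, ← mul_assoc, ← h, mul_inv_cancel_right]
  have h2 : M.toCoxeterSystem.simple s' * d⁻¹ = d⁻¹ * M.toCoxeterSystem.simple u := by
    rw [eq_inv_mul_iff_mul_eq, ← mul_assoc, ← h', mul_inv_cancel_right]
  obtain ⟨_, _, hle'⟩ := VL1_le M htu h1 h2 h0
  exact le_antisymm hle hle'

theorem VL1_step {w : M.Group} (hw : ∀ t ∈ X, ¬ M.toCoxeterSystem.IsLeftDescent w t) {s t : S}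
    (h : Out M X w s t) (g : K) :
    vstep M X f (⟨w, hw⟩, g) s = (⟨w, hw⟩, g * f t) := by
  have h0 : ∃ t, Out M X w s t := ⟨t, h⟩
  have e : h0.choose = t := out_uniq M X h0.choose_spec h
  have h1 : vstep M X f (⟨w, hw⟩, g) s = (⟨w, hw⟩, g * f h0.choose) := by
    unfold vstep
    exact dif_pos h0
  rw [h1, e]

theorem VL1_step_move {w : M.Group} (hw : ∀ t ∈ X, ¬ M.toCoxeterSystem.IsLeftDescent w t)
    {s : S} (h : ¬ ∃ t, Out M X w s t) (g : K) :
    vstep M X f (⟨w, hw⟩, g) s
      = (⟨w * M.toCoxeterSystem.simple s, ered_mul M X hw h⟩, g) := by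
  unfold vstep
  exact dif_neg h

theorem VL1_stay {d : M.Group} (hd : ∀ t ∈ X, ¬ M.toCoxeterSystem.IsLeftDescent d t)
    {s s' t u : S} (h : Out M X d s t) (h' : Out M X d s' u) (n : ℕ) : ∀ g : K,
    (CxA.altw s s' n).foldl (vstep M X f) (⟨d, hd⟩, g) = (⟨d, hd⟩, g * alt (f t) (f u) n) ∧
    (CxA.altw s' s n).foldl (vstep M X f) (⟨d, hd⟩, g) = (⟨d, hd⟩, g * alt (f u) (f t) n) := by
  induction n with
  | zero =>
    intro g
    constructor
    · show _ = (_, g * 1)
      rw [mul_one]; rfl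
    · show _ = (_, g * 1)
      rw [mul_one]; rfl
  | succ n ih =>
    intro g
    constructor
    · rw [CxA.altw_succ, List.foldl_cons, VL1_step M X f hd h, (ih _).2]
      show _ = (_, g * (f t * alt (f u) (f t) n))
      rw [mul_assoc]
    · rw [CxA.altw_succ, List.foldl_cons, VL1_step M X f hd h', (ih _).1]
      show _ = (_, g * (f u * alt (f t) (f u) n))
      rw [mul_assoc]

/-- both letters are written -/
theorem VL1_both (hf : ∀ t ∈ X, ∀ t' ∈ X,
      alt (f t) (f t') (M.M t t') = alt (f t') (f t) (M.M t t'))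
    {d : M.Group} (hd : ∀ t ∈ X, ¬ M.toCoxeterSystem.IsLeftDescent d t)
    {s s' t u : S} (hs : s ≠ s') (hm : M.M s s' ≠ 0) (h : Out M X d s t) (h' : Out M X d s' u)
    (g : K) :
    (CxA.altw s s' (M.M s s')).foldl (vstep M X f) (⟨d, hd⟩, g) =
      (CxA.altw s' s (M.M s s')).foldl (vstep M X f) (⟨d, hd⟩, g) := by
  rw [(VL1_stay M X f hd h h' _ g).1, (VL1_stay M X f hd h h' _ g).2]
  have hl := VL1_label M hs h.2 h'.2 hm
  have := hf t h.1 u h'.1
  rw [hl] at this
  rw [this]


/-! ### The dihedral subgroup -/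

/-- every word in two letters is equal to a short alternating word -/
theorem VL1_dih {s s' : S} (l : List S) (hl : ∀ x ∈ l, x = s ∨ x = s')
    (hm : M.M s s' ≠ 0) :
    ∃ (c c' : S) (i : ℕ), ((c = s ∧ c' = s') ∨ (c = s' ∧ c' = s)) ∧ i ≤ M.M s s' ∧
      M.toCoxeterSystem.wordProd l = M.toCoxeterSystem.wordProd (CxA.altw c c' i) := by
  induction l with
  | nil => exact ⟨s, s', 0, Or.inl ⟨rfl, rfl⟩, Nat.zero_le _, rfl⟩
  | cons x l ih =>
    obtain ⟨c, c', i, hc, hi, e⟩ := ih (fun y hy => hl y (List.mem_cons_of_mem _ hy))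
    have hx := hl x List.mem_cons_self
    have hb : M.toCoxeterSystem.wordProd (CxA.altw s s' (M.M s s'))
        = M.toCoxeterSystem.wordProd (CxA.altw s' s (M.M s s')) :=
      CxA.wordProd_altw_braid M.toCoxeterSystem s s'
    have hb' : M.toCoxeterSystem.wordProd (CxA.altw c c' (M.M s s'))
        = M.toCoxeterSystem.wordProd (CxA.altw c' c (M.M s s')) := by
      rcases hc with ⟨rfl, rfl⟩ | ⟨rfl, rfl⟩
      · exact hb
      · exact hb.symm
    have hc' : (c' = s ∧ c = s') ∨ (c' = s' ∧ c = s) := by tauto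
    have hxc : x = c ∨ x = c' := by
      rcases hc with ⟨rfl, rfl⟩ | ⟨rfl, rfl⟩ <;> tauto
    -- cancel a letter on the left
    have cancel : ∀ (b b' : S) (j : ℕ), M.toCoxeterSystem.simple b *
        M.toCoxeterSystem.wordProd (CxA.altw b b' (j + 1))
          = M.toCoxeterSystem.wordProd (CxA.altw b' b j) := by
      intro b b' j
      rw [CxA.altw_succ, M.toCoxeterSystem.wordProd_cons, ← mul_assoc,
        M.toCoxeterSystem.simple_mul_simple_self, one_mul]
    rw [M.toCoxeterSystem.wordProd_cons, e]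
    rcases hxc with rfl | rfl
    · rcases i with _ | i
      · refine ⟨x, c', 1, hc, by omega, ?_⟩
        rw [CxA.altw_succ, M.toCoxeterSystem.wordProd_cons]
        rfl
      · exact ⟨c', x, i, hc', by omega, cancel _ _ _⟩
    · by_cases him : i = M.M s s'
      · obtain ⟨j, hj⟩ : ∃ j, M.M s s' = j + 1 := ⟨M.M s s' - 1, by omega⟩
        refine ⟨c, x, j, hc, by omega, ?_⟩
        rw [him, hb', hj, cancel]
      · refine ⟨x, c, i + 1, hc', by omega, ?_⟩
        rw [CxA.altw_succ, M.toCoxeterSystem.wordProd_cons]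

/-- the minimal element of a coset -/
theorem VL1_min (s s' : S) (n : ℕ) : ∀ w : M.Group, M.toCoxeterSystem.length w = n →
    ∃ (d : M.Group) (l : List S), (∀ x ∈ l, x = s ∨ x = s') ∧
      w = d * M.toCoxeterSystem.wordProd l ∧ ¬ M.toCoxeterSystem.IsRightDescent d s ∧
      ¬ M.toCoxeterSystem.IsRightDescent d s' := by
  induction n using Nat.strong_induction_on with
  | _ n ih =>
    intro w hw
    have hstep : ∀ x : S, (x = s ∨ x = s') → M.toCoxeterSystem.IsRightDescent w x →
        ∃ (d : M.Group) (l : List S), (∀ x ∈ l, x = s ∨ x = s') ∧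
          w = d * M.toCoxeterSystem.wordProd l ∧ ¬ M.toCoxeterSystem.IsRightDescent d s ∧
          ¬ M.toCoxeterSystem.IsRightDescent d s' := by
      intro x hx hd
      have hlt : M.toCoxeterSystem.length (w * M.toCoxeterSystem.simple x) < n := by
        rw [← hw]
        exact hd
      obtain ⟨d, l, hl, e, h1, h2⟩ := ih _ hlt _ rfl
      refine ⟨d, l ++ [x], ?_, ?_, h1, h2⟩
      · intro y hy
        rcases List.mem_append.mp hy with hy | hy
        · exact hl y hy
        · rw [List.mem_singleton.mp hy]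
          exact hx
      · rw [M.toCoxeterSystem.wordProd_append, M.toCoxeterSystem.wordProd_singleton, ← mul_assoc,
          ← e, M.toCoxeterSystem.simple_mul_simple_cancel_right]
    by_cases h1 : M.toCoxeterSystem.IsRightDescent w s
    · exact hstep s (Or.inl rfl) h1
    · by_cases h2 : M.toCoxeterSystem.IsRightDescent w s'
      · exact hstep s' (Or.inr rfl) h2
      · exact ⟨w, [], by simp, by simp, h1, h2⟩

theorem VL1_len {s s' c c' : S} (hs : s ≠ s') (hc : (c = s ∧ c' = s') ∨ (c = s' ∧ c' = s))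
    {d : M.Group} (h1 : ¬ M.toCoxeterSystem.IsRightDescent d s)
    (h2 : ¬ M.toCoxeterSystem.IsRightDescent d s') {i : ℕ} (hi : i ≤ M.M s s') :
    M.toCoxeterSystem.length (d * M.toCoxeterSystem.wordProd (CxA.altw c c' i))
      = M.toCoxeterSystem.length d + i := by
  have hsymm : M.M s' s = M.M s s' := M.symmetric s' s
  rcases hc with ⟨e1, e2⟩ | ⟨e1, e2⟩
  · rw [e1, e2]
    exact CxA.length_mul_altw M.toCoxeterSystem hs h1 h2 i (Or.inr hi)
  · rw [e1, e2]
    refine CxA.length_mul_altw M.toCoxeterSystem hs.symm h2 h1 i (Or.inr ?_)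
    show i ≤ M.M s' s
    omega

/-- claim A -/
theorem VL1_A {s s' : S} (hs : s ≠ s') (hm : M.M s s' ≠ 0) {d : M.Group}
    (h1 : ¬ M.toCoxeterSystem.IsRightDescent d s) (h2 : ¬ M.toCoxeterSystem.IsRightDescent d s')
    {l : List S} (hl : ∀ x ∈ l, x = s ∨ x = s') {r t : S} (hr : r = s ∨ r = s')
    (h : M.toCoxeterSystem.simple t * (d * M.toCoxeterSystem.wordProd l)
      = d * M.toCoxeterSystem.wordProd l * M.toCoxeterSystem.simple r) :
    M.toCoxeterSystem.simple t * d = d * M.toCoxeterSystem.simple s ∨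
      M.toCoxeterSystem.simple t * d = d * M.toCoxeterSystem.simple s' := by
  have hl2 : ∀ x ∈ l ++ [r] ++ l.reverse, x = s ∨ x = s' := by
    intro x hx
    rw [List.mem_append, List.mem_append, List.mem_singleton, List.mem_reverse] at hx
    rcases hx with (hx | rfl) | hx
    · exact hl x hx
    · exact hr
    · exact hl x hx
  obtain ⟨c, c', i, hc, hi, e⟩ := VL1_dih M _ hl2 hm
  have e2 : M.toCoxeterSystem.simple t * d
      = d * M.toCoxeterSystem.wordProd (CxA.altw c c' i) := by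
    rw [← e, M.toCoxeterSystem.wordProd_append, M.toCoxeterSystem.wordProd_append,
      M.toCoxeterSystem.wordProd_singleton, M.toCoxeterSystem.wordProd_reverse, ← mul_assoc,
      ← mul_assoc, ← h, ← mul_assoc, mul_inv_cancel_right]
  have hlen := VL1_len M hs hc h1 h2 hi
  rw [← e2] at hlen
  have hi1 : i = 1 := by
    rcases M.toCoxeterSystem.length_simple_mul d t with h3 | h3 <;> omega
  rw [hi1, CxA.altw_succ, CxA.altw_zero, M.toCoxeterSystem.wordProd_singleton] at e2
  rcases hc with ⟨rfl, rfl⟩ | ⟨rfl, rfl⟩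
  · exact Or.inl e2
  · exact Or.inr e2

/-- claim B -/
theorem VL1_B {s s' c c' : S} (hs : s ≠ s') (hc : (c = s ∧ c' = s') ∨ (c = s' ∧ c' = s))
    {d : M.Group} (h1 : ¬ M.toCoxeterSystem.IsRightDescent d s)
    (h2 : ¬ M.toCoxeterSystem.IsRightDescent d s') {i : ℕ} (hi : i ≤ M.M s s') {t : S}
    (ht : M.toCoxeterSystem.simple t * d = d * M.toCoxeterSystem.simple c)
    (hd : ¬ M.toCoxeterSystem.IsLeftDescent
      (d * M.toCoxeterSystem.wordProd (CxA.altw c c' i)) t) : i = 0 := by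
  by_contra hi0
  obtain ⟨j, rfl⟩ : ∃ j, i = j + 1 := ⟨i - 1, by omega⟩
  apply hd
  have e : M.toCoxeterSystem.simple t * (d * M.toCoxeterSystem.wordProd (CxA.altw c c' (j + 1)))
      = d * M.toCoxeterSystem.wordProd (CxA.altw c' c j) := by
    rw [CxA.altw_succ, M.toCoxeterSystem.wordProd_cons, ← mul_assoc, ht, mul_assoc, ← mul_assoc
      (M.toCoxeterSystem.simple c), M.toCoxeterSystem.simple_mul_simple_self, one_mul]
  unfold CoxeterSystem.IsLeftDescent
  have hc' : (c' = s ∧ c = s') ∨ (c' = s' ∧ c = s) := by tauto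
  rw [e, VL1_len M hs hc' h1 h2 (i := j) (by omega), VL1_len M hs hc h1 h2 hi]
  omega

/-! ### Steps of the machine -/

theorem VL1_write (p : ERed M X × K) {s t : S} (h : Out M X p.1.1 s t) :
    (vstep M X f p s).1.1 = p.1.1 ∧ (vstep M X f p s).2 = p.2 * f t := by
  obtain ⟨⟨w, hw⟩, g⟩ := p
  rw [VL1_step M X f hw h g]
  exact ⟨rfl, rfl⟩

theorem VL1_move (p : ERed M X × K) {s : S} (h : ¬ ∃ t, Out M X p.1.1 s t) :
    (vstep M X f p s).1.1 = p.1.1 * M.toCoxeterSystem.simple s ∧ (vstep M X f p s).2 = p.2 := by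
  obtain ⟨⟨w, hw⟩, g⟩ := p
  rw [VL1_step_move M X f hw h g]
  exact ⟨rfl, rfl⟩

theorem VL1_ext {p q : ERed M X × K} (h : p.1.1 = q.1.1) (h' : p.2 = q.2) : p = q :=
  Prod.ext (Subtype.ext h) h'

/-- no letter is written -/
theorem VL1_free {s s' : S} {d : M.Group}
    (hno : ∀ (l : List S) (r : S), (∀ x ∈ l, x = s ∨ x = s') → (r = s ∨ r = s') →
      ¬ ∃ t, Out M X (d * M.toCoxeterSystem.wordProd l) r t) (l' : List S) :
    ∀ (l : List S) (p : ERed M X × K), (∀ x ∈ l, x = s ∨ x = s') → (∀ x ∈ l', x = s ∨ x = s') →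
      p.1.1 = d * M.toCoxeterSystem.wordProd l →
      (l'.foldl (vstep M X f) p).1.1 = p.1.1 * M.toCoxeterSystem.wordProd l' ∧
        (l'.foldl (vstep M X f) p).2 = p.2 := by
  induction l' with
  | nil =>
    intro l p _ _ _
    exact ⟨by simp, rfl⟩
  | cons x l' ih =>
    intro l p hl hl' hp
    have hx := hl' x List.mem_cons_self
    have h0 : ¬ ∃ t, Out M X p.1.1 x t := by
      rw [hp]
      exact hno l x hl hx
    obtain ⟨e1, e2⟩ := VL1_move M X f p h0
    obtain ⟨e3, e4⟩ := ih (l ++ [x]) (vstep M X f p x) (by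
      intro y hy
      rcases List.mem_append.mp hy with hy | hy
      · exact hl y hy
      · rw [List.mem_singleton.mp hy]; exact hx) (fun y hy => hl' y (List.mem_cons_of_mem _ hy))
      (by rw [e1, hp, M.toCoxeterSystem.wordProd_append, M.toCoxeterSystem.wordProd_singleton,
        mul_assoc])
    rw [List.foldl_cons]
    refine ⟨?_, ?_⟩
    · rw [e3, e1, M.toCoxeterSystem.wordProd_cons, mul_assoc]
    · rw [e4, e2]

theorem VL1_altw_mem {a b x : S} {n : ℕ} (h : x ∈ CxA.altw a b n) : x = a ∨ x = b := by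
  induction n generalizing a b with
  | zero => simp at h
  | succ n ih =>
    rw [CxA.altw_succ, List.mem_cons] at h
    rcases h with h | h
    · exact Or.inl h
    · exact (ih h).symm

theorem VL1_nxt_even (a b : S) (k : ℕ) : CxA.nxt a b (k + k) = a := by
  induction k with
  | zero => rfl
  | succ k ih =>
    have : k + 1 + (k + 1) = (k + k) + 1 + 1 := by omega
    rw [this, CxA.nxt_succ, CxA.nxt_succ, ih]

/-! ### One letter -/

section one

variable {r0 r1 : S} {d : M.Group} {t : S}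

theorem VL1_up (hno : ∀ j, j + 1 < M.M r1 r0 →
      ¬ ∃ t', Out M X (d * M.toCoxeterSystem.wordProd (CxA.altw r1 r0 j)) (CxA.nxt r1 r0 j) t')
    (n : ℕ) : ∀ (j : ℕ) (p : ERed M X × K), j + n < M.M r1 r0 →
      p.1.1 = d * M.toCoxeterSystem.wordProd (CxA.altw r1 r0 j) →
      ((CxA.altw (CxA.nxt r1 r0 j) (CxA.nxt r0 r1 j) n).foldl (vstep M X f) p).1.1
          = d * M.toCoxeterSystem.wordProd (CxA.altw r1 r0 (j + n)) ∧
        ((CxA.altw (CxA.nxt r1 r0 j) (CxA.nxt r0 r1 j) n).foldl (vstep M X f) p).2 = p.2 := by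
  induction n with
  | zero =>
    intro j p _ hp
    exact ⟨hp, rfl⟩
  | succ n ih =>
    intro j p hj hp
    have h0 : ¬ ∃ t', Out M X p.1.1 (CxA.nxt r1 r0 j) t' := by
      rw [hp]
      exact hno j (by omega)
    obtain ⟨e1, e2⟩ := VL1_move M X f p h0
    have hp' : (vstep M X f p (CxA.nxt r1 r0 j)).1.1
        = d * M.toCoxeterSystem.wordProd (CxA.altw r1 r0 (j + 1)) := by
      rw [e1, hp, CxA.altw_concat, M.toCoxeterSystem.wordProd_append,
        M.toCoxeterSystem.wordProd_singleton, mul_assoc]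
    obtain ⟨e3, e4⟩ := ih (j + 1) _ (by omega) hp'
    rw [CxA.altw_succ, List.foldl_cons]
    rw [CxA.nxt_succ, CxA.nxt_succ] at e3 e4
    refine ⟨?_, ?_⟩
    · rw [e3]
      congr 3
      omega
    · rw [e4, e2]

theorem VL1_down (hno : ∀ j, j + 1 < M.M r1 r0 →
      ¬ ∃ t', Out M X (d * M.toCoxeterSystem.wordProd (CxA.altw r1 r0 (j + 1)))
        (CxA.nxt r1 r0 j) t')
    (n : ℕ) : ∀ (j : ℕ) (p : ERed M X × K), j + n < M.M r1 r0 →
      p.1.1 = d * M.toCoxeterSystem.wordProd (CxA.altw r1 r0 (j + n)) →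
      ((CxA.altw (CxA.nxt r0 r1 (j + n)) (CxA.nxt r1 r0 (j + n)) n).foldl (vstep M X f) p).1.1
          = d * M.toCoxeterSystem.wordProd (CxA.altw r1 r0 j) ∧
        ((CxA.altw (CxA.nxt r0 r1 (j + n)) (CxA.nxt r1 r0 (j + n)) n).foldl
          (vstep M X f) p).2 = p.2 := by
  induction n with
  | zero =>
    intro j p _ hp
    exact ⟨hp, rfl⟩
  | succ n ih =>
    intro j p hj hp
    have e0 : CxA.nxt r0 r1 (j + (n + 1)) = CxA.nxt r1 r0 (j + n) := by
      rw [← add_assoc, CxA.nxt_succ]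
    have e0' : CxA.nxt r1 r0 (j + (n + 1)) = CxA.nxt r0 r1 (j + n) := by
      rw [← add_assoc, CxA.nxt_succ]
    have h0 : ¬ ∃ t', Out M X p.1.1 (CxA.nxt r1 r0 (j + n)) t' := by
      rw [hp, ← add_assoc]
      exact hno (j + n) (by omega)
    obtain ⟨e1, e2⟩ := VL1_move M X f p h0
    have hp' : (vstep M X f p (CxA.nxt r1 r0 (j + n))).1.1
        = d * M.toCoxeterSystem.wordProd (CxA.altw r1 r0 (j + n)) := by
      rw [e1, hp, ← add_assoc, CxA.altw_concat, M.toCoxeterSystem.wordProd_append,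
        M.toCoxeterSystem.wordProd_singleton, mul_assoc, mul_assoc,
        M.toCoxeterSystem.simple_mul_simple_self, mul_one]
    obtain ⟨e3, e4⟩ := ih j _ (by omega) hp'
    rw [e0, e0', CxA.altw_succ, List.foldl_cons]
    exact ⟨e3, e4.trans e2⟩

/-- exactly one letter of the pair can be written at the minimal element of the coset -/
theorem VL1_one (hs : r1 ≠ r0) (hm : M.M r1 r0 ≠ 0)
    (h1 : ¬ M.toCoxeterSystem.IsRightDescent d r1) (h2 : ¬ M.toCoxeterSystem.IsRightDescent d r0)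
    (ht : t ∈ X) (htd : M.toCoxeterSystem.simple t * d = d * M.toCoxeterSystem.simple r0)
    (hr1 : ∀ t' ∈ X, M.toCoxeterSystem.simple t' * d ≠ d * M.toCoxeterSystem.simple r1)
    (p : ERed M X × K) (j : ℕ) (hj : j < M.M r1 r0)
    (hp : p.1.1 = d * M.toCoxeterSystem.wordProd (CxA.altw r1 r0 j)) :
    (CxA.altw r1 r0 (M.M r1 r0)).foldl (vstep M X f) p =
      (CxA.altw r0 r1 (M.M r1 r0)).foldl (vstep M X f) p := by
  set m := M.M r1 r0 with hmdef
  have hbr : M.toCoxeterSystem.wordProd (CxA.altw r1 r0 m)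
      = M.toCoxeterSystem.wordProd (CxA.altw r0 r1 m) :=
    CxA.wordProd_altw_braid M.toCoxeterSystem r1 r0
  have hmem : ∀ i, ∀ x ∈ CxA.altw r1 r0 i, x = r1 ∨ x = r0 := fun i x hx => VL1_altw_mem hx
  have hnxt : ∀ i, CxA.nxt r1 r0 i = r1 ∨ CxA.nxt r1 r0 i = r0 := by
    intro i
    rcases CxA.nxt_cases r1 r0 i with h | h
    · exact Or.inl h.1
    · exact Or.inr h.1
  -- only `t` can be written
  have huniq : ∀ (i : ℕ) (r t' : S), (r = r1 ∨ r = r0) →
      Out M X (d * M.toCoxeterSystem.wordProd (CxA.altw r1 r0 i)) r t' → t' = t := by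
    intro i r t' hr hO
    rcases VL1_A M hs hm h1 h2 (hmem i) hr hO.2 with h | h
    · exact absurd h (hr1 t' hO.1)
    · apply VL1_simple_inj M
      exact mul_right_cancel (h.trans htd.symm)
  have htP : ∀ i, M.toCoxeterSystem.simple t *
      (d * M.toCoxeterSystem.wordProd (CxA.altw r1 r0 i))
        = d * M.toCoxeterSystem.wordProd (CxA.altw r0 r1 (i + 1)) := by
    intro i
    rw [← mul_assoc, htd, CxA.altw_succ, M.toCoxeterSystem.wordProd_cons, mul_assoc]
  have hPs : ∀ i, d * M.toCoxeterSystem.wordProd (CxA.altw r1 r0 i)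
      * M.toCoxeterSystem.simple (CxA.nxt r1 r0 i)
        = d * M.toCoxeterSystem.wordProd (CxA.altw r1 r0 (i + 1)) := by
    intro i
    rw [CxA.altw_concat, M.toCoxeterSystem.wordProd_append,
      M.toCoxeterSystem.wordProd_singleton, mul_assoc]
  have hup : ∀ i, i + 1 < m →
      ¬ ∃ t', Out M X (d * M.toCoxeterSystem.wordProd (CxA.altw r1 r0 i))
        (CxA.nxt r1 r0 i) t' := by
    rintro i hi ⟨t', hO⟩
    have e := huniq i _ t' (hnxt i) hO
    have h3 := hO.2
    rw [e, htP, hPs] at h3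
    have h4 := mul_left_cancel h3
    exact VL1_ne M hs (i + 1) (by omega) (Or.inr hi) h4.symm
  have hdown : ∀ i, i + 1 < m →
      ¬ ∃ t', Out M X (d * M.toCoxeterSystem.wordProd (CxA.altw r1 r0 (i + 1)))
        (CxA.nxt r1 r0 i) t' := by
    rintro i hi ⟨t', hO⟩
    have e := huniq (i + 1) _ t' (hnxt i) hO
    have h3 := hO.2
    rw [e, htP, ← hPs, mul_assoc, M.toCoxeterSystem.simple_mul_simple_self, mul_one] at h3
    have h4 := VL1_len M hs (Or.inr ⟨rfl, rfl⟩) h1 h2 (i := i + 1 + 1) (by omega)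
    have h5 := VL1_len M hs (Or.inl ⟨rfl, rfl⟩) h1 h2 (i := i) (by omega)
    rw [h3, h5] at h4
    omega
  have hm1 : m - 1 + 1 = m := by omega
  have htop : Out M X (d * M.toCoxeterSystem.wordProd (CxA.altw r1 r0 (m - 1)))
      (CxA.nxt r1 r0 (m - 1)) t := by
    refine ⟨ht, ?_⟩
    rw [htP, hPs, hm1, hbr]
  have hbot : Out M X (d * M.toCoxeterSystem.wordProd (CxA.altw r1 r0 0)) r0 t := by
    refine ⟨ht, ?_⟩
    rw [CxA.altw_zero, M.toCoxeterSystem.wordProd_nil, mul_one]
    exact htd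
  -- the path which starts upwards
  have hU : ∀ q : ERed M X × K,
      q.1.1 = d * M.toCoxeterSystem.wordProd (CxA.altw r1 r0 j) →
      ((CxA.altw (CxA.nxt r1 r0 j) (CxA.nxt r0 r1 j) m).foldl (vstep M X f) q).1.1
          = d * M.toCoxeterSystem.wordProd (CxA.altw r1 r0 (m - 1 - j)) ∧
        ((CxA.altw (CxA.nxt r1 r0 j) (CxA.nxt r0 r1 j) m).foldl (vstep M X f) q).2
          = q.2 * f t := by
    intro q hq
    have hmm : m = (m - 1 - j) + (j + 1) := by omega
    have hw : CxA.altw (CxA.nxt r1 r0 j) (CxA.nxt r0 r1 j) m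
        = CxA.altw (CxA.nxt r1 r0 j) (CxA.nxt r0 r1 j) (m - 1 - j) ++
          (CxA.nxt r1 r0 (m - 1) :: CxA.altw (CxA.nxt r0 r1 (m - 1)) (CxA.nxt r1 r0 (m - 1)) j) := by
      conv_lhs => rw [hmm]
      rw [CxA.altw_add, CxA.nxt_nxt, CxA.nxt_nxt, show j + (m - 1 - j) = m - 1 by omega,
        CxA.altw_succ]
    obtain ⟨a1, a2⟩ := VL1_up M X f hup (m - 1 - j) j q (by omega) hq
    rw [show j + (m - 1 - j) = m - 1 by omega] at a1
    rw [hw, List.foldl_append, List.foldl_cons]
    set q1 := (CxA.altw (CxA.nxt r1 r0 j) (CxA.nxt r0 r1 j) (m - 1 - j)).foldl (vstep M X f) q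
      with hq1
    have hO : Out M X q1.1.1 (CxA.nxt r1 r0 (m - 1)) t := by
      rw [a1]
      exact htop
    obtain ⟨b1, b2⟩ := VL1_write M X f q1 hO
    have b1' := b1.trans a1
    have hmj : m - 1 = (m - 1 - j) + j := by omega
    have hd := VL1_down M X f hdown j (m - 1 - j) (vstep M X f q1 (CxA.nxt r1 r0 (m - 1)))
      (by omega) (by rw [← hmj]; exact b1')
    rw [← hmj] at hd
    exact ⟨hd.1, hd.2.trans (b2.trans (by rw [a2]))⟩
  -- the path which starts downwards
  have hD : ∀ q : ERed M X × K,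
      q.1.1 = d * M.toCoxeterSystem.wordProd (CxA.altw r1 r0 j) →
      ((CxA.altw (CxA.nxt r0 r1 j) (CxA.nxt r1 r0 j) m).foldl (vstep M X f) q).1.1
          = d * M.toCoxeterSystem.wordProd (CxA.altw r1 r0 (m - 1 - j)) ∧
        ((CxA.altw (CxA.nxt r0 r1 j) (CxA.nxt r1 r0 j) m).foldl (vstep M X f) q).2
          = q.2 * f t := by
    intro q hq
    have hmm : m = j + ((m - 1 - j) + 1) := by omega
    have hw : CxA.altw (CxA.nxt r0 r1 j) (CxA.nxt r1 r0 j) m
        = CxA.altw (CxA.nxt r0 r1 j) (CxA.nxt r1 r0 j) j ++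
          (r0 :: CxA.altw r1 r0 (m - 1 - j)) := by
      conv_lhs => rw [hmm]
      rw [CxA.altw_add, CxA.nxt_nxt, CxA.nxt_nxt, VL1_nxt_even, VL1_nxt_even, CxA.altw_succ]
    have hd := VL1_down M X f hdown j 0 q (by omega) (by rw [Nat.zero_add]; exact hq)
    rw [Nat.zero_add] at hd
    obtain ⟨a1, a2⟩ := hd
    rw [hw, List.foldl_append, List.foldl_cons]
    set q1 := (CxA.altw (CxA.nxt r0 r1 j) (CxA.nxt r1 r0 j) j).foldl (vstep M X f) q with hq1
    have hO : Out M X q1.1.1 r0 t := by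
      rw [a1]
      exact hbot
    obtain ⟨b1, b2⟩ := VL1_write M X f q1 hO
    have b1' := b1.trans a1
    have hu := VL1_up M X f hup (m - 1 - j) 0 (vstep M X f q1 r0) (by omega) b1'
    rw [Nat.zero_add] at hu
    exact ⟨hu.1, hu.2.trans (b2.trans (by rw [a2]))⟩
  have key : (CxA.altw (CxA.nxt r1 r0 j) (CxA.nxt r0 r1 j) m).foldl (vstep M X f) p
      = (CxA.altw (CxA.nxt r0 r1 j) (CxA.nxt r1 r0 j) m).foldl (vstep M X f) p :=
    VL1_ext M X ((hU p hp).1.trans (hD p hp).1.symm) ((hU p hp).2.trans (hD p hp).2.symm)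
  rcases CxA.nxt_cases r1 r0 j with h | h
  · rw [h.1, h.2] at key
    exact key
  · rw [h.1, h.2] at key
    exact key.symm

end one

/-- the two sides of a relation act in the same way -/
theorem run_braid (hf : ∀ t ∈ X, ∀ t' ∈ X,
      alt (f t) (f t') (M.M t t') = alt (f t') (f t) (M.M t t'))
    (s s' : S) (hm : M.M s s' ≠ 0) (p : ERed M X × K) :
    (CxA.altw s s' (M.M s s')).foldl (vstep M X f) p =
      (CxA.altw s' s (M.M s s')).foldl (vstep M X f) p := by
  by_cases hs : s = s'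
  · rw [hs]
  obtain ⟨d, l, hl, hw, h1, h2⟩ := VL1_min M s s' _ p.1.1 rfl
  have hbr : M.toCoxeterSystem.wordProd (CxA.altw s s' (M.M s s'))
      = M.toCoxeterSystem.wordProd (CxA.altw s' s (M.M s s')) :=
    CxA.wordProd_altw_braid M.toCoxeterSystem s s'
  have hsymm : M.M s' s = M.M s s' := M.symmetric s' s
  obtain ⟨c, c', i, hc, hi, e⟩ := VL1_dih M l hl hm
  have hw' : p.1.1 = d * M.toCoxeterSystem.wordProd (CxA.altw c c' i) := by rw [hw, e]
  -- the state cannot be `d r0 ...` if `r0` is written in `d`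
  have hB : ∀ (r0 t : S), t ∈ X → M.toCoxeterSystem.simple t * d = d * M.toCoxeterSystem.simple r0 →
      c = r0 → i = 0 := by
    rintro r0 t ht htd rfl
    refine VL1_B M hs hc h1 h2 hi htd ?_
    rw [← hw']
    exact p.1.2 t ht
  have hB' : ∀ (r0 t : S), t ∈ X → M.toCoxeterSystem.simple t * d = d * M.toCoxeterSystem.simple r0 →
      c' = r0 → i < M.M s s' := by
    rintro r0 t ht htd rfl
    by_contra hlt
    have him : i = M.M s s' := by omega
    have hc2 : (c' = s ∧ c = s') ∨ (c' = s' ∧ c = s) := by tauto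
    have e3 : M.toCoxeterSystem.wordProd (CxA.altw c c' (M.M s s'))
        = M.toCoxeterSystem.wordProd (CxA.altw c' c (M.M s s')) := by
      rcases hc with ⟨e1, e2⟩ | ⟨e1, e2⟩
      · rw [e1, e2]; exact hbr
      · rw [e1, e2]; exact hbr.symm
    have := VL1_B M hs hc2 h1 h2 hi htd (by
      rw [him, ← e3, ← him, ← hw']
      exact p.1.2 t ht)
    omega
  by_cases hJ : ∃ t ∈ X, M.toCoxeterSystem.simple t * d = d * M.toCoxeterSystem.simple s
  · obtain ⟨t, ht, htd⟩ := hJ
    by_cases hJ' : ∃ u ∈ X, M.toCoxeterSystem.simple u * d = d * M.toCoxeterSystem.simple s'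
    · -- both letters are written
      obtain ⟨u, hu, hud⟩ := hJ'
      have hi0 : i = 0 := by
        rcases hc with ⟨e1, _⟩ | ⟨e1, _⟩
        · exact hB s t ht htd e1
        · exact hB s' u hu hud e1
      have hpd : p.1.1 = d := by
        rw [hw', hi0, CxA.altw_zero, M.toCoxeterSystem.wordProd_nil, mul_one]
      obtain ⟨⟨w, hwE⟩, g⟩ := p
      have hwd : w = d := hpd
      subst hwd
      exact VL1_both M X f hf hwE hs hm ⟨ht, htd⟩ ⟨hu, hud⟩ g
    · -- only `s`
      have hJ2 : ∀ t' ∈ X, M.toCoxeterSystem.simple t' * d ≠ d * M.toCoxeterSystem.simple s' :=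
        fun t' ht' h => hJ' ⟨t', ht', h⟩
      have hj : ∃ j, j < M.M s' s ∧ p.1.1 = d * M.toCoxeterSystem.wordProd (CxA.altw s' s j) := by
        rcases hc with ⟨e1, e2⟩ | ⟨e1, e2⟩
        · have hi0 := hB s t ht htd e1
          refine ⟨0, by omega, ?_⟩
          rw [hw', hi0]
          rfl
        · refine ⟨i, ?_, ?_⟩
          · have := hB' s t ht htd e2
            omega
          · rw [hw', e1, e2]
      obtain ⟨j, hj1, hj2⟩ := hj
      have := VL1_one M X f (Ne.symm hs) (by omega) h2 h1 ht htd hJ2 p j hj1 hj2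
      rw [hsymm] at this
      exact this.symm
  · by_cases hJ' : ∃ u ∈ X, M.toCoxeterSystem.simple u * d = d * M.toCoxeterSystem.simple s'
    · -- only `s'`
      obtain ⟨u, hu, hud⟩ := hJ'
      have hJ2 : ∀ t' ∈ X, M.toCoxeterSystem.simple t' * d ≠ d * M.toCoxeterSystem.simple s :=
        fun t' ht' h => hJ ⟨t', ht', h⟩
      have hj : ∃ j, j < M.M s s' ∧ p.1.1 = d * M.toCoxeterSystem.wordProd (CxA.altw s s' j) := by
        rcases hc with ⟨e1, e2⟩ | ⟨e1, e2⟩
        · refine ⟨i, ?_, ?_⟩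
          · exact hB' s' u hu hud e2
          · rw [hw', e1, e2]
        · have hi0 := hB s' u hu hud e1
          refine ⟨0, by omega, ?_⟩
          rw [hw', hi0]
          rfl
      obtain ⟨j, hj1, hj2⟩ := hj
      exact VL1_one M X f hs hm h1 h2 hu hud hJ2 p j hj1 hj2
    · -- no letter is written
      have hno : ∀ (l : List S) (r : S), (∀ x ∈ l, x = s ∨ x = s') → (r = s ∨ r = s') →
          ¬ ∃ t, Out M X (d * M.toCoxeterSystem.wordProd l) r t := by
        rintro l r hl hr ⟨t, ht, hO⟩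
        rcases VL1_A M hs hm h1 h2 hl hr hO with h | h
        · exact hJ ⟨t, ht, h⟩
        · exact hJ' ⟨t, ht, h⟩
      have a1 := VL1_free M X f hno (CxA.altw s s' (M.M s s')) l p hl
        (fun x hx => VL1_altw_mem hx) hw
      have a2 := VL1_free M X f hno (CxA.altw s' s (M.M s s')) l p hl
        (fun x hx => (VL1_altw_mem hx).symm) hw
      refine VL1_ext M X ?_ (a1.2.trans a2.2.symm)
      rw [a1.1, a2.1, hbr]

end machine

end Pool.Agent.helper55.EV
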