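import Pool.Agent.helper52.Cox.Root
import Pool.Agent.helper55.EV.Alg

set_option autoImplicit false

/-!
# The state machine of van der Lek's theorem: definitions

A state is an element `w` of the Coxeter group without left descent in `X`. The letter `s` leads
from `w` to `w s`, unless `t w = w s` for some `t ∈ X`: then the state does not change and the letter
`t` is written.
-/

namespace Pool.Agent.helper55.EV

open Pool.Agent.helper36.LT (Artin gen alt artinRels)

section machine

variable {S : Type} [Fintype S] [DecidableEq S] (M : CoxeterMatrix S) (X : Set S)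
  {K : Type} [Group K] (f : S → K)

/-- the elements of the Coxeter group without left descent in `X` -/
def ERed : Type := {w : M.Group // ∀ t ∈ X, ¬ M.toCoxeterSystem.IsLeftDescent w t}

/-- the letter `s` writes `t` in the state `w` -/
def Out (w : M.Group) (s t : S) : Prop :=
  t ∈ X ∧ M.toCoxeterSystem.simple t * w = w * M.toCoxeterSystem.simple s

theorem ered_mul {w : M.Group} (hw : ∀ t ∈ X, ¬ M.toCoxeterSystem.IsLeftDescent w t) {s : S}
    (h : ¬ ∃ t, Out M X w s t) :
    ∀ t ∈ X, ¬ M.toCoxeterSystem.IsLeftDescent (w * M.toCoxeterSystem.simple s) t := by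
  intro t ht hd
  exact h ⟨t, ht, CxA.exch_left M.toCoxeterSystem (hw t ht) hd⟩

open Classical in
/-- one step of the machine -/
noncomputable def vstep (p : ERed M X × K) (s : S) : ERed M X × K :=
  if h : ∃ t, Out M X p.1.1 s t then (p.1, p.2 * f h.choose)
  else (⟨p.1.1 * M.toCoxeterSystem.simple s, ered_mul M X p.1.2 h⟩, p.2)

end machine

end Pool.Agent.helper55.EV
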